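import Pool.Agent.H20.PT.Man

/-!
# Project PT: kicks for arbitrary diffeomorphisms of a product
-/

set_option autoImplicit false
set_option linter.unusedSectionVars false

open scoped Manifold ContDiff Topology
open Filter Set Metric

universe u v w

namespace Pool.Agent.H20.PT

open Pool.Agent.H718R2.G Pool.Agent.TH80.OMS Pool.Agent.Y504.CO Pool.Agent.R773.TE

/-- PERTG. As `S_PERT`, but `F` is an ARBITRARY `C^r` diffeomorphism of `T` (same proof: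
`G = F ∘ Φ_w`, and `Φ_w` does not depend on `F`). -/
def S_PERTG : Prop :=
  ∀ (d e n : ℕ) (M : Type u) [TopologicalSpace M] [T2Space M] [CompactSpace M]
    [ChartedSpace (V d) M] [IsManifold (𝓡 d) ∞ M]
    (N : Type v) [TopologicalSpace N] [T2Space N] [CompactSpace N]
    [ChartedSpace (V e) N] [IsManifold (𝓡 e) ∞ N]
    (T : Type w) [TopologicalSpace T] [T2Space T] [CompactSpace T]
    [ChartedSpace (V n) T] [IsManifold (𝓡 n) ∞ T] (r : ℕ∞), 1 ≤ r →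
    ∀ (𝒜 : Atl d M) (Θ : ProdDiff n d e T M N) (F : DiffM n T r)
      (U : Set (DiffM n T r)), IsOpen[strongTop n T r] U → F ∈ U →
    ∀ (k : ℕ) (C : Fin k → Set N), (∀ a, IsClosed (C a)) → (∀ a b, a ≠ b → Disjoint (C a) (C b)) →
    ∀ c : Fin k → Fin 𝒜.q, ∃ κ₀ : ℝ, 0 < κ₀ ∧ κ₀ ≤ 1 / 10 ∧ ∀ w : Fin k → Kp d, (∀ a, ‖w a‖ ≤ κ₀) →
      ∃ G ∈ U, ∀ a, ∀ y ∈ C a, ∀ z : V d, ‖z‖ < 2 →
        G (Θ ((𝒜.χ (c a)).symm z, y)) = F (Θ ((𝒜.χ (c a)).symm (kick (w a) z), y))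

theorem pert_of_pertg (h : S_PERTG.{u, v, w}) : S_PERT.{u, v, w} := by
  intro d e n M _ _ _ _ _ N _ _ _ _ _ T _ _ _ _ _ r hr 𝒜 f g Θ F hP U hU hF k C hC hd c
  obtain ⟨κ₀, h1, h2, h3⟩ := h d e n M N T r hr 𝒜 Θ F U hU hF k C hC hd c
  refine ⟨κ₀, h1, h2, fun w hw => ?_⟩
  obtain ⟨G, hG, hGk⟩ := h3 w hw
  refine ⟨G, hG, fun a y hy z hz => ?_⟩
  rw [hGk a y hy z hz, hP]

end Pool.Agent.H20.PT
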