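import Pool.Agent.H20.PT.Man
import Pool.Graph.R_pool_sql_team_seeded_c8625f6e.K4H46.CI.Main

/-!
# Project PT: an `Ω`-stable product has no closed chains of vectors in the first factor
-/

set_option autoImplicit false
set_option linter.unusedSectionVars false

open scoped Manifold ContDiff Topology
open Filter Set Metric

universe u v w

namespace Pool.Agent.H20.PT

open Pool.Agent.H718R2.G Pool.Agent.TH80.OMS Pool.Agent.Y504.CO Pool.Agent.R773.TE

theorem kick_der {d : ℕ} (w : Kp d) (z : V d) :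
    HasFDerivAt (kick w) (ContinuousLinearMap.id ℝ (V d) + w.2) z := by
  unfold kick
  exact ((hasFDerivAt_id z).add_const w.1).add w.2.hasFDerivAt

theorem kick_cont {d : ℕ} (w : Kp d) : Continuous (kick w) := by
  unfold kick
  fun_prop

section

variable {d e n : ℕ} {M : Type u} [TopologicalSpace M] [T2Space M] [CompactSpace M]
    [ChartedSpace (V d) M] [IsManifold (𝓡 d) ∞ M]
    {N : Type v} [TopologicalSpace N] [T2Space N] [CompactSpace N]
    [ChartedSpace (V e) N] [IsManifold (𝓡 e) ∞ N]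
    {T : Type w} [TopologicalSpace T] [T2Space T] [CompactSpace T]
    [ChartedSpace (V n) T] [IsManifold (𝓡 n) ∞ T] {r : ℕ∞}

/-- Following a kicked orbit: the return map is the composition of local maps and kicks. -/
theorem follow (𝒜 : Atl d M) (f : M → M) (g : N → N) (Θ : M × N → T) (G : T → T)
    {L δ : ℝ} (hL : LocC 𝒜 f L δ) (m : ℕ) (x : ℕ → M) (w : ℕ → Kp d) (Q : ℕ → V d) (y₀ : N)
    (hG : ∀ j < m, ∀ z : V d, ‖z‖ < 2 → G (Θ ((𝒜.χ (𝒜.ix (x j))).symm z, g^[j] y₀)) =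
      Θ (f ((𝒜.χ (𝒜.ix (x j))).symm (kick (w j) z)), g^[j + 1] y₀))
    (hQ : ∀ j < m, ‖Q j‖ < 2 ∧ ‖kick (w j) (Q j) - 𝒜.c (x j)‖ < δ ∧
      Q (j + 1) = 𝒜.loc f (𝒜.ix (x j)) (𝒜.ix (x (j + 1))) (kick (w j) (Q j)))
    (hn : ∀ j < m, f (x j) ∈ (𝒜.χ (𝒜.ix (x (j + 1)))).source ∧
      ‖𝒜.χ (𝒜.ix (x (j + 1))) (f (x j))‖ ≤ 3 / 2) :
    ∀ j ≤ m, ∃ H : V d → V d, ContinuousAt H (Q 0) ∧ H (Q 0) = Q j ∧
      (∀ᶠ z in 𝓝 (Q 0), G^[j] (Θ ((𝒜.χ (𝒜.ix (x 0))).symm z, y₀)) =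
        Θ ((𝒜.χ (𝒜.ix (x j))).symm (H z), g^[j] y₀)) ∧
      ∀ D : ℕ → V d → (V d →L[ℝ] V d), (∀ i < m, HasFDerivAt
          (𝒜.loc f (𝒜.ix (x i)) (𝒜.ix (x (i + 1)))) (D i (kick (w i) (Q i))) (kick (w i) (Q i))) →
        ∀ U : ℕ → V d, (∀ i < m, U (i + 1) = D i (kick (w i) (Q i)) (U i + (w i).2 (U i))) →
        ∃ D' : V d →L[ℝ] V d, HasFDerivAt H D' (Q 0) ∧ D' (U 0) = U j := by
  intro j
  induction j with
  | zero =>
    intro _
    refine ⟨id, continuousAt_id, rfl, Eventually.of_forall fun z => rfl, fun D hD U hU =>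
      ⟨ContinuousLinearMap.id ℝ (V d), hasFDerivAt_id _, rfl⟩⟩
  | succ j ih =>
    intro hj
    obtain ⟨H, hHc, hH0, hHe, hHD⟩ := ih (by omega)
    have hjm : j < m := by omega
    obtain ⟨hQ2, hQδ, hQs⟩ := hQ j hjm
    obtain ⟨hns, hn32⟩ := hn j hjm
    obtain ⟨hdom, D₁, hD₁⟩ := hL.loc (x j) (𝒜.ix (x (j + 1))) hns hn32
    have hcF : ContinuousAt (𝒜.loc f (𝒜.ix (x j)) (𝒜.ix (x (j + 1)))) (kick (w j) (Q j)) :=
      (hD₁.der _ hQδ).continuousAt
    have hcH : ContinuousAt (fun z => kick (w j) (H z)) (Q 0) :=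
      ContinuousAt.comp (g := kick (w j)) (kick_cont (w j)).continuousAt hHc
    refine ⟨fun z => 𝒜.loc f (𝒜.ix (x j)) (𝒜.ix (x (j + 1))) (kick (w j) (H z)), ?_, ?_, ?_, ?_⟩
    · apply ContinuousAt.comp (g := 𝒜.loc f (𝒜.ix (x j)) (𝒜.ix (x (j + 1))))
        (f := fun z => kick (w j) (H z)) _ hcH
      show ContinuousAt _ (kick (w j) (H (Q 0)))
      rw [hH0]
      exact hcF
    · show 𝒜.loc f _ _ (kick (w j) (H (Q 0))) = Q (j + 1)
      rw [hH0, hQs]
    · have h1 : ∀ᶠ z in 𝓝 (Q 0), ‖H z‖ < 2 := by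
        have := hHc.norm
        exact this.eventually (gt_mem_nhds (by
          show ‖H (Q 0)‖ < 2
          rw [hH0]; exact hQ2))
      have h2 : ∀ᶠ z in 𝓝 (Q 0), ‖kick (w j) (H z) - 𝒜.c (x j)‖ < δ := by
        have := (hcH.sub (continuousAt_const (y := 𝒜.c (x j)))).norm
        exact this.eventually (gt_mem_nhds (by
          show ‖kick (w j) (H (Q 0)) - 𝒜.c (x j)‖ < δ
          rw [hH0]; exact hQδ))
      filter_upwards [hHe, h1, h2] with z hz hz1 hz2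
      rw [Function.iterate_succ_apply', hz, hG j hjm (H z) hz1]
      obtain ⟨-, hs⟩ := hdom _ hz2
      congr 2
      show f _ = (𝒜.χ (𝒜.ix (x (j + 1)))).symm (𝒜.χ (𝒜.ix (x (j + 1))) (f _))
      rw [(𝒜.χ (𝒜.ix (x (j + 1)))).left_inv hs]
    · intro D hD U hU
      obtain ⟨D', hD', hD'U⟩ := hHD D hD U hU
      have h3 : HasFDerivAt (fun z => kick (w j) (H z))
          ((ContinuousLinearMap.id ℝ (V d) + (w j).2) ∘L D') (Q 0) :=
        HasFDerivAt.comp (g := kick (w j)) (Q 0) (kick_der (w j) (H (Q 0))) hD'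
      have h4 : HasFDerivAt (𝒜.loc f (𝒜.ix (x j)) (𝒜.ix (x (j + 1))))
          (D j (kick (w j) (Q j))) (kick (w j) (H (Q 0))) := by
        rw [hH0]
        exact hD j hjm
      refine ⟨D j (kick (w j) (Q j)) ∘L ((ContinuousLinearMap.id ℝ (V d) + (w j).2) ∘L D'),
        HasFDerivAt.comp (g := 𝒜.loc f (𝒜.ix (x j)) (𝒜.ix (x (j + 1)))) (Q 0) h4 h3, ?_⟩
      rw [hU j hjm]
      simp [hD'U]

end

/-- ABC. An `Ω`-stable product with sufficiently many symbols in the second factor has no closed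
chains of vectors. -/
theorem abc (hCTL : S_CTL) (hNET : S_NET) (hPERT : S_PERT.{u, v, w}) (hCLO : S_CLO.{u, v, w})
    {d : ℕ} {M : Type u} [TopologicalSpace M] [T2Space M] [CompactSpace M]
    [ChartedSpace (V d) M] [IsManifold (𝓡 d) ∞ M] {r : ℕ∞} (hr : 2 ≤ r)
    (𝒜 : Atl d M) (f : DiffM d M r) {L δ : ℝ} (hL : LocC 𝒜 f L δ) :
    ∃ k₀ : ℕ, ∀ (e n : ℕ) (N : Type v) [TopologicalSpace N] [T2Space N] [CompactSpace N]
      [ChartedSpace (V e) N] [IsManifold (𝓡 e) ∞ N]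
      (T : Type w) [TopologicalSpace T] [T2Space T] [CompactSpace T]
      [ChartedSpace (V n) T] [IsManifold (𝓡 n) ∞ T] (g : DiffM e N r) (Θ : ProdDiff n d e T M N)
      (F : DiffM n T r), FullShift k₀ g → IsProd Θ F f g → Star n T r F →
      ∃ κ : ℝ, 0 < κ ∧ κ ≤ 1 / 2 ∧ NoChain 𝒜 f κ := by
  have hr1 : 1 ≤ r := le_trans (by norm_num) hr
  have hL1 := hL.one_le
  have hL3 : 1 ≤ 120 * L ^ 3 := by nlinarith [one_le_pow₀ (n := 3) hL1]
  obtain ⟨m, hm⟩ := hNET d (120 * L ^ 3) hL3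
  obtain ⟨σ⟩ : Nonempty ((Fin 𝒜.q × Option (Fin m)) ≃ Fin (Fintype.card
    (Fin 𝒜.q × Option (Fin m)))) := ⟨Fintype.equivFin _⟩
  refine ⟨Fintype.card (Fin 𝒜.q × Option (Fin m)), ?_⟩
  · intro e n N _ _ _ _ _ T _ _ _ _ _ g Θ F hS hP hF
    obtain ⟨C, hCc, hCd, hCs⟩ := hS
    obtain ⟨U₀, hU₀, hFU, hyp⟩ := hF
    obtain ⟨κ', hκ', hκ10, hG⟩ := hPERT d e n M N T r hr1 𝒜 f g Θ F hP U₀ hU₀ hFU _ C hCc hCd
      (fun a => (σ.symm a).1)
    set κ₀ := min κ' δ with hκ₀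
    have hκ₀p : 0 < κ₀ := lt_min hκ' hL.pos
    obtain ⟨p, hp1, hp2⟩ := hm κ₀ hκ₀p
    refine ⟨κ₀ / (120 * L ^ 3), by positivity, ?_, ?_⟩
    · rw [div_le_iff₀ (by positivity)]
      have := min_le_right κ' δ
      have := hL.le
      nlinarith
    · intro nn x v hnn hx hv hv0 hnear hvec
      have hsrc : ∀ j < nn, f (x j) ∈ (𝒜.χ (𝒜.ix (x (j + 1)))).source ∧
          ‖𝒜.χ (𝒜.ix (x (j + 1))) (f (x j))‖ ≤ 3 / 2 := by
        intro j hj
        obtain ⟨h1, h2⟩ := hnear j hj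
        refine ⟨h1, ?_⟩
        have h3 := 𝒜.ix_lt (x (j + 1))
        have h4 : κ₀ / (120 * L ^ 3) ≤ 1 / 2 := by
          rw [div_le_iff₀ (by positivity)]
          have := min_le_right κ' δ
          have := hL.le
          nlinarith
        have h5 : ‖𝒜.χ (𝒜.ix (x (j + 1))) (f (x j))‖ ≤
            ‖𝒜.χ (𝒜.ix (x (j + 1))) (f (x j)) - 𝒜.c (x (j + 1))‖ + ‖𝒜.c (x (j + 1))‖ := by
          simpa using norm_add_le (𝒜.χ (𝒜.ix (x (j + 1))) (f (x j)) - 𝒜.c (x (j + 1)))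
            (𝒜.c (x (j + 1)))
        unfold Atl.c at h5 h2
        linarith
      have hDe : ∀ j, ∃ D : V d → (V d ≃L[ℝ] V d), j < nn →
          LMap L δ (𝒜.c (x j)) (𝒜.χ (𝒜.ix (x (j + 1))) (f (x j)))
            (𝒜.loc f (𝒜.ix (x j)) (𝒜.ix (x (j + 1)))) D := by
        intro j
        by_cases hj : j < nn
        · obtain ⟨-, D, hD⟩ := hL.loc (x j) (𝒜.ix (x (j + 1))) (hsrc j hj).1 (hsrc j hj).2
          exact ⟨D, fun _ => hD⟩
        · exact ⟨fun _ => ContinuousLinearEquiv.refl ℝ (V d), fun h => absurd h hj⟩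
      choose D hD using hDe
      obtain ⟨w, Q, U, hw, hwl, hQ0, hQn, hU0, hUn, hstep⟩ := hCTL d L δ κ₀ hL1 hL.pos hL.le hκ₀p
        (min_le_right _ _) (range p) (by
          intro w hw
          obtain ⟨a, ha⟩ := hp2 w hw
          exact ⟨p a, mem_range_self a, ha⟩) nn (fun j => 𝒜.c (x j))
        (fun j => 𝒜.χ (𝒜.ix (x (j + 1))) (f (x j))) v
        (fun j => 𝒜.loc f (𝒜.ix (x j)) (𝒜.ix (x (j + 1)))) D hnn
        (fun j _ => (𝒜.ix_lt (x j)).le) (fun j hj => hD j hj) (by simp only [hx]) hv hv0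
        (fun j hj => (hnear j hj).2) (by
          intro j hj
          have h1 := hvec j hj
          have h2 := ((hD j hj).der (𝒜.c (x j)) (by simpa using hL.pos)).fderiv
          rw [h2] at h1
          exact h1)
      have hae : ∀ j, ∃ a : Option (Fin m), (j + 1 < nn → ∃ b, a = some b ∧ p b = w j) ∧
          (¬ j + 1 < nn → a = none) := by
        intro j
        by_cases hj : j + 1 < nn
        · obtain ⟨b, hb⟩ := hw j hj
          exact ⟨some b, fun _ => ⟨b, rfl, hb⟩, fun h => absurd hj h⟩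
        · exact ⟨none, fun h => absurd h hj, fun _ => rfl⟩
      choose α hα1 hα2 using hae
      obtain ⟨om, hom⟩ : ∃ om : Fin 𝒜.q × Option (Fin m) → Kp d,
          om = fun b => (b.2.elim (w (nn - 1)) p) := ⟨_, rfl⟩
      have homn : ∀ a, ‖om (σ.symm a)‖ ≤ κ' := by
        intro a
        rw [hom]
        dsimp only
        rcases (σ.symm a).2 with _ | b
        · exact (hwl (nn - 1) (by omega) (by omega)).trans (min_le_left _ _)
        · exact (hp1 b).trans (min_le_left _ _)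
      obtain ⟨G, hGU, hGk⟩ := hG (fun a => om (σ.symm a)) homn
      obtain ⟨y₀, hy₀, hyj⟩ := hCs nn (fun j => σ (𝒜.ix (x j), α j)) hnn
      have homj : ∀ j < nn, om (𝒜.ix (x j), α j) = w j := by
        intro j hj
        rw [hom]
        dsimp only
        by_cases h1 : j + 1 < nn
        · obtain ⟨b, hb, hpb⟩ := hα1 j h1
          rw [hb]
          exact hpb
        · rw [hα2 j h1]
          have : j = nn - 1 := by omega
          rw [this]
          rfl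
      have hfol := follow 𝒜 f g Θ G hL nn x w Q y₀ (by
          intro j hj z hz
          have h1 := hGk (σ (𝒜.ix (x j), α j)) (g^[j] y₀) (hyj j hj) z hz
          simp only [Equiv.symm_apply_apply] at h1
          rw [homj j hj] at h1
          rw [Function.iterate_succ_apply' g]
          exact h1) (fun j hj => ⟨(hstep j hj).1, (hstep j hj).2.1, (hstep j hj).2.2.1⟩) hsrc nn le_rfl
      obtain ⟨H, hHc, hH0, hHe, hHD⟩ := hfol
      obtain ⟨D', hD', hD'U⟩ := hHD (fun j z => (D j z : V d →L[ℝ] V d))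
        (fun j hj => (hD j hj).der _ (hstep j hj).2.1) U (fun j hj => (hstep j hj).2.2.2)
      rw [hx, hy₀, hQ0] at hHe
      rw [hQ0] at hH0 hD'
      rw [hQn] at hH0
      rw [hU0, hUn] at hD'U
      have ht : 𝒜.c (x 0) ∈ (𝒜.χ (𝒜.ix (x 0))).target :=
        (𝒜.χ (𝒜.ix (x 0))).map_source (𝒜.ix_src (x 0))
      have hno := hCLO d e n M N T r hr1 Θ G (𝒜.χ (𝒜.ix (x 0))) (𝒜.mem _) y₀ (𝒜.c (x 0)) ht nn
        hnn H D' (v 0) hHe hD' hH0 (hv0 0 (Nat.zero_le _)) hD'U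
      apply hno
      apply hyp G hGU
      refine ⟨nn, hnn, ?_⟩
      have := hHe.self_of_nhds
      rw [hH0] at this
      exact this

end Pool.Agent.H20.PT
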