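import Pool.Graph.R_seed8.R773.TE.Defs
import Pool.Graph.R_seed8.Y504.CO.Rob
import Pool.Graph.R_pool_sql_team_seeded_3997aac3.Q263.HS.Def

/-!
# The stability conjecture for products: definitions
-/

set_option autoImplicit false

open scoped Manifold ContDiff Topology

universe u v w

namespace Pool.Agent.H20.PT

open Pool.Agent.H718R2.G Pool.Agent.TH80.OMS Pool.Agent.Y504.CO Pool.Agent.R773.TE

/-- `g` has a full shift on `k` symbols, in the following weak sense: there are pairwise disjoint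
closed sets `C a` such that for every finite word `s` there is a periodic point `y` whose orbit follows
the sets of the word. -/
def FullShift {N : Type v} [TopologicalSpace N] (k : ℕ) (g : N → N) : Prop :=
  ∃ C : Fin k → Set N, (∀ a, IsClosed (C a)) ∧ (∀ a b, a ≠ b → Disjoint (C a) (C b)) ∧
    ∀ (n : ℕ) (s : ℕ → Fin k), 1 ≤ n → ∃ y : N, g^[n] y = y ∧ ∀ j < n, g^[j] y ∈ C (s j)

/-- `F` is, in the coordinates `Θ : M × N → T`, the product of `f` and `g`. -/
def IsProd {T M N : Type*} (Θ : M × N → T) (F : T → T) (f : M → M) (g : N → N) : Prop :=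
  ∀ x y, F (Θ (x, y)) = Θ (f x, g y)

/-- All periodic points of all diffeomorphisms in a `C^r`-neighbourhood of `F` are hyperbolic. -/
def Star (n : ℕ) (T : Type w) [TopologicalSpace T] [ChartedSpace (V n) T] (r : ℕ∞)
    (F : DiffM n T r) : Prop :=
  ∃ U : Set (DiffM n T r), IsOpen[strongTop n T r] U ∧ F ∈ U ∧
    ∀ G ∈ U, ∀ p ∈ Per G, IsHyperbolicPer n G p

/-- `g` is topologically conjugate to the automorphism of the torus `W / Λ` induced by `A ^ j`. -/
def IsTorPow {W : Type} [NormedAddCommGroup W] [NormedSpace ℝ W] (A : W ≃L[ℝ] W)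
    (Λ : AddSubgroup W) (j : ℕ) {N : Type v} [TopologicalSpace N] (g : N → N) : Prop :=
  ∃ τ : N ≃ₜ W ⧸ Λ, ∀ z : W,
    g (τ.symm (QuotientAddGroup.mk z)) = τ.symm (QuotientAddGroup.mk ((A ^ j) z))

/-- A `C^r` diffeomorphism `map` of a closed manifold `pt` of dimension `dim` (with a compatible
distance). -/
structure Sys (r : ℕ∞) : Type (u + 1) where
  dim : ℕ
  pt : Type u
  [met : MetricSpace pt]
  [cpt : CompactSpace pt]
  [chr : ChartedSpace (V dim) pt]
  [man : IsManifold (𝓡 dim) ∞ pt]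
  map : DiffM dim pt r

attribute [instance] Sys.met Sys.cpt Sys.chr Sys.man

variable {r : ℕ∞}

theorem Sys.man1 (X : Sys.{u} r) : IsManifold 𝓘(ℝ, V X.dim) 1 X.pt :=
  IsManifold.of_le (m := 1) (n := ∞) (by simp)

/-- The chain recurrent set is hyperbolic. -/
def Sys.ChainHyp (X : Sys.{u} r) : Prop :=
  have := X.man1
  Q263.HS.IsHyp (V X.dim) X.map.toHomeomorph
    (Pool.Agent.H728R2.OS.ChainRec X.map.toHomeomorph)

/-- Axiom A and no cycles; the chain recurrent set is the nonwandering set. -/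
def Sys.InU3 (X : Sys.{u} r) : Prop :=
  have := X.man1
  Q263.HS.AxiomA (V X.dim) X.map.toHomeomorph ∧
    Pool.Agent.H728R2.OS.NoCycle X.map.toHomeomorph ∧
    Pool.Agent.H728R2.OS.ChainRec X.map.toHomeomorph =
      Pool.Agent.H728R2.OS.Omega X.map.toHomeomorph

/-- `X` is `Ω`-stable in `Diff^r`, or at least a star diffeomorphism: all periodic points of all
diffeomorphisms near it are hyperbolic. -/
def Sys.Stable (X : Sys.{u} r) : Prop :=
  OmegaStable X.dim X.pt r X.map ∨ Star X.dim X.pt r X.map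

/-- `Z` is the product of `X` and `Y`. -/
def Sys.IsProduct (X : Sys.{u} r) (Y : Sys.{v} r) (Z : Sys.{w} r) : Prop :=
  ∃ Θ : ProdDiff Z.dim X.dim Y.dim Z.pt X.pt Y.pt, IsProd Θ Z.map X.map Y.map

end Pool.Agent.H20.PT
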