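import Pool.Agent.H20.PT.Ctl
import Pool.Agent.H20.PT.Base
import Pool.Graph.R_seed8.R773.TE.Defs
import Pool.Graph.R_seed8.Y504.CO.Rob
import Pool.Graph.R_seed8.TH80.CLX.Fam

/-!
# Project PT: manifold part, definitions and statements (perturbations)
-/

set_option autoImplicit false
set_option linter.unusedSectionVars false

open scoped Manifold ContDiff Topology
open Filter Set Metric

universe u v w

namespace Pool.Agent.H20.PT

open Pool.Agent.H718R2.G Pool.Agent.TH80.OMS Pool.Agent.Y504.CO Pool.Agent.R773.TE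

/-- Finitely many charts of the smooth structure whose targets contain the ball of radius `3`, and a
choice `ix` of a chart at every point in which the point lies in the open unit ball. -/
structure Atl (d : ℕ) (M : Type u) [TopologicalSpace M] [ChartedSpace (V d) M] where
  q : ℕ
  χ : Fin q → OpenPartialHomeomorph M (V d)
  mem : ∀ i, χ i ∈ IsManifold.maximalAtlas (𝓡 d) ∞ M
  ball : ∀ i, closedBall (0 : V d) 3 ⊆ (χ i).target
  ix : M → Fin q
  ix_src : ∀ x, x ∈ (χ (ix x)).source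
  ix_lt : ∀ x, ‖χ (ix x) x‖ < 1

section atl

variable {d : ℕ} {M : Type u} [TopologicalSpace M] [ChartedSpace (V d) M]

/-- The coordinates of `x` in its chart. -/
def Atl.c (𝒜 : Atl d M) (x : M) : V d := 𝒜.χ (𝒜.ix x) x

/-- The map `f` read in the charts `i`, `j`. -/
def Atl.loc (𝒜 : Atl d M) (f : M → M) (i j : Fin 𝒜.q) (z : V d) : V d :=
  𝒜.χ j (f ((𝒜.χ i).symm z))

/-- `x'` is `κ`-near `f x`, in the chart of `x'`. -/
def Near (𝒜 : Atl d M) (f : M → M) (κ : ℝ) (x x' : M) : Prop :=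
  f x ∈ (𝒜.χ (𝒜.ix x')).source ∧ ‖𝒜.χ (𝒜.ix x') (f x) - 𝒜.c x'‖ ≤ κ

/-- There is no closed `κ`-chain `x_0, …, x_n = x_0` with nonzero vectors `v_0, …, v_n = v_0` such that
`‖D f v_j - v_{j+1}‖ ≤ κ ‖v_{j+1}‖` (in the charts). -/
def NoChain (𝒜 : Atl d M) (f : M → M) (κ : ℝ) : Prop :=
  ∀ (n : ℕ) (x : ℕ → M) (v : ℕ → V d), 1 ≤ n → x n = x 0 → v n = v 0 → (∀ j ≤ n, v j ≠ 0) →
    (∀ j < n, Near 𝒜 f κ (x j) (x (j + 1))) →
    ¬ ∀ j < n, ‖fderiv ℝ (𝒜.loc f (𝒜.ix (x j)) (𝒜.ix (x (j + 1)))) (𝒜.c (x j)) (v j) - v (j + 1)‖ ≤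
      κ * ‖v (j + 1)‖

/-- Uniform `C²` bounds for `f` and its inverse in the charts, near all points. -/
structure LocC (𝒜 : Atl d M) (f : M → M) (L δ : ℝ) : Prop where
  one_le : 1 ≤ L
  pos : 0 < δ
  le : δ ≤ 1 / 2
  loc : ∀ (x : M) (j : Fin 𝒜.q), f x ∈ (𝒜.χ j).source → ‖𝒜.χ j (f x)‖ ≤ 3 / 2 →
    (∀ z, ‖z - 𝒜.c x‖ < δ → z ∈ (𝒜.χ (𝒜.ix x)).target ∧
      f ((𝒜.χ (𝒜.ix x)).symm z) ∈ (𝒜.χ j).source) ∧
    ∃ D : V d → (V d ≃L[ℝ] V d),
      LMap L δ (𝒜.c x) (𝒜.χ j (f x)) (𝒜.loc f (𝒜.ix x) j) D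

end atl

/-- ATL. Finite atlases exist. (Good charts at every point: `Pool.Agent.W699.SC.gc`, scaled by `3`.) -/
def S_ATL : Prop :=
  ∀ (d : ℕ) (M : Type u) [TopologicalSpace M] [T2Space M] [CompactSpace M] [ChartedSpace (V d) M]
    [IsManifold (𝓡 d) ∞ M], Nonempty (Atl d M)

/-- LOC. Uniform `C²` bounds exist for `C^r` diffeomorphisms, `r ≥ 2`.
Proof. For each pair `i, j` of charts the set of `ξ`, `‖ξ‖ ≤ 1`, with
`f ((χ i).symm ξ) ∈ (χ j).symm '' closedBall 0 (3/2)` is compact; near each of its points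
`χ j ∘ f ∘ (χ i).symm` is `C²` with invertible derivative, so first (and inverse) derivatives are bounded
and the derivative is Lipschitz on a small ball; finitely many balls suffice (Lebesgue number). `inv`:
in the same way for the inverse map `χ i ∘ f⁻¹ ∘ (χ j).symm` near `χ j (f x)` (derivative bounded by
`L` on a convex ball whose image stays near `ξ`), then shrink `δ` so that `δ / L` is at most the radius
of that ball. -/
def S_LOC : Prop :=
  ∀ (d : ℕ) (M : Type u) [TopologicalSpace M] [T2Space M] [CompactSpace M] [ChartedSpace (V d) M]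
    [IsManifold (𝓡 d) ∞ M] (r : ℕ∞) (f : DiffM d M r) (𝒜 : Atl d M), 2 ≤ r →
    ∃ L δ : ℝ, LocC 𝒜 f L δ

/-- PERT. Kicks depending on the symbol of the second factor.
Proof. Take smooth functions `β : V d → ℝ`, `β = 1` on `ball 0 2`, supported in `ball 0 3` (closed ball of
radius `< 3`), and smooth `θ a : N → ℝ`, `0 ≤ θ a ≤ 1`, `θ a = 1` on a neighbourhood of `C a` (or on `C a`)
with pairwise disjoint supports. For the parameter `w : Fin k → Kp d` let `Φ_w : T → T`,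
`Φ_w (Θ (x, y)) = Θ (x', y)` with `x' = (χ (c a)).symm (z + θ a y • β z • ((w a).1 + (w a).2 z))`,
`z = χ (c a) x`, if `y ∈ supp θ a` and `x` is in the chart, `x' = x` otherwise: smooth jointly in `w` and
the point, a diffeomorphism for small `w` (in each fibre `{y}` a small perturbation of the identity,
supported in a chart ball: identity plus a contraction; inverse smooth by the inverse function
theorem), the identity for `w = 0`. `H w := F ∘ Φ_w` (for large `w` put `H w := F`) satisfies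
`IsFam n T r H`, so `Pool.Agent.TH80.CLX.fam_mem` gives `κ₀` with `H w ∈ U` for `‖w‖ < κ₀`. Compare
`act_fam` in `Pool/Agent/TH80/CLX/Fam.lean` and `S_LP`, `S_PUSH` of the library for similar
constructions. -/
def S_PERT : Prop :=
  ∀ (d e n : ℕ) (M : Type u) [TopologicalSpace M] [T2Space M] [CompactSpace M]
    [ChartedSpace (V d) M] [IsManifold (𝓡 d) ∞ M]
    (N : Type v) [TopologicalSpace N] [T2Space N] [CompactSpace N]
    [ChartedSpace (V e) N] [IsManifold (𝓡 e) ∞ N]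
    (T : Type w) [TopologicalSpace T] [T2Space T] [CompactSpace T]
    [ChartedSpace (V n) T] [IsManifold (𝓡 n) ∞ T] (r : ℕ∞), 1 ≤ r →
    ∀ (𝒜 : Atl d M) (f : DiffM d M r) (g : DiffM e N r) (Θ : ProdDiff n d e T M N)
      (F : DiffM n T r), IsProd Θ F f g → ∀ U : Set (DiffM n T r), IsOpen[strongTop n T r] U → F ∈ U →
    ∀ (k : ℕ) (C : Fin k → Set N), (∀ a, IsClosed (C a)) → (∀ a b, a ≠ b → Disjoint (C a) (C b)) →
    ∀ c : Fin k → Fin 𝒜.q, ∃ κ₀ : ℝ, 0 < κ₀ ∧ κ₀ ≤ 1 / 10 ∧ ∀ w : Fin k → Kp d, (∀ a, ‖w a‖ ≤ κ₀) →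
      ∃ G ∈ U, ∀ a, ∀ y ∈ C a, ∀ z : V d, ‖z‖ < 2 →
        G (Θ ((𝒜.χ (c a)).symm z, y)) = Θ (f ((𝒜.χ (c a)).symm (kick (w a) z)), g y)

/-- CLO. A periodic point with an eigenvalue `1` in the first factor is not hyperbolic.
Proof. Let `p = Θ (χ.symm ξ, y₀)`, `ψ` a chart at `p`, `D'` the derivative of `ψ ∘ G^m ∘ ψ.symm` at `ψ p`
(from `IsHyperbolicPer`), `φ z = ψ (Θ (χ.symm z, y₀))`. Then `φ (H z) = (ψ ∘ G^m ∘ ψ.symm) (φ z)` near
`ξ`, so `Dφ D v = D' Dφ v`: `w = Dφ v` satisfies `D' w = w`; `w ≠ 0` since `Θ` is a diffeomorphism. So `1`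
is a root of the characteristic polynomial. -/
def S_CLO : Prop :=
  ∀ (d e n : ℕ) (M : Type u) [TopologicalSpace M] [ChartedSpace (V d) M] [IsManifold (𝓡 d) ∞ M]
    (N : Type v) [TopologicalSpace N] [ChartedSpace (V e) N] [IsManifold (𝓡 e) ∞ N]
    (T : Type w) [TopologicalSpace T] [ChartedSpace (V n) T] [IsManifold (𝓡 n) ∞ T] (r : ℕ∞), 1 ≤ r →
    ∀ (Θ : ProdDiff n d e T M N) (G : DiffM n T r),
    ∀ χ ∈ IsManifold.maximalAtlas (𝓡 d) ∞ M, ∀ (y₀ : N) (ξ : V d), ξ ∈ χ.target →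
    ∀ (m : ℕ), 1 ≤ m → ∀ (H : V d → V d) (D : V d →L[ℝ] V d) (v : V d),
      (∀ᶠ z in 𝓝 ξ, G^[m] (Θ (χ.symm z, y₀)) = Θ (χ.symm (H z), y₀)) → HasFDerivAt H D ξ →
      H ξ = ξ → v ≠ 0 → D v = v → ¬ IsHyperbolicPer n G (Θ (χ.symm ξ, y₀))

end Pool.Agent.H20.PT
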