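import Pool.Agent.H20.PT.Chain
import Pool.Agent.H20.PT.Man
import Pool.Graph.R_pool_sql_team_seeded_3997aac3.Q263.HS.Fin

/-!
# Project PT: from chains to hyperbolicity of the chain recurrent set; definitions and statements
-/

set_option autoImplicit false
set_option linter.unusedSectionVars false

open scoped Manifold ContDiff Topology
open Filter Set Metric

universe u v w

namespace Pool.Agent.H20.PT

open Pool.Agent.H718R2.G Pool.Agent.TH80.OMS Pool.Agent.Y504.CO Pool.Agent.R773.TE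
open Pool.Agent.H721R2 (IsTangentNorm)

/-- NB. Orbits with short returns carry no bounded full orbit of vectors. From `S_LF`, `S_HYP1`
(constant `K`), `S_ANG`; `η = κ/4`, `θ = 1 + κ/4`.
Proof. For `m ≥ 1` let `P = fw x 0 m` (from `x_0` to `x_m`), `R` a short return from `x_m` to `x_0`,
`M = R P`, `v = s + u`, `s ∈ Es M`, `u ∈ Eu M`. `‖M v‖ ≤ C^ℓ B`, `‖M s‖ ≤ K² ‖v‖`, `‖M u‖ ≥ θ^m/K ‖u‖`: so
`‖u‖ ≤ K θ^{-m} (C^ℓ B + K² ‖v‖)`, and `v` is close to `s ∈ Es M`. In the same way, with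
`P' = fw x (-m) m`, `R'` a short return from `x_0` to `x_{-m}`, `M' = P' R'`, `v = s' + u'`:
`M'⁻¹ v = R'⁻¹ P'⁻¹ v` is bounded, so `s'` is small and `v` is close to `u' ∈ Eu M'`. Both are closed
chains at `x_0`: `S_ANG` gives `(η/2) ‖s‖ ≤ ‖s - u'‖ → 0`, so `v = 0`. -/
def S_NB : Prop :=
  ∀ (X : Type u) (E : Type) [NormedAddCommGroup E] [NormedSpace ℝ E] [FiniteDimensional ℝ E]
    (S : CSys X E) (κ : ℝ), 0 < κ → κ ≤ 1 → NC S κ → ∀ ℓ : ℕ,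
    ∀ x : ℤ → X, (∀ i, S.step (x i) (x (i + 1))) →
      (∀ i j : ℤ, i ≤ j → ∃ (n : ℕ) (M : E ≃L[ℝ] E), 1 ≤ n ∧ n ≤ ℓ ∧ ETr S (x j) (x i) n M) →
      ∀ (v : E) (B : ℝ), (∀ m : ℕ, ‖S.fw x 0 m v‖ ≤ B) → (∀ m : ℕ, ‖(S.fw x (-m) m)⁻¹ v‖ ≤ B) →
      v = 0

section man

variable {d : ℕ} {M : Type u} [TopologicalSpace M] [ChartedSpace (V d) M]

/-- `S` is the cocycle of the derivatives of `f` in the charts of `𝒜`, over the `κ`-chains. -/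
def IsCoc (𝒜 : Atl d M) (f : M → M) (κ : ℝ) (S : CSys M (V d)) : Prop :=
  (∀ x y, S.step x y ↔ Near 𝒜 f κ x y) ∧ ∀ x y, Near 𝒜 f κ x y →
    (S.A x y : V d →L[ℝ] V d) = fderiv ℝ (𝒜.loc f (𝒜.ix x) (𝒜.ix y)) (𝒜.c x)

/-- The orbit of `x`. -/
def orbZ (f : M ≃ₜ M) (x : M) : ℤ → M := fun i => (f ^ i) x

/-- Uniform splitting of the vectors at the points of `K` into a vector contracted by the future and
a vector contracted by the past. -/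
def SplitOn [IsManifold 𝓘(ℝ, V d) 1 M] (f : M ≃ₜ M) (K : Set M)
    (Nm : TangentBundle 𝓘(ℝ, V d) M → ℝ) (C a : ℝ) : Prop :=
  ∀ x ∈ K, ∀ v : TangentSpace 𝓘(ℝ, V d) x, ∃ s t : TangentSpace 𝓘(ℝ, V d) x, s + t = v ∧
    ∀ k : ℕ, Nm (tangentMap 𝓘(ℝ, V d) 𝓘(ℝ, V d) (f^[k]) ⟨x, s⟩) ≤ C * a ^ k * Nm ⟨x, v⟩ ∧
      Nm (tangentMap 𝓘(ℝ, V d) 𝓘(ℝ, V d) (f.symm^[k]) ⟨x, t⟩) ≤ C * a ^ k * Nm ⟨x, v⟩

/-- No nonzero vector at a point of `K` has bounded images in the future and in the past. -/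
def NoB [IsManifold 𝓘(ℝ, V d) 1 M] (f : M ≃ₜ M) (K : Set M)
    (Nm : TangentBundle 𝓘(ℝ, V d) M → ℝ) : Prop :=
  ∀ x ∈ K, ∀ (v : TangentSpace 𝓘(ℝ, V d) x) (B : ℝ),
    (∀ k : ℕ, Nm (tangentMap 𝓘(ℝ, V d) 𝓘(ℝ, V d) (f^[k]) ⟨x, v⟩) ≤ B) →
    (∀ k : ℕ, Nm (tangentMap 𝓘(ℝ, V d) 𝓘(ℝ, V d) (f.symm^[k]) ⟨x, v⟩) ≤ B) → v = 0

end man

/-- NM. There is a continuous norm on the tangent bundle of a closed manifold.
(Pull back a norm by an immersion into a Euclidean space,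
`exists_embedding_euclidean_of_compact`: `Nm ⟨x, v⟩ = ‖mfderiv e x v‖`; compare
`Pool/Graph/R_seed8/H721R2/Riem.lean`, `Build.lean`.) -/
def S_NM : Prop :=
  ∀ (d : ℕ) (M : Type u) [TopologicalSpace M] [T2Space M] [CompactSpace M] [ChartedSpace (V d) M]
    [IsManifold (𝓡 d) ∞ M] [IsManifold 𝓘(ℝ, V d) 1 M],
    ∃ Nm : TangentBundle 𝓘(ℝ, V d) M → ℝ, IsTangentNorm Nm

/-- CS. The cocycle of derivatives exists: `S.step = Near 𝒜 f κ`, `S.A x y` the equivalence `D (c x)` of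
`LocC.loc` if `Near`, and `1` otherwise (`κ ≤ 1/2`, so `‖χ (f x)‖ ≤ 3/2`); `C = L`. -/
def S_CS : Prop :=
  ∀ (d : ℕ) (M : Type u) [TopologicalSpace M] [ChartedSpace (V d) M] (𝒜 : Atl d M) (f : M → M)
    (L δ κ : ℝ), LocC 𝒜 f L δ → κ ≤ 1 / 2 → ∃ S : CSys M (V d), IsCoc 𝒜 f κ S

/-- E1. A uniform splitting without bounded orbits is a hyperbolic structure.
`Es x` = the vectors with bounded images in the future, `Eu x` = bounded images in the past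
(`Submodule`s; for all `x`), `Es x ⊓ Eu x = ⊥` by `NoB`, `Es x ⊔ Eu x = ⊤` by `SplitOn` (on `K`);
invariance: `f^[k+1] = f^[k] ∘ f`, and `f⁻¹ ∘ f = id` (images of bounded sequences: shift);
rates: for `v ∈ Es x`, `v = s + t` implies `t ∈ Es x ⊓ Eu x`, `t = 0`, `v = s`; closedness: on `K`,
`Es x = {v | ∀ k, Nm (Df^k v) ≤ C a^k Nm v}`, a closed condition since `tangentMap` is continuous. -/
def S_E1 : Prop :=
  ∀ (d : ℕ) (M : Type u) [TopologicalSpace M] [T2Space M] [CompactSpace M] [ChartedSpace (V d) M]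
    [IsManifold (𝓡 d) ∞ M] [IsManifold 𝓘(ℝ, V d) 1 M] (f : M ≃ₜ M),
    ContMDiff 𝓘(ℝ, V d) 𝓘(ℝ, V d) 1 f → ContMDiff 𝓘(ℝ, V d) 𝓘(ℝ, V d) 1 f.symm →
    ∀ (K : Set M), IsClosed K → f '' K = K → ∀ (Nm : TangentBundle 𝓘(ℝ, V d) M → ℝ),
    IsTangentNorm Nm → ∀ C a : ℝ, 0 < a → a < 1 → SplitOn f K Nm C a → NoB f K Nm →
    Q263.HS.IsHyp (V d) f K

/-- E2. The norm `Nm` and the norms of the charts are comparable, along orbits.
`e x` is the derivative of the chart `𝒜.χ (𝒜.ix x)` at `x` (a linear isomorphism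
`T_x M ≃ V d`). By the chain rule `S.fw (orbZ f x) 0 m (e x v) = e (f^m x) (Df^m v)` and
`(S.fw (orbZ f x) (-m) m)⁻¹ (e x v) = e (f^{-m} x) (Df^{-m} v)`; and `‖e x v‖ ≤ c₁ Nm ⟨x, v⟩ ≤ c₁² ‖e x v‖` by
compactness (for each chart, on the compact set `(χ i).symm '' closedBall 0 1`; compare
`tnm_local`, `tnm_compare` in `Pool/Graph/R_seed8/H721R2/Riem.lean`). -/
def S_E2 : Prop :=
  ∀ (d : ℕ) (M : Type u) [TopologicalSpace M] [T2Space M] [CompactSpace M] [ChartedSpace (V d) M]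
    [IsManifold (𝓡 d) ∞ M] [IsManifold 𝓘(ℝ, V d) 1 M] (f : M ≃ₜ M),
    ContMDiff 𝓘(ℝ, V d) 𝓘(ℝ, V d) 1 f → ContMDiff 𝓘(ℝ, V d) 𝓘(ℝ, V d) 1 f.symm →
    ∀ (Nm : TangentBundle 𝓘(ℝ, V d) M → ℝ), IsTangentNorm Nm → ∀ (𝒜 : Atl d M) (κ : ℝ)
    (S : CSys M (V d)), 0 ≤ κ → IsCoc 𝒜 f κ S →
    ∃ (c₁ : ℝ) (e : ∀ x : M, TangentSpace 𝓘(ℝ, V d) x ≃ₗ[ℝ] V d), 1 ≤ c₁ ∧
      ∀ (x : M) (v : TangentSpace 𝓘(ℝ, V d) x) (m : ℕ),
      (Nm (tangentMap 𝓘(ℝ, V d) 𝓘(ℝ, V d) (f^[m]) ⟨x, v⟩) ≤ c₁ * ‖S.fw (orbZ f x) 0 m (e x v)‖ ∧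
        ‖S.fw (orbZ f x) 0 m (e x v)‖ ≤
          c₁ * Nm (tangentMap 𝓘(ℝ, V d) 𝓘(ℝ, V d) (f^[m]) ⟨x, v⟩)) ∧
      (Nm (tangentMap 𝓘(ℝ, V d) 𝓘(ℝ, V d) (f.symm^[m]) ⟨x, v⟩) ≤
          c₁ * ‖(S.fw (orbZ f x) (-m) m)⁻¹ (e x v)‖ ∧
        ‖(S.fw (orbZ f x) (-m) m)⁻¹ (e x v)‖ ≤
          c₁ * Nm (tangentMap 𝓘(ℝ, V d) 𝓘(ℝ, V d) (f.symm^[m]) ⟨x, v⟩))

/-- G2. Points which are close to `f x` in the metric are near in the charts: there is `δ` with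
`dist (f x) x' < δ → Near 𝒜 f κ x x'` (compactness of `(χ i).symm '' closedBall 0 1`). -/
def S_G2 : Prop :=
  ∀ (d : ℕ) (M : Type u) [MetricSpace M] [CompactSpace M] [ChartedSpace (V d) M] (𝒜 : Atl d M)
    (f : M → M) (κ : ℝ), 0 < κ → ∃ δ : ℝ, 0 < δ ∧ ∀ x x', dist (f x) x' < δ → Near 𝒜 f κ x x'

/-- CRI. The chain recurrent set is closed and invariant (metric chains). -/
def S_CRI : Prop :=
  ∀ (X : Type u) [MetricSpace X] [CompactSpace X] (f : X ≃ₜ X),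
    IsClosed (Pool.Agent.H728R2.OS.ChainRec f) ∧
      f '' Pool.Agent.H728R2.OS.ChainRec f = Pool.Agent.H728R2.OS.ChainRec f

/-- PROD. Products of hyperbolic sets are hyperbolic. `F` is the product of `f` and `g` in the
coordinates `Θ : M × N → T` (a diffeomorphism). Proof: work with `S_E1`-like data: take the
tangent norm of `T` to be any (`S_NM`); the splitting of `T_{Θ(x,y)} T` is the image under `DΘ` of
`(Es_f x × Es_g y) ⊕ (Eu_f x × Eu_g y)`; norms are comparable by compactness. It suffices to check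
`SplitOn` and `NoB` and to use `S_E1`. -/
def S_PROD : Prop :=
  ∀ (d e n : ℕ) (M : Type u) [TopologicalSpace M] [T2Space M] [CompactSpace M]
    [ChartedSpace (V d) M] [IsManifold (𝓡 d) ∞ M] [IsManifold 𝓘(ℝ, V d) 1 M]
    (N : Type v) [TopologicalSpace N] [T2Space N] [CompactSpace N]
    [ChartedSpace (V e) N] [IsManifold (𝓡 e) ∞ N] [IsManifold 𝓘(ℝ, V e) 1 N]
    (T : Type w) [TopologicalSpace T] [T2Space T] [CompactSpace T]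
    [ChartedSpace (V n) T] [IsManifold (𝓡 n) ∞ T] [IsManifold 𝓘(ℝ, V n) 1 T]
    (Θ : ProdDiff n d e T M N) (f : M ≃ₜ M) (g : N ≃ₜ N) (F : T ≃ₜ T),
    ContMDiff 𝓘(ℝ, V d) 𝓘(ℝ, V d) 1 f → ContMDiff 𝓘(ℝ, V d) 𝓘(ℝ, V d) 1 f.symm →
    ContMDiff 𝓘(ℝ, V e) 𝓘(ℝ, V e) 1 g → ContMDiff 𝓘(ℝ, V e) 𝓘(ℝ, V e) 1 g.symm →
    ContMDiff 𝓘(ℝ, V n) 𝓘(ℝ, V n) 1 F → ContMDiff 𝓘(ℝ, V n) 𝓘(ℝ, V n) 1 F.symm →
    IsProd Θ F f g → ∀ (K₁ : Set M) (K₂ : Set N), Q263.HS.IsHyp (V d) f K₁ →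
    Q263.HS.IsHyp (V e) g K₂ → Q263.HS.IsHyp (V n) F (Θ '' (K₁ ×ˢ K₂))

/-- TOR. High iterates of hyperbolic toral automorphisms have full shifts on many symbols.
Proof. `P` the projection onto the stable space (`IsHypLin A`), `P v = v^s`, `v - P v = v^u`. For `m ∈ Λ`
let `p_m = [P m] = [-(m - P m)]`. `m ↦ p_m` is injective: if `P m ∈ Λ` (difference of two) then
`A^i P m ∈ Λ` tends to `0`, so it is `0` for large `i`, `P m = 0`, `m = m^u`, and `A^{-i} m ∈ Λ` tends to `0`,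
so `m = 0`. `Λ` is infinite (`lattice`, `W ≠ 0`): take `k` distinct lattice vectors `m_a`, disjoint
closed neighbourhoods `C_a` of the distinct points `p_a` of the (compact Hausdorff) torus, and
`ε > 0` with `[P m_a + w] ∈ C_a` for `‖w‖ ≤ ε`. For an `n`-periodic word `a_l` (`l ∈ ℤ`) put
`z = ∑_{l ≥ 1} - A^{-jl} (m_{a_l})^u + ∑_{l ≤ 0} A^{-jl} (m_{a_l})^s` (`-jl ≥ 0` in the second sum):
exponentially convergent, `y = [z]`. `A^{ji} z` is congruent mod `Λ` to the same series with `a_{l+i}`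
(since `- (m)^u ≡ (m)^s`, finitely many terms change sides and `A` preserves `Λ`), so
`A^{ji} y = [P m_{a_i} + w]` with `‖w‖ ≤ 2 ∑_{l ≥ 1} C μ^{jl} max ‖m_a‖ ≤ ε` for `j ≥ J`, and `A^{jn} y = y`. -/
def S_TOR : Prop :=
  ∀ (W : Type) [NormedAddCommGroup W] [NormedSpace ℝ W] [FiniteDimensional ℝ W] [Nontrivial W]
    (Λ : AddSubgroup W) [DiscreteTopology Λ] [IsClosed (Λ : Set W)] (A : W ≃L[ℝ] W),
    IsHypAut A Λ → ∀ k : ℕ, ∃ J : ℕ, ∀ j : ℕ, J ≤ j → ∀ (N : Type v) [TopologicalSpace N]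
    (g : N → N) (τ : N ≃ₜ W ⧸ Λ),
    (∀ z : W, g (τ.symm (QuotientAddGroup.mk z)) = τ.symm (QuotientAddGroup.mk ((A ^ j) z))) →
    FullShift k g

end Pool.Agent.H20.PT
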