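import Pool.Agent.H20.PT.Abc
import Pool.Agent.H20.PT.Hyp

/-!
# Project PT: assembly
-/

set_option autoImplicit false
set_option linter.unusedSectionVars false

open scoped Manifold ContDiff Topology
open Filter Set Metric

universe u v w

namespace Pool.Agent.H20.PT

open Pool.Agent.H718R2.G Pool.Agent.TH80.OMS Pool.Agent.Y504.CO Pool.Agent.R773.TE
open Pool.Agent.H721R2 (IsTangentNorm)

/-- chains give transports -/
theorem etr_of_chain {X : Type u} {E : Type} [NormedAddCommGroup E] [NormedSpace ℝ E]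
    (S : CSys X E) (n : ℕ) (c : ℕ → X) (h : ∀ i < n, S.step (c i) (c (i + 1))) :
    ∃ M : E ≃L[ℝ] E, ETr S (c 0) (c n) n M := by
  induction n with
  | zero => exact ⟨1, ETr.nil _⟩
  | succ n ih =>
    obtain ⟨M, hM⟩ := ih fun i hi => h i (by omega)
    exact ⟨_, ETr.cons hM (h n (by omega))⟩

section metric

variable {d : ℕ} {M : Type u} [MetricSpace M] [CompactSpace M]
    [ChartedSpace (V d) M] [IsManifold (𝓡 d) ∞ M]

open Pool.Agent.H728R2.OS (ChainRec)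

theorem orb_mem (hCRI : S_CRI.{u}) (f : M ≃ₜ M) {x : M} (hx : x ∈ ChainRec f) (i : ℤ) :
    orbZ f x i ∈ ChainRec f := by
  have hinv := (hCRI M f).2
  have h1 : ∀ y, y ∈ ChainRec f → f y ∈ ChainRec f := fun y hy => by
    rw [← hinv]
    exact mem_image_of_mem f hy
  have h2 : ∀ y, y ∈ ChainRec f → f.symm y ∈ ChainRec f := fun y hy => by
    rw [← hinv] at hy
    obtain ⟨z, hz, hzy⟩ := hy
    rw [← hzy, f.symm_apply_apply]
    exact hz
  unfold orbZ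
  induction i using Int.induction_on with
  | zero => simpa using hx
  | succ i ih =>
    rw [add_comm, zpow_add, zpow_one]
    exact h1 _ ih
  | pred i ih =>
    rw [sub_eq_add_neg, add_comm, zpow_add, zpow_neg, zpow_one]
    exact h2 _ ih

theorem orbZ_succ (f : M ≃ₜ M) (x : M) (i : ℤ) : f (orbZ f x i) = orbZ f x (i + 1) := by
  unfold orbZ
  rw [add_comm, zpow_add, zpow_one]
  rfl

theorem orbZ_iter (f : M ≃ₜ M) (x : M) (i : ℤ) (m : ℕ) : f^[m] (orbZ f x i) = orbZ f x (i + m) := by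
  induction m with
  | zero => simp
  | succ m ih =>
    rw [Function.iterate_succ_apply', ih, orbZ_succ]
    push_cast
    rw [add_assoc]

/-- From the absence of closed chains of vectors to a uniform splitting on the chain recurrent
set. -/
theorem split_of_noChain (hDICH : S_DICH.{u}) (hNB : S_NB.{u}) (hG1 : S_G1.{u}) (hG2 : S_G2.{u})
    (hCRI : S_CRI.{u}) (hE2 : S_E2.{u}) (hCS : S_CS.{u})
    [IsManifold 𝓘(ℝ, V d) 1 M] (𝒜 : Atl d M) (f : M ≃ₜ M)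
    (hf : ContMDiff 𝓘(ℝ, V d) 𝓘(ℝ, V d) 1 f) (hf' : ContMDiff 𝓘(ℝ, V d) 𝓘(ℝ, V d) 1 f.symm)
    {L δ : ℝ} (hL : LocC 𝒜 f L δ) {κ : ℝ} (hκ : 0 < κ) (hκ2 : κ ≤ 1 / 2)
    (hNC : NoChain 𝒜 f κ) (Nm : TangentBundle 𝓘(ℝ, V d) M → ℝ) (hNm : IsTangentNorm Nm) :
    (∃ C a : ℝ, 0 < a ∧ a < 1 ∧ SplitOn f (ChainRec f) Nm C a) ∧ NoB f (ChainRec f) Nm := by
  obtain ⟨S, hS⟩ := hCS d M 𝒜 f L δ κ hL hκ2
  have hNCS : NC S κ := by
    intro n x v hn hx hv hv0 hst hvec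
    refine hNC n x v hn hx hv hv0 (fun j hj => (hS.1 _ _).1 (hst j hj)) fun j hj => ?_
    have h1 := hvec j hj
    rw [← hS.2 _ _ ((hS.1 _ _).1 (hst j hj))]
    exact h1
  obtain ⟨δ₂, hδ₂, hnear⟩ := hG2 d M 𝒜 f κ hκ
  obtain ⟨ℓ, hℓ⟩ := hG1 M f δ₂ hδ₂
  have hκ1 : κ ≤ 1 := by linarith
  have hstep : ∀ (x : M) (i : ℤ), S.step (orbZ f x i) (orbZ f x (i + 1)) := by
    intro x i
    rw [hS.1]
    apply hnear
    rw [orbZ_succ, dist_self]
    exact hδ₂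
  have hret : ∀ x ∈ ChainRec f, ∀ i j : ℤ, i ≤ j → ∃ (n : ℕ) (A : V d ≃L[ℝ] V d), 1 ≤ n ∧ n ≤ ℓ ∧
      ETr S (orbZ f x j) (orbZ f x i) n A := by
    intro x hx i j hij
    obtain ⟨n, c, hn, hnl, hc0, hcn, hc⟩ := hℓ (orbZ f x i) (orb_mem hCRI f hx i) (j - i).toNat
    rw [orbZ_iter] at hc0
    have e1 : i + ((j - i).toNat : ℤ) = j := by omega
    rw [e1] at hc0
    obtain ⟨A, hA⟩ := etr_of_chain S n c fun k hk => by
      rw [hS.1]
      exact hnear _ _ (hc k hk)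
    rw [hc0, hcn] at hA
    exact ⟨n, A, hn, hnl, hA⟩
  obtain ⟨C', a, hC', ha, ha1, hP⟩ := hDICH M (V d) S κ hκ hκ1 hNCS ℓ
  obtain ⟨c₁, e, hc₁, he⟩ := hE2 d M f hf hf' Nm hNm 𝒜 κ S hκ.le hS
  refine ⟨⟨c₁ * C' * c₁, a, ha, ha1, ?_⟩, ?_⟩
  · intro x hx v
    obtain ⟨P, -, -, hPm⟩ := hP (orbZ f x) (hstep x) (hret x hx)
    have h0 : ‖e x v‖ ≤ c₁ * Nm ⟨x, v⟩ := by
      have h1 := (he x v 0).1.2
      have h2 : tangentMap 𝓘(ℝ, V d) 𝓘(ℝ, V d) (f^[0]) (⟨x, v⟩ : TangentBundle 𝓘(ℝ, V d) M) =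
          ⟨x, v⟩ := by
        have h3 : (f^[0] : M → M) = id := rfl
        rw [h3, tangentMap_id]
        rfl
      rw [h2] at h1
      exact h1
    refine ⟨(e x).symm (P (e x v)), v - (e x).symm (P (e x v)), by abel, fun k => ⟨?_, ?_⟩⟩
    · refine ((he x _ k).1.1).trans ?_
      rw [(e x).apply_symm_apply]
      have h1 := (hPm k (e x v)).1
      have hak : 0 ≤ C' * a ^ k := by positivity
      calc c₁ * ‖S.fw (orbZ f x) 0 k (P (e x v))‖ ≤ c₁ * (C' * a ^ k * (c₁ * Nm ⟨x, v⟩)) := by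
            gcongr
            exact h1.trans (mul_le_mul_of_nonneg_left h0 hak)
        _ = _ := by ring
    · refine ((he x _ k).2.1).trans ?_
      have h2 : e x (v - (e x).symm (P (e x v))) = e x v - P (e x v) := by
        rw [map_sub, (e x).apply_symm_apply]
      rw [h2]
      have h1 := (hPm k (e x v)).2
      have hak : 0 ≤ C' * a ^ k := by positivity
      calc c₁ * ‖(S.fw (orbZ f x) (-k) k)⁻¹ (e x v - P (e x v))‖ ≤
          c₁ * (C' * a ^ k * (c₁ * Nm ⟨x, v⟩)) := by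
            gcongr
            exact h1.trans (mul_le_mul_of_nonneg_left h0 hak)
        _ = _ := by ring
  · intro x hx v B hB1 hB2
    have h1 := hNB M (V d) S κ hκ hκ1 hNCS ℓ (orbZ f x) (hstep x) (hret x hx) (e x v) (c₁ * B)
      (fun m => ((he x v m).1.2).trans (by gcongr; exact hB1 m))
      (fun m => ((he x v m).2.2).trans (by gcongr; exact hB2 m))
    exact (map_eq_zero_iff (e x) (e x).injective).1 h1

/-- From the absence of closed chains of vectors to hyperbolicity of the chain recurrent set. -/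
theorem hyp_of_noChain (hDICH : S_DICH.{u}) (hNB : S_NB.{u}) (hG1 : S_G1.{u}) (hG2 : S_G2.{u})
    (hCRI : S_CRI.{u}) (hNM : S_NM.{u}) (hE1 : S_E1.{u}) (hE2 : S_E2.{u}) (hCS : S_CS.{u})
    [IsManifold 𝓘(ℝ, V d) 1 M] (𝒜 : Atl d M) (f : M ≃ₜ M)
    (hf : ContMDiff 𝓘(ℝ, V d) 𝓘(ℝ, V d) 1 f) (hf' : ContMDiff 𝓘(ℝ, V d) 𝓘(ℝ, V d) 1 f.symm)
    {L δ : ℝ} (hL : LocC 𝒜 f L δ) {κ : ℝ} (hκ : 0 < κ) (hκ2 : κ ≤ 1 / 2)
    (hNC : NoChain 𝒜 f κ) : Q263.HS.IsHyp (V d) f (ChainRec f) := by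
  obtain ⟨Nm, hNm⟩ := hNM d M
  obtain ⟨⟨C, a, ha, ha1, h1⟩, h2⟩ := split_of_noChain hDICH hNB hG1 hG2 hCRI hE2 hCS 𝒜 f hf hf' hL
    hκ hκ2 hNC Nm hNm
  obtain ⟨hcl, hinv⟩ := hCRI M f
  exact hE1 d M f hf hf' (ChainRec f) hcl hinv Nm hNm C a ha ha1 h1 h2

end metric

end Pool.Agent.H20.PT
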