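import Pool.Agent.H20.PT.Drv
import Pool.Agent.H10.PT.SS

/-!
# Project PT4: closed chains of vectors for a family and for the compositions of its members
-/

set_option autoImplicit false
set_option linter.unusedSectionVars false

open scoped Manifold ContDiff Topology
open Filter Set Metric

universe u v w

namespace Pool.Agent.H20.PT.Wrd

open Pool.Agent.H718R2.G Pool.Agent.TH80.OMS Pool.Agent.Y504.CO Pool.Agent.R773.TE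
open Pool.Agent.H20.PT Pool.Agent.H10.PT Pool.Agent.H10.PT.SS

variable {d : ℕ} {M : Type u} [TopologicalSpace M] [ChartedSpace (V d) M] [IsManifold (𝓡 d) ∞ M]

theorem loc_comp (𝒜 : Atl d M) (i j k : Fin 𝒜.q) {h₁ h₂ : M → M}
    (hh₁ : ContMDiff 𝓘(ℝ, V d) 𝓘(ℝ, V d) 1 h₁) (hh₂ : ContMDiff 𝓘(ℝ, V d) 𝓘(ℝ, V d) 1 h₂) {x : M}
    (hx : x ∈ (𝒜.χ i).source) (h1 : h₁ x ∈ (𝒜.χ j).source) (h2 : h₂ (h₁ x) ∈ (𝒜.χ k).source)
    (v : V d) :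
    fderiv ℝ (𝒜.loc (fun y => h₂ (h₁ y)) i k) (𝒜.χ i x) v =
      fderiv ℝ (𝒜.loc h₂ j k) (𝒜.χ j (h₁ x)) (fderiv ℝ (𝒜.loc h₁ i j) (𝒜.χ i x) v) := by
  have h0 : (𝒜.χ i).symm (𝒜.χ i x) = x := (𝒜.χ i).left_inv hx
  have ht := (𝒜.χ i).map_source hx
  have e1 : 𝒜.loc h₁ i j (𝒜.χ i x) = 𝒜.χ j (h₁ x) := by
    unfold Atl.loc
    rw [h0]
  have hd1 : DifferentiableAt ℝ (𝒜.loc h₁ i j) (𝒜.χ i x) :=
    (loc_contDiffAt 𝒜 i j hh₁ ht (by rw [h0]; exact h1)).differentiableAt (by norm_num)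
  have hd2 : DifferentiableAt ℝ (𝒜.loc h₂ j k) (𝒜.loc h₁ i j (𝒜.χ i x)) := by
    rw [e1]
    exact (loc_contDiffAt 𝒜 j k hh₂ ((𝒜.χ j).map_source h1) (by
      rw [(𝒜.χ j).left_inv h1]; exact h2)).differentiableAt (by norm_num)
  have hev : 𝒜.loc (fun y => h₂ (h₁ y)) i k =ᶠ[𝓝 (𝒜.χ i x)] 𝒜.loc h₂ j k ∘ 𝒜.loc h₁ i j := by
    have hc : ContinuousAt (fun z => h₁ ((𝒜.χ i).symm z)) (𝒜.χ i x) :=
      hh₁.continuous.continuousAt.comp ((𝒜.χ i).continuousAt_symm ht)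
    have h3 : ∀ᶠ z in 𝓝 (𝒜.χ i x), h₁ ((𝒜.χ i).symm z) ∈ (𝒜.χ j).source :=
      hc ((𝒜.χ j).open_source.mem_nhds (by
        show h₁ ((𝒜.χ i).symm (𝒜.χ i x)) ∈ _
        rw [h0]; exact h1))
    filter_upwards [h3] with z hz
    show 𝒜.χ k (h₂ (h₁ ((𝒜.χ i).symm z))) =
      𝒜.χ k (h₂ ((𝒜.χ j).symm (𝒜.χ j (h₁ ((𝒜.χ i).symm z)))))
    rw [(𝒜.χ j).left_inv hz]
  rw [hev.fderiv_eq, fderiv_comp _ hd2 hd1, e1]
  rfl

theorem loc_id (𝒜 : Atl d M) (i : Fin 𝒜.q) {x : M} (hx : x ∈ (𝒜.χ i).source) (v : V d) :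
    fderiv ℝ (𝒜.loc (fun y => y) i i) (𝒜.χ i x) v = v := by
  have hev : 𝒜.loc (fun y => y) i i =ᶠ[𝓝 (𝒜.χ i x)] id := by
    filter_upwards [(𝒜.χ i).open_target.mem_nhds ((𝒜.χ i).map_source hx)] with z hz
    show 𝒜.χ i ((𝒜.χ i).symm z) = z
    exact (𝒜.χ i).right_inv hz
  rw [hev.fderiv_eq, fderiv_id]
  rfl

theorem loc_ne (𝒜 : Atl d M) (i j : Fin 𝒜.q) {r : ℕ∞} (hr : 1 ≤ r) (f : DiffM d M r) {x : M}
    (hx : x ∈ (𝒜.χ i).source) (hfx : f x ∈ (𝒜.χ j).source) {v : V d} (hv : v ≠ 0) :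
    fderiv ℝ (𝒜.loc f i j) (𝒜.χ i x) v ≠ 0 := by
  have hr1 : (1 : WithTop ℕ∞) ≤ (r : WithTop ℕ∞) := by exact_mod_cast hr
  intro h0
  apply hv
  have h1 := loc_comp 𝒜 i j i (f.contMDiff.of_le hr1) (f.symm.contMDiff.of_le hr1) hx hfx (by
    rw [f.symm_apply_apply]; exact hx) v
  rw [h0, map_zero] at h1
  rw [← h1]
  have h2 : (fun y => f.symm (f y)) = fun y => y := funext fun y => f.symm_apply_apply y
  rw [h2, loc_id 𝒜 i hx]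

variable {ι : Type}

/-- a step of a chain -/
def Stp (𝒜 : Atl d M) (f : ι → M → M) (κ : ℝ) (i : ι) (p q : M × V d) : Prop :=
  Near 𝒜 (f i) κ p.1 q.1 ∧
    ‖fderiv ℝ (𝒜.loc (f i) (𝒜.ix p.1) (𝒜.ix q.1)) (𝒜.c p.1) p.2 - q.2‖ ≤ κ * ‖q.2‖

/-- paths of steps -/
inductive PF (𝒜 : Atl d M) (f : ι → M → M) (κ : ℝ) : ℕ → M × V d → M × V d → Prop
  | nil (p : M × V d) : PF 𝒜 f κ 0 p p
  | cons {n : ℕ} {p q q' : M × V d} (i : ι) : PF 𝒜 f κ n p q → Stp 𝒜 f κ i q q' → q'.2 ≠ 0 →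
      PF 𝒜 f κ (n + 1) p q'

theorem PF.trans {𝒜 : Atl d M} {f : ι → M → M} {κ : ℝ} {n m : ℕ} {p q q' : M × V d}
    (h : PF 𝒜 f κ n p q) (h' : PF 𝒜 f κ m q q') : PF 𝒜 f κ (n + m) p q' := by
  induction h' with
  | nil _ => exact h
  | cons i _ hs hq ih => exact PF.cons i (ih h) hs hq

theorem PF.seq {𝒜 : Atl d M} {f : ι → M → M} {κ : ℝ} (i₀ : ι) {n : ℕ} {p q : M × V d}
    (h : PF 𝒜 f κ n p q) (hp : p.2 ≠ 0) : ∃ (a : ℕ → ι) (X : ℕ → M × V d), X 0 = p ∧ X n = q ∧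
      (∀ j ≤ n, (X j).2 ≠ 0) ∧ ∀ j < n, Stp 𝒜 f κ (a j) (X j) (X (j + 1)) := by
  induction h with
  | nil p =>
    exact ⟨fun _ => i₀, fun _ => p, rfl, rfl, fun _ _ => hp, fun j hj => absurd hj (Nat.not_lt_zero j)⟩
  | @cons n p q q' i _ hs hq ih =>
    obtain ⟨a, X, h0, hn, hne, hst⟩ := ih hp
    refine ⟨fun j => if j < n then a j else i, fun j => if j ≤ n then X j else q', ?_, ?_, ?_, ?_⟩
    · simp [h0]
    · simp
    · intro j hj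
      dsimp only
      split_ifs with h
      · exact hne j h
      · exact hq
    · intro j hj
      dsimp only
      by_cases h : j < n
      · rw [if_pos h, if_pos h.le, if_pos (by omega)]
        exact hst j h
      · have hj' : j = n := by omega
        subst hj'
        rw [if_neg h, if_pos le_rfl, if_neg (by omega), hn]
        exact hs

theorem exact_path {𝒜 : Atl d M} {r : ℕ∞} (hr : 1 ≤ r) (f : ι → DiffM d M r) {κ : ℝ} (hκ : 0 < κ)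
    (x : M) (v : V d) (hv : v ≠ 0) (l : List ι) :
    PF 𝒜 (fun i => (f i : M → M)) κ l.length (x, v)
      (wordD f l x, fderiv ℝ (𝒜.loc (wordD f l) (𝒜.ix x) (𝒜.ix (wordD f l x))) (𝒜.c x) v) ∧
    fderiv ℝ (𝒜.loc (wordD f l) (𝒜.ix x) (𝒜.ix (wordD f l x))) (𝒜.c x) v ≠ 0 := by
  have hr1 : (1 : WithTop ℕ∞) ≤ (r : WithTop ℕ∞) := by exact_mod_cast hr
  induction l with
  | nil =>
    have h1 : fderiv ℝ (𝒜.loc (wordD f []) (𝒜.ix x) (𝒜.ix (wordD f [] x))) (𝒜.c x) v = v :=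
      loc_id 𝒜 (𝒜.ix x) (𝒜.ix_src x) v
    rw [h1]
    exact ⟨PF.nil _, hv⟩
  | cons i l ih =>
    obtain ⟨h1, h2⟩ := ih
    have h3 : fderiv ℝ (𝒜.loc (wordD f (i :: l)) (𝒜.ix x) (𝒜.ix (wordD f (i :: l) x))) (𝒜.c x) v =
        fderiv ℝ (𝒜.loc (f i) (𝒜.ix (wordD f l x)) (𝒜.ix (f i (wordD f l x)))) (𝒜.c (wordD f l x))
          (fderiv ℝ (𝒜.loc (wordD f l) (𝒜.ix x) (𝒜.ix (wordD f l x))) (𝒜.c x) v) :=
      loc_comp 𝒜 (𝒜.ix x) (𝒜.ix (wordD f l x)) (𝒜.ix (f i (wordD f l x)))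
        ((wordD f l).contMDiff.of_le hr1) ((f i).contMDiff.of_le hr1) (𝒜.ix_src _) (𝒜.ix_src _)
        (𝒜.ix_src _) v
    rw [h3]
    have h4 := loc_ne 𝒜 (𝒜.ix (wordD f l x)) (𝒜.ix (f i (wordD f l x))) hr (f i) (𝒜.ix_src _)
      (𝒜.ix_src _) h2
    refine ⟨?_, h4⟩
    refine PF.cons i h1 ⟨near_self 𝒜 _ hκ.le _, ?_⟩ h4
    dsimp only
    rw [show (wordD f (i :: l) x) = f i (wordD f l x) from rfl, sub_self, norm_zero]
    positivity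

theorem word_step {𝒜 : Atl d M} {r : ℕ∞} (hr : 1 ≤ r) (f : ι → DiffM d M r) {κ : ℝ} (hκ : 0 < κ)
    (l : List ι) (hl : l ≠ []) (p q : M × V d) (hp : p.2 ≠ 0) (hq : q.2 ≠ 0)
    (h1 : Near 𝒜 (wordD f l) κ p.1 q.1)
    (h2 : ‖fderiv ℝ (𝒜.loc (wordD f l) (𝒜.ix p.1) (𝒜.ix q.1)) (𝒜.c p.1) p.2 - q.2‖ ≤
      κ * ‖q.2‖) : PF 𝒜 (fun i => (f i : M → M)) κ l.length p q := by
  have hr1 : (1 : WithTop ℕ∞) ≤ (r : WithTop ℕ∞) := by exact_mod_cast hr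
  obtain ⟨x, v⟩ := p
  obtain ⟨x', v'⟩ := q
  rcases l with _ | ⟨i, l⟩
  · exact absurd rfl hl
  · obtain ⟨h3, -⟩ := exact_path (𝒜 := 𝒜) hr f hκ x v hp l
    refine PF.cons i h3 ⟨h1, ?_⟩ hq
    have h4 : fderiv ℝ (𝒜.loc (wordD f (i :: l)) (𝒜.ix x) (𝒜.ix x')) (𝒜.c x) v =
        fderiv ℝ (𝒜.loc (f i) (𝒜.ix (wordD f l x)) (𝒜.ix x')) (𝒜.c (wordD f l x))
          (fderiv ℝ (𝒜.loc (wordD f l) (𝒜.ix x) (𝒜.ix (wordD f l x))) (𝒜.c x) v) :=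
      loc_comp 𝒜 (𝒜.ix x) (𝒜.ix (wordD f l x)) (𝒜.ix x')
        ((wordD f l).contMDiff.of_le hr1) ((f i).contMDiff.of_le hr1) (𝒜.ix_src _) (𝒜.ix_src _)
        h1.1 v
    dsimp only at h2 ⊢
    rw [← h4]
    exact h2

theorem main : S_WRD.{u} := by
  intro d M _ _ _ r hr ι 𝒜 f κ hκ hNC l hl n x v hn hx hv hv0 hnear hvec
  have key : ∀ j ≤ n, PF 𝒜 (fun i => (f i : M → M)) κ (j * l.length) (x 0, v 0) (x j, v j) := by
    intro j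
    induction j with
    | zero => intro _; rw [Nat.zero_mul]; exact PF.nil _
    | succ j ih =>
      intro hj
      rw [Nat.succ_mul]
      exact (ih (by omega)).trans (word_step hr f hκ l hl (x j, v j) (x (j + 1), v (j + 1))
        (hv0 j (by omega)) (hv0 (j + 1) hj) (hnear j (by omega)) (hvec j (by omega)))
  obtain ⟨i₀⟩ : Nonempty ι := by
    rcases l with _ | ⟨i, l⟩
    · exact absurd rfl hl
    · exact ⟨i⟩
  obtain ⟨a, X, h0, hN, hne, hst⟩ := (key n le_rfl).seq i₀ (hv0 0 (Nat.zero_le _))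
  have hlen : 1 ≤ l.length := List.length_pos_iff.2 hl
  refine hNC (n * l.length) a (fun j => (X j).1) (fun j => (X j).2) (Nat.mul_pos hn hlen) ?_ ?_ hne
    (fun j hj => (hst j hj).1) fun j hj => (hst j hj).2
  · show (X (n * l.length)).1 = (X 0).1
    rw [h0, hN]
    exact hx
  · show (X (n * l.length)).2 = (X 0).2
    rw [h0, hN]
    exact hv

end Pool.Agent.H20.PT.Wrd
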