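import Pool.Agent.H20.PT.Grow
import Pool.Agent.H20.PT.Wrd

/-!
# Project PT6: blocks of steps, runs of a family of diffeomorphisms
-/

set_option autoImplicit false
set_option linter.unusedSectionVars false

open scoped Manifold ContDiff Topology
open Filter Set Metric

universe u v w

namespace Pool.Agent.H20.PT

open Pool.Agent.H718R2.G Pool.Agent.TH80.OMS Pool.Agent.Y504.CO Pool.Agent.R773.TE

section run

variable {d : ℕ} {M : Type u} [TopologicalSpace M] [ChartedSpace (V d) M] {r : ℕ∞} {ι : Type}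

/-- `t` steps of the family, with the letters `b 0, b 1, …`. -/
noncomputable def runD (f : ι → DiffM d M r) (b : ℕ → ι) : ℕ → DiffM d M r
  | 0 => Diffeomorph.refl (𝓡 d) M r
  | t + 1 => (runD f b t).trans (f (b t))

theorem runD_zero (f : ι → DiffM d M r) (b : ℕ → ι) (x : M) : runD f b 0 x = x := rfl

theorem runD_succ (f : ι → DiffM d M r) (b : ℕ → ι) (t : ℕ) (x : M) :
    runD f b (t + 1) x = f (b t) (runD f b t x) := rfl

theorem runD_add (f : ι → DiffM d M r) (b : ℕ → ι) (s t : ℕ) (x : M) :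
    runD f b (s + t) x = runD f (fun i => b (s + i)) t (runD f b s x) := by
  induction t with
  | zero => rfl
  | succ t ih => rw [← add_assoc, runD_succ, runD_succ, ih]

theorem runD_succ' (f : ι → DiffM d M r) (b : ℕ → ι) (t : ℕ) (x : M) :
    runD f b (t + 1) x = runD f (fun i => b (i + 1)) t (f (b 0) x) := by
  rw [add_comm t 1, runD_add]
  have : (fun i => b (1 + i)) = fun i => b (i + 1) := by funext i; rw [add_comm]
  rw [this]
  rfl

theorem runD_congr (f : ι → DiffM d M r) {b b' : ℕ → ι} (t : ℕ) (h : ∀ i < t, b i = b' i) (x : M) :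
    runD f b t x = runD f b' t x := by
  induction t with
  | zero => rfl
  | succ t ih => rw [runD_succ, runD_succ, ih fun i hi => h i (by omega), h t (by omega)]

/-- the word of a run -/
theorem wordD_run (f : ι → DiffM d M r) (i₀ : ι) (l : List ι) (x : M) :
    wordD f l x = runD f (fun t => l.reverse.getD t i₀) l.length x := by
  induction l with
  | nil => rfl
  | cons i l ih =>
    rw [List.length_cons, runD_succ]
    have h1 : (i :: l).reverse.getD l.length i₀ = i := by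
      rw [List.reverse_cons, List.getD_append_right _ _ _ _ (by rw [List.length_reverse])]
      simp
    have h2 : runD f (fun t => (i :: l).reverse.getD t i₀) l.length x =
        runD f (fun t => l.reverse.getD t i₀) l.length x := by
      apply runD_congr
      intro t ht
      rw [List.reverse_cons, List.getD_append _ _ _ _ (by rw [List.length_reverse]; exact ht)]
    rw [h1, h2, ← ih]
    rfl

/-- A periodic sequence of letters. -/
theorem runD_per (f : ι → DiffM d M r) (c : ℕ → ι) (m : ℕ) (hc : ∀ t, c (m + t) = c t) (Q : ℕ)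
    (x : M) : runD f c (m * Q) x = (runD f c m)^[Q] x := by
  induction Q generalizing x with
  | zero => rfl
  | succ Q ih =>
    have h1 : m * (Q + 1) = m + m * Q := by ring
    rw [h1, runD_add]
    have h2 : (fun i => c (m + i)) = c := funext hc
    rw [h2, ih, Function.iterate_succ_apply]

/-- the list of the blocks of length `Q` -/
def blocks (c : ℕ → ι) (Q : ℕ) : ℕ → List (ℕ → ι)
  | 0 => []
  | p + 1 => (fun t => c (Q * p + t)) :: blocks c Q p

theorem wordD_blocks (f : ι → DiffM d M r) (c : ℕ → ι) (Q p : ℕ) (x : M) :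
    wordD (fun b : ℕ → ι => runD f b Q) (blocks c Q p) x = runD f c (Q * p) x := by
  induction p with
  | zero => rfl
  | succ p ih =>
    show runD f (fun t => c (Q * p + t)) Q
      (wordD (fun b : ℕ → ι => runD f b Q) (blocks c Q p) x) = _
    rw [ih, Nat.mul_succ, runD_add]

end run

/-- `LocC.comp` with the explicit radius. -/
theorem LocC.comp' {d : ℕ} {M : Type u} [TopologicalSpace M] [ChartedSpace (V d) M] {𝒜 : Atl d M}
    {f h : M → M} {L δ L' δ' : ℝ} (hf : LocC 𝒜 f L δ) (hh : LocC 𝒜 h L' δ') :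
    LocC 𝒜 (fun x => h (f x)) (2 * L ^ 2 * L') (min δ (δ' / L)) := by
  have hL := hf.one_le
  have hL' := hh.one_le
  have hL0 : 0 < L := by linarith
  have hδ₁ : 0 < min δ (δ' / L) := lt_min hf.pos (div_pos hh.pos hL0)
  have h1 : min δ (δ' / L) ≤ δ := min_le_left _ _
  have h2 : L * min δ (δ' / L) ≤ δ' := by
    have := min_le_right δ (δ' / L)
    rw [le_div_iff₀ hL0] at this
    linarith [mul_comm L (min δ (δ' / L))]
  have hone : 1 ≤ 2 * L ^ 2 * L' := by nlinarith [one_le_pow₀ (n := 2) hL]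
  refine ⟨hone, hδ₁, h1.trans hf.le, fun x j hs hn => ?_⟩
  obtain ⟨d1, D, hD⟩ := hf.loc x (𝒜.ix (f x)) (𝒜.ix_src _) ((𝒜.ix_lt (f x)).le.trans (by norm_num))
  obtain ⟨d2, D', hD'⟩ := hh.loc (f x) j hs hn
  obtain ⟨c1, c2⟩ := hD.comp hD' hL hL' hδ₁ h1 h2
  have key : ∀ z, ‖z - 𝒜.c x‖ < min δ (δ' / L) →
      (𝒜.χ (𝒜.ix (f x))).symm (𝒜.loc f (𝒜.ix x) (𝒜.ix (f x)) z) = f ((𝒜.χ (𝒜.ix x)).symm z) := by
    intro z hz
    exact (𝒜.χ (𝒜.ix (f x))).left_inv (d1 z (hz.trans_le h1)).2
  refine ⟨fun z hz => ⟨(d1 z (hz.trans_le h1)).1, ?_⟩, _, c2.congr hone hδ₁ fun z hz => ?_⟩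
  · have h3 := (d2 _ (c1 z hz)).2
    rw [key z hz] at h3
    exact h3
  · show 𝒜.χ j (h (f ((𝒜.χ (𝒜.ix x)).symm z))) =
      𝒜.χ j (h ((𝒜.χ (𝒜.ix (f x))).symm (𝒜.loc f (𝒜.ix x) (𝒜.ix (f x)) z)))
    rw [key z hz]

/-- The constants of the runs grow at most exponentially, uniformly in the letters. -/
theorem LocC.run {d : ℕ} {M : Type u} [TopologicalSpace M] [ChartedSpace (V d) M] {𝒜 : Atl d M}
    {r : ℕ∞} {ι : Type} (f : ι → DiffM d M r) {L δ : ℝ} (hL : 1 ≤ L) (hδ : 0 < δ) (hδ2 : δ ≤ 1 / 2)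
    (hf : ∀ i, LocC 𝒜 (f i) L δ) (Q : ℕ) (hQ : 1 ≤ Q) :
    ∃ δ₁ : ℝ, 0 < δ₁ ∧ δ₁ ≤ 1 / 2 ∧ ∀ b : ℕ → ι, LocC 𝒜 (runD f b Q) ((2 * L ^ 2) ^ Q) δ₁ := by
  induction Q, hQ using Nat.le_induction with
  | base =>
    refine ⟨δ, hδ, hδ2, fun b => ?_⟩
    rw [pow_one]
    exact (hf (b 0)).mono (by nlinarith) hδ le_rfl
  | succ Q hQ ih =>
    obtain ⟨δ₁, h0, h2, h1⟩ := ih
    refine ⟨min δ (δ₁ / L), lt_min hδ (div_pos h0 (by linarith)), (min_le_left _ _).trans hδ2,
      fun b => ?_⟩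
    have h3 := (hf (b 0)).comp' (h1 fun i => b (i + 1))
    rw [pow_succ']
    have h4 : ⇑(runD f b (Q + 1)) = fun x => runD f (fun i => b (i + 1)) Q (f (b 0) x) :=
      funext fun x => runD_succ' f b Q x
    rw [h4]
    exact h3

end Pool.Agent.H20.PT
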