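import Pool.Agent.H20.PT.Man
import Pool.Agent.H20.PT.Pert

/-!
# Project PT4 (semigroups of diffeomorphisms driven by a horseshoe): definitions and statements
-/

set_option autoImplicit false
set_option linter.unusedSectionVars false

open scoped Manifold ContDiff Topology
open Filter Set Metric

universe u v w

namespace Pool.Agent.H20.PT

open Pool.Agent.H718R2.G Pool.Agent.TH80.OMS Pool.Agent.Y504.CO Pool.Agent.R773.TE

/-- There is no closed `κ`-chain of nonzero vectors for the family of maps `f i` (at each step one of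
the maps is applied); compare `NoChain`. -/
def NoChainF {d : ℕ} {M : Type u} [TopologicalSpace M] [ChartedSpace (V d) M] {ι : Type}
    (𝒜 : Atl d M) (f : ι → M → M) (κ : ℝ) : Prop :=
  ∀ (n : ℕ) (a : ℕ → ι) (x : ℕ → M) (v : ℕ → V d), 1 ≤ n → x n = x 0 → v n = v 0 →
    (∀ j ≤ n, v j ≠ 0) → (∀ j < n, Near 𝒜 (f (a j)) κ (x j) (x (j + 1))) →
    ¬ ∀ j < n, ‖fderiv ℝ (𝒜.loc (f (a j)) (𝒜.ix (x j)) (𝒜.ix (x (j + 1)))) (𝒜.c (x j)) (v j) -
      v (j + 1)‖ ≤ κ * ‖v (j + 1)‖

/-- The composition of the maps of a word: `wordD f (i :: l) = f i ∘ wordD f l`. -/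
noncomputable def wordD {d : ℕ} {M : Type u} [TopologicalSpace M] [ChartedSpace (V d) M] {r : ℕ∞}
    {ι : Type} (f : ι → DiffM d M r) : List ι → DiffM d M r
  | [] => Diffeomorph.refl (𝓡 d) M r
  | i :: l => (wordD f l).trans (f i)

/-- WRD. Absence of closed chains passes from a family of maps to all compositions of its members
(nonempty words), with the same `κ`.
Proof. Let `x_j`, `v_j` (`j ≤ n`) be a closed `κ`-chain of `h = wordD f l`, `l = [i_m, …, i_1]`. Replace each
step by `m` steps `x_j, f_{i_1} x_j, …`: all but the last one are exact (`x' = f x`, `x'` in the source of its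
own chart; `v' = D (loc) v ≠ 0`, so `Near` and the estimate hold with `0`), and the last one, from
`y = f_{i_{m-1}} … f_{i_1} x_j` with the vector `u`, has the same errors as the step of `h`:
`f_{i_m} y = h x_j`, and `D (χ_{j+1} f_{i_m} χ_y⁻¹) u = D (χ_{j+1} h χ_{x_j}⁻¹) v_j` by the chain rule.
(Induct on the word; it may be convenient to define paths inductively.) -/
def S_WRD : Prop :=
  ∀ (d : ℕ) (M : Type u) [TopologicalSpace M] [ChartedSpace (V d) M] [IsManifold (𝓡 d) ∞ M]
    (r : ℕ∞), 1 ≤ r → ∀ (ι : Type) (𝒜 : Atl d M) (f : ι → DiffM d M r) (κ : ℝ), 0 < κ →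
    NoChainF 𝒜 (fun i => (f i : M → M)) κ → ∀ l : List ι, l ≠ [] → NoChain 𝒜 (wordD f l) κ

end Pool.Agent.H20.PT
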