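import Pool.Agent.H20.PT.Emb
import Pool.Agent.H20.PT.Drv

/-!
# Project PT4: diffeomorphisms which contain a family of diffeomorphisms driven by a full shift
-/

set_option autoImplicit false

open scoped Manifold ContDiff Topology

universe u v w

namespace Pool.Agent.H20.PT

open Pool.Agent.H718R2.G Pool.Agent.R773.TE

/-- A manifold `pt` of dimension `dim` without boundary, not necessarily compact. -/
structure OpenMfd : Type (v + 1) where
  dim : ℕ
  pt : Type v
  [top : TopologicalSpace pt]
  [t2 : T2Space pt]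
  [sig : SigmaCompactSpace pt]
  [chr : ChartedSpace (V dim) pt]
  [man : IsManifold (𝓡 dim) ∞ pt]

attribute [instance] OpenMfd.top OpenMfd.t2 OpenMfd.sig OpenMfd.chr OpenMfd.man

/-- In an open part of its manifold which is diffeomorphic to a product `M × N` (by `Θ`), the
diffeomorphism `F` is `(x, y) ↦ (f i x, S x y)` near the cells `C i a ⊆ N`, and the maps `S x` have full
symbolic dynamics on the cells, with `k` cells for each `i`. Away from the cells `F` is arbitrary. -/
def Sys.Contains {d : ℕ} {M : Type u} [TopologicalSpace M] [ChartedSpace (V d) M] {r : ℕ∞}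
    (F : Sys.{w} r) {s : ℕ} (f : Fin s → DiffM d M r) (k : ℕ) : Prop :=
  ∃ (N : OpenMfd.{v}) (Θ : Emb F.dim d N.dim F.pt M N.pt) (S : M → N.pt → N.pt)
    (C : Fin s → Fin k → Set N.pt), Driver S C ∧
      ∀ i a, ∀ᶠ y in 𝓝ˢ (C i a), ∀ x, F.map (Θ.fn (x, y)) = Θ.fn (f i x, S x y)

end Pool.Agent.H20.PT
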