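import Pool.Agent.H20.PT.Emb
import Pool.Agent.H20.PT.EmbDef

/-!
# Project PT6: families of diffeomorphisms driven by a horseshoe of large entropy, definitions
-/

set_option autoImplicit false

open scoped Manifold ContDiff Topology

universe u v w

namespace Pool.Agent.H20.PT

open Pool.Agent.H718R2.G Pool.Agent.R773.TE

/-- The cells `C i a` and the sets `D i` are compact, the cells are pairwise disjoint and disjoint from
the `D j`. For all sequences `x` in `M`, `i` of letters and `a` of symbols, and all `n ≥ 1`, there is a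
closed orbit `y 0, …, y (Q n) = y 0`, `y (t+1) = S (x t) (y t)`, of the maps `S x : N → N` such that `y t`
is in `C (i t) (a t)` at the times `t` which are multiples of `Q` and in `D (i t)` at the other times. -/
structure BlockDriver {M : Type u} {N : Type v} [TopologicalSpace N] {s k : ℕ} (Q : ℕ)
    (S : M → N → N) (C : Fin s → Fin k → Set N) (D : Fin s → Set N) : Prop where
  compact : ∀ i a, IsCompact (C i a)
  compactD : ∀ i, IsCompact (D i)
  disj : ∀ i a j b, (i, a) ≠ (j, b) → Disjoint (C i a) (C j b)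
  disjD : ∀ i a j, Disjoint (C i a) (D j)
  word : ∀ (n : ℕ) (x : ℕ → M) (i : ℕ → Fin s) (a : ℕ → Fin k), 1 ≤ n →
    ∃ y : ℕ → N, y (Q * n) = y 0 ∧ ∀ t < Q * n, y (t + 1) = S (x t) (y t) ∧
      (Q ∣ t → y t ∈ C (i t) (a t)) ∧ (¬ Q ∣ t → y t ∈ D (i t))

/-- The diffeomorphism `F` contains the family `f`, driven by a horseshoe of entropy at least `log K`: an
open part of the manifold of `F` is diffeomorphic to a product `M × N` (by `Θ`), and there `F` is
`(x, y) ↦ (f i x, S x y)` near the cells `C i a ⊆ N` and near the sets `D i ⊆ N` of a driver with `K ^ Q`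
cells for each `i`, for some `Q ≥ 1`. (For `Q = 1` the sets `D i` play no role and may be empty.) Away
from the cells and the sets `D i` the diffeomorphism `F` is arbitrary. -/
def Sys.Hosts {d : ℕ} {M : Type u} [TopologicalSpace M] [ChartedSpace (V d) M] {r : ℕ∞}
    (F : Sys.{w} r) {s : ℕ} (f : Fin s → DiffM d M r) (K : ℕ) : Prop :=
  ∃ (N : OpenMfd.{v}) (Θ : Emb F.dim d N.dim F.pt M N.pt) (S : M → N.pt → N.pt) (Q : ℕ)
    (C : Fin s → Fin (K ^ Q) → Set N.pt) (D : Fin s → Set N.pt), 1 ≤ Q ∧ BlockDriver Q S C D ∧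
      (∀ i a, ∀ᶠ y in 𝓝ˢ (C i a), ∀ x, F.map (Θ.fn (x, y)) = Θ.fn (f i x, S x y)) ∧
      ∀ i, ∀ᶠ y in 𝓝ˢ (D i), ∀ x, F.map (Θ.fn (x, y)) = Θ.fn (f i x, S x y)

end Pool.Agent.H20.PT
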