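import Pool.Agent.H20.PT.EmbPert

/-!
# Project PT6: kicks in a local product structure which vanish over a closed set
-/

set_option autoImplicit false
set_option linter.unusedSectionVars false

open scoped Manifold ContDiff Topology NNReal
open Filter Set Metric

universe u v w

namespace Pool.Agent.H20.PT.BlockPert

open Pool.Agent.H718R2.G Pool.Agent.H20.PT Pool.Agent.R773.TE Pool.Agent.W564.SC
open Pool.Agent.H15.PT

/-- Kicks in a local product structure which vanish over a closed set `D`. -/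
theorem perteh (d e n : ℕ) (M : Type u) [TopologicalSpace M] [T2Space M] [CompactSpace M]
    [ChartedSpace (V d) M] [IsManifold (𝓡 d) ∞ M]
    (N : Type v) [TopologicalSpace N] [T2Space N] [SigmaCompactSpace N]
    [ChartedSpace (V e) N] [IsManifold (𝓡 e) ∞ N]
    (T : Type w) [TopologicalSpace T] [T2Space T] [CompactSpace T]
    [ChartedSpace (V n) T] [IsManifold (𝓡 n) ∞ T] (r : ℕ∞) (hr : 1 ≤ r)
    (𝒜 : Atl d M) (Θ : Emb n d e T M N) (G : DiffM n T r)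
    (U : Set (DiffM n T r)) (hU : IsOpen[strongTop n T r] U) (hGU : G ∈ U)
    (k : ℕ) (C : Fin k → Set N) (hC : ∀ a, IsCompact (C a))
    (hdis : ∀ a b, a ≠ b → Disjoint (C a) (C b)) (D : Set N) (hD : IsClosed D)
    (hCD : ∀ a, Disjoint (C a) D) (c : Fin k → Fin 𝒜.q) :
    ∃ κ₀ : ℝ, 0 < κ₀ ∧ κ₀ ≤ 1 / 10 ∧ ∀ w : Fin k → Kp d, (∀ a, ‖w a‖ ≤ κ₀) →
      ∃ G' ∈ U, (∀ a, ∀ y ∈ C a, ∀ z : V d, ‖z‖ < 2 →
        G' (Θ.fn ((𝒜.χ (c a)).symm z, y)) = G (Θ.fn ((𝒜.χ (c a)).symm (kick (w a) z), y))) ∧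
        ∀ y ∈ D, ∀ x : M, G' (Θ.fn (x, y)) = G (Θ.fn (x, y)) := by
  obtain ⟨F, F', κ, hκ, hκ10, hF, hkick⟩ := kick_family d
  by_cases hT : Nonempty T
  swap
  · refine ⟨1 / 10, by norm_num, le_refl _, fun w _ => ⟨G, hGU, fun a y _ z _ => ?_,
      fun y _ x => rfl⟩⟩
    exact absurd ⟨Θ.fn ((𝒜.χ (c a)).symm z, y)⟩ hT
  obtain ⟨p₀⟩ := hT
  have hlc : LocallyCompactSpace N := ChartedSpace.locallyCompactSpace (V e) N
  obtain ⟨K, hK, hCK⟩ := exists_compact_superset (isCompact_iUnion fun a => hC a)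
  -- cut-off functions
  have hθ : ∀ a : Fin k, ∃ θ : N → ℝ, ContMDiff (𝓡 e) 𝓘(ℝ, ℝ) ∞ θ ∧ (∀ y ∈ C a, θ y = 1) ∧
      (∀ b, b ≠ a → ∀ y ∈ C b, θ y = 0) ∧ (∀ y ∉ K, θ y = 0) ∧ ∀ y ∈ D, θ y = 0 := by
    intro a
    have h1 : IsClosed (((⋃ b ∈ {b : Fin k | b ≠ a}, C b) ∪ (interior K)ᶜ) ∪ D) :=
      ((Set.Finite.isClosed_biUnion (Set.toFinite _) (fun b _ => (hC b).isClosed)).union
        isOpen_interior.isClosed_compl).union hD
    have h2 : Disjoint (((⋃ b ∈ {b : Fin k | b ≠ a}, C b) ∪ (interior K)ᶜ) ∪ D) (C a) := by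
      rw [Set.disjoint_union_left, Set.disjoint_union_left, Set.disjoint_iUnion₂_left]
      refine ⟨⟨fun b hb => hdis b a hb, ?_⟩, (hCD a).symm⟩
      rw [Set.disjoint_left]
      exact fun y hy hy' => hy (hCK (mem_iUnion.2 ⟨a, hy'⟩))
    obtain ⟨θ, t1, t2, -⟩ := exists_contMDiffMap_zero_one_of_isClosed (𝓡 e) (n := ⊤) h1
      (hC a).isClosed h2
    refine ⟨θ, θ.contMDiff, fun y hy => t2 hy, fun b hb y hy => ?_, fun y hy => ?_, fun y hy => ?_⟩
    · exact t1 (Or.inl (Or.inl (mem_iUnion₂.2 ⟨b, hb, hy⟩)))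
    · exact t1 (Or.inl (Or.inr fun h => hy (interior_subset h)))
    · exact t1 (Or.inr hy)
  choose θ hθs hθ1 hθ0 hθK hθD using hθ
  obtain ⟨Φ, h1, h2, h3, h4⟩ := EmbPert.many (n := n) r Θ 𝒜 c hF θ hθs hK hθK Finset.univ
  have hfam : IsFam n T r (fun w : Fin k → Kp d => (Φ w).trans G) := by
    intro p
    exact (G.contMDiff.comp h1).contMDiffAt
  have h0 : (Φ 0).trans G = G := by
    ext p
    show G (Φ 0 p) = G p
    rw [h2]
  obtain ⟨κ', hκ', hmem⟩ := Pool.Agent.TH80.CLX.fam_mem r hr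
    (fun w : Fin k → Kp d => (Φ w).trans G) hfam p₀ U hU (by
      show (Φ 0).trans G ∈ U
      rw [h0]; exact hGU)
  refine ⟨min κ (κ' / 2), lt_min hκ (by positivity), (min_le_left _ _).trans hκ10, fun w hw => ?_⟩
  refine ⟨(Φ w).trans G, hmem w ?_, ?_, fun y hy x => ?_⟩
  · have h5 : ‖w‖ ≤ κ' / 2 :=
      (pi_norm_le_iff_of_nonneg (by positivity)).2 fun a => (hw a).trans (min_le_right _ _)
    linarith
  swap
  · show G (Φ w (Θ.fn (x, y))) = _
    rw [h3 w x y fun a _ => hθD a y hy]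
  intro a y hy z hz
  show G (Φ w (Θ.fn ((𝒜.χ (c a)).symm z, y))) = _
  have hz3 : z ∈ (𝒜.χ (c a)).target := by
    apply 𝒜.ball
    rw [mem_closedBall, dist_zero_right]
    linarith
  rw [h4 w _ y a (Finset.mem_univ a) (fun b _ hb => hθ0 b a hb.symm y hy), hθ1 a y hy, one_smul,
    tr_source ((𝒜.χ (c a)).map_target hz3), (𝒜.χ (c a)).right_inv hz3,
    hkick (w a) z ((hw a).trans (min_le_left _ _)) hz.le]

end Pool.Agent.H20.PT.BlockPert
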