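import Pool.Agent.H20.PT.Block
import Pool.Agent.H20.PT.BlockPert
import Pool.Agent.H20.PT.BlockDef

/-!
# Project PT6: a stable diffeomorphism which contains a family of maps driven by a horseshoe of large
entropy has no closed chains of vectors for the runs of the family
-/

set_option autoImplicit false
set_option linter.unusedSectionVars false

open scoped Manifold ContDiff Topology
open Filter Set Metric

universe u v w

namespace Pool.Agent.H20.PT

open Pool.Agent.H718R2.G Pool.Agent.TH80.OMS Pool.Agent.Y504.CO Pool.Agent.R773.TE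

section

variable {d e n : ℕ} {M : Type u} [TopologicalSpace M] [ChartedSpace (V d) M]
    {N : Type v} [TopologicalSpace N] [ChartedSpace (V e) N]
    {T : Type w} [TopologicalSpace T] [ChartedSpace (V n) T]

/-- Following a kicked orbit in a local product structure: the first coordinates of the return map are
the composition of local maps and kicks. -/
theorem followB (𝒜 : Atl d M) (f : ℕ → M → M) (Θ : Emb n d e T M N) (G : T → T)
    (hGc : Continuous G)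
    {L δ : ℝ} (hL : ∀ j, LocC 𝒜 (f j) L δ) (m : ℕ) (x : ℕ → M) (w : ℕ → Kp d) (Q : ℕ → V d)
    (y : ℕ → N) (hQt : Q 0 ∈ (𝒜.χ (𝒜.ix (x 0))).target)
    (hG : ∀ j < m, ∀ᶠ q in 𝓝 (Q j, y j), ∃ y'' : N,
      G (Θ.fn ((𝒜.χ (𝒜.ix (x j))).symm q.1, q.2)) =
      Θ.fn (f j ((𝒜.χ (𝒜.ix (x j))).symm (kick (w j) q.1)), y''))
    (ho : ∀ j < m, G (Θ.fn ((𝒜.χ (𝒜.ix (x j))).symm (Q j), y j)) =
      Θ.fn ((𝒜.χ (𝒜.ix (x (j + 1)))).symm (Q (j + 1)), y (j + 1)))
    (hQ : ∀ j < m, ‖Q j‖ < 2 ∧ ‖kick (w j) (Q j) - 𝒜.c (x j)‖ < δ ∧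
      Q (j + 1) = 𝒜.loc (f j) (𝒜.ix (x j)) (𝒜.ix (x (j + 1))) (kick (w j) (Q j)))
    (hn : ∀ j < m, f j (x j) ∈ (𝒜.χ (𝒜.ix (x (j + 1)))).source ∧
      ‖𝒜.χ (𝒜.ix (x (j + 1))) (f j (x j))‖ ≤ 3 / 2) :
    ∀ j ≤ m, ∃ H : V d → V d, ContinuousAt H (Q 0) ∧ H (Q 0) = Q j ∧
      (∀ᶠ q in 𝓝 (Q 0, y 0), ∃ y' : N,
        G^[j] (Θ.fn ((𝒜.χ (𝒜.ix (x 0))).symm q.1, q.2)) =
          Θ.fn ((𝒜.χ (𝒜.ix (x j))).symm (H q.1), y')) ∧
      ∀ D : ℕ → V d → (V d →L[ℝ] V d), (∀ i < m, HasFDerivAt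
          (𝒜.loc (f i) (𝒜.ix (x i)) (𝒜.ix (x (i + 1)))) (D i (kick (w i) (Q i))) (kick (w i) (Q i))) →
        ∀ U : ℕ → V d, (∀ i < m, U (i + 1) = D i (kick (w i) (Q i)) (U i + (w i).2 (U i))) →
        ∃ D' : V d →L[ℝ] V d, HasFDerivAt H D' (Q 0) ∧ D' (U 0) = U j := by
  have horb := orbitS Θ.fn G m (fun j => (𝒜.χ (𝒜.ix (x j))).symm (Q j)) y ho
  have hcont : ∀ j, ContinuousAt (fun q : V d × N =>
      G^[j] (Θ.fn ((𝒜.χ (𝒜.ix (x 0))).symm q.1, q.2))) (Q 0, y 0) := by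
    intro j
    have h1 : ContinuousAt (fun q : V d × N => (𝒜.χ (𝒜.ix (x 0))).symm q.1) (Q 0, y 0) :=
      ContinuousAt.comp (g := (𝒜.χ (𝒜.ix (x 0))).symm)
        ((𝒜.χ (𝒜.ix (x 0))).continuousAt_symm hQt) continuousAt_fst
    exact ((hGc.iterate j).comp Θ.smooth.continuous).continuousAt.comp (h1.prodMk continuousAt_snd)
  intro j
  induction j with
  | zero =>
    intro _
    exact ⟨id, continuousAt_id, rfl, Eventually.of_forall fun q => ⟨q.2, rfl⟩, fun D hD U hU =>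
      ⟨ContinuousLinearMap.id ℝ (V d), hasFDerivAt_id _, rfl⟩⟩
  | succ j ih =>
    intro hj
    obtain ⟨H, hHc, hH0, hHe, hHD⟩ := ih (by omega)
    have hjm : j < m := by omega
    obtain ⟨hQ2, hQδ, hQs⟩ := hQ j hjm
    obtain ⟨hns, hn32⟩ := hn j hjm
    obtain ⟨hdom, D₁, hD₁⟩ := (hL j).loc (x j) (𝒜.ix (x (j + 1))) hns hn32
    have hcF : ContinuousAt (𝒜.loc (f j) (𝒜.ix (x j)) (𝒜.ix (x (j + 1)))) (kick (w j) (Q j)) :=
      (hD₁.der _ hQδ).continuousAt
    have hcH : ContinuousAt (fun z => kick (w j) (H z)) (Q 0) :=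
      ContinuousAt.comp (g := kick (w j)) (kick_cont (w j)).continuousAt hHc
    refine ⟨fun z => 𝒜.loc (f j) (𝒜.ix (x j)) (𝒜.ix (x (j + 1))) (kick (w j) (H z)), ?_, ?_, ?_, ?_⟩
    · apply ContinuousAt.comp (g := 𝒜.loc (f j) (𝒜.ix (x j)) (𝒜.ix (x (j + 1))))
        (f := fun z => kick (w j) (H z)) _ hcH
      show ContinuousAt _ (kick (w j) (H (Q 0)))
      rw [hH0]
      exact hcF
    · show 𝒜.loc (f j) _ _ (kick (w j) (H (Q 0))) = Q (j + 1)
      rw [hH0, hQs]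
    · have h2 : ∀ᶠ z in 𝓝 (Q 0), ‖kick (w j) (H z) - 𝒜.c (x j)‖ < δ := by
        have := (hcH.sub (continuousAt_const (y := 𝒜.c (x j)))).norm
        exact this.eventually (gt_mem_nhds (by
          show ‖kick (w j) (H (Q 0)) - 𝒜.c (x j)‖ < δ
          rw [hH0]; exact hQδ))
      have h4 : ContinuousAt (fun q : V d × N =>
          (Θ.inv (G^[j] (Θ.fn ((𝒜.χ (𝒜.ix (x 0))).symm q.1, q.2)))).2) (Q 0, y 0) := by
        refine ContinuousAt.comp (g := fun t : T => (Θ.inv t).2) ?_ (hcont j)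
        dsimp only
        rw [horb j (by omega)]
        exact ContinuousAt.comp (g := Prod.snd) continuousAt_snd (Θ.contInv _)
      have hf : Tendsto (fun q : V d × N => q.1) (𝓝 (Q 0, y 0)) (𝓝 (Q 0)) := continuousAt_fst
      have h5 : Tendsto (fun q : V d × N => (H q.1,
          (Θ.inv (G^[j] (Θ.fn ((𝒜.χ (𝒜.ix (x 0))).symm q.1, q.2)))).2)) (𝓝 (Q 0, y 0))
          (𝓝 (Q j, y j)) := by
        have h6 : ContinuousAt (fun q : V d × N => (H q.1,
            (Θ.inv (G^[j] (Θ.fn ((𝒜.χ (𝒜.ix (x 0))).symm q.1, q.2)))).2)) (Q 0, y 0) :=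
          (ContinuousAt.comp (g := H) (f := Prod.fst) (x := (Q 0, y 0)) hHc
            continuousAt_fst).prodMk h4
        have h7 := h6.tendsto
        rw [hH0, horb j (by omega), Θ.left] at h7
        exact h7
      filter_upwards [hHe, hf.eventually h2, h5.eventually (hG j hjm)] with q hq hq2 hq3
      obtain ⟨y', hy'⟩ := hq
      obtain ⟨y'', hy''⟩ := hq3
      rw [hy', Θ.left] at hy''
      refine ⟨y'', ?_⟩
      rw [Function.iterate_succ_apply', hy', hy'']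
      obtain ⟨-, hs⟩ := hdom _ hq2
      congr 2
      show f j _ = (𝒜.χ (𝒜.ix (x (j + 1)))).symm (𝒜.χ (𝒜.ix (x (j + 1))) (f j _))
      rw [(𝒜.χ (𝒜.ix (x (j + 1)))).left_inv hs]
    · intro D hD U hU
      obtain ⟨D', hD', hD'U⟩ := hHD D hD U hU
      have h3 : HasFDerivAt (fun z => kick (w j) (H z))
          ((ContinuousLinearMap.id ℝ (V d) + (w j).2) ∘L D') (Q 0) :=
        HasFDerivAt.comp (g := kick (w j)) (Q 0) (kick_der (w j) (H (Q 0))) hD'
      have h4 : HasFDerivAt (𝒜.loc (f j) (𝒜.ix (x j)) (𝒜.ix (x (j + 1))))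
          (D j (kick (w j) (Q j))) (kick (w j) (H (Q 0))) := by
        rw [hH0]
        exact hD j hjm
      refine ⟨D j (kick (w j) (Q j)) ∘L ((ContinuousLinearMap.id ℝ (V d) + (w j).2) ∘L D'),
        HasFDerivAt.comp (g := 𝒜.loc (f j) (𝒜.ix (x j)) (𝒜.ix (x (j + 1)))) (Q 0) h4 h3, ?_⟩
      rw [hU j hjm]
      simp [hD'U]

/-- A block of steps. The first step is arbitrary, and the other ones are steps of the family near the
points `(X i, y i)`. -/
theorem blockStep {r : ℕ∞} {ι : Type} (f : ι → DiffM d M r) (b : ℕ → ι) (Θ : Emb n d e T M N)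
    (G : T → T) (hGc : Continuous G) (χ : OpenPartialHomeomorph M (V d)) (w : Kp d) (q₀ : V d)
    (hq₀ : q₀ ∈ χ.target) (y : ℕ → N) (Q : ℕ)
    (h0 : ∀ᶠ q in 𝓝 (q₀, y 0), ∃ y'' : N, G (Θ.fn (χ.symm q.1, q.2)) =
      Θ.fn (f (b 0) (χ.symm (kick w q.1)), y''))
    (h1 : ∀ i, i < Q → G^[i + 1] (Θ.fn (χ.symm q₀, y 0)) =
      Θ.fn (runD f b (i + 1) (χ.symm (kick w q₀)), y (i + 1)))
    (hG : ∀ i, 1 ≤ i → i < Q → ∀ᶠ y' in 𝓝 (y i), ∀ x : M, ∃ y'' : N,
      G (Θ.fn (x, y')) = Θ.fn (f (b i) x, y'')) :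
    ∀ i < Q, ∀ᶠ q in 𝓝 (q₀, y 0), ∃ y'' : N, G^[i + 1] (Θ.fn (χ.symm q.1, q.2)) =
      Θ.fn (runD f b (i + 1) (χ.symm (kick w q.1)), y'') := by
  intro i
  induction i with
  | zero => exact fun _ => h0
  | succ i ih =>
    intro hi
    have hc : ContinuousAt (fun q : V d × N => G^[i + 1] (Θ.fn (χ.symm q.1, q.2))) (q₀, y 0) := by
      have h2 : ContinuousAt (fun q : V d × N => χ.symm q.1) (q₀, y 0) :=
        ContinuousAt.comp (g := χ.symm) (χ.continuousAt_symm hq₀) continuousAt_fst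
      exact ((hGc.iterate (i + 1)).comp Θ.smooth.continuous).continuousAt.comp
        (h2.prodMk continuousAt_snd)
    have hc2 : Tendsto (fun q : V d × N => (Θ.inv (G^[i + 1] (Θ.fn (χ.symm q.1, q.2)))).2)
        (𝓝 (q₀, y 0)) (𝓝 (y (i + 1))) := by
      have h2 : ContinuousAt (fun q : V d × N => (Θ.inv (G^[i + 1] (Θ.fn (χ.symm q.1, q.2)))).2)
          (q₀, y 0) := by
        refine ContinuousAt.comp (g := fun t : T => (Θ.inv t).2) ?_ hc
        dsimp only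
        rw [h1 i (by omega)]
        exact ContinuousAt.comp (g := Prod.snd) continuousAt_snd (Θ.contInv _)
      have h3 := h2.tendsto
      rw [h1 i (by omega), Θ.left] at h3
      exact h3
    filter_upwards [ih (by omega), hc2.eventually (hG (i + 1) (by omega) hi)] with q hq hq2
    obtain ⟨y', hy'⟩ := hq
    rw [hy', Θ.left] at hq2
    obtain ⟨y'', hy''⟩ := hq2 (runD f b (i + 1) (χ.symm (kick w q.1)))
    exact ⟨y'', by rw [Function.iterate_succ_apply', hy', hy'']; rfl⟩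

end

/-- ABCB. Let `F` be a star diffeomorphism of `T` which is `Θ (x, y) ↦ Θ (f i x, S x y)` near the cells
`C i a` and the sets `D i` of a driver. If there are sufficiently many cells for each `i` then there are
no closed chains of vectors for the runs of length `Q₀` of the family `f`. -/
theorem abcB (hCTL : S_CTL)
    {d : ℕ} {M : Type u} [TopologicalSpace M] [T2Space M] [CompactSpace M]
    [ChartedSpace (V d) M] [IsManifold (𝓡 d) ∞ M] {r : ℕ∞} (hr : 2 ≤ r)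
    (𝒜 : Atl d M) {s : ℕ} (f : Fin s → DiffM d M r) {Q₀ : ℕ} (hQ₀ : 1 ≤ Q₀) {L δ : ℝ}
    (hL1 : 1 ≤ L) (hδ0 : 0 < δ) (hδ2 : δ ≤ 1 / 2) (hL : ∀ b : ℕ → Fin s, LocC 𝒜 (runD f b Q₀) L δ)
    {m : ℕ} (hm : Net d (120 * L ^ 3) m) :
    ∀ (e n : ℕ) (N : Type v) [TopologicalSpace N] [T2Space N] [SigmaCompactSpace N]
      [ChartedSpace (V e) N] [IsManifold (𝓡 e) ∞ N]
      (T : Type w) [TopologicalSpace T] [T2Space T] [CompactSpace T]
      [ChartedSpace (V n) T] [IsManifold (𝓡 n) ∞ T] (S : M → N → N)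
      (C : Fin s → Fin (𝒜.q * (m + 1)) → Set N) (D : Fin s → Set N)
      (Θ : Emb n d e T M N) (F : DiffM n T r), BlockDriver Q₀ S C D →
      (∀ i a, ∀ᶠ y in 𝓝ˢ (C i a), ∀ x, F (Θ.fn (x, y)) = Θ.fn (f i x, S x y)) →
      (∀ i, ∀ᶠ y in 𝓝ˢ (D i), ∀ x, F (Θ.fn (x, y)) = Θ.fn (f i x, S x y)) → Star n T r F →
      ∃ κ : ℝ, 0 < κ ∧ κ ≤ 1 / 2 ∧
        NoChainF 𝒜 (fun b : ℕ → Fin s => (runD f b Q₀ : M → M)) κ := by
  have hr1 : 1 ≤ r := le_trans (by norm_num) hr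
  have hL3 : 1 ≤ 120 * L ^ 3 := by nlinarith [one_le_pow₀ (n := 3) hL1]
  obtain ⟨σ⟩ : Nonempty ((Fin 𝒜.q × Option (Fin m)) ≃ Fin (𝒜.q * (m + 1))) :=
    ⟨Fintype.equivFinOfCardEq (by simp)⟩
  · intro e n N _ _ _ _ _ T _ _ _ _ _ S C D₀ Θ F hS hP hPD hF
    have hlc : LocallyCompactSpace N := ChartedSpace.locallyCompactSpace (V e) N
    obtain ⟨hCc, hDc, hCd, hCDd, hCs⟩ := hS
    obtain ⟨U₀, hU₀, hFU, hyp⟩ := hF
    have hDall : IsCompact (⋃ i, D₀ i) := isCompact_iUnion hDc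
    have hW : ∀ i a, ∃ W : Set N, IsOpen W ∧ C i a ⊆ W ∧ ∀ y ∈ W, ∀ x,
        F (Θ.fn (x, y)) = Θ.fn (f i x, S x y) := fun i a => eventually_nhdsSet_iff_exists.1 (hP i a)
    have hWD : ∀ i, ∃ W : Set N, IsOpen W ∧ D₀ i ⊆ W ∧ ∀ y ∈ W, ∀ x,
        F (Θ.fn (x, y)) = Θ.fn (f i x, S x y) := fun i => eventually_nhdsSet_iff_exists.1 (hPD i)
    choose W hWo hCW hWF using hW
    choose WD hWDo hCWD hWDF using hWD
    -- a compact neighbourhood of the sets `D`
    obtain ⟨D', hD'c, hDD', hD'C⟩ : ∃ D' : Set N, IsCompact D' ∧ (⋃ i, D₀ i) ⊆ interior D' ∧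
        D' ⊆ (⋃ b : Fin s × Fin (𝒜.q * (m + 1)), C b.1 b.2)ᶜ := by
      refine exists_compact_between hDall ?_ ?_
      · exact (isCompact_iUnion fun b : Fin s × Fin (𝒜.q * (m + 1)) =>
          hCc b.1 b.2).isClosed.isOpen_compl
      · intro y hy hy'
        obtain ⟨i, hi⟩ := mem_iUnion.1 hy
        obtain ⟨b, hb⟩ := mem_iUnion.1 hy'
        exact Set.disjoint_left.1 (hCDd b.1 b.2 i) hb hi
    obtain ⟨C', hC'c, hC'd, hCC', hC'W⟩ := thickenE
      (fun b => C (finProdFinEquiv.symm b).1 (finProdFinEquiv.symm b).2)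
      (fun b => W (finProdFinEquiv.symm b).1 (finProdFinEquiv.symm b).2 ∩ D'ᶜ)
      (fun b => hCc _ _) (fun b => (hCc _ _).isClosed) (fun b b' hb => hCd _ _ _ _ fun he => hb (by
        apply finProdFinEquiv.symm.injective
        simpa using he)) (fun b => (hWo _ _).inter hD'c.isClosed.isOpen_compl)
      (fun b => subset_inter (hCW _ _) fun y hy hy' => hD'C hy' (mem_iUnion.2 ⟨_, hy⟩))
    obtain ⟨κ', hκ', hκ10, hG⟩ := BlockPert.perteh d e n M N T r hr1 𝒜 Θ F U₀ hU₀ hFU _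
      C' hC'c hC'd D' hD'c.isClosed
      (fun b => Set.disjoint_left.2 fun y hy hy' => (hC'W b hy).2 hy')
      (fun b => (σ.symm (finProdFinEquiv.symm b).2).1)
    set κ₀ := min κ' δ with hκ₀
    have hκ₀p : 0 < κ₀ := lt_min hκ' hδ0
    obtain ⟨p, hp1, hp2⟩ := hm κ₀ hκ₀p
    have hκL : κ₀ / (120 * L ^ 3) ≤ 1 / 2 := by
      rw [div_le_iff₀ (by positivity)]
      have := min_le_right κ' δ
      nlinarith
    refine ⟨κ₀ / (120 * L ^ 3), by positivity, hκL, ?_⟩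
    · intro nn i x v hnn hx hv hv0 hnear hvec
      have hsrc : ∀ j < nn, runD f (i j) Q₀ (x j) ∈ (𝒜.χ (𝒜.ix (x (j + 1)))).source ∧
          ‖𝒜.χ (𝒜.ix (x (j + 1))) (runD f (i j) Q₀ (x j))‖ ≤ 3 / 2 := by
        intro j hj
        obtain ⟨h1, h2⟩ := hnear j hj
        refine ⟨h1, ?_⟩
        have h3 := 𝒜.ix_lt (x (j + 1))
        have h5 : ‖𝒜.χ (𝒜.ix (x (j + 1))) (runD f (i j) Q₀ (x j))‖ ≤
            ‖𝒜.χ (𝒜.ix (x (j + 1))) (runD f (i j) Q₀ (x j)) - 𝒜.c (x (j + 1))‖ + ‖𝒜.c (x (j + 1))‖ := by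
          simpa using norm_add_le (𝒜.χ (𝒜.ix (x (j + 1))) (runD f (i j) Q₀ (x j)) - 𝒜.c (x (j + 1)))
            (𝒜.c (x (j + 1)))
        unfold Atl.c at h5 h2
        linarith
      have hDe : ∀ j, ∃ D : V d → (V d ≃L[ℝ] V d), j < nn →
          LMap L δ (𝒜.c (x j)) (𝒜.χ (𝒜.ix (x (j + 1))) (runD f (i j) Q₀ (x j)))
            (𝒜.loc (runD f (i j) Q₀) (𝒜.ix (x j)) (𝒜.ix (x (j + 1)))) D := by
        intro j
        by_cases hj : j < nn
        · obtain ⟨-, D, hD⟩ := (hL (i j)).loc (x j) (𝒜.ix (x (j + 1))) (hsrc j hj).1 (hsrc j hj).2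
          exact ⟨D, fun _ => hD⟩
        · exact ⟨fun _ => ContinuousLinearEquiv.refl ℝ (V d), fun h => absurd h hj⟩
      choose D hD using hDe
      obtain ⟨w, Q, U, hw, hwl, hQ0, hQn, hU0, hUn, hstep⟩ := hCTL d L δ κ₀ hL1 hδ0 hδ2 hκ₀p
        (min_le_right _ _) (range p) (by
          intro w hw
          obtain ⟨a, ha⟩ := hp2 w hw
          exact ⟨p a, mem_range_self a, ha⟩) nn (fun j => 𝒜.c (x j))
        (fun j => 𝒜.χ (𝒜.ix (x (j + 1))) (runD f (i j) Q₀ (x j))) v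
        (fun j => 𝒜.loc (runD f (i j) Q₀) (𝒜.ix (x j)) (𝒜.ix (x (j + 1)))) D hnn
        (fun j _ => (𝒜.ix_lt (x j)).le) (fun j hj => hD j hj) (by simp only [hx]) hv hv0
        (fun j hj => (hnear j hj).2) (by
          intro j hj
          have h1 := hvec j hj
          have h2 := ((hD j hj).der (𝒜.c (x j)) (by simpa using hδ0)).fderiv
          rw [h2] at h1
          exact h1)
      have hae : ∀ j, ∃ a : Option (Fin m), (j + 1 < nn → ∃ b, a = some b ∧ p b = w j) ∧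
          (¬ j + 1 < nn → a = none) := by
        intro j
        by_cases hj : j + 1 < nn
        · obtain ⟨b, hb⟩ := hw j hj
          exact ⟨some b, fun _ => ⟨b, rfl, hb⟩, fun h => absurd hj h⟩
        · exact ⟨none, fun h => absurd h hj, fun _ => rfl⟩
      choose α hα1 hα2 using hae
      obtain ⟨om, hom⟩ : ∃ om : Fin 𝒜.q × Option (Fin m) → Kp d,
          om = fun b => (b.2.elim (w (nn - 1)) p) := ⟨_, rfl⟩
      have homn : ∀ a, ‖om (σ.symm a)‖ ≤ κ' := by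
        intro a
        rw [hom]
        dsimp only
        rcases (σ.symm a).2 with _ | b
        · exact (hwl (nn - 1) (by omega) (by omega)).trans (min_le_left _ _)
        · exact (hp1 b).trans (min_le_left _ _)
      obtain ⟨G, hGU, hGk, hGD⟩ := hG (fun b => om (σ.symm (finProdFinEquiv.symm b).2))
        (fun b => homn _)
      obtain ⟨X, hX⟩ : ∃ X : ℕ → M, X = fun t => runD f (i (t / Q₀)) (t % Q₀)
          ((𝒜.χ (𝒜.ix (x (t / Q₀)))).symm (kick (w (t / Q₀)) (Q (t / Q₀)))) := ⟨_, rfl⟩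
      obtain ⟨y, hyn, hyj⟩ := hCs nn X (fun t => i (t / Q₀) (t % Q₀))
        (fun t => σ (𝒜.ix (x (t / Q₀)), α (t / Q₀))) hnn
      have homj : ∀ j < nn, om (𝒜.ix (x j), α j) = w j := by
        intro j hj
        rw [hom]
        dsimp only
        by_cases h1 : j + 1 < nn
        · obtain ⟨b, hb, hpb⟩ := hα1 j h1
          rw [hb]
          exact hpb
        · rw [hα2 j h1]
          have : j = nn - 1 := by omega
          rw [this]
          rfl
      have hQ₀p : 0 < Q₀ := hQ₀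
      have hdiv : ∀ j u, u < Q₀ → (Q₀ * j + u) / Q₀ = j := by
        intro j u hu
        rw [Nat.mul_add_div hQ₀p, Nat.div_eq_of_lt hu, add_zero]
      have hmod : ∀ j u, u < Q₀ → (Q₀ * j + u) % Q₀ = u := by
        intro j u hu
        rw [Nat.mul_add_mod, Nat.mod_eq_of_lt hu]
      have hlt : ∀ j u, j < nn → u < Q₀ → Q₀ * j + u < Q₀ * nn := by
        intro j u hj hu
        have h1 : Q₀ * (j + 1) ≤ Q₀ * nn := Nat.mul_le_mul_left _ hj
        rw [Nat.mul_succ] at h1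
        omega
      -- the orbit: start of a block, other steps
      have hy0 : ∀ j < nn, y (Q₀ * j) ∈ C (i j 0) (σ (𝒜.ix (x j), α j)) := by
        intro j hj
        have h1 := (hyj (Q₀ * j + 0) (hlt j 0 hj hQ₀p)).2.1 (by simp)
        rw [hdiv j 0 hQ₀p, hmod j 0 hQ₀p] at h1
        simpa using h1
      have hyu : ∀ j < nn, ∀ u, 1 ≤ u → u < Q₀ → y (Q₀ * j + u) ∈ D₀ (i j u) := by
        intro j hj u hu1 hu
        have h1 := (hyj (Q₀ * j + u) (hlt j u hj hu)).2.2 (by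
          rw [Nat.dvd_add_right (Nat.dvd_mul_right Q₀ j)]
          exact Nat.not_dvd_of_pos_of_lt (by omega) hu)
        rw [hdiv j u hu, hmod j u hu] at h1
        exact h1
      have hys : ∀ j < nn, ∀ u < Q₀, y (Q₀ * j + u + 1) = S (runD f (i j) u
          ((𝒜.χ (𝒜.ix (x j))).symm (kick (w j) (Q j)))) (y (Q₀ * j + u)) := by
        intro j hj u hu
        have h1 := (hyj (Q₀ * j + u) (hlt j u hj hu)).1
        rw [hX] at h1
        dsimp only at h1
        rw [hdiv j u hu, hmod j u hu] at h1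
        exact h1
      have hyC : ∀ j < nn, y (Q₀ * j) ∈
          interior (C' (finProdFinEquiv (i j 0, σ (𝒜.ix (x j), α j)))) := by
        intro j hj
        apply hCC'
        simpa using hy0 j hj
      have hyD : ∀ j < nn, ∀ u, 1 ≤ u → u < Q₀ → D' ∩ WD (i j u) ∈ 𝓝 (y (Q₀ * j + u)) := by
        intro j hj u hu1 hu
        refine inter_mem ?_ ?_
        · exact mem_interior_iff_mem_nhds.1 (hDD' (mem_iUnion.2 ⟨_, hyu j hj u hu1 hu⟩))
        · exact (hWDo _).mem_nhds (hCWD _ (hyu j hj u hu1 hu))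
      have hGS : ∀ j < nn, ∀ z : V d, ‖z‖ < 2 →
          ∀ y' ∈ C' (finProdFinEquiv (i j 0, σ (𝒜.ix (x j), α j))),
          G (Θ.fn ((𝒜.χ (𝒜.ix (x j))).symm z, y')) =
          Θ.fn (f (i j 0) ((𝒜.χ (𝒜.ix (x j))).symm (kick (w j) z)),
            S ((𝒜.χ (𝒜.ix (x j))).symm (kick (w j) z)) y') := by
        intro j hj z hz y' hy'
        have h1 := hGk _ y' hy' z hz
        simp only [Equiv.symm_apply_apply] at h1
        rw [homj j hj] at h1
        have h2 := (hC'W _ hy').1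
        simp only [Equiv.symm_apply_apply] at h2
        rw [h1, hWF _ _ y' h2]
      have hGu : ∀ j < nn, ∀ u, 1 ≤ u → u < Q₀ → ∀ y' ∈ D' ∩ WD (i j u), ∀ x' : M,
          G (Θ.fn (x', y')) = Θ.fn (f (i j u) x', S x' y') := by
        intro j hj u hu1 hu y' hy' x'
        rw [hGD y' hy'.1, hWDF _ y' hy'.2]
      have ht : 𝒜.c (x 0) ∈ (𝒜.χ (𝒜.ix (x 0))).target :=
        (𝒜.χ (𝒜.ix (x 0))).map_source (𝒜.ix_src (x 0))
      -- the orbit in a block
      have hob : ∀ j < nn, ∀ u < Q₀, G^[u + 1] (Θ.fn ((𝒜.χ (𝒜.ix (x j))).symm (Q j), y (Q₀ * j))) =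
          Θ.fn (runD f (i j) (u + 1) ((𝒜.χ (𝒜.ix (x j))).symm (kick (w j) (Q j))),
            y (Q₀ * j + u + 1)) := by
        intro j hj u
        induction u with
        | zero =>
          intro _
          show G _ = _
          rw [hGS j hj (Q j) (hstep j hj).1 _ (interior_subset (hyC j hj)), hys j hj 0 hQ₀p]
          rfl
        | succ u ih =>
          intro hu
          rw [Function.iterate_succ_apply', ih (by omega), hys j hj (u + 1) hu]
          exact hGu j hj (u + 1) (by omega) hu _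
            (mem_of_mem_nhds (hyD j hj (u + 1) (by omega) hu)) _
      have hQm : Q₀ - 1 + 1 = Q₀ := by omega
      have ho : ∀ j < nn, G^[Q₀] (Θ.fn ((𝒜.χ (𝒜.ix (x j))).symm (Q j), y (Q₀ * j))) =
          Θ.fn ((𝒜.χ (𝒜.ix (x (j + 1)))).symm (Q (j + 1)), y (Q₀ * (j + 1))) := by
        intro j hj
        obtain ⟨hQ2, hQδ, hQs, -⟩ := hstep j hj
        have h1 := hob j hj (Q₀ - 1) (by omega)
        rw [hQm, add_assoc, hQm] at h1
        rw [h1, Nat.mul_succ]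
        congr 2
        rw [hQs]
        obtain ⟨hdom, -⟩ := (hL (i j)).loc (x j) (𝒜.ix (x (j + 1))) (hsrc j hj).1 (hsrc j hj).2
        obtain ⟨-, hs⟩ := hdom _ hQδ
        show runD f (i j) Q₀ _ = (𝒜.χ (𝒜.ix (x (j + 1)))).symm
          (𝒜.χ (𝒜.ix (x (j + 1))) (runD f (i j) Q₀ _))
        rw [(𝒜.χ (𝒜.ix (x (j + 1)))).left_inv hs]
      have hQtar : ∀ j < nn, Q j ∈ (𝒜.χ (𝒜.ix (x j))).target := by
        intro j hj
        apply 𝒜.ball
        rw [mem_closedBall, dist_zero_right]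
        linarith [(hstep j hj).1]
      have hev : ∀ j < nn, ∀ᶠ q in 𝓝 (Q j, y (Q₀ * j)), ∃ y'' : N,
          G^[Q₀] (Θ.fn ((𝒜.χ (𝒜.ix (x j))).symm q.1, q.2)) =
          Θ.fn (runD f (i j) Q₀ ((𝒜.χ (𝒜.ix (x j))).symm (kick (w j) q.1)), y'') := by
        intro j hj
        have h1 := blockStep f (i j) Θ G G.continuous (𝒜.χ (𝒜.ix (x j))) (w j) (Q j) (hQtar j hj)
          (fun u => y (Q₀ * j + u)) Q₀ (by
            have e1 : ∀ᶠ q in 𝓝 (Q j, y (Q₀ * j + 0)), ‖q.1‖ < 2 :=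
              (continuousAt_fst (p := (Q j, y (Q₀ * j + 0)))).norm.eventually
                (gt_mem_nhds (hstep j hj).1)
            have e2 : ∀ᶠ q in 𝓝 (Q j, y (Q₀ * j + 0)),
                q.2 ∈ C' (finProdFinEquiv (i j 0, σ (𝒜.ix (x j), α j))) :=
              (continuousAt_snd (p := (Q j, y (Q₀ * j + 0)))).eventually
                (mem_interior_iff_mem_nhds.1 (hyC j hj))
            filter_upwards [e1, e2] with q h2 h3
            exact ⟨_, hGS j hj q.1 h2 q.2 h3⟩)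
          (fun u hu => hob j hj u hu) (fun u hu1 hu => by
            filter_upwards [hyD j hj u hu1 hu] with y' hy' x'
            exact ⟨_, hGu j hj u hu1 hu y' hy' x'⟩) (Q₀ - 1) (by omega)
        rw [hQm] at h1
        exact h1
      have hfol := followB 𝒜 (fun j => (runD f (i j) Q₀ : M → M)) Θ (G^[Q₀])
        (G.continuous.iterate Q₀) (fun j => hL (i j))
        nn x w Q (fun j => y (Q₀ * j)) (by rw [hQ0]; exact ht) hev ho
        (fun j hj => ⟨(hstep j hj).1, (hstep j hj).2.1, (hstep j hj).2.2.1⟩) hsrc nn le_rfl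
      obtain ⟨H, hHc, hH0, hHe, hHD⟩ := hfol
      obtain ⟨D', hD', hD'U⟩ := hHD (fun j z => (D j z : V d →L[ℝ] V d))
        (fun j hj => (hD j hj).der _ (hstep j hj).2.1) U (fun j hj => (hstep j hj).2.2.2)
      have horb := orbitS Θ.fn (G^[Q₀]) nn (fun j => (𝒜.χ (𝒜.ix (x j))).symm (Q j))
        (fun j => y (Q₀ * j)) ho nn le_rfl
      rw [mul_zero] at hHe horb
      rw [hx, hyn, hQn, hQ0, ← Function.iterate_mul] at horb
      rw [hx, hQ0] at hHe
      rw [hQ0] at hH0 hD'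
      rw [hQn] at hH0
      rw [hU0, hUn] at hD'U
      have hHe' : ∀ᶠ q in 𝓝 (𝒜.c (x 0), y 0),
          (Θ.inv (G^[Q₀ * nn] (Θ.fn ((𝒜.χ (𝒜.ix (x 0))).symm q.1, q.2)))).1 =
            (𝒜.χ (𝒜.ix (x 0))).symm (H q.1) := by
        filter_upwards [hHe] with q hq
        obtain ⟨y', hy'⟩ := hq
        rw [Function.iterate_mul, hy', Θ.left]
      have hno := EmbClo2.main d e n M N T r Θ G (𝒜.χ (𝒜.ix (x 0))) (𝒜.mem _) (y 0) (𝒜.c (x 0)) ht
        (Q₀ * nn) (Nat.mul_pos hQ₀p hnn) H D' (v 0) horb hHe' hD' hH0 (hv0 0 (Nat.zero_le _)) hD'U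
      apply hno
      apply hyp G hGU
      exact ⟨Q₀ * nn, Nat.mul_pos hQ₀p hnn, horb⟩

end Pool.Agent.H20.PT
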