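import Pool.Agent.H20.PT.Two

/-!
# Project PT: the product theorem for bundled systems
-/

set_option autoImplicit false

open scoped Manifold ContDiff Topology

universe u v w

namespace Pool.Agent.H20.PT

open Pool.Agent.H718R2.G Pool.Agent.TH80.OMS Pool.Agent.R773.TE

variable {r : ℕ∞}

theorem Sys.star_of (hr : 1 ≤ r) {X : Sys.{u} r} (h : X.Stable) : Star X.dim X.pt r X.map :=
  h.elim (fun h => star_of_stable hr h) id

theorem Sys.u3 (hr : 1 ≤ r) {X : Sys.{u} r} (h : X.ChainHyp) : X.InU3 :=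
  u3_of_hyp hr X.map h

theorem Sys.prod_chainHyp (hr : 1 ≤ r) {X : Sys.{u} r} {Y : Sys.{v} r} {Z : Sys.{w} r}
    (h : X.IsProduct Y Z) (hX : X.ChainHyp) (hY : Y.ChainHyp) : Z.ChainHyp := by
  obtain ⟨Θ, hΘ⟩ := h
  exact prod_hyp hr X.map Y.map Θ Z.map hΘ hX hY

theorem Sys.factor (hr : 2 ≤ r) (X : Sys.{u} r) : ∃ k₀ : ℕ, ∀ (Y : Sys.{v} r) (Z : Sys.{w} r),
    FullShift k₀ Y.map → X.IsProduct Y Z → Z.Stable → X.ChainHyp := by
  have hr1 : 1 ≤ r := le_trans (by norm_num) hr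
  obtain ⟨k₀, hk⟩ := factor_hyp.{u, v, w} hr X.map
  refine ⟨k₀, fun Y Z hY hP hZ => ?_⟩
  obtain ⟨Θ, hΘ⟩ := hP
  exact hk Y.dim Z.dim Y.pt Z.pt Y.map Θ Z.map hY hΘ (Sys.star_of hr1 hZ)

theorem Sys.IsProduct.swap {X : Sys.{u} r} {Y : Sys.{v} r} {Z : Sys.{w} r}
    (h : X.IsProduct Y Z) : Y.IsProduct X Z := by
  obtain ⟨Θ, hΘ⟩ := h
  exact prod_swap X.map Y.map Θ Z.map hΘ

end Pool.Agent.H20.PT
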