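import Pool.Agent.H20.PT.BlockMain
import Pool.Agent.H20.PT.Law

/-!
# Project PT6: the theorem for bundled systems
-/

set_option autoImplicit false
set_option linter.unusedSectionVars false

open scoped Manifold ContDiff Topology

universe u v w

namespace Pool.Agent.H20.PT

open Pool.Agent.H718R2.G Pool.Agent.R773.TE

theorem Sys.hosts_law {r : ℕ∞} (hr : 2 ≤ r) {d : ℕ} {M : Type u} [MetricSpace M] [CompactSpace M]
    [ChartedSpace (V d) M] [IsManifold (𝓡 d) ∞ M] {s : ℕ} (f : Fin s → DiffM d M r) :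
    ∃ K : ℕ, ∀ F : Sys.{w} r, Sys.Hosts.{u, v, w} F f K → F.Stable →
      ∀ l : List (Fin s), l ≠ [] → Sys.InU3 ⟨d, M, wordD f l⟩ := by
  have hr1 : 1 ≤ r := le_trans (by norm_num) hr
  obtain ⟨K, -, hK⟩ := familyB_hyp.{u, v, w} hr f
  refine ⟨K, fun F hF hFs l hl => ?_⟩
  obtain ⟨N, Θ, S, Q, C, D, hQ, hS, hP, hPD⟩ := hF
  exact Sys.u3 hr1 (X := ⟨d, M, wordD f l⟩)
    (hK Q hQ (K ^ Q) le_rfl N.dim F.dim N.pt F.pt S C D Θ F.map hS hP hPD (Sys.star_of hr1 hFs) l hl)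

end Pool.Agent.H20.PT
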