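import Pool.Agent.H20.PT.Hyp
import Pool.Agent.H20.PT.Pert

/-!
# Project PT2 (Cartesian powers): definitions and statements
-/

set_option autoImplicit false
set_option linter.unusedSectionVars false

open scoped Manifold ContDiff Topology
open Filter Set Metric

universe u v w

namespace Pool.Agent.H20.PT

open Pool.Agent.H718R2.G Pool.Agent.TH80.OMS Pool.Agent.Y504.CO Pool.Agent.R773.TE
open Pool.Agent.H721R2 (IsTangentNorm)

/-- As `FullShift k (g^Q)`; moreover the periodic orbits which realize the words are in a closed set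
`D`, disjoint from the sets `C a`, at all times which are not multiples of `Q`. -/
def ClockShift {N : Type v} [TopologicalSpace N] (k Q : ℕ) (g : N → N) : Prop :=
  ∃ (C : Fin k → Set N) (D : Set N), (∀ a, IsClosed (C a)) ∧
    (∀ a b, a ≠ b → Disjoint (C a) (C b)) ∧ IsClosed D ∧ (∀ a, Disjoint (C a) D) ∧
    ∀ (n : ℕ) (s : ℕ → Fin k), 1 ≤ n → ∃ y : N, g^[Q * n] y = y ∧
      (∀ j < n, g^[Q * j] y ∈ C (s j)) ∧ ∀ i : ℕ, ¬ Q ∣ i → g^[i] y ∈ D

/-- PERTH. As `S_PERTG`, and `G = F` on `M × D` for a given closed set `D` disjoint from the `C a`.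
(The same construction; the cut-off functions `θ a` vanish on `D`.) -/
def S_PERTH : Prop :=
  ∀ (d e n : ℕ) (M : Type u) [TopologicalSpace M] [T2Space M] [CompactSpace M]
    [ChartedSpace (V d) M] [IsManifold (𝓡 d) ∞ M]
    (N : Type v) [TopologicalSpace N] [T2Space N] [CompactSpace N]
    [ChartedSpace (V e) N] [IsManifold (𝓡 e) ∞ N]
    (T : Type w) [TopologicalSpace T] [T2Space T] [CompactSpace T]
    [ChartedSpace (V n) T] [IsManifold (𝓡 n) ∞ T] (r : ℕ∞), 1 ≤ r →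
    ∀ (𝒜 : Atl d M) (Θ : ProdDiff n d e T M N) (F : DiffM n T r)
      (U : Set (DiffM n T r)), IsOpen[strongTop n T r] U → F ∈ U →
    ∀ (k : ℕ) (C : Fin k → Set N) (D : Set N), (∀ a, IsClosed (C a)) →
    (∀ a b, a ≠ b → Disjoint (C a) (C b)) → IsClosed D → (∀ a, Disjoint (C a) D) →
    ∀ c : Fin k → Fin 𝒜.q, ∃ κ₀ : ℝ, 0 < κ₀ ∧ κ₀ ≤ 1 / 10 ∧ ∀ w : Fin k → Kp d, (∀ a, ‖w a‖ ≤ κ₀) →
      ∃ G ∈ U, (∀ a, ∀ y ∈ C a, ∀ z : V d, ‖z‖ < 2 →
        G (Θ ((𝒜.χ (c a)).symm z, y)) = F (Θ ((𝒜.χ (c a)).symm (kick (w a) z), y))) ∧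
        ∀ y ∈ D, ∀ x : M, G (Θ (x, y)) = F (Θ (x, y))

/-- POW. From an iterate to the map. `SplitOn (f^Q) K Nm C a` gives `SplitOn f K Nm C' (a^(1/Q))`:
the tangent map of `f` is bounded, `Nm (Df v) ≤ c Nm v` (compare `tnm_compare` in
`Pool/Graph/R_seed8/H721R2/Riem.lean`, or `compare_all` in `Pool/Agent/H10/PT/E2.lean`), same for `f⁻¹`;
write `k = Q p + i`. And `NoB (f^Q) K Nm → NoB f K Nm` trivially (subsequence of times; `f ^ Q` is the
power in the group of homeomorphisms, `(f ^ Q)^[k] = f^[Q * k]`). -/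
def S_POW : Prop :=
  ∀ (d : ℕ) (M : Type u) [MetricSpace M] [CompactSpace M] [ChartedSpace (V d) M]
    [IsManifold (𝓡 d) ∞ M] [IsManifold 𝓘(ℝ, V d) 1 M] (f : M ≃ₜ M),
    ContMDiff 𝓘(ℝ, V d) 𝓘(ℝ, V d) 1 f → ContMDiff 𝓘(ℝ, V d) 𝓘(ℝ, V d) 1 f.symm →
    ∀ (Nm : TangentBundle 𝓘(ℝ, V d) M → ℝ), IsTangentNorm Nm → ∀ Q : ℕ, 1 ≤ Q → ∀ K : Set M,
    (∀ C a : ℝ, 0 < a → a < 1 → SplitOn (f ^ Q) K Nm C a →
      ∃ C' a' : ℝ, 0 < a' ∧ a' < 1 ∧ SplitOn f K Nm C' a') ∧
    (NoB (f ^ Q) K Nm → NoB f K Nm)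

/-- CRP. Chain recurrent points of `f` are chain recurrent for `f^Q`: repeat a closed `ε`-chain `Q`
times (its length becomes a multiple of `Q`) and group the steps by `Q`, `ε` small for uniform
continuity of `f, …, f^Q`. -/
def S_CRP : Prop :=
  ∀ (X : Type u) [MetricSpace X] [CompactSpace X] (f : X ≃ₜ X) (Q : ℕ), 1 ≤ Q →
    Pool.Agent.H728R2.OS.ChainRec f ⊆ Pool.Agent.H728R2.OS.ChainRec (f ^ Q)

/-- K1. `FullShift k g → FullShift k (g^p)`, `p ≥ 1` (words with arbitrary letters at the times which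
are not multiples of `p`). -/
def S_K1 : Prop :=
  ∀ (N : Type v) [TopologicalSpace N] (g : N → N) (k p : ℕ), 1 ≤ p → FullShift k g →
    FullShift k (g^[p])

/-- K2. Full shifts of products: `C (a, b) = Θ '' (C a ×ˢ C' b)`. -/
def S_K2 : Prop :=
  ∀ (M : Type u) [TopologicalSpace M] (N : Type v) [TopologicalSpace N] (T : Type w)
    [TopologicalSpace T] (Θ : M × N ≃ₜ T) (f : M → M) (g : N → N) (F : T → T), IsProd Θ F f g →
    ∀ k k' : ℕ, FullShift k f → FullShift k' g → FullShift (k * k') F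

/-- K3. A clock in the first factor: `f` has a periodic point `z` of minimal period `Q` and `g^Q` has a
full shift on `k` symbols: `C a = Θ '' ({z} ×ˢ C' a)`, `D = Θ '' ({f^i z | 0 < i < Q} ×ˢ univ)`. -/
def S_K3 : Prop :=
  ∀ (M : Type u) [TopologicalSpace M] [T2Space M] (N : Type v) [TopologicalSpace N] (T : Type w)
    [TopologicalSpace T] (Θ : M × N ≃ₜ T) (f : M → M) (g : N → N) (F : T → T), IsProd Θ F f g →
    ∀ (k Q : ℕ) (z : M), 1 ≤ Q → Function.minimalPeriod f z = Q → FullShift k (g^[Q]) →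
    ClockShift k Q F

/-- K4. If `g^q` has a full shift on two symbols then `g` has a periodic point whose minimal period is
a multiple of `q`: take the word `1 0 … 0` of length `q` and the point `y` for it: its minimal period
under `g^q` is `q` (for `0 < j < q`, `g^{qj} y ∈ C 0`, `y ∈ C 1`), and it divides the minimal period `Q` of
`y` under `g` since `(g^q)^Q y = y`. -/
def S_K4 : Prop :=
  ∀ (N : Type v) [TopologicalSpace N] (g : N → N) (q : ℕ), 1 ≤ q → FullShift 2 (g^[q]) →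
    ∃ z : N, 1 ≤ Function.minimalPeriod g z ∧ q ∣ Function.minimalPeriod g z

end Pool.Agent.H20.PT
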