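import Pool.Agent.H15.PT.Pert
import Pool.Agent.H20.PT.Pow

/-!
# Project PT2: kicks which vanish over a closed set (the construction of `Pool/Agent/H15/PT/PertG.lean`
of helper15)
-/

set_option autoImplicit false
set_option linter.unusedSectionVars false

open scoped Manifold ContDiff Topology NNReal
open Filter Set Metric

universe u v w

namespace Pool.Agent.H20.PT.PertH

open Pool.Agent.H718R2.G Pool.Agent.H20.PT Pool.Agent.R773.TE Pool.Agent.W564.SC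
open Pool.Agent.H15.PT

theorem perth : S_PERTH.{u, v, w} := by
  intro d e n M _ _ _ _ _ N _ _ _ _ _ T _ _ _ _ _ r hr 𝒜 Θ G U hU hGU k C D hC hdis hD hCD c
  obtain ⟨F, F', κ, hκ, hκ10, hF, hkick⟩ := kick_family d
  by_cases hT : Nonempty T
  swap
  · refine ⟨1 / 10, by norm_num, le_refl _, fun w _ => ⟨G, hGU, fun a y _ z _ => ?_,
      fun y _ x => rfl⟩⟩
    exact absurd ⟨Θ ((𝒜.χ (c a)).symm z, y)⟩ hT
  obtain ⟨p₀⟩ := hT
  -- cut-off functions
  have hθ : ∀ a : Fin k, ∃ θ : N → ℝ, ContMDiff (𝓡 e) 𝓘(ℝ, ℝ) ∞ θ ∧ (∀ y ∈ C a, θ y = 1) ∧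
      (∀ b, b ≠ a → ∀ y ∈ C b, θ y = 0) ∧ ∀ y ∈ D, θ y = 0 := by
    intro a
    have h1 : IsClosed ((⋃ b ∈ {b : Fin k | b ≠ a}, C b) ∪ D) :=
      (Set.Finite.isClosed_biUnion (Set.toFinite _) (fun b _ => hC b)).union hD
    have h2 : Disjoint ((⋃ b ∈ {b : Fin k | b ≠ a}, C b) ∪ D) (C a) := by
      rw [Set.disjoint_union_left, Set.disjoint_iUnion₂_left]
      exact ⟨fun b hb => hdis b a hb, (hCD a).symm⟩
    obtain ⟨θ, t1, t2, -⟩ := exists_contMDiffMap_zero_one_of_isClosed (𝓡 e) (n := ⊤) h1 (hC a) h2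
    refine ⟨θ, θ.contMDiff, fun y hy => t2 hy, fun b hb y hy => ?_, fun y hy => ?_⟩
    · exact t1 (Or.inl (mem_iUnion₂.2 ⟨b, hb, hy⟩))
    · exact t1 (Or.inr hy)
  choose θ hθs hθ1 hθ0 hθD using hθ
  obtain ⟨Φ, h1, h2, h3, h4⟩ := many (n := n) r Θ 𝒜 c hF θ hθs Finset.univ
  have hfam : IsFam n T r (fun w : Fin k → Kp d => (Φ w).trans G) := by
    intro p
    exact (G.contMDiff.comp h1).contMDiffAt
  have h0 : (Φ 0).trans G = G := by
    ext p
    show G (Φ 0 p) = G p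
    rw [h2]
  obtain ⟨κ', hκ', hmem⟩ := Pool.Agent.TH80.CLX.fam_mem r hr
    (fun w : Fin k → Kp d => (Φ w).trans G) hfam p₀ U hU (by
      show (Φ 0).trans G ∈ U
      rw [h0]; exact hGU)
  refine ⟨min κ (κ' / 2), lt_min hκ (by positivity), (min_le_left _ _).trans hκ10, fun w hw => ?_⟩
  refine ⟨(Φ w).trans G, hmem w ?_, ?_, ?_⟩
  · have h5 : ‖w‖ ≤ κ' / 2 :=
      (pi_norm_le_iff_of_nonneg (by positivity)).2 fun a => (hw a).trans (min_le_right _ _)
    linarith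
  · intro a y hy z hz
    show G (Φ w (Θ ((𝒜.χ (c a)).symm z, y))) = _
    have hz3 : z ∈ (𝒜.χ (c a)).target := by
      apply 𝒜.ball
      rw [mem_closedBall, dist_zero_right]
      linarith
    rw [h4 w _ y a (Finset.mem_univ a) (fun b _ hb => hθ0 b a hb.symm y hy), hθ1 a y hy, one_smul,
      tr_source ((𝒜.χ (c a)).map_target hz3), (𝒜.χ (c a)).right_inv hz3,
      hkick (w a) z ((hw a).trans (min_le_left _ _)) hz.le]
  · intro y hy x
    show G (Φ w (Θ (x, y))) = _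
    rw [h3 w x y fun a _ => hθD a y hy]

end Pool.Agent.H20.PT.PertH
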