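import Pool.Agent.H20.PT.PowAbc
import Pool.Agent.H20.PT.Law

/-!
# Project PT2: the factor theorem with a clock
-/

set_option autoImplicit false
set_option linter.unusedSectionVars false

open scoped Manifold ContDiff Topology
open Filter Set Metric

universe u v w

namespace Pool.Agent.H20.PT

open Pool.Agent.H718R2.G Pool.Agent.TH80.OMS Pool.Agent.Y504.CO Pool.Agent.R773.TE
open Pool.Agent.H728R2.OS (ChainRec NoCycle)
open Pool.Agent.H721R2 (IsTangentNorm)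

section

variable {d : ℕ} {M : Type u} [MetricSpace M] [CompactSpace M] [ChartedSpace (V d) M]
    [IsManifold (𝓡 d) ∞ M] {r : ℕ∞}

theorem SplitOn.mono' [IsManifold 𝓘(ℝ, V d) 1 M] {f : M ≃ₜ M} {K K' : Set M} (h : K' ⊆ K)
    {Nm : TangentBundle 𝓘(ℝ, V d) M → ℝ} {C a : ℝ} (hs : SplitOn f K Nm C a) :
    SplitOn f K' Nm C a := fun x hx v => hs x (h hx) v

theorem NoB.mono' [IsManifold 𝓘(ℝ, V d) 1 M] {f : M ≃ₜ M} {K K' : Set M} (h : K' ⊆ K)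
    {Nm : TangentBundle 𝓘(ℝ, V d) M → ℝ} (hs : NoB f K Nm) :
    NoB f K' Nm := fun x hx v B h1 h2 => hs x (h hx) v B h1 h2

/-- The factor theorem with a clock: `f × g` is a star diffeomorphism and `g` has `k₀` symbols at the
times which are multiples of `Q`. -/
theorem factorQ_hyp (hPERTH : S_PERTH.{u, v, w}) (hPOW : S_POW.{u}) (hCRP : S_CRP.{u})
    (hr : 2 ≤ r) (f : DiffM d M r) {Q : ℕ} (hQ : 1 ≤ Q) :
    ∃ k₀ : ℕ, ∀ (e n : ℕ) (N : Type v) [TopologicalSpace N] [T2Space N] [CompactSpace N]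
      [ChartedSpace (V e) N] [IsManifold (𝓡 e) ∞ N]
      (T : Type w) [TopologicalSpace T] [T2Space T] [CompactSpace T]
      [ChartedSpace (V n) T] [IsManifold (𝓡 n) ∞ T] (g : DiffM e N r) (Θ : ProdDiff n d e T M N)
      (F : DiffM n T r), ClockShift k₀ Q g → IsProd Θ F f g → Star n T r F →
      ChainHypM (d := d) f.toHomeomorph := by
  have : IsManifold 𝓘(ℝ, V d) 1 M := IsManifold.of_le (m := 1) (n := ∞) (by simp)
  have hr1 : (1 : WithTop ℕ∞) ≤ (r : WithTop ℕ∞) := by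
    exact_mod_cast (le_trans (by norm_num) hr : (1 : ℕ∞) ≤ r)
  obtain ⟨𝒜⟩ := hATL.{u} d M
  obtain ⟨L, δ, hL⟩ := hLOC.{u} d M r (iterD f Q) 𝒜 hr
  rw [iterD_coe] at hL
  obtain ⟨k₀, hk⟩ := abcQ.{u, v, w} hCTL hNET hPERTH hCLO hr 𝒜 f hQ hL
  refine ⟨k₀, fun e n N _ _ _ _ _ T _ _ _ _ _ g Θ F hS hP hF => ?_⟩
  obtain ⟨κ, hκ, hκ2, hNC⟩ := hk e n N T g Θ F hS hP hF
  obtain ⟨Nm, hNm⟩ := hNM d M
  have hcoe : ⇑(f.toHomeomorph ^ Q) = f^[Q] := homeo_pow_coe _ _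
  have hsm : ContMDiff 𝓘(ℝ, V d) 𝓘(ℝ, V d) 1 (f.toHomeomorph ^ Q) := by
    rw [hcoe, ← iterD_coe]
    exact (iterD f Q).contMDiff.of_le hr1
  have hsm' : ContMDiff 𝓘(ℝ, V d) 𝓘(ℝ, V d) 1 (f.toHomeomorph ^ Q).symm := by
    have h1 : ⇑(f.toHomeomorph ^ Q).symm = ⇑(iterD f Q).symm := by
      funext x
      have h2 : (f.toHomeomorph ^ Q) ((iterD f Q).symm x) = x := by
        rw [hcoe, ← iterD_coe]
        exact (iterD f Q).apply_symm_apply x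
      rw [← h2, Homeomorph.symm_apply_apply, h2]
    rw [h1]
    exact (iterD f Q).symm.contMDiff.of_le hr1
  have hL' : LocC 𝒜 ⇑(f.toHomeomorph ^ Q) L δ := by
    rw [hcoe]
    exact hL
  have hNC' : NoChain 𝒜 ⇑(f.toHomeomorph ^ Q) κ := by
    rw [hcoe]
    exact hNC
  obtain ⟨⟨C, a, ha, ha1, h1⟩, h2⟩ := split_of_noChain hDICH hNB hG1 hG2 hCRI hE2 hCS 𝒜
    (f.toHomeomorph ^ Q) hsm hsm' hL' hκ hκ2 hNC' Nm hNm
  have hsub := hCRP M f.toHomeomorph Q hQ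
  obtain ⟨hcl, hinv⟩ := hCRI M f.toHomeomorph
  have hf1 : ContMDiff 𝓘(ℝ, V d) 𝓘(ℝ, V d) 1 f.toHomeomorph := f.contMDiff.of_le hr1
  have hf2 : ContMDiff 𝓘(ℝ, V d) 𝓘(ℝ, V d) 1 f.toHomeomorph.symm := f.symm.contMDiff.of_le hr1
  obtain ⟨hp1, hp2⟩ := hPOW d M f.toHomeomorph hf1 hf2 Nm hNm Q hQ (ChainRec f.toHomeomorph)
  obtain ⟨C', a', ha', ha1', h1'⟩ := hp1 C a ha ha1 (h1.mono' hsub)
  exact hE1 d M f.toHomeomorph hf1 hf2 (ChainRec f.toHomeomorph) hcl hinv Nm hNm C' a' ha' ha1' h1'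
    (hp2 (h2.mono' hsub))

end

end Pool.Agent.H20.PT
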