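import Pool.Agent.H20.PT.Grow
import Pool.Agent.H20.PT.PertH
import Pool.Agent.H20.PT.PowMain
import Pool.Agent.H10.PT.Pow
import Pool.Agent.H10.PT.Crp

/-!
# Project PT5: products with a factor of large entropy
-/

set_option autoImplicit false
set_option linter.unusedSectionVars false

open scoped Manifold ContDiff Topology
open Filter Set Metric

universe u v w

namespace Pool.Agent.H20.PT

open Pool.Agent.H718R2.G Pool.Agent.TH80.OMS Pool.Agent.Y504.CO Pool.Agent.R773.TE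
open Pool.Agent.H728R2.OS (ChainRec NoCycle)
open Pool.Agent.H721R2 (IsTangentNorm)

/-- An `Ω`-stable product whose second factor has sufficiently many symbols, at the times which are
multiples of `Q`, has no closed chains of vectors for `f^Q`: `m` is the size of a net. -/
theorem abcQn (hCTL : S_CTL) (hPERTH : S_PERTH.{u, v, w}) (hCLO : S_CLO.{u, v, w})
    {d : ℕ} {M : Type u} [TopologicalSpace M] [T2Space M] [CompactSpace M]
    [ChartedSpace (V d) M] [IsManifold (𝓡 d) ∞ M] {r : ℕ∞} (hr : 2 ≤ r)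
    (𝒜 : Atl d M) (f : DiffM d M r) {Q₀ : ℕ} (hQ₀ : 1 ≤ Q₀) {L δ : ℝ}
    (hL : LocC 𝒜 (f^[Q₀]) L δ) {m : ℕ} (hm : Net d (120 * L ^ 3) m) :
    ∀ (e n : ℕ) (N : Type v) [TopologicalSpace N] [T2Space N] [CompactSpace N]
      [ChartedSpace (V e) N] [IsManifold (𝓡 e) ∞ N]
      (T : Type w) [TopologicalSpace T] [T2Space T] [CompactSpace T]
      [ChartedSpace (V n) T] [IsManifold (𝓡 n) ∞ T] (g : DiffM e N r) (Θ : ProdDiff n d e T M N)
      (F : DiffM n T r), ClockShift (𝒜.q * (m + 1)) Q₀ g → IsProd Θ F f g → Star n T r F →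
      ∃ κ : ℝ, 0 < κ ∧ κ ≤ 1 / 2 ∧ NoChain 𝒜 (f^[Q₀]) κ := by
  have hr1 : 1 ≤ r := le_trans (by norm_num) hr
  have hL1 := hL.one_le
  have hL3 : 1 ≤ 120 * L ^ 3 := by nlinarith [one_le_pow₀ (n := 3) hL1]
  obtain ⟨σ⟩ : Nonempty ((Fin 𝒜.q × Option (Fin m)) ≃ Fin (𝒜.q * (m + 1))) :=
    ⟨Fintype.equivFinOfCardEq (by simp)⟩
  intro e n N _ _ _ _ _ T _ _ _ _ _ g Θ F hS hP hF
  obtain ⟨C, D₀, hCc, hCd, hD₀, hCD, hCs⟩ := hS
  obtain ⟨U₀, hU₀, hFU, hyp⟩ := hF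
  obtain ⟨κ', hκ', hκ10, hG⟩ := hPERTH d e n M N T r hr1 𝒜 Θ F U₀ hU₀ hFU _ C D₀ hCc hCd hD₀ hCD
    (fun a => (σ.symm a).1)
  set κ₀ := min κ' δ with hκ₀
  have hκ₀p : 0 < κ₀ := lt_min hκ' hL.pos
  obtain ⟨p, hp1, hp2⟩ := hm κ₀ hκ₀p
  refine ⟨κ₀ / (120 * L ^ 3), by positivity, ?_, ?_⟩
  · rw [div_le_iff₀ (by positivity)]
    have := min_le_right κ' δ
    have := hL.le
    nlinarith
  · intro nn x v hnn hx hv hv0 hnear hvec
    have hsrc : ∀ j < nn, f^[Q₀] (x j) ∈ (𝒜.χ (𝒜.ix (x (j + 1)))).source ∧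
        ‖𝒜.χ (𝒜.ix (x (j + 1))) (f^[Q₀] (x j))‖ ≤ 3 / 2 := by
      intro j hj
      obtain ⟨h1, h2⟩ := hnear j hj
      refine ⟨h1, ?_⟩
      have h3 := 𝒜.ix_lt (x (j + 1))
      have h4 : κ₀ / (120 * L ^ 3) ≤ 1 / 2 := by
        rw [div_le_iff₀ (by positivity)]
        have := min_le_right κ' δ
        have := hL.le
        nlinarith
      have h5 : ‖𝒜.χ (𝒜.ix (x (j + 1))) (f^[Q₀] (x j))‖ ≤
          ‖𝒜.χ (𝒜.ix (x (j + 1))) (f^[Q₀] (x j)) - 𝒜.c (x (j + 1))‖ + ‖𝒜.c (x (j + 1))‖ := by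
        simpa using norm_add_le (𝒜.χ (𝒜.ix (x (j + 1))) (f^[Q₀] (x j)) - 𝒜.c (x (j + 1)))
          (𝒜.c (x (j + 1)))
      unfold Atl.c at h5 h2
      linarith
    have hDe : ∀ j, ∃ D : V d → (V d ≃L[ℝ] V d), j < nn →
        LMap L δ (𝒜.c (x j)) (𝒜.χ (𝒜.ix (x (j + 1))) (f^[Q₀] (x j)))
          (𝒜.loc (f^[Q₀]) (𝒜.ix (x j)) (𝒜.ix (x (j + 1)))) D := by
      intro j
      by_cases hj : j < nn
      · obtain ⟨-, D, hD⟩ := hL.loc (x j) (𝒜.ix (x (j + 1))) (hsrc j hj).1 (hsrc j hj).2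
        exact ⟨D, fun _ => hD⟩
      · exact ⟨fun _ => ContinuousLinearEquiv.refl ℝ (V d), fun h => absurd h hj⟩
    choose D hD using hDe
    obtain ⟨w, Q, U, hw, hwl, hQ0, hQn, hU0, hUn, hstep⟩ := hCTL d L δ κ₀ hL1 hL.pos hL.le hκ₀p
      (min_le_right _ _) (range p) (by
        intro w hw
        obtain ⟨a, ha⟩ := hp2 w hw
        exact ⟨p a, mem_range_self a, ha⟩) nn (fun j => 𝒜.c (x j))
      (fun j => 𝒜.χ (𝒜.ix (x (j + 1))) (f^[Q₀] (x j))) v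
      (fun j => 𝒜.loc (f^[Q₀]) (𝒜.ix (x j)) (𝒜.ix (x (j + 1)))) D hnn
      (fun j _ => (𝒜.ix_lt (x j)).le) (fun j hj => hD j hj) (by simp only [hx]) hv hv0
      (fun j hj => (hnear j hj).2) (by
        intro j hj
        have h1 := hvec j hj
        have h2 := ((hD j hj).der (𝒜.c (x j)) (by simpa using hL.pos)).fderiv
        rw [h2] at h1
        exact h1)
    have hae : ∀ j, ∃ a : Option (Fin m), (j + 1 < nn → ∃ b, a = some b ∧ p b = w j) ∧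
        (¬ j + 1 < nn → a = none) := by
      intro j
      by_cases hj : j + 1 < nn
      · obtain ⟨b, hb⟩ := hw j hj
        exact ⟨some b, fun _ => ⟨b, rfl, hb⟩, fun h => absurd hj h⟩
      · exact ⟨none, fun h => absurd h hj, fun _ => rfl⟩
    choose α hα1 hα2 using hae
    obtain ⟨om, hom⟩ : ∃ om : Fin 𝒜.q × Option (Fin m) → Kp d,
        om = fun b => (b.2.elim (w (nn - 1)) p) := ⟨_, rfl⟩
    have homn : ∀ a, ‖om (σ.symm a)‖ ≤ κ' := by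
      intro a
      rw [hom]
      dsimp only
      rcases (σ.symm a).2 with _ | b
      · exact (hwl (nn - 1) (by omega) (by omega)).trans (min_le_left _ _)
      · exact (hp1 b).trans (min_le_left _ _)
    obtain ⟨G, hGU, hGk, hGD⟩ := hG (fun a => om (σ.symm a)) homn
    obtain ⟨y₀, hy₀, hyj, hyD⟩ := hCs nn (fun j => σ (𝒜.ix (x j), α j)) hnn
    have homj : ∀ j < nn, om (𝒜.ix (x j), α j) = w j := by
      intro j hj
      rw [hom]
      dsimp only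
      by_cases h1 : j + 1 < nn
      · obtain ⟨b, hb, hpb⟩ := hα1 j h1
        rw [hb]
        exact hpb
      · rw [hα2 j h1]
        have : j = nn - 1 := by omega
        rw [this]
        rfl
    -- the steps between two kicks
    have hbet : ∀ (j : ℕ) (i : ℕ), i + 1 ≤ Q₀ → ∀ x' : M,
        G^[i] (Θ (f x', g^[Q₀ * j + 1] y₀)) = Θ (f^[i + 1] x', g^[Q₀ * j + (i + 1)] y₀) := by
      intro j i
      induction i with
      | zero => intro _ x'; rfl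
      | succ i ih =>
        intro hi x'
        rw [Function.iterate_succ_apply', ih (by omega) x', hGD, hP]
        · rw [← Function.iterate_succ_apply' f, ← Function.iterate_succ_apply' g]
          rfl
        · apply hyD
          rw [Nat.dvd_add_right (Nat.dvd_mul_right Q₀ j)]
          exact Nat.not_dvd_of_pos_of_lt (by omega) (by omega)
    have hiter : ∀ (h : N → N) (j : ℕ) (y : N), (h^[Q₀])^[j] y = h^[Q₀ * j] y := by
      intro h j y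
      rw [← Function.iterate_mul]
    have hfol := follow 𝒜 (f^[Q₀]) (g^[Q₀]) Θ (G^[Q₀]) hL nn x w Q y₀ (by
        intro j hj z hz
        have h1 := hGk (σ (𝒜.ix (x j), α j)) (g^[Q₀ * j] y₀) (hyj j hj) z hz
        simp only [Equiv.symm_apply_apply] at h1
        rw [homj j hj, hP] at h1
        rw [hiter, hiter]
        obtain ⟨q', rfl⟩ : ∃ q', Q₀ = q' + 1 := ⟨Q₀ - 1, by omega⟩
        rw [Function.iterate_succ_apply, h1, ← Function.iterate_succ_apply' g, hbet j q' le_rfl]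
        rw [mul_add, mul_one])
      (fun j hj => ⟨(hstep j hj).1, (hstep j hj).2.1, (hstep j hj).2.2.1⟩) hsrc nn le_rfl
    obtain ⟨H, hHc, hH0, hHe, hHD⟩ := hfol
    obtain ⟨D', hD', hD'U⟩ := hHD (fun j z => (D j z : V d →L[ℝ] V d))
      (fun j hj => (hD j hj).der _ (hstep j hj).2.1) U (fun j hj => (hstep j hj).2.2.2)
    rw [hx, hiter, hy₀, hQ0] at hHe
    have hHe' : ∀ᶠ z in 𝓝 (𝒜.c (x 0)), G^[Q₀ * nn] (Θ ((𝒜.χ (𝒜.ix (x 0))).symm z, y₀)) =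
        Θ ((𝒜.χ (𝒜.ix (x 0))).symm (H z), y₀) := by
      filter_upwards [hHe] with z hz
      rw [Function.iterate_mul]
      exact hz
    rw [hQ0] at hH0 hD'
    rw [hQn] at hH0
    rw [hU0, hUn] at hD'U
    have ht : 𝒜.c (x 0) ∈ (𝒜.χ (𝒜.ix (x 0))).target :=
      (𝒜.χ (𝒜.ix (x 0))).map_source (𝒜.ix_src (x 0))
    have hno := hCLO d e n M N T r hr1 Θ G (𝒜.χ (𝒜.ix (x 0))) (𝒜.mem _) y₀ (𝒜.c (x 0)) ht
      (Q₀ * nn) (Nat.mul_pos hQ₀ hnn) H D' (v 0) hHe' hD' hH0 (hv0 0 (Nat.zero_le _)) hD'U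
    apply hno
    apply hyp G hGU
    refine ⟨Q₀ * nn, Nat.mul_pos hQ₀ hnn, ?_⟩
    have := hHe'.self_of_nhds
    rw [hH0] at this
    exact this

section

variable {d : ℕ} {M : Type u} [MetricSpace M] [CompactSpace M] [ChartedSpace (V d) M]
    [IsManifold (𝓡 d) ∞ M] {r : ℕ∞}

theorem clock_mono {N : Type v} [TopologicalSpace N] {k k' Q : ℕ} (h : k' ≤ k) {g : N → N}
    (hg : ClockShift k Q g) : ClockShift k' Q g := by
  obtain ⟨C, D, hC, hd, hD, hCD, hs⟩ := hg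
  refine ⟨fun a => C (Fin.castLE h a), D, fun a => hC _, fun a b hab => hd _ _ fun he => hab ?_, hD,
    fun a => hCD _, fun n s hn => ?_⟩
  · exact Fin.castLE_injective h he
  · exact hs n (fun j => Fin.castLE h (s j)) hn

/-- The factor theorem for factors of large entropy: `f × g` is a star diffeomorphism and `g` has
`K^Q` symbols at the times which are multiples of `Q`. -/
theorem factorE_hyp (hr : 2 ≤ r) (f : DiffM d M r) :
    ∃ K : ℕ, 1 ≤ K ∧ ∀ (Q : ℕ), 1 ≤ Q → ∀ (e n : ℕ) (N : Type v) [TopologicalSpace N] [T2Space N] [CompactSpace N]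
      [ChartedSpace (V e) N] [IsManifold (𝓡 e) ∞ N]
      (T : Type w) [TopologicalSpace T] [T2Space T] [CompactSpace T]
      [ChartedSpace (V n) T] [IsManifold (𝓡 n) ∞ T] (g : DiffM e N r) (Θ : ProdDiff n d e T M N)
      (F : DiffM n T r), ClockShift (K ^ Q) Q g → IsProd Θ F f g → Star n T r F →
      ChainHypM (d := d) f.toHomeomorph := by
  have : IsManifold 𝓘(ℝ, V d) 1 M := IsManifold.of_le (m := 1) (n := ∞) (by simp)
  have hr1 : (1 : WithTop ℕ∞) ≤ (r : WithTop ℕ∞) := by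
    exact_mod_cast (le_trans (by norm_num) hr : (1 : ℕ∞) ≤ r)
  obtain ⟨𝒜⟩ := hATL.{u} d M
  obtain ⟨L₀, δ₀, hL₀⟩ := hLOC.{u} d M r f 𝒜 hr
  have hL₀1 := hL₀.one_le
  obtain ⟨m₁, hm₁⟩ : ∃ m₁, Net d (2 * (120 * (2 * L₀ ^ 2) ^ 3)) m₁ := by
    obtain ⟨m, hm⟩ := hNET d (2 * (120 * (2 * L₀ ^ 2) ^ 3)) (by
      have h1 : 1 ≤ 2 * L₀ ^ 2 := by nlinarith
      nlinarith [one_le_pow₀ (n := 3) h1])
    exact ⟨m, hm⟩
  refine ⟨(𝒜.q + 1) * (m₁ + 1), Nat.mul_pos (Nat.succ_pos _) (Nat.succ_pos _),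
    fun Q hQ e n N _ _ _ _ _ T _ _ _ _ _ g Θ F hS hP hF => ?_⟩
  obtain ⟨δ, hL⟩ := hL₀.iter Q hQ
  have hNetQ : Net d (120 * ((2 * L₀ ^ 2) ^ Q) ^ 3) (m₁ ^ Q) := by
    refine (Net.pow (by positivity) hm₁ Q hQ).mono (by positivity) ?_
    have h1 : (120 : ℝ) ≤ 120 ^ Q := le_self_pow₀ (by norm_num) (by omega)
    have h2 : ((2 * L₀ ^ 2) ^ Q) ^ 3 = ((2 * L₀ ^ 2) ^ 3) ^ Q := by
      rw [← pow_mul, ← pow_mul, mul_comm Q 3]
    have h3 : (120 * (2 * L₀ ^ 2) ^ 3) ^ Q = 120 ^ Q * ((2 * L₀ ^ 2) ^ 3) ^ Q := mul_pow _ _ _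
    rw [h2, h3]
    exact mul_le_mul_of_nonneg_right h1 (by positivity)
  have hpow1 : m₁ ^ Q + 1 ≤ (m₁ + 1) ^ Q := by
    exact Nat.succ_le_of_lt (Nat.pow_lt_pow_left (Nat.lt_succ_self m₁) (by omega : Q ≠ 0))
  have hcard : 𝒜.q * (m₁ ^ Q + 1) ≤ ((𝒜.q + 1) * (m₁ + 1)) ^ Q := by
    rw [mul_pow]
    refine Nat.mul_le_mul ?_ ?_
    · exact (Nat.le_succ _).trans (Nat.le_self_pow (by omega) _)
    · exact hpow1
  obtain ⟨κ, hκ, hκ2, hNC⟩ := abcQn.{u, v, w} hCTL PertH.perth hCLO hr 𝒜 f hQ hL hNetQ e n N T g Θ F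
    (clock_mono hcard hS) hP hF
  obtain ⟨Nm, hNm⟩ := hNM d M
  have hcoe : ⇑(f.toHomeomorph ^ Q) = f^[Q] := homeo_pow_coe _ _
  have hsm : ContMDiff 𝓘(ℝ, V d) 𝓘(ℝ, V d) 1 (f.toHomeomorph ^ Q) := by
    rw [hcoe, ← iterD_coe]
    exact (iterD f Q).contMDiff.of_le hr1
  have hsm' : ContMDiff 𝓘(ℝ, V d) 𝓘(ℝ, V d) 1 (f.toHomeomorph ^ Q).symm := by
    have h1 : ⇑(f.toHomeomorph ^ Q).symm = ⇑(iterD f Q).symm := by
      funext x
      have h2 : (f.toHomeomorph ^ Q) ((iterD f Q).symm x) = x := by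
        rw [hcoe, ← iterD_coe]
        exact (iterD f Q).apply_symm_apply x
      rw [← h2, Homeomorph.symm_apply_apply, h2]
    rw [h1]
    exact (iterD f Q).symm.contMDiff.of_le hr1
  have hL' : LocC 𝒜 ⇑(f.toHomeomorph ^ Q) ((2 * L₀ ^ 2) ^ Q) δ := by
    rw [hcoe]
    exact hL
  have hNC' : NoChain 𝒜 ⇑(f.toHomeomorph ^ Q) κ := by
    rw [hcoe]
    exact hNC
  obtain ⟨⟨C, a, ha, ha1, h1⟩, h2⟩ := split_of_noChain hDICH hNB hG1 hG2 hCRI hE2 hCS 𝒜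
    (f.toHomeomorph ^ Q) hsm hsm' hL' hκ hκ2 hNC' Nm hNm
  have hsub := Pool.Agent.H10.PT.Crp.main_CRP M f.toHomeomorph Q hQ
  obtain ⟨hcl, hinv⟩ := hCRI M f.toHomeomorph
  have hf1 : ContMDiff 𝓘(ℝ, V d) 𝓘(ℝ, V d) 1 f.toHomeomorph := f.contMDiff.of_le hr1
  have hf2 : ContMDiff 𝓘(ℝ, V d) 𝓘(ℝ, V d) 1 f.toHomeomorph.symm := f.symm.contMDiff.of_le hr1
  obtain ⟨hp1, hp2⟩ := Pool.Agent.H10.PT.Pw.main_POW d M f.toHomeomorph hf1 hf2 Nm hNm Q hQ (ChainRec f.toHomeomorph)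
  obtain ⟨C', a', ha', ha1', h1'⟩ := hp1 C a ha ha1 (h1.mono' hsub)
  exact hE1 d M f.toHomeomorph hf1 hf2 (ChainRec f.toHomeomorph) hcl hinv Nm hNm C' a' ha' ha1' h1'
    (hp2 (h2.mono' hsub))

end

end Pool.Agent.H20.PT
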