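import Pool.Agent.H20.PT.BlockAbc
import Pool.Agent.H20.PT.EntMain

/-!
# Project PT6: semigroups of diffeomorphisms, driven by a horseshoe of large entropy, in a stable
diffeomorphism
-/

set_option autoImplicit false
set_option linter.unusedSectionVars false

open scoped Manifold ContDiff Topology
open Filter Set Metric

universe u v w

namespace Pool.Agent.H20.PT

open Pool.Agent.H718R2.G Pool.Agent.TH80.OMS Pool.Agent.Y504.CO Pool.Agent.R773.TE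
open Pool.Agent.H728R2.OS (ChainRec NoCycle)
open Pool.Agent.H721R2 (IsTangentNorm)

section

variable {d : ℕ} {M : Type u} [MetricSpace M] [CompactSpace M] [ChartedSpace (V d) M]
    [IsManifold (𝓡 d) ∞ M] {r : ℕ∞}

/-- From the absence of closed chains for an iterate to hyperbolicity. -/
theorem hyp_of_noChain_iter (hr : 2 ≤ r) (𝒜 : Atl d M) (f : DiffM d M r) {Q : ℕ} (hQ : 1 ≤ Q)
    {κ : ℝ} (hκ : 0 < κ) (hκ2 : κ ≤ 1 / 2) (hNC : NoChain 𝒜 (f^[Q]) κ) :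
    ChainHypM (d := d) f.toHomeomorph := by
  have : IsManifold 𝓘(ℝ, V d) 1 M := IsManifold.of_le (m := 1) (n := ∞) (by simp)
  have hr1 : (1 : WithTop ℕ∞) ≤ (r : WithTop ℕ∞) := by
    exact_mod_cast (le_trans (by norm_num) hr : (1 : ℕ∞) ≤ r)
  obtain ⟨L, δ, hL⟩ := hLOC.{u} d M r (iterD f Q) 𝒜 hr
  rw [iterD_coe] at hL
  obtain ⟨Nm, hNm⟩ := hNM d M
  have hcoe : ⇑(f.toHomeomorph ^ Q) = f^[Q] := homeo_pow_coe _ _
  have hsm : ContMDiff 𝓘(ℝ, V d) 𝓘(ℝ, V d) 1 (f.toHomeomorph ^ Q) := by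
    rw [hcoe, ← iterD_coe]
    exact (iterD f Q).contMDiff.of_le hr1
  have hsm' : ContMDiff 𝓘(ℝ, V d) 𝓘(ℝ, V d) 1 (f.toHomeomorph ^ Q).symm := by
    have h1 : ⇑(f.toHomeomorph ^ Q).symm = ⇑(iterD f Q).symm := by
      funext x
      have h2 : (f.toHomeomorph ^ Q) ((iterD f Q).symm x) = x := by
        rw [hcoe, ← iterD_coe]
        exact (iterD f Q).apply_symm_apply x
      rw [← h2, Homeomorph.symm_apply_apply, h2]
    rw [h1]
    exact (iterD f Q).symm.contMDiff.of_le hr1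
  have hL' : LocC 𝒜 ⇑(f.toHomeomorph ^ Q) L δ := by
    rw [hcoe]
    exact hL
  have hNC' : NoChain 𝒜 ⇑(f.toHomeomorph ^ Q) κ := by
    rw [hcoe]
    exact hNC
  obtain ⟨⟨C, a, ha, ha1, h1⟩, h2⟩ := split_of_noChain hDICH hNB hG1 hG2 hCRI hE2 hCS 𝒜
    (f.toHomeomorph ^ Q) hsm hsm' hL' hκ hκ2 hNC' Nm hNm
  have hsub := Pool.Agent.H10.PT.Crp.main_CRP M f.toHomeomorph Q hQ
  obtain ⟨hcl, hinv⟩ := hCRI M f.toHomeomorph
  have hf1 : ContMDiff 𝓘(ℝ, V d) 𝓘(ℝ, V d) 1 f.toHomeomorph := f.contMDiff.of_le hr1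
  have hf2 : ContMDiff 𝓘(ℝ, V d) 𝓘(ℝ, V d) 1 f.toHomeomorph.symm := f.symm.contMDiff.of_le hr1
  obtain ⟨hp1, hp2⟩ := Pool.Agent.H10.PT.Pw.main_POW d M f.toHomeomorph hf1 hf2 Nm hNm Q hQ
    (ChainRec f.toHomeomorph)
  obtain ⟨C', a', ha', ha1', h1'⟩ := hp1 C a ha ha1 (h1.mono' hsub)
  exact hE1 d M f.toHomeomorph hf1 hf2 (ChainRec f.toHomeomorph) hcl hinv Nm hNm C' a' ha' ha1' h1'
    (hp2 (h2.mono' hsub))

/-- A word of the family, iterated `Q` times, is a word of the runs of length `Q`. -/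
theorem word_iter {ι : Type} (f : ι → DiffM d M r) (l : List ι) (hl : l ≠ []) (Q : ℕ) :
    ∃ l' : List (ℕ → ι), l'.length = l.length ∧
      ⇑(wordD (fun b : ℕ → ι => runD f b Q) l') = (wordD f l)^[Q] := by
  obtain ⟨i₀⟩ : Nonempty ι := by
    rcases l with _ | ⟨i, l⟩
    · exact absurd rfl hl
    · exact ⟨i⟩
  have hm : 0 < l.length := List.length_pos_iff.2 hl
  obtain ⟨c, hc⟩ : ∃ c : ℕ → ι, c = fun t => l.reverse.getD (t % l.length) i₀ := ⟨_, rfl⟩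
  have hper : ∀ t, c (l.length + t) = c t := by
    intro t
    rw [hc]
    dsimp only
    rw [Nat.add_mod_left]
  have hw : ∀ x, runD f c l.length x = wordD f l x := by
    intro x
    rw [wordD_run f i₀ l x]
    apply runD_congr
    intro t ht
    rw [hc]
    dsimp only
    rw [Nat.mod_eq_of_lt ht]
  refine ⟨blocks c Q l.length, ?_, ?_⟩
  · have : ∀ p, (blocks c Q p).length = p := by
      intro p
      induction p with
      | zero => rfl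
      | succ p ih =>
        show (_ :: blocks c Q p).length = _
        rw [List.length_cons, ih]
    exact this _
  · funext x
    rw [wordD_blocks, mul_comm, runD_per f c l.length hper]
    have h1 : ⇑(runD f c l.length) = ⇑(wordD f l) := funext hw
    rw [h1]

/-- The main theorem for families driven by horseshoes of large entropy. -/
theorem familyB_hyp (hr : 2 ≤ r) {s : ℕ} (f : Fin s → DiffM d M r) :
    ∃ K : ℕ, 1 ≤ K ∧ ∀ (Q : ℕ), 1 ≤ Q → ∀ (k : ℕ), K ^ Q ≤ k →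
      ∀ (e n : ℕ) (N : Type v) [TopologicalSpace N] [T2Space N] [SigmaCompactSpace N]
      [ChartedSpace (V e) N] [IsManifold (𝓡 e) ∞ N]
      (T : Type w) [TopologicalSpace T] [T2Space T] [CompactSpace T]
      [ChartedSpace (V n) T] [IsManifold (𝓡 n) ∞ T] (S : M → N → N)
      (C : Fin s → Fin k → Set N) (D : Fin s → Set N)
      (Θ : Emb n d e T M N) (F : DiffM n T r), BlockDriver Q S C D →
      (∀ i a, ∀ᶠ y in 𝓝ˢ (C i a), ∀ x, F (Θ.fn (x, y)) = Θ.fn (f i x, S x y)) →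
      (∀ i, ∀ᶠ y in 𝓝ˢ (D i), ∀ x, F (Θ.fn (x, y)) = Θ.fn (f i x, S x y)) → Star n T r F →
      ∀ l : List (Fin s), l ≠ [] → ChainHypM (d := d) (wordD f l).toHomeomorph := by
  have hr1 : 1 ≤ r := le_trans (by norm_num) hr
  obtain ⟨𝒜⟩ := hATL.{u} d M
  obtain ⟨L₀, δ₀, hL1, hδ0, hδ2, hL₀⟩ := locC_fam (𝒜 := 𝒜) (fun i => (f i : M → M))
    fun i => hLOC.{u} d M r (f i) 𝒜 hr
  obtain ⟨m₁, hm₁⟩ : ∃ m₁, Net d (2 * (120 * (2 * L₀ ^ 2) ^ 3)) m₁ := by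
    obtain ⟨m, hm⟩ := hNET d (2 * (120 * (2 * L₀ ^ 2) ^ 3)) (by
      have h1 : 1 ≤ 2 * L₀ ^ 2 := by nlinarith
      nlinarith [one_le_pow₀ (n := 3) h1])
    exact ⟨m, hm⟩
  refine ⟨(𝒜.q + 1) * (m₁ + 1), Nat.mul_pos (Nat.succ_pos _) (Nat.succ_pos _),
    fun Q hQ k hk e n N _ _ _ _ _ T _ _ _ _ _ S C D Θ F hS hP hPD hF l hl => ?_⟩
  obtain ⟨δ, hδ', hδ2', hL⟩ := LocC.run (𝒜 := 𝒜) f hL1 hδ0 hδ2 hL₀ Q hQ
  have hNetQ : Net d (120 * ((2 * L₀ ^ 2) ^ Q) ^ 3) (m₁ ^ Q) := by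
    refine (Net.pow (by positivity) hm₁ Q hQ).mono (by positivity) ?_
    have h1 : (120 : ℝ) ≤ 120 ^ Q := le_self_pow₀ (by norm_num) (by omega)
    have h2 : ((2 * L₀ ^ 2) ^ Q) ^ 3 = ((2 * L₀ ^ 2) ^ 3) ^ Q := by
      rw [← pow_mul, ← pow_mul, mul_comm Q 3]
    have h3 : (120 * (2 * L₀ ^ 2) ^ 3) ^ Q = 120 ^ Q * ((2 * L₀ ^ 2) ^ 3) ^ Q := mul_pow _ _ _
    rw [h2, h3]
    exact mul_le_mul_of_nonneg_right h1 (by positivity)
  have hpow1 : m₁ ^ Q + 1 ≤ (m₁ + 1) ^ Q := by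
    exact Nat.succ_le_of_lt (Nat.pow_lt_pow_left (Nat.lt_succ_self m₁) (by omega : Q ≠ 0))
  have hcard : 𝒜.q * (m₁ ^ Q + 1) ≤ k := by
    refine le_trans ?_ hk
    rw [mul_pow]
    refine Nat.mul_le_mul ?_ ?_
    · exact (Nat.le_succ _).trans (Nat.le_self_pow (by omega) _)
    · exact hpow1
  have hLQ1 : 1 ≤ (2 * L₀ ^ 2) ^ Q := one_le_pow₀ (by nlinarith)
  have hS' : BlockDriver Q S (fun i (a : Fin (𝒜.q * (m₁ ^ Q + 1))) => C i (Fin.castLE hcard a)) D :=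
    ⟨fun i a => hS.compact _ _, hS.compactD, fun i a j b hab => hS.disj _ _ _ _ fun he => hab (by
      obtain ⟨h1, h2⟩ := Prod.ext_iff.1 he
      exact Prod.ext h1 (Fin.castLE_injective hcard h2)), fun i a j => hS.disjD _ _ _,
      fun n x i a hn => hS.word n x i (fun t => Fin.castLE hcard (a t)) hn⟩
  obtain ⟨κ, hκ, hκ2, hNC⟩ := abcB.{u, v, w} hCTL hr 𝒜 f hQ hLQ1 hδ' hδ2' hL hNetQ e n N T S _ D Θ F
    hS' (fun i a => hP i _) hPD hF
  obtain ⟨l', hl'1, hl'2⟩ := word_iter f l hl Q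
  have hl'0 : l' ≠ [] := by
    intro h0
    rw [h0, List.length_nil] at hl'1
    exact hl (List.length_eq_zero_iff.1 hl'1.symm)
  have h1 := Wrd.main d M r hr1 (ℕ → Fin s) 𝒜 (fun b => runD f b Q) κ hκ hNC l' hl'0
  rw [hl'2] at h1
  exact hyp_of_noChain_iter hr 𝒜 (wordD f l) hQ hκ hκ2 h1

end

end Pool.Agent.H20.PT
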