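import Pool.Agent.H20.PT.EntDef

/-!
# Skew products whose fibre maps have horseshoes of large entropy: definition
-/

set_option autoImplicit false

open scoped Manifold ContDiff Topology

universe u v w

namespace Pool.Agent.H20.PT

/-- The maps `S x : N → N`, `x ∈ M`, have a common horseshoe of entropy at least `log K`: for some
`Q ≥ 1` there are `K ^ Q` pairwise disjoint closed sets `C a` and a closed set `D` disjoint from them, such
that for all sequences `x` in `M` and `s` of symbols and all `n ≥ 1` there is a closed orbit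
`y 0, …, y (Q n) = y 0`, `y (t+1) = S (x t) (y t)`, with `y t ∈ C (s t)` at the times `t` which are multiples
of `Q` and `y t ∈ D` at the other times. -/
def FibreRich {M : Type u} {N : Type v} [TopologicalSpace N] (K : ℕ) (S : M → N → N) : Prop :=
  ∃ Q : ℕ, 1 ≤ Q ∧ ∃ (C : Fin (K ^ Q) → Set N) (D : Set N), (∀ a, IsClosed (C a)) ∧
    (∀ a b, a ≠ b → Disjoint (C a) (C b)) ∧ IsClosed D ∧ (∀ a, Disjoint (C a) D) ∧
    ∀ (n : ℕ) (x : ℕ → M) (s : ℕ → Fin (K ^ Q)), 1 ≤ n → ∃ y : ℕ → N, y (Q * n) = y 0 ∧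
      ∀ t < Q * n, y (t + 1) = S (x t) (y t) ∧ (Q ∣ t → y t ∈ C (s t)) ∧ (¬ Q ∣ t → y t ∈ D)

end Pool.Agent.H20.PT
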