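import Pool.Agent.H20.PT.Hyp
import Pool.Agent.H20.PT.Pert

/-!
# Project PT3 (skew products over arbitrary diffeomorphisms): definitions and statements
-/

set_option autoImplicit false
set_option linter.unusedSectionVars false

open scoped Manifold ContDiff Topology
open Filter Set Metric

universe u v w

namespace Pool.Agent.H20.PT

open Pool.Agent.H718R2.G Pool.Agent.TH80.OMS Pool.Agent.Y504.CO Pool.Agent.R773.TE
open Pool.Agent.H721R2 (IsTangentNorm)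
open Pool.Agent.H728R2.OS (ChainRec)

/-- `F` is, in the coordinates `Θ : M × N → T`, the skew product `(x, y) ↦ (f x, S x y)`. -/
def IsSkew {T M N : Type*} (Θ : M × N → T) (F : T → T) (f : M → M) (S : M → N → N) : Prop :=
  ∀ x y, F (Θ (x, y)) = Θ (f x, S x y)

/-- The maps `S x : N → N`, `x ∈ M`, composed in any order, have a full shift on `k` symbols: there
are pairwise disjoint closed sets `C a` such that for all sequences `x 0, …, x (n-1)` in `M` and all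
words `s 0, …, s (n-1)` there is a closed orbit `y 0, …, y n = y 0`, `y (j+1) = S (x j) (y j)`, with
`y j ∈ C (s j)`. -/
def FibreShift {M : Type u} {N : Type v} [TopologicalSpace N] (k : ℕ) (S : M → N → N) : Prop :=
  ∃ C : Fin k → Set N, (∀ a, IsClosed (C a)) ∧ (∀ a b, a ≠ b → Disjoint (C a) (C b)) ∧
    ∀ (n : ℕ) (x : ℕ → M) (s : ℕ → Fin k), 1 ≤ n → ∃ y : ℕ → N, y n = y 0 ∧
      ∀ j < n, y (j + 1) = S (x j) (y j) ∧ y j ∈ C (s j)

/-- `p : W → K` is the universal covering of the torus `K = W / Λ` (as smooth manifolds). -/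
structure IsTorCover {W : Type} [NormedAddCommGroup W] [NormedSpace ℝ W] (Λ : AddSubgroup W)
    (e : ℕ) {K : Type v} [TopologicalSpace K] [ChartedSpace (V e) K] (p : W → K) : Prop where
  smooth : ContMDiff 𝓘(ℝ, W) (𝓡 e) ∞ p
  surj : Function.Surjective p
  eq_iff : ∀ z z', p z = p z' ↔ z - z' ∈ Λ
  der : ∀ z, Function.Bijective (mfderiv 𝓘(ℝ, W) (𝓡 e) p z)

/-- In the coordinates `Θ` the map `F` is `(b, p z) ↦ (f b, p (A^j z + φ b z))`, and `φ` is
`ε`-Lipschitz along the fibres. -/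
def IsTorSkew {W : Type} [NormedAddCommGroup W] [NormedSpace ℝ W] (A : W ≃L[ℝ] W) (j : ℕ) (ε : ℝ)
    {T M K : Type*} (Θ : M × K → T) (p : W → K) (F : T → T) (f : M → M) (φ : M → W → W) : Prop :=
  (∀ b z, F (Θ (b, p z)) = Θ (f b, p ((A ^ j) z + φ b z))) ∧
    ∀ b z z', ‖φ b z - φ b z'‖ ≤ ε * ‖z - z'‖

/-- Nonzero vectors tangent to the fibres of `T → M` have unbounded orbits (in the future or in the
past). -/
def VertUnb {n d e : ℕ} {T : Type w} [TopologicalSpace T] [ChartedSpace (V n) T]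
    [IsManifold 𝓘(ℝ, V n) 1 T] {M : Type u} [TopologicalSpace M] [ChartedSpace (V d) M]
    {N : Type v} [TopologicalSpace N] [ChartedSpace (V e) N] (Θ : ProdDiff n d e T M N)
    (F : T ≃ₜ T) (Nm : TangentBundle 𝓘(ℝ, V n) T → ℝ) : Prop :=
  ∀ (t : T) (v : TangentSpace 𝓘(ℝ, V n) t),
    mfderiv 𝓘(ℝ, V n) 𝓘(ℝ, V d) (fun t : T => (Θ.symm t).1) t v = 0 → ∀ B : ℝ,
    (∀ k : ℕ, Nm (tangentMap 𝓘(ℝ, V n) 𝓘(ℝ, V n) (F^[k]) ⟨t, v⟩) ≤ B) →
    (∀ k : ℕ, Nm (tangentMap 𝓘(ℝ, V n) 𝓘(ℝ, V n) (F.symm^[k]) ⟨t, v⟩) ≤ B) → v = 0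

/-- CLO2. As `S_CLO`, for maps `G^m` which only permute the fibres near the point: `H` is the map of the
first coordinates, and `H` has a fixed vector `v`.
Proof. Let `D'` be the derivative of `ψ ∘ G^m ∘ ψ.symm` at `ψ q`, `q = Θ (χ.symm ξ, y₀)` (from
`IsHyperbolicPer`), and `π z = χ (Θ.symm (ψ.symm z)).1`: near `ψ q`, `π ∘ (ψ G^m ψ.symm) = H ∘ π`, so
`P ∘ D' = D ∘ P` for the derivative `P` of `π`, which is surjective. As `D v = v`, `v ≠ 0`, `D - 1` is not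
surjective, so `P (D' - 1) = (D - 1) P` is not surjective, and `1` is an eigenvalue of `D'`. -/
def S_CLO2 : Prop :=
  ∀ (d e n : ℕ) (M : Type u) [TopologicalSpace M] [ChartedSpace (V d) M] [IsManifold (𝓡 d) ∞ M]
    (N : Type v) [TopologicalSpace N] [ChartedSpace (V e) N] [IsManifold (𝓡 e) ∞ N]
    (T : Type w) [TopologicalSpace T] [ChartedSpace (V n) T] [IsManifold (𝓡 n) ∞ T] (r : ℕ∞), 1 ≤ r →
    ∀ (Θ : ProdDiff n d e T M N) (G : DiffM n T r),
    ∀ χ ∈ IsManifold.maximalAtlas (𝓡 d) ∞ M, ∀ (y₀ : N) (ξ : V d), ξ ∈ χ.target →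
    ∀ (m : ℕ), 1 ≤ m → ∀ (H : V d → V d) (D : V d →L[ℝ] V d) (v : V d),
      G^[m] (Θ (χ.symm ξ, y₀)) = Θ (χ.symm ξ, y₀) →
      (∀ᶠ q in 𝓝 (ξ, y₀), (Θ.symm (G^[m] (Θ (χ.symm q.1, q.2)))).1 = χ.symm (H q.1)) →
      HasFDerivAt H D ξ → H ξ = ξ → v ≠ 0 → D v = v →
      ¬ IsHyperbolicPer n G (Θ (χ.symm ξ, y₀))

/-- SS (Sacker–Sell). If no nonzero vector at a chain recurrent point has a bounded full orbit then
there are no closed `κ`-chains of vectors for some `κ > 0`.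
Proof. Otherwise take closed chains `x^m`, `v^m` with `κ_m → 0`, extended periodically to `t ∈ ℤ`, shifted
and normalized: `‖v^m_t‖ ≤ ‖v^m_0‖ = 1` for all `t` (the maximum over a period). Take limits for all
`t ∈ ℤ` (diagonal sequence or ultrafilter; `M`, the closed unit ball of `V d` and the set of chart indices
are compact): the charts `i_t`, points `x_t` with `f x_t = x_{t+1}`, coordinates `ξ_t = χ_{i_t} x_t`,
`‖ξ_t‖ ≤ 1`, vectors `v_t`, `‖v_t‖ ≤ 1 = ‖v_0‖`, `D (χ_{i_{t+1}} f χ_{i_t}.symm) (ξ_t) v_t = v_{t+1}`. So the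
tangent vectors `ν_t = D χ_{i_t}.symm (v_t)` form an orbit, bounded in the norm `Nm` (compactness),
`ν_0 ≠ 0`, and `x_0` is chain recurrent (the chains are closed `ε_m`-chains in the metric, `ε_m → 0`,
through points which converge to `x_0`; `ChainRec f` is closed). -/
def S_SS : Prop :=
  ∀ (d : ℕ) (M : Type u) [MetricSpace M] [CompactSpace M] [ChartedSpace (V d) M]
    [IsManifold (𝓡 d) ∞ M] [IsManifold 𝓘(ℝ, V d) 1 M] (𝒜 : Atl d M) (f : M ≃ₜ M),
    ContMDiff 𝓘(ℝ, V d) 𝓘(ℝ, V d) 1 f → ContMDiff 𝓘(ℝ, V d) 𝓘(ℝ, V d) 1 f.symm →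
    ∀ (Nm : TangentBundle 𝓘(ℝ, V d) M → ℝ), IsTangentNorm Nm → NoB f (ChainRec f) Nm →
    ∃ κ : ℝ, 0 < κ ∧ κ ≤ 1 / 2 ∧ NoChain 𝒜 f κ

/-- NOBX. If `f` has no bounded orbits of vectors over `K₁` and vertical vectors of the extension `F`
have unbounded orbits then `F` has no bounded orbits of vectors over points `t` with `π t ∈ K₁`,
`π t = (Θ.symm t).1`.
Proof. `π ∘ F = f ∘ π`, so `Dπ` maps bounded orbits to bounded orbits (`NmM (Dπ v) ≤ C NmT v` by
compactness: `Pool.Agent.H10.PT.Pw.bnd` or similar); so `Dπ v = 0`, `v` is vertical. -/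
def S_NOBX : Prop :=
  ∀ (d e n : ℕ) (M : Type u) [TopologicalSpace M] [T2Space M] [CompactSpace M]
    [ChartedSpace (V d) M] [IsManifold (𝓡 d) ∞ M] [IsManifold 𝓘(ℝ, V d) 1 M]
    (N : Type v) [TopologicalSpace N] [T2Space N] [CompactSpace N]
    [ChartedSpace (V e) N] [IsManifold (𝓡 e) ∞ N]
    (T : Type w) [TopologicalSpace T] [T2Space T] [CompactSpace T]
    [ChartedSpace (V n) T] [IsManifold (𝓡 n) ∞ T] [IsManifold 𝓘(ℝ, V n) 1 T]
    (Θ : ProdDiff n d e T M N) (f : M ≃ₜ M) (F : T ≃ₜ T) (S : M → N → N),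
    ContMDiff 𝓘(ℝ, V d) 𝓘(ℝ, V d) 1 f → ContMDiff 𝓘(ℝ, V d) 𝓘(ℝ, V d) 1 f.symm →
    ContMDiff 𝓘(ℝ, V n) 𝓘(ℝ, V n) 1 F → ContMDiff 𝓘(ℝ, V n) 𝓘(ℝ, V n) 1 F.symm →
    IsSkew Θ F f S → ∀ (NmM : TangentBundle 𝓘(ℝ, V d) M → ℝ)
    (NmT : TangentBundle 𝓘(ℝ, V n) T → ℝ), IsTangentNorm NmM → IsTangentNorm NmT →
    VertUnb Θ F NmT → ∀ K₁ : Set M, NoB f K₁ NmM → NoB F {t | (Θ.symm t).1 ∈ K₁} NmT

/-- TORS. Skew products with fibre maps `p z ↦ p (A^j z + φ b z)`, `j` large, `φ` Lipschitz-small along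
the fibres, have full shifts on many symbols (compare `S_TOR`, `Pool/Agent/H18/PT/Tor.lean`).
Proof. `P` the projection onto the stable space. (a) Density: for every `η > 0` there is `R` such that
for all `v ∈ W` some `λ ∈ Λ` has `‖P (v - λ)‖ ≤ η`, `‖(1 - P) (v - λ)‖ ≤ R`: take `λ' ∈ Λ` with
`‖A^{-i} v - λ'‖ ≤ C` (`lattice`) and `λ = A^i λ'`, `i` large. (b) Take `k` points `q a ∈ W` which are
different mod `Λ`, and `ε > 0` such that the (compact, so closed) sets `C a = p (closedBall (q a) ε)` are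
disjoint. (c) For words `s` and points `x` (`n`-periodic in `j`, index `t`) put
`g_t = A^j (q s_t) + φ (x_t) (q s_t) - q s_{t+1}` and choose `λ_t` as in (a) for `g_t`, `c_t = g_t - λ_t`.
Look for `z_t = q s_t + e_t` with `A^j z_t + φ (x_t) z_t = z_{t+1} + λ_t`, that is
`e_{t+1} = A^j e_t + c_t + (φ (x_t) (q s_t + e_t) - φ (x_t) (q s_t))`: an `n`-periodic solution with
`‖e_t‖ ≤ ε` by contraction (stable part forward, unstable part backward), for `ε₀` small (depending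
only on `C`, `‖P‖` in `IsHypLin A`), `j ≥ J (ε, R)`, `η` small compared with `ε`. Then `y_t = p z_t`. -/
def S_TORS : Prop :=
  ∀ (W : Type) [NormedAddCommGroup W] [NormedSpace ℝ W] [FiniteDimensional ℝ W] [Nontrivial W]
    (Λ : AddSubgroup W) [DiscreteTopology Λ] [IsClosed (Λ : Set W)] (A : W ≃L[ℝ] W),
    IsHypAut A Λ → ∃ ε₀ : ℝ, 0 < ε₀ ∧ ∀ k : ℕ, ∃ J : ℕ, ∀ j : ℕ, J ≤ j →
      ∀ (M : Type u) (K : Type v) [TopologicalSpace K] [T2Space K] (p : W → K) (S : M → K → K)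
      (φ : M → W → W), Continuous p → Function.Surjective p → (∀ z z', p z = p z' ↔ z - z' ∈ Λ) →
      (∀ b z, S b (p z) = p ((A ^ j) z + φ b z)) →
      (∀ b z z', ‖φ b z - φ b z'‖ ≤ ε₀ * ‖z - z'‖) → FibreShift k S

/-- VERT. Vertical vectors of toral extensions have unbounded orbits.
Proof. Put `V_z w = D (z ↦ Θ (b, p z)) w`, a linear isomorphism of `W` onto the vertical space at
`t = Θ (b, p z)`; `c ‖w‖ ≤ Nm (V_z w) ≤ C ‖w‖` uniformly (compactness of `M × (W / Λ)`, or of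
`M × closedBall 0 C`; `V` depends continuously on `b`, `z` and does not change if `z` is replaced by
`z + λ`, `λ ∈ Λ`). `DF (V_z w) = V_{z'} w'`, `z' = A^j z + φ b z`, with `‖w' - A^j w‖ ≤ ε₁ ‖w‖` (as
`z ↦ A^j z + φ b z` is near each point a branch of `p⁻¹ ∘ (second coordinate of F)`, it is differentiable,
and the derivative of `φ b` has norm `≤ ε₁`). A bounded sequence `w_t`, `t ∈ ℤ`, with
`‖w_{t+1} - A^j w_t‖ ≤ ε₁ ‖w_t‖` vanishes (stable and unstable parts, `sup` norm; `j ≥ J`, `ε₁` small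
depending only on `A`). -/
def S_VERT : Prop :=
  ∀ (W : Type) [NormedAddCommGroup W] [NormedSpace ℝ W] [FiniteDimensional ℝ W] [Nontrivial W]
    (Λ : AddSubgroup W) [DiscreteTopology Λ] [IsClosed (Λ : Set W)] (A : W ≃L[ℝ] W),
    IsHypAut A Λ → ∃ ε₁ : ℝ, 0 < ε₁ ∧ ∃ J : ℕ, ∀ j : ℕ, J ≤ j →
      ∀ (d e n : ℕ) (M : Type u) [TopologicalSpace M] [T2Space M] [CompactSpace M]
      [ChartedSpace (V d) M] [IsManifold (𝓡 d) ∞ M]
      (K : Type v) [TopologicalSpace K] [T2Space K] [CompactSpace K]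
      [ChartedSpace (V e) K] [IsManifold (𝓡 e) ∞ K]
      (T : Type w) [TopologicalSpace T] [T2Space T] [CompactSpace T]
      [ChartedSpace (V n) T] [IsManifold (𝓡 n) ∞ T] [IsManifold 𝓘(ℝ, V n) 1 T]
      (Θ : ProdDiff n d e T M K) (p : W → K) (F : T ≃ₜ T) (f : M → M) (φ : M → W → W),
      ContMDiff 𝓘(ℝ, V n) 𝓘(ℝ, V n) 1 F → ContMDiff 𝓘(ℝ, V n) 𝓘(ℝ, V n) 1 F.symm →
      IsTorCover Λ e p → IsTorSkew A j ε₁ Θ p F f φ →
      ∀ Nm : TangentBundle 𝓘(ℝ, V n) T → ℝ, IsTangentNorm Nm → VertUnb Θ F Nm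

end Pool.Agent.H20.PT
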