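import Pool.Agent.H20.PT.Base
import Pool.Agent.H20.PT.Skew

/-!
# The stability conjecture for skew products: definitions for bundled systems
-/

set_option autoImplicit false

open scoped Manifold ContDiff Topology

universe u v w

namespace Pool.Agent.H20.PT

open Pool.Agent.H718R2.G Pool.Agent.R773.TE
open Pool.Agent.H721R2 (IsTangentNorm)

/-- A closed manifold `pt` of dimension `dim`. -/
structure Mfd : Type (v + 1) where
  dim : ℕ
  pt : Type v
  [top : TopologicalSpace pt]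
  [t2 : T2Space pt]
  [cpt : CompactSpace pt]
  [chr : ChartedSpace (V dim) pt]
  [man : IsManifold (𝓡 dim) ∞ pt]

attribute [instance] Mfd.top Mfd.t2 Mfd.cpt Mfd.chr Mfd.man

variable {r : ℕ∞}

/-- Diffeomorphisms from the product of the manifolds of `f` and `N` to the one of `F`. -/
abbrev Sys.Coord (f : Sys.{u} r) (N : Mfd.{v}) (F : Sys.{w} r) :=
  ProdDiff F.dim f.dim N.dim F.pt f.pt N.pt

/-- Nonzero vectors tangent to the fibres of `T → M` at the points of `K` have unbounded orbits (in the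
future or in the past). -/
def VertUnbOn {n d e : ℕ} {T : Type w} [TopologicalSpace T] [ChartedSpace (V n) T]
    [IsManifold 𝓘(ℝ, V n) 1 T] {M : Type u} [TopologicalSpace M] [ChartedSpace (V d) M]
    {N : Type v} [TopologicalSpace N] [ChartedSpace (V e) N] (Θ : ProdDiff n d e T M N)
    (F : T ≃ₜ T) (Nm : TangentBundle 𝓘(ℝ, V n) T → ℝ) (K : Set T) : Prop :=
  ∀ t ∈ K, ∀ v : TangentSpace 𝓘(ℝ, V n) t,
    mfderiv 𝓘(ℝ, V n) 𝓘(ℝ, V d) (fun t : T => (Θ.symm t).1) t v = 0 → ∀ B : ℝ,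
    (∀ k : ℕ, Nm (tangentMap 𝓘(ℝ, V n) 𝓘(ℝ, V n) (F^[k]) ⟨t, v⟩) ≤ B) →
    (∀ k : ℕ, Nm (tangentMap 𝓘(ℝ, V n) 𝓘(ℝ, V n) (F.symm^[k]) ⟨t, v⟩) ≤ B) → v = 0

/-- Nonzero vectors tangent to the fibres at chain recurrent points of `F` have unbounded orbits. -/
def Sys.VertUnbd {f : Sys.{u} r} {N : Mfd.{v}} {F : Sys.{w} r} (Θ : f.Coord N F) : Prop :=
  have := F.man1
  ∃ Nm : TangentBundle 𝓘(ℝ, V F.dim) F.pt → ℝ, IsTangentNorm Nm ∧
    VertUnbOn Θ F.map.toHomeomorph Nm (Pool.Agent.H728R2.OS.ChainRec F.map.toHomeomorph)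

/-- `F` is a skew product over `f` with toral fibres and fibre maps `p z ↦ p (A^j z + φ b z)`, where
`φ b` is `ε`-Lipschitz; `p` is the universal covering of the torus `W / Λ`. -/
def Sys.IsTorExt {W : Type} [NormedAddCommGroup W] [NormedSpace ℝ W] (f : Sys.{u} r)
    (Λ : AddSubgroup W) (A : W ≃L[ℝ] W) (j : ℕ) (ε : ℝ) (F : Sys.{w} r) : Prop :=
  ∃ (K : Mfd.{v}) (Θ : f.Coord K F) (p : W → K.pt) (φ : f.pt → W → W),
    IsTorCover Λ K.dim p ∧ IsTorSkew A j ε Θ p F.map f.map φ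

end Pool.Agent.H20.PT
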