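import Pool.Agent.H20.PT.SkewMain
import Pool.Agent.H20.PT.SkewDef

/-!
# Project PT3: the theorem for bundled systems
-/

set_option autoImplicit false
set_option linter.unusedSectionVars false

open scoped Manifold ContDiff Topology
open Filter Set Metric

universe u v w

namespace Pool.Agent.H20.PT

open Pool.Agent.H718R2.G Pool.Agent.TH80.OMS Pool.Agent.Y504.CO Pool.Agent.R773.TE

variable {r : ℕ∞}

theorem fibreShift_mono {M : Type u} {N : Type v} [TopologicalSpace N] {k k' : ℕ} (h : k' ≤ k)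
    {S : M → N → N} (hS : FibreShift k S) : FibreShift k' S := by
  obtain ⟨C, hC, hd, hs⟩ := hS
  refine ⟨fun a => C (Fin.castLE h a), fun a => hC _, fun a b hab => hd _ _ fun he => hab ?_,
    fun n x s hn => ?_⟩
  · exact Fin.castLE_injective h he
  · exact hs n x (fun j => Fin.castLE h (s j)) hn

theorem Sys.skew (hCLO2 : S_CLO2.{u, v, w}) (hSS : S_SS.{w})
    (hr : 2 ≤ r) (f : Sys.{u} r) :
    ∃ k₀ : ℕ, ∀ (N : Mfd.{v}) (F : Sys.{w} r) (Θ : f.Coord N F) (S : f.pt → N.pt → N.pt),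
      FibreShift k₀ S → IsSkew Θ F.map f.map S → F.Stable →
      f.InU3 ∧ (Sys.VertUnbd Θ → F.InU3) := by
  have hr1 : 1 ≤ r := le_trans (by norm_num) hr
  obtain ⟨k₀, hk⟩ := skew_hyp.{u, v, w} hCLO2 hr f.map
  refine ⟨k₀, fun N F Θ S hS hP hF => ?_⟩
  obtain ⟨h1, h2⟩ := hk N.dim F.dim N.pt F.pt S Θ F.map hS hP (Sys.star_of hr1 hF)
  refine ⟨Sys.u3 hr1 h1, fun hV => ?_⟩
  have := F.man1
  obtain ⟨Nm, hNm, hV⟩ := hV
  exact Sys.u3 hr1 (ext_hyp hSS hr f.map S Θ F.map hP h2 hNm hV)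

theorem Sys.toral (hCLO2 : S_CLO2.{u, v, w}) (hSS : S_SS.{w})
    (hTORS : S_TORS.{u, v}) (hVERT : S_VERT.{u, v, w}) (hr : 2 ≤ r)
    (W : Type) [NormedAddCommGroup W] [NormedSpace ℝ W] [FiniteDimensional ℝ W] [Nontrivial W]
    (Λ : AddSubgroup W) [DiscreteTopology Λ] [IsClosed (Λ : Set W)] (A : W ≃L[ℝ] W)
    (hA : IsHypAut A Λ) : ∃ ε : ℝ, 0 < ε ∧ ∀ f : Sys.{u} r, ∃ J : ℕ, ∀ j : ℕ, J ≤ j →
      ∀ F : Sys.{w} r, Sys.IsTorExt.{u, v, w} f Λ A j ε F → F.Stable → f.InU3 ∧ F.InU3 := by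
  obtain ⟨ε₀, hε₀, h0⟩ := hTORS W Λ A hA
  obtain ⟨ε₁, hε₁, J₁, h1⟩ := hVERT W Λ A hA
  refine ⟨min ε₀ ε₁, lt_min hε₀ hε₁, fun f => ?_⟩
  obtain ⟨k₀, hk⟩ := Sys.skew.{u, v, w} hCLO2 hSS hr f
  obtain ⟨J₀, hJ₀⟩ := h0 k₀
  have hr1 : (1 : WithTop ℕ∞) ≤ (r : WithTop ℕ∞) := by
    exact_mod_cast (le_trans (by norm_num) hr : (1 : ℕ∞) ≤ r)
  refine ⟨max J₀ J₁, fun j hj F hF hFs => ?_⟩
  obtain ⟨K, Θ, p, φ, hp, hφ1, hφ2⟩ := hF
  have i1 := F.man1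
  obtain ⟨Nm, hNm⟩ := hNM F.dim F.pt
  obtain ⟨q, hq⟩ := hp.surj.hasRightInverse
  -- the fibre maps
  obtain ⟨S, hS⟩ : ∃ S : f.pt → K.pt → K.pt, S = fun b y => p ((A ^ j) (q y) + φ b (q y)) :=
    ⟨_, rfl⟩
  have hSk : IsSkew Θ F.map f.map S := by
    intro b y
    rw [hS]
    dsimp only
    rw [← hφ1, hq]
  have hSp : ∀ b z, S b (p z) = p ((A ^ j) z + φ b z) := by
    intro b z
    have e1 := hφ1 b z
    rw [hSk] at e1
    exact (Prod.ext_iff.1 (Θ.injective e1)).2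
  have hfs : FibreShift k₀ S := hJ₀ j ((le_max_left _ _).trans hj) f.pt K.pt p S φ
    hp.smooth.continuous hp.surj hp.eq_iff hSp fun b z z' => (hφ2 b z z').trans
      (mul_le_mul_of_nonneg_right (min_le_left _ _) (norm_nonneg _))
  obtain ⟨h2, h3⟩ := hk K F Θ S hfs hSk hFs
  refine ⟨h2, h3 ⟨Nm, hNm, fun t _ => ?_⟩⟩
  refine h1 j ((le_max_right _ _).trans hj) f.dim K.dim F.dim f.pt K.pt F.pt Θ p
    F.map.toHomeomorph f.map φ (F.map.contMDiff.of_le hr1) (F.map.symm.contMDiff.of_le hr1) hp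
    ⟨hφ1, fun b z z' => (hφ2 b z z').trans
      (mul_le_mul_of_nonneg_right (min_le_right _ _) (norm_nonneg _))⟩ Nm hNm t

end Pool.Agent.H20.PT
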