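import Pool.Agent.H20.PT.BlockMain
import Pool.Agent.H20.PT.BlockDef
import Pool.Agent.H20.PT.SkewLaw
import Pool.Agent.H10.PT.SS
import Pool.Agent.H20.PT.RichDef

/-!
# Skew products with fibre maps of large entropy
-/

set_option autoImplicit false
set_option linter.unusedSectionVars false

open scoped Manifold ContDiff Topology
open Filter Set Metric

universe u v w

namespace Pool.Agent.H20.PT

open Pool.Agent.H718R2.G Pool.Agent.TH80.OMS Pool.Agent.Y504.CO Pool.Agent.R773.TE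
open Pool.Agent.H728R2.OS (ChainRec NoCycle)
open Pool.Agent.H721R2 (IsTangentNorm)

section

variable {d : ℕ} {M : Type u} [MetricSpace M] [CompactSpace M] [ChartedSpace (V d) M]
    [IsManifold (𝓡 d) ∞ M] {r : ℕ∞}

/-- From the absence of closed chains for an iterate to the absence of bounded orbits of vectors. -/
theorem nob_of_noChain_iter (hr : 2 ≤ r) (𝒜 : Atl d M) (f : DiffM d M r) {Q : ℕ} (hQ : 1 ≤ Q)
    {κ : ℝ} (hκ : 0 < κ) (hκ2 : κ ≤ 1 / 2) (hNC : NoChain 𝒜 (f^[Q]) κ) :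
    NoBM (d := d) f.toHomeomorph := by
  have : IsManifold 𝓘(ℝ, V d) 1 M := IsManifold.of_le (m := 1) (n := ∞) (by simp)
  have hr1 : (1 : WithTop ℕ∞) ≤ (r : WithTop ℕ∞) := by
    exact_mod_cast (le_trans (by norm_num) hr : (1 : ℕ∞) ≤ r)
  obtain ⟨L, δ, hL⟩ := hLOC.{u} d M r (iterD f Q) 𝒜 hr
  rw [iterD_coe] at hL
  intro Nm hNm
  have hcoe : ⇑(f.toHomeomorph ^ Q) = f^[Q] := homeo_pow_coe _ _
  have hsm : ContMDiff 𝓘(ℝ, V d) 𝓘(ℝ, V d) 1 (f.toHomeomorph ^ Q) := by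
    rw [hcoe, ← iterD_coe]
    exact (iterD f Q).contMDiff.of_le hr1
  have hsm' : ContMDiff 𝓘(ℝ, V d) 𝓘(ℝ, V d) 1 (f.toHomeomorph ^ Q).symm := by
    have h1 : ⇑(f.toHomeomorph ^ Q).symm = ⇑(iterD f Q).symm := by
      funext x
      have h2 : (f.toHomeomorph ^ Q) ((iterD f Q).symm x) = x := by
        rw [hcoe, ← iterD_coe]
        exact (iterD f Q).apply_symm_apply x
      rw [← h2, Homeomorph.symm_apply_apply, h2]
    rw [h1]
    exact (iterD f Q).symm.contMDiff.of_le hr1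
  have hL' : LocC 𝒜 ⇑(f.toHomeomorph ^ Q) L δ := by
    rw [hcoe]
    exact hL
  have hNC' : NoChain 𝒜 ⇑(f.toHomeomorph ^ Q) κ := by
    rw [hcoe]
    exact hNC
  obtain ⟨-, h2⟩ := split_of_noChain hDICH hNB hG1 hG2 hCRI hE2 hCS 𝒜
    (f.toHomeomorph ^ Q) hsm hsm' hL' hκ hκ2 hNC' Nm hNm
  have hsub := Pool.Agent.H10.PT.Crp.main_CRP M f.toHomeomorph Q hQ
  have hf1 : ContMDiff 𝓘(ℝ, V d) 𝓘(ℝ, V d) 1 f.toHomeomorph := f.contMDiff.of_le hr1
  have hf2 : ContMDiff 𝓘(ℝ, V d) 𝓘(ℝ, V d) 1 f.toHomeomorph.symm := f.symm.contMDiff.of_le hr1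
  obtain ⟨-, hp2⟩ := Pool.Agent.H10.PT.Pw.main_POW d M f.toHomeomorph hf1 hf2 Nm hNm Q hQ
    (ChainRec f.toHomeomorph)
  exact hp2 (h2.mono' hsub)

/-- The main theorem for one diffeomorphism driven by a horseshoe of large entropy. -/
theorem singleB_hyp (hr : 2 ≤ r) (f : DiffM d M r) :
    ∃ K : ℕ, 1 ≤ K ∧ ∀ (Q : ℕ), 1 ≤ Q → ∀ (k : ℕ), K ^ Q ≤ k →
      ∀ (e n : ℕ) (N : Type v) [TopologicalSpace N] [T2Space N] [SigmaCompactSpace N]
      [ChartedSpace (V e) N] [IsManifold (𝓡 e) ∞ N]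
      (T : Type w) [TopologicalSpace T] [T2Space T] [CompactSpace T]
      [ChartedSpace (V n) T] [IsManifold (𝓡 n) ∞ T] (S : M → N → N)
      (C : Fin 1 → Fin k → Set N) (D : Fin 1 → Set N)
      (Θ : Emb n d e T M N) (F : DiffM n T r), BlockDriver Q S C D →
      (∀ x y, F (Θ.fn (x, y)) = Θ.fn (f x, S x y)) → Star n T r F →
      ChainHypM (d := d) f.toHomeomorph ∧ NoBM (d := d) f.toHomeomorph := by
  have hr1 : 1 ≤ r := le_trans (by norm_num) hr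
  obtain ⟨𝒜⟩ := hATL.{u} d M
  obtain ⟨L₀, δ₀, hL1, hδ0, hδ2, hL₀⟩ := locC_fam (𝒜 := 𝒜) (fun _ : Fin 1 => (f : M → M))
    fun _ => hLOC.{u} d M r f 𝒜 hr
  obtain ⟨m₁, hm₁⟩ : ∃ m₁, Net d (2 * (120 * (2 * L₀ ^ 2) ^ 3)) m₁ := by
    obtain ⟨m, hm⟩ := hNET d (2 * (120 * (2 * L₀ ^ 2) ^ 3)) (by
      have h1 : 1 ≤ 2 * L₀ ^ 2 := by nlinarith
      nlinarith [one_le_pow₀ (n := 3) h1])
    exact ⟨m, hm⟩
  refine ⟨(𝒜.q + 1) * (m₁ + 1), Nat.mul_pos (Nat.succ_pos _) (Nat.succ_pos _),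
    fun Q hQ k hk e n N _ _ _ _ _ T _ _ _ _ _ S C D Θ F hS hP hF => ?_⟩
  obtain ⟨δ, hδ', hδ2', hL⟩ := LocC.run (𝒜 := 𝒜) (fun _ : Fin 1 => f) hL1 hδ0 hδ2 hL₀ Q hQ
  have hNetQ : Net d (120 * ((2 * L₀ ^ 2) ^ Q) ^ 3) (m₁ ^ Q) := by
    refine (Net.pow (by positivity) hm₁ Q hQ).mono (by positivity) ?_
    have h1 : (120 : ℝ) ≤ 120 ^ Q := le_self_pow₀ (by norm_num) (by omega)
    have h2 : ((2 * L₀ ^ 2) ^ Q) ^ 3 = ((2 * L₀ ^ 2) ^ 3) ^ Q := by
      rw [← pow_mul, ← pow_mul, mul_comm Q 3]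
    have h3 : (120 * (2 * L₀ ^ 2) ^ 3) ^ Q = 120 ^ Q * ((2 * L₀ ^ 2) ^ 3) ^ Q := mul_pow _ _ _
    rw [h2, h3]
    exact mul_le_mul_of_nonneg_right h1 (by positivity)
  have hpow1 : m₁ ^ Q + 1 ≤ (m₁ + 1) ^ Q := by
    exact Nat.succ_le_of_lt (Nat.pow_lt_pow_left (Nat.lt_succ_self m₁) (by omega : Q ≠ 0))
  have hcard : 𝒜.q * (m₁ ^ Q + 1) ≤ k := by
    refine le_trans ?_ hk
    rw [mul_pow]
    refine Nat.mul_le_mul ?_ ?_
    · exact (Nat.le_succ _).trans (Nat.le_self_pow (by omega) _)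
    · exact hpow1
  have hLQ1 : 1 ≤ (2 * L₀ ^ 2) ^ Q := one_le_pow₀ (by nlinarith)
  have hS' : BlockDriver Q S (fun i (a : Fin (𝒜.q * (m₁ ^ Q + 1))) => C i (Fin.castLE hcard a)) D :=
    ⟨fun i a => hS.compact _ _, hS.compactD, fun i a j b hab => hS.disj _ _ _ _ fun he => hab (by
      obtain ⟨h1, h2⟩ := Prod.ext_iff.1 he
      exact Prod.ext h1 (Fin.castLE_injective hcard h2)), fun i a j => hS.disjD _ _ _,
      fun n x i a hn => hS.word n x i (fun t => Fin.castLE hcard (a t)) hn⟩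
  obtain ⟨κ, hκ, hκ2, hNC⟩ := abcB.{u, v, w} hCTL hr 𝒜 (fun _ : Fin 1 => f) hQ hLQ1 hδ' hδ2' hL
    hNetQ e n N T S _ D Θ F hS' (fun i a => Filter.Eventually.of_forall fun y x => hP x y)
    (fun i => Filter.Eventually.of_forall fun y x => hP x y) hF
  obtain ⟨l', hl'1, hl'2⟩ := word_iter (fun _ : Fin 1 => f) [0] (by simp) Q
  have hl'0 : l' ≠ [] := by
    intro h0
    rw [h0, List.length_nil] at hl'1
    simp at hl'1
  have h1 := Wrd.main d M r hr1 (ℕ → Fin 1) 𝒜 (fun b => runD (fun _ : Fin 1 => f) b Q) κ hκ hNC l' hl'0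
  rw [hl'2] at h1
  have h2 : ⇑(wordD (fun _ : Fin 1 => f) [0]) = f := by
    funext x
    rfl
  rw [h2] at h1
  exact ⟨hyp_of_noChain_iter hr 𝒜 f hQ hκ hκ2 h1, nob_of_noChain_iter hr 𝒜 f hQ hκ hκ2 h1⟩

end

/-- A diffeomorphism from a product is an open embedding. -/
noncomputable def embOf {n d e : ℕ} {T : Type w} [TopologicalSpace T] [ChartedSpace (V n) T]
    {M : Type u} [TopologicalSpace M] [ChartedSpace (V d) M]
    {N : Type v} [TopologicalSpace N] [ChartedSpace (V e) N] (Θ : ProdDiff n d e T M N) :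
    Emb n d e T M N where
  fn := Θ
  inv := Θ.symm
  left q := Θ.symm_apply_apply q
  smooth := Θ.contMDiff
  isOpen := by
    have h : range (Θ : M × N → T) = univ := Set.range_eq_univ.2 Θ.surjective
    rw [h]
    exact isOpen_univ
  smoothInv := Θ.symm.contMDiff.contMDiffOn

variable {r : ℕ∞}

theorem Sys.rich_skew (hr : 2 ≤ r) (f : Sys.{u} r) :
    ∃ K : ℕ, ∀ (N : Type v) [TopologicalSpace N] [T2Space N] [CompactSpace N] (e : ℕ)
      [ChartedSpace (V e) N] [IsManifold (𝓡 e) ∞ N] (F : Sys.{w} r)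
      (Θ : ProdDiff F.dim f.dim e F.pt f.pt N) (S : f.pt → N → N),
      FibreRich K S → IsSkew Θ F.map f.map S → F.Stable →
      f.ChainHyp ∧ NoBM (d := f.dim) f.map.toHomeomorph := by
  have hr1 : 1 ≤ r := le_trans (by norm_num) hr
  obtain ⟨K, -, hK⟩ := singleB_hyp.{u, v, w} hr f.map
  refine ⟨K, fun N _ _ _ e _ _ F Θ S hS hP hF => ?_⟩
  obtain ⟨Q, hQ, C, D, hC, hCd, hD, hCD, hw⟩ := hS
  refine hK Q hQ (K ^ Q) le_rfl e F.dim N F.pt S (fun _ => C) (fun _ => D) (embOf Θ) F.map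
    ⟨fun i a => (hC a).isCompact, fun i => hD.isCompact, fun i a j b hab => hCd a b fun h => hab ?_,
      fun i a j => hCD a, fun n x i a hn => hw n x a hn⟩ hP (Sys.star_of hr1 hF)
  exact Prod.ext (Subsingleton.elim _ _) h

end Pool.Agent.H20.PT
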