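import Pool.Agent.H20.PT.Lin

/-!
# Project PT: cocycles over relations (chains), definitions and statements
-/

set_option autoImplicit false

open Filter Set Metric Topology

universe u

namespace Pool.Agent.H20.PT

/-- A cocycle over a relation `step` on `X`. -/
structure CSys (X : Type u) (E : Type) [NormedAddCommGroup E] [NormedSpace ℝ E] where
  step : X → X → Prop
  A : X → X → (E ≃L[ℝ] E)
  C : ℝ
  one_le : 1 ≤ C
  up : ∀ x y, step x y → ‖(A x y : E →L[ℝ] E)‖ ≤ C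
  low : ∀ x y, step x y → ‖((A x y).symm : E →L[ℝ] E)‖ ≤ C

section chain

variable {X : Type u} {E : Type} [NormedAddCommGroup E] [NormedSpace ℝ E]

/-- There is no closed chain `x_0, …, x_n = x_0` with nonzero vectors `v_0, …, v_n = v_0` such that
`‖A v_j - v_{j+1}‖ ≤ κ ‖v_{j+1}‖`. -/
def NC (S : CSys X E) (κ : ℝ) : Prop :=
  ∀ (n : ℕ) (x : ℕ → X) (v : ℕ → E), 1 ≤ n → x n = x 0 → v n = v 0 → (∀ j ≤ n, v j ≠ 0) →
    (∀ j < n, S.step (x j) (x (j + 1))) →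
    ¬ ∀ j < n, ‖S.A (x j) (x (j + 1)) (v j) - v (j + 1)‖ ≤ κ * ‖v (j + 1)‖

/-- `ETr S x y n M`: `M` is the transport along a chain of length `n` from `x` to `y`. -/
inductive ETr (S : CSys X E) : X → X → ℕ → (E ≃L[ℝ] E) → Prop
  | nil (x : X) : ETr S x x 0 1
  | cons {x y z : X} {n : ℕ} {M : E ≃L[ℝ] E} (h : ETr S x y n M) (hs : S.step y z) :
      ETr S x z (n + 1) (S.A y z * M)

/-- Transport along the orbit `x` from `x a` to `x (a + m)`. -/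
def CSys.fw (S : CSys X E) (x : ℤ → X) (a : ℤ) : ℕ → (E ≃L[ℝ] E)
  | 0 => 1
  | m + 1 => S.A (x (a + m)) (x (a + m + 1)) * CSys.fw S x a m

end chain

/-- LF. The transports of the closed chains at `x` are a `LoopFam` with `η = κ/4`, `θ = 1 + κ/4`.
Proof. `mul`: concatenation of chains (`ETr.append`, by induction). Let `x_0, …, x_n = x_0` be a
closed chain with factors `A_j`, `n ≥ 1`, and `‖B_j‖ ≤ η = κ/4`, `v_0 = v ≠ 0`,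
`v_{j+1} = (1 + B_j) A_j v_j` for `j < n - 1` and `v_n := v`; let `M v` be what `v_n` should have been.
If `‖v - M v‖ < η ‖v‖` then for `j < n - 1`: `‖A_j v_j - v_{j+1}‖ ≤ η ‖A_j v_j‖` and
`‖v_{j+1}‖ ≥ (1 - η) ‖A_j v_j‖`, so it is `≤ κ ‖v_{j+1}‖`; and for `j = n - 1`,
`‖A_j v_j - v‖ ≤ η ‖A_j v_j‖ + η ‖v‖`, `‖A_j v_j‖ ≤ ‖M v‖/(1-η) ≤ (1+η)/(1-η) ‖v‖ ≤ (5/3) ‖v‖`: `≤ κ ‖v‖`.
This contradicts `NC`. `good`: all kicks are the scalar `1 + b = c^{1/(np)} ∈ [θ⁻¹, θ]`. `kick`: one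
kick `B` after `n` steps. -/
def S_LF : Prop :=
  ∀ (X : Type u) (E : Type) [NormedAddCommGroup E] [NormedSpace ℝ E] (S : CSys X E) (κ : ℝ),
    0 < κ → κ ≤ 1 → NC S κ → ∀ x : X,
    LoopFam (κ / 4) (1 + κ / 4) (fun n (M : E ≃L[ℝ] E) => ETr S x x n M)

/-- CONTR. From `S_LF`, `S_HYP1` (constant `K`), `S_ANG`, `η = κ/4`, `θ = 1 + κ/4`.
`P` goes from `x` to `y` (length `m`), `Q` from `y` to `x`, `R` is a short return from `y` to `x`.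
(1) For `v ∈ Es (Q P)`: put `M = R P` (closed, length `m + l ≥ 1`), `v = s + u`, `s ∈ Es M`, `u ∈ Eu M`,
`‖s‖ ≤ K ‖v‖`. `P v ∈ Es (P Q)`, `P u ∈ Eu (P R)` (closed chains at `y`), so by `S_ANG`
`(η/2) ‖P v‖ ≤ ‖P v - P u‖ = ‖P s‖ ≤ ‖R⁻¹‖ ‖M s‖ ≤ C^ℓ K θ^{-(m+l)} ‖s‖`.
(2) For `v ∈ Eu (P Q)`: `M = P R`, `v = s + u`, `P⁻¹ v ∈ Eu (Q P)`, `P⁻¹ s ∈ Es (R P)`, so
`(η/2) ‖P⁻¹ s‖ ≤ ‖P⁻¹ s - P⁻¹ v‖ = ‖P⁻¹ u‖` hence `‖P⁻¹ v‖ ≤ (1 + 2/η) ‖P⁻¹ u‖`, and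
`P⁻¹ u = R M⁻¹ u`, `‖R M⁻¹ u‖ ≤ C^ℓ K θ^{-(m+l)} ‖u‖`. -/
def S_CONTR : Prop :=
  ∀ (X : Type u) (E : Type) [NormedAddCommGroup E] [NormedSpace ℝ E] [FiniteDimensional ℝ E]
    (S : CSys X E) (κ : ℝ), 0 < κ → κ ≤ 1 → NC S κ → ∀ ℓ : ℕ, ∃ C' : ℝ, 1 ≤ C' ∧
    ∀ (x y : X) (m n l : ℕ) (P Q R : E ≃L[ℝ] E), ETr S x y m P → ETr S y x n Q → ETr S y x l R →
      1 ≤ l → l ≤ ℓ → 1 ≤ m + n →
      (∀ v ∈ Es (Q * P), ‖P v‖ ≤ C' * (1 + κ / 4)⁻¹ ^ m * ‖v‖) ∧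
      (∀ v ∈ Eu (P * Q), ‖P⁻¹ v‖ ≤ C' * (1 + κ / 4)⁻¹ ^ m * ‖v‖)

/-- DICH. Orbits with short returns are uniformly hyperbolic. From `S_CONTR`, `S_LF`, `S_HYP1`.
For `J ≥ 1` let `O_J` be the closed chain `x_0 → … → x_J → (short return) → x_{-J} → … → x_0` and `M_J` its
transport, `Π_J` the projection onto `Es M_J` along `Eu M_J`, `‖Π_J‖ ≤ K`. By `S_CONTR` with
`P = fw x 0 m` (`Q` the rest of `O_J`, `R` a short return from `x_m` to `x_0`),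
`‖fw x 0 m (Π_J v)‖ ≤ C' θ^{-m} ‖Π_J v‖` for `m ≤ J`, and with `P = fw x (-m) m` (from `x_{-m}` to `x_0`),
`‖(fw x (-m) m)⁻¹ (v - Π_J v)‖ ≤ C' θ^{-m} ‖v - Π_J v‖`. Let `J → ∞` along a convergent subsequence of
the `Π_J` (finite dimension). -/
def S_DICH : Prop :=
  ∀ (X : Type u) (E : Type) [NormedAddCommGroup E] [NormedSpace ℝ E] [FiniteDimensional ℝ E]
    (S : CSys X E) (κ : ℝ), 0 < κ → κ ≤ 1 → NC S κ → ∀ ℓ : ℕ, ∃ C' a : ℝ, 1 ≤ C' ∧ 0 < a ∧ a < 1 ∧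
    ∀ x : ℤ → X, (∀ i, S.step (x i) (x (i + 1))) →
      (∀ i j : ℤ, i ≤ j → ∃ (n : ℕ) (M : E ≃L[ℝ] E), 1 ≤ n ∧ n ≤ ℓ ∧ ETr S (x j) (x i) n M) →
      ∃ P : E →L[ℝ] E, P ∘L P = P ∧ ‖P‖ ≤ C' ∧ ∀ (m : ℕ) (v : E),
        ‖S.fw x 0 m (P v)‖ ≤ C' * a ^ m * ‖v‖ ∧
        ‖(S.fw x (-m) m)⁻¹ (v - P v)‖ ≤ C' * a ^ m * ‖v‖

/-- G1. Bounded returns. `X` compact metric, `f` a homeomorphism, `K = ChainRec f`.
Proof: (1) for `x ∈ K`, `m`, `δ` there is a `δ`-chain of length `≥ 1` from `f^m x` to `x`: choose `δ'` such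
that a `δ'`-chain `c_0 = x, c_1, …, c_m` stays near the orbit: `dist (f^i x) (c_i)` small enough that
`dist (f (f^m x)) (f (c_m)) < δ/2`; concatenating a closed `δ'`-chain at `x` with itself we may assume
that its length is `> m + 1`; then `f^m x, c_{m+1}, c_{m+2}, …, x` is a `δ`-chain. (2) cover `X` by `L`
sets of diameter `< δ/2`...: a `δ/2`-chain `c` of minimal length from `p` to `q` with `dist < δ` jumps
allowed visits every cell at most once at the times `1 ≤ i ≤ n`: if `c_i, c_j`, `i < j`, are in the same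
cell, cut out `c_{i}, …, c_{j-1}` (`dist (f c_{i-1}) c_j ≤ dist (f c_{i-1}) c_i + dist c_i c_j < δ`; to keep
control, take the chain in (1) with `δ/2`, and choose ONE strictly increasing sequence of times so
that each jump is corrected at most once: for each cell pass directly from its first to its last
visit). So length `≤ L + 1`. -/
def S_G1 : Prop :=
  ∀ (X : Type u) [MetricSpace X] [CompactSpace X] (f : X ≃ₜ X) (δ : ℝ), 0 < δ →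
    ∃ ℓ : ℕ, ∀ x : X, (∀ ε : ℝ, 0 < ε → ∃ (n : ℕ) (c : ℕ → X), 0 < n ∧ c 0 = x ∧ c n = x ∧
      ∀ i < n, dist (f (c i)) (c (i + 1)) < ε) → ∀ m : ℕ, ∃ (n : ℕ) (c : ℕ → X), 1 ≤ n ∧ n ≤ ℓ ∧
      c 0 = f^[m] x ∧ c n = x ∧ ∀ i < n, dist (f (c i)) (c (i + 1)) < δ

end Pool.Agent.H20.PT
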