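import Pool.Agent.H20.PT.SkewDef

/-!
# Symbols, powers up to topological conjugacy, skew products
-/

set_option autoImplicit false

open scoped Manifold ContDiff Topology

universe u v w

namespace Pool.Agent.H20.PT

variable {r : ℕ∞}

/-- The map. -/
noncomputable def Sys.fn (X : Sys.{u} r) : X.pt → X.pt := X.map

/-- `X^q` has a full shift on `k` symbols. -/
def Sys.Sym (X : Sys.{u} r) (k q : ℕ) : Prop := FullShift k (X.fn^[q])

/-- `h` is topologically conjugate to `g^n`. -/
def Sys.ConjPow (g : Sys.{v} r) (n : ℕ) (h : Sys.{v} r) : Prop :=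
  ∃ τ : h.pt ≃ₜ g.pt, ∀ x, τ (h.fn x) = g.fn^[n] (τ x)

/-- `F` is a skew product `(x, y) ↦ (f x, S x y)` over `f`, the fibre is a closed manifold, and the
fibre maps have a full shift on `k` symbols. -/
def Sys.IsSkewOver (f : Sys.{u} r) (k : ℕ) (F : Sys.{w} r) : Prop :=
  ∃ (N : Mfd.{v}) (Θ : f.Coord N F) (S : f.pt → N.pt → N.pt),
    FibreShift k S ∧ IsSkew Θ F.fn f.fn S

end Pool.Agent.H20.PT
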