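import Pool.Agent.H20.PT.Iter
import Pool.Agent.H20.PT.ConjPow

/-!
# Symbols of maps which are conjugate to powers
-/

set_option autoImplicit false
set_option linter.unusedSectionVars false

open scoped Manifold ContDiff Topology
open Filter Set Metric

universe u v w

namespace Pool.Agent.H20.PT

variable {r : ℕ∞}

theorem fullShift_conj {N : Type u} {N' : Type v} [TopologicalSpace N] [TopologicalSpace N']
    {g : N → N} {h : N' → N'} (τ : N' ≃ₜ N) (hτ : ∀ x, τ (h x) = g (τ x)) {k : ℕ}
    (hg : FullShift k g) : FullShift k h := by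
  obtain ⟨C, hC, hd, hs⟩ := hg
  have hit : ∀ (n : ℕ) (x : N'), τ (h^[n] x) = g^[n] (τ x) := by
    intro n
    induction n with
    | zero => intro x; rfl
    | succ n ih =>
      intro x
      rw [Function.iterate_succ_apply, Function.iterate_succ_apply, ih, hτ]
  refine ⟨fun a => τ ⁻¹' C a, fun a => (hC a).preimage τ.continuous, fun a b hab =>
    (hd a b hab).preimage _, fun n s hn => ?_⟩
  obtain ⟨y, hy, hyC⟩ := hs n s hn
  refine ⟨τ.symm y, τ.injective ?_, fun j hj => ?_⟩
  · rw [hit, τ.apply_symm_apply]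
    exact hy
  · rw [mem_preimage, hit, τ.apply_symm_apply]
    exact hyC j hj

theorem Sys.ConjPow.fullShift {g h : Sys.{u} r} {q j : ℕ} (hh : g.ConjPow (q * j) h)
    (hg : g.Sym 2 q) (k : ℕ) (hj : k + 1 ≤ j) : FullShift k h.map := by
  obtain ⟨τ, hτ⟩ := hh
  have h1 := g.iter_fullShift hg k hj
  rw [g.iter_map] at h1
  exact fullShift_conj τ hτ h1

end Pool.Agent.H20.PT
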