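import Pool.Graph.R_seed8.H718R2.G0

/-!
# Project PT: the control lemma in charts, statements
-/

set_option autoImplicit false

open Filter Set Metric Topology
open Pool.Agent.H718R2.G

namespace Pool.Agent.H20.PT

/-- Parameters of an affine kick: a translation and a linear map. -/
abbrev Kp (d : ℕ) := V d × (V d →L[ℝ] V d)

/-- The affine kick `z ↦ z + b + B z`. -/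
def kick {d : ℕ} (w : Kp d) (z : V d) : V d := z + w.1 + w.2 z

/-- `F` is a map near `ξ` with `F ξ = y₀`, derivative `D z` at `z`, `‖D‖, ‖D⁻¹‖ ≤ L`, `D` is
`L`-Lipschitz, and `F` is onto near `y₀` with the bound `L` for the inverse. -/
structure LMap {d : ℕ} (L δ : ℝ) (ξ y₀ : V d) (F : V d → V d) (D : V d → (V d ≃L[ℝ] V d)) : Prop where
  val : F ξ = y₀
  der : ∀ z, ‖z - ξ‖ < δ → HasFDerivAt F (D z : V d →L[ℝ] V d) z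
  up : ∀ z, ‖z - ξ‖ < δ → ‖(D z : V d →L[ℝ] V d)‖ ≤ L
  low : ∀ z, ‖z - ξ‖ < δ → ‖((D z).symm : V d →L[ℝ] V d)‖ ≤ L
  lip : ∀ z z', ‖z - ξ‖ < δ → ‖z' - ξ‖ < δ →
    ‖(D z : V d →L[ℝ] V d) - (D z' : V d →L[ℝ] V d)‖ ≤ L * ‖z - z'‖
  inv : ∀ y, ‖y - y₀‖ < δ / L → ∃ z, ‖z - ξ‖ ≤ L * ‖y - y₀‖ ∧ F z = y

/-- CTL. The control lemma. Let `h = κ₀ / (120 L³)`, `s = 21 L² h`.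
We construct `w_j`, `Q_j`, `U_j` with `Q_0 = ξ_0`, `U_0 = v_0`, `Q_{j+1} = F_j (kick w_j Q_j)`,
`U_{j+1} = D_j (kick w_j Q_j) (U_j + B_j U_j)` and `‖Q_j - ξ_j‖ ≤ s`, `‖U_j - v_j‖ ≤ s ‖v_j‖` (`s ≤ 1/4`).
Given `Q_j`, `U_j` let `ζ` with `F_j ζ = ξ_{j+1}`, `‖ζ - ξ_j‖ ≤ L h` (`LMap.inv`), `u = (D_j ζ)⁻¹ v_{j+1}`,
`B* = (u - U_j) ⊗ U_j / |U_j|²` (so `(1 + B*) U_j = u`), `b* = ζ - Q_j - B* Q_j` (so `kick w* Q_j = ζ`).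
`‖v_{j+1}‖ ≤ 2 L ‖v_j‖`, `‖v_j‖ ≤ 2 L ‖v_{j+1}‖`;
`‖u - v_j‖ ≤ L ‖v_{j+1} - D_j(ξ_j) v_j‖ + L ‖(D_j ξ_j - D_j ζ) v_j‖ ≤ (2 L² + L³) h ‖v_j‖ ≤ 3 L³ h ‖v_j‖`, so
`‖B*‖ ≤ ‖u - U_j‖/‖U_j‖ ≤ 2 (3 L³ h + s)`, `‖b*‖ ≤ L h + s + 2 · 2 (3 L³ h + s)`, and
`‖w*‖ ≤ 13 L³ h + 5 s ≤ 118 L³ h ≤ κ₀`. For `j + 1 < n` take `w_j ∈ P` with `‖w_j - w*‖ ≤ h`: then
`‖kick w_j Q_j - ζ‖ ≤ 3 h`, `‖Q_{j+1} - ξ_{j+1}‖ ≤ 3 L h ≤ s` (mean value inequality on the ball),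
`‖U_{j+1} - v_{j+1}‖ = ‖D_j(kick) (1 + B_j) U_j - D_j(ζ) (1 + B*) U_j‖ ≤ L·3h·2‖U_j‖ + L h ‖U_j‖ ≤ 7 L h · (5/4) ‖v_j‖
≤ 18 L² h ‖v_{j+1}‖ ≤ s ‖v_{j+1}‖`. For `j = n - 1` take `w_j = w*`: then `Q_n = ξ_n = ξ_0`, `U_n = v_n = v_0`.
Norms: `‖kick w_j Q_j - ξ_j‖ ≤ L h + 3 h < δ`, `‖Q_j‖ ≤ 1 + s < 2`. -/
def S_CTL : Prop :=
  ∀ (d : ℕ) (L δ κ₀ : ℝ), 1 ≤ L → 0 < δ → δ ≤ 1 / 2 → 0 < κ₀ → κ₀ ≤ δ → ∀ P : Set (Kp d),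
    (∀ w : Kp d, ‖w‖ ≤ κ₀ → ∃ p ∈ P, ‖p - w‖ ≤ κ₀ / (120 * L ^ 3)) →
    ∀ (n : ℕ) (ξ y v : ℕ → V d) (F : ℕ → V d → V d) (D : ℕ → V d → (V d ≃L[ℝ] V d)), 1 ≤ n →
    (∀ j ≤ n, ‖ξ j‖ ≤ 1) → (∀ j < n, LMap L δ (ξ j) (y j) (F j) (D j)) → ξ n = ξ 0 → v n = v 0 →
    (∀ j ≤ n, v j ≠ 0) → (∀ j < n, ‖y j - ξ (j + 1)‖ ≤ κ₀ / (120 * L ^ 3)) →
    (∀ j < n, ‖D j (ξ j) (v j) - v (j + 1)‖ ≤ κ₀ / (120 * L ^ 3) * ‖v (j + 1)‖) →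
    ∃ (w : ℕ → Kp d) (Q U : ℕ → V d), (∀ j, j + 1 < n → w j ∈ P) ∧ (∀ j < n, j + 1 = n → ‖w j‖ ≤ κ₀) ∧
      Q 0 = ξ 0 ∧ Q n = ξ 0 ∧ U 0 = v 0 ∧ U n = v 0 ∧
      ∀ j < n, ‖Q j‖ < 2 ∧ ‖kick (w j) (Q j) - ξ j‖ < δ ∧ Q (j + 1) = F j (kick (w j) (Q j)) ∧
        U (j + 1) = D j (kick (w j) (Q j)) (U j + (w j).2 (U j))

/-- NET. Nets of the balls of all radii with a uniform number of elements: scale a finite net of the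
unit ball. -/
def S_NET : Prop :=
  ∀ (d : ℕ) (ρ : ℝ), 1 ≤ ρ → ∃ m : ℕ, ∀ κ₀ : ℝ, 0 < κ₀ → ∃ p : Fin m → Kp d,
    (∀ a, ‖p a‖ ≤ κ₀) ∧ ∀ w : Kp d, ‖w‖ ≤ κ₀ → ∃ a, ‖p a - w‖ ≤ κ₀ / ρ

end Pool.Agent.H20.PT
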