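import Pool.Agent.H20.PT.Base

/-!
# Project PT4: local product structures and families of diffeomorphisms driven by a full shift
-/

set_option autoImplicit false

open scoped Manifold ContDiff Topology

universe u v w

namespace Pool.Agent.H20.PT

open Pool.Agent.H718R2.G Pool.Agent.R773.TE

/-- A smooth open embedding `fn` of the product `M × N` into `T`; `inv` is its (smooth) inverse on the
image. -/
structure Emb (n d e : ℕ) (T : Type w) [TopologicalSpace T] [ChartedSpace (V n) T]
    (M : Type u) [TopologicalSpace M] [ChartedSpace (V d) M]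
    (N : Type v) [TopologicalSpace N] [ChartedSpace (V e) N] where
  fn : M × N → T
  inv : T → M × N
  left : ∀ q, inv (fn q) = q
  smooth : ContMDiff ((𝓡 d).prod (𝓡 e)) (𝓡 n) ∞ fn
  isOpen : IsOpen (Set.range fn)
  smoothInv : ContMDiffOn (𝓡 n) ((𝓡 d).prod (𝓡 e)) ∞ inv (Set.range fn)

/-- The cells `C i a` are pairwise disjoint compact sets, and the maps `S x : N → N`, `x ∈ M`, composed in
any order, have full symbolic dynamics on the cells: for all sequences `x 0, …, x (n-1)` in `M` and all
words `c 0, …, c (n-1)` of cells there is a closed orbit `y 0, …, y n = y 0`, `y (j+1) = S (x j) (y j)`,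
which follows the word. -/
structure Driver {M : Type u} {N : Type v} [TopologicalSpace N] {s k : ℕ} (S : M → N → N)
    (C : Fin s → Fin k → Set N) : Prop where
  compact : ∀ i a, IsCompact (C i a)
  disj : ∀ i a j b, (i, a) ≠ (j, b) → Disjoint (C i a) (C j b)
  word : ∀ (n : ℕ) (x : ℕ → M) (c : ℕ → Fin s × Fin k), 1 ≤ n →
    ∃ y : ℕ → N, y n = y 0 ∧ ∀ j < n, y (j + 1) = S (x j) (y j) ∧ y j ∈ C (c j).1 (c j).2

end Pool.Agent.H20.PT
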