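import Pool.Agent.H20.PT.Emb
import Pool.Agent.H20.PT.Clo2

/-!
# Project PT4: a periodic point with the eigenvalue one in the first coordinates is not hyperbolic
(local product structures; compare `Pool/Agent/H20/PT/Clo2.lean`)
-/

set_option autoImplicit false
set_option linter.unusedSectionVars false

open scoped Manifold ContDiff Topology
open Filter Set Metric

universe u v w

namespace Pool.Agent.H20.PT.EmbClo2

open Pool.Agent.H718R2.G Pool.Agent.TH80.OMS Pool.Agent.Y504.CO Pool.Agent.R773.TE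
  Pool.Agent.H20.PT

theorem main (d e n : ℕ) (M : Type u) [TopologicalSpace M] [ChartedSpace (V d) M]
    [IsManifold (𝓡 d) ∞ M]
    (N : Type v) [TopologicalSpace N] [ChartedSpace (V e) N] [IsManifold (𝓡 e) ∞ N]
    (T : Type w) [TopologicalSpace T] [ChartedSpace (V n) T] [IsManifold (𝓡 n) ∞ T] (r : ℕ∞)
    (Θ : Emb n d e T M N) (G : DiffM n T r)
    (χ : OpenPartialHomeomorph M (V d)) (hχ : χ ∈ IsManifold.maximalAtlas (𝓡 d) ∞ M) (y₀ : N)
    (ξ : V d) (hξ : ξ ∈ χ.target) (m : ℕ) (hm : 1 ≤ m) (H : V d → V d) (D : V d →L[ℝ] V d) (v : V d)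
    (hper : G^[m] (Θ.fn (χ.symm ξ, y₀)) = Θ.fn (χ.symm ξ, y₀))
    (hconj : ∀ᶠ q in 𝓝 (ξ, y₀), (Θ.inv (G^[m] (Θ.fn (χ.symm q.1, q.2)))).1 = χ.symm (H q.1))
    (hD : HasFDerivAt H D ξ) (hH : H ξ = ξ) (hv : v ≠ 0) (hDv : D v = v) :
    ¬ IsHyperbolicPer n G (Θ.fn (χ.symm ξ, y₀)) := by
  intro hyp
  set p : T := Θ.fn (χ.symm ξ, y₀) with hp
  have hpr : p ∈ range Θ.fn := mem_range_self _
  set ψ := chartAt (V n) p with hψdef
  have hψ : ψ ∈ IsManifold.maximalAtlas (𝓡 n) ∞ T := IsManifold.chart_mem_maximalAtlas p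
  have hpψ : p ∈ ψ.source := mem_chart_source _ p
  obtain ⟨D', hD', hμ⟩ := hyp.2 m hm hper ψ hψ hpψ
  -- the maps `φ`, `θ`
  let φ : V d → V n := fun z => ψ (Θ.fn (χ.symm z, y₀))
  let θ : V n → V d := fun w => χ (Θ.inv (ψ.symm w)).1
  have hin : ContMDiffAt (𝓡 d) ((𝓡 d).prod (𝓡 e)) ∞ (fun z => ((χ.symm z, y₀) : M × N)) ξ :=
    (contMDiffAt_symm_of_mem_maximalAtlas hχ hξ).prodMk contMDiffAt_const
  have hΘin : ContMDiffAt (𝓡 d) (𝓡 n) ∞ (fun z => Θ.fn (χ.symm z, y₀)) ξ :=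
    ContMDiffAt.comp (g := Θ.fn) ξ Θ.smooth.contMDiffAt hin
  have hφ : ContMDiffAt (𝓡 d) (𝓡 n) ∞ φ ξ :=
    (contMDiffAt_of_mem_maximalAtlas hψ hpψ).comp ξ hΘin
  have hback : ψ.symm (ψ p) = p := ψ.left_inv hpψ
  have hΘs : Θ.inv p = (χ.symm ξ, y₀) := Θ.left _
  have h2' : ContMDiffAt (𝓡 n) ((𝓡 d).prod (𝓡 e)) ∞ (fun w => Θ.inv (ψ.symm w)) (ψ p) := by
    refine ContMDiffAt.comp (g := Θ.inv) (ψ p) ?_
      (contMDiffAt_symm_of_mem_maximalAtlas hψ (ψ.map_source hpψ))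
    rw [hback]
    exact Θ.smoothInv.contMDiffAt (Θ.isOpen.mem_nhds hpr)
  have hθ : ContMDiffAt (𝓡 n) (𝓡 d) ∞ θ (ψ p) := by
    have h3 : ContMDiffAt (𝓡 n) (𝓡 d) ∞ (fun w => (Θ.inv (ψ.symm w)).1) (ψ p) :=
      contMDiffAt_fst.comp (ψ p) h2'
    refine ContMDiffAt.comp (ψ p) ?_ h3
    refine contMDiffAt_of_mem_maximalAtlas hχ ?_
    rw [hback, hΘs]
    exact χ.map_target hξ
  have hφ' : ContDiffAt ℝ ∞ φ ξ := hφ.contDiffAt
  have hθ' : ContDiffAt ℝ ∞ θ (ψ p) := hθ.contDiffAt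
  have hφd : HasFDerivAt φ (fderiv ℝ φ ξ) ξ := (hφ'.differentiableAt (by simp)).hasFDerivAt
  have hθd : HasFDerivAt θ (fderiv ℝ θ (ψ p)) (φ ξ) :=
    (hθ'.differentiableAt (by simp)).hasFDerivAt
  have hsrc : ∀ᶠ z in 𝓝 ξ, Θ.fn (χ.symm z, y₀) ∈ ψ.source :=
    hΘin.continuousAt.eventually (ψ.open_source.mem_nhds hpψ)
  have htar : ∀ᶠ z in 𝓝 ξ, z ∈ χ.target := χ.open_target.mem_nhds hξ
  have hid : (fun z => θ (φ z)) =ᶠ[𝓝 ξ] fun z => z := by
    filter_upwards [hsrc, htar] with z hz hz'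
    simp only [θ, φ]
    rw [ψ.left_inv hz, Θ.left]
    exact χ.right_inv hz'
  have hinj : ∀ x : V d, fderiv ℝ θ (ψ p) (fderiv ℝ φ ξ x) = x := by
    have h1 : HasFDerivAt (fun z => θ (φ z)) ((fderiv ℝ θ (ψ p)).comp (fderiv ℝ φ ξ)) ξ :=
      hθd.comp ξ hφd
    have h2 : HasFDerivAt (fun z : V d => z) ((fderiv ℝ θ (ψ p)).comp (fderiv ℝ φ ξ)) ξ :=
      h1.congr_of_eventuallyEq hid.symm
    have h3 := h2.unique (hasFDerivAt_id ξ)
    intro x
    exact congrArg (fun L : V d →L[ℝ] V d => L x) h3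
  have hθp : θ (ψ p) = ξ := by
    simp only [θ]
    rw [hback, hΘs]
    exact χ.right_inv hξ
  -- the semiconjugation
  have hcc : (fun u => θ (ψ (G^[m] (ψ.symm u)))) =ᶠ[𝓝 (ψ p)] fun u => H (θ u) := by
    have e1 : ∀ᶠ u in 𝓝 (ψ p), (Θ.inv (ψ.symm u)).1 ∈ χ.source := by
      have h1 : ContinuousAt (fun u => (Θ.inv (ψ.symm u)).1) (ψ p) :=
        continuousAt_fst.comp h2'.continuousAt
      refine h1.eventually (χ.open_source.mem_nhds ?_)
      dsimp only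
      rw [hback, hΘs]
      exact χ.map_target hξ
    have e2 : ∀ᶠ u in 𝓝 (ψ p), (Θ.inv (G^[m] (Θ.fn (χ.symm (θ u), (Θ.inv (ψ.symm u)).2)))).1 =
        χ.symm (H (θ u)) := by
      have h1 : ContinuousAt (fun u => (θ u, (Θ.inv (ψ.symm u)).2)) (ψ p) :=
        hθ.continuousAt.prodMk (continuousAt_snd.comp h2'.continuousAt)
      have h3 : Tendsto (fun u => (θ u, (Θ.inv (ψ.symm u)).2)) (𝓝 (ψ p)) (𝓝 (ξ, y₀)) := by
        have h4 : ((θ (ψ p), (Θ.inv (ψ.symm (ψ p))).2) : V d × N) = (ξ, y₀) := by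
          rw [hθp, hback, hΘs]
        rw [← h4]
        exact h1
      exact h3.eventually hconj
    have e3 : ∀ᶠ u in 𝓝 (ψ p), H (θ u) ∈ χ.target := by
      have h1 : ContinuousAt (fun u => H (θ u)) (ψ p) := by
        refine ContinuousAt.comp (g := H) ?_ hθ.continuousAt
        rw [hθp]
        exact hD.continuousAt
      refine h1.eventually (χ.open_target.mem_nhds ?_)
      dsimp only
      rw [hθp, hH]
      exact hξ
    have e4 : ∀ᶠ u in 𝓝 (ψ p), G^[m] (ψ.symm u) ∈ ψ.source := by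
      have h1 : ContinuousAt (fun u => G^[m] (ψ.symm u)) (ψ p) :=
        (G.continuous.iterate m).continuousAt.comp
          (ψ.continuousAt_symm (ψ.map_source hpψ))
      refine h1.eventually (ψ.open_source.mem_nhds ?_)
      dsimp only
      rw [hback, hper]
      exact hpψ
    have e5 : ∀ᶠ u in 𝓝 (ψ p), ψ.symm u ∈ range Θ.fn :=
      (ψ.continuousAt_symm (ψ.map_source hpψ)).eventually (Θ.isOpen.mem_nhds (by
        rw [hback]; exact hpr))
    filter_upwards [e1, e2, e3, e4, e5] with u h1 h2 h3 h4 h6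
    have h5 : Θ.fn (χ.symm (θ u), (Θ.inv (ψ.symm u)).2) = ψ.symm u := by
      simp only [θ]
      rw [χ.left_inv h1]
      obtain ⟨z, hz⟩ := h6
      rw [← hz, Θ.left]
    rw [h5] at h2
    show χ (Θ.inv (ψ.symm (ψ (G^[m] (ψ.symm u))))).1 = H (θ u)
    rw [ψ.left_inv h4, h2, χ.right_inv h3]
  have hL : HasFDerivAt (fun u => θ (ψ (G^[m] (ψ.symm u))))
      ((fderiv ℝ θ (ψ p)).comp D') (ψ p) := by
    have h1 : HasFDerivAt θ (fderiv ℝ θ (ψ p)) (ψ (G^[m] (ψ.symm (ψ p)))) := by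
      rw [hback, hper]
      exact hθd
    exact HasFDerivAt.comp (g := θ) (ψ p) h1 hD'
  have hR : HasFDerivAt (fun u => H (θ u)) (D.comp (fderiv ℝ θ (ψ p))) (ψ p) := by
    have h1 : HasFDerivAt H D (θ (ψ p)) := by
      rw [hθp]
      exact hD
    exact h1.comp (ψ p) hθd
  have heq : (fderiv ℝ θ (ψ p)).comp D' = D.comp (fderiv ℝ θ (ψ p)) :=
    (hL.congr_of_eventuallyEq hcc.symm).unique hR
  refine hμ 1 (Clo2.root_quot D' D (fderiv ℝ θ (ψ p)) (fun x => ⟨_, hinj x⟩) (fun x => ?_) v hv hDv)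
    norm_one
  exact congrArg (fun L : V n →L[ℝ] V d => L x) heq

end Pool.Agent.H20.PT.EmbClo2
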