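import Pool.Agent.H15.PT.Pert
import Pool.Agent.H20.PT.Emb

/-!
# Project PT4: kicks in a local product structure (the construction of `Pool/Agent/H15/PT/Pert.lean`
of helper15)
-/

set_option autoImplicit false
set_option linter.unusedSectionVars false

open scoped Manifold ContDiff Topology NNReal
open Filter Set Metric

universe u v w

namespace Pool.Agent.H20.PT.EmbPert

open Pool.Agent.H718R2.G Pool.Agent.H20.PT Pool.Agent.R773.TE Pool.Agent.W564.SC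
open Pool.Agent.H15.PT

section one

variable {d e n : ℕ} {M : Type u} [TopologicalSpace M] [T2Space M] [CompactSpace M]
  [ChartedSpace (V d) M] [IsManifold (𝓡 d) ∞ M] {N : Type v} [TopologicalSpace N]
  [ChartedSpace (V e) N] {T : Type w} [TopologicalSpace T] [T2Space T] [ChartedSpace (V n) T]

open Classical in
/-- the kick in the fibres, with the cut-off `θ` -/
noncomputable def fibE {P : Type} [NormedAddCommGroup P] [NormedSpace ℝ P]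
    (Θ : Emb n d e T M N) (χ : OpenPartialHomeomorph M (V d))
    (F : P × V d → V d) (θ : N → ℝ) (w : P) (p : T) : T :=
  if p ∈ range Θ.fn then Θ.fn (tr χ F (θ (Θ.inv p).2 • w) (Θ.inv p).1, (Θ.inv p).2) else p

theorem fibE_apply {P : Type} [NormedAddCommGroup P] [NormedSpace ℝ P]
    (Θ : Emb n d e T M N) (χ : OpenPartialHomeomorph M (V d))
    (F : P × V d → V d) (θ : N → ℝ) (w : P) (x : M) (y : N) :
    fibE Θ χ F θ w (Θ.fn (x, y)) = Θ.fn (tr χ F (θ y • w) x, y) := by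
  unfold fibE
  rw [if_pos (mem_range_self _), Θ.left]

theorem fibE_not {P : Type} [NormedAddCommGroup P] [NormedSpace ℝ P]
    (Θ : Emb n d e T M N) (χ : OpenPartialHomeomorph M (V d))
    (F : P × V d → V d) (θ : N → ℝ) (w : P) {p : T} (hp : p ∉ range Θ.fn) :
    fibE Θ χ F θ w p = p := by
  unfold fibE
  rw [if_neg hp]

theorem fibE_smooth {P : Type} [NormedAddCommGroup P] [NormedSpace ℝ P]
    (Θ : Emb n d e T M N) {χ : OpenPartialHomeomorph M (V d)}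
    {F : P × V d → V d} {θ : N → ℝ} (hθ : ContMDiff (𝓡 e) 𝓘(ℝ, ℝ) ∞ θ)
    {K : Set N} (hK : IsCompact K) (hθK : ∀ y ∉ K, θ y = 0) (h0 : ∀ x : M, tr χ F (0 : P) x = x)
    (h : ContMDiff (𝓘(ℝ, P).prod (𝓡 d)) (𝓡 d) ∞ (fun q : P × M => tr χ F q.1 q.2)) :
    ContMDiff (𝓘(ℝ, P).prod (𝓡 n)) (𝓡 n) ∞ (fun q : P × T => fibE Θ χ F θ q.1 q.2) := by
  intro q
  by_cases hq : q.2 ∈ range Θ.fn
  · have h0 : ContMDiffAt (𝓘(ℝ, P).prod (𝓡 n)) ((𝓡 d).prod (𝓡 e)) ∞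
        (fun q : P × T => Θ.inv q.2) q :=
      (Θ.smoothInv.contMDiffAt (Θ.isOpen.mem_nhds hq)).comp q contMDiffAt_snd
    have h1 : ContMDiffAt (𝓘(ℝ, P).prod (𝓡 n)) (𝓡 d) ∞ (fun q : P × T => (Θ.inv q.2).1) q :=
      contMDiffAt_fst.comp q h0
    have h2 : ContMDiffAt (𝓘(ℝ, P).prod (𝓡 n)) (𝓡 e) ∞ (fun q : P × T => (Θ.inv q.2).2) q :=
      contMDiffAt_snd.comp q h0
    have h3 : ContMDiffAt (𝓘(ℝ, P).prod (𝓡 n)) 𝓘(ℝ, ℝ × P) ∞
        (fun q : P × T => ((θ (Θ.inv q.2).2, q.1) : ℝ × P)) q :=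
      (hθ.contMDiffAt.comp q h2).prodMk_space contMDiffAt_fst
    have h4 : ContDiff ℝ ∞ (fun z : ℝ × P => z.1 • z.2) := contDiff_fst.smul contDiff_snd
    have h5 : ContMDiffAt (𝓘(ℝ, P).prod (𝓡 n)) 𝓘(ℝ, P) ∞
        (fun q : P × T => θ (Θ.inv q.2).2 • q.1) q := h4.contMDiff.contMDiffAt.comp q h3
    have h6 : ContMDiffAt (𝓘(ℝ, P).prod (𝓡 n)) (𝓘(ℝ, P).prod (𝓡 d)) ∞
        (fun q : P × T => ((θ (Θ.inv q.2).2 • q.1, (Θ.inv q.2).1) : P × M)) q := h5.prodMk h1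
    have h7 : ContMDiffAt (𝓘(ℝ, P).prod (𝓡 n)) (𝓡 d) ∞
        (fun q : P × T => tr χ F (θ (Θ.inv q.2).2 • q.1) (Θ.inv q.2).1) q :=
      ContMDiffAt.comp (g := fun q : P × M => tr χ F q.1 q.2) q h.contMDiffAt h6
    have h8 : ContMDiffAt (𝓘(ℝ, P).prod (𝓡 n)) (𝓡 n) ∞
        (fun q : P × T => Θ.fn (tr χ F (θ (Θ.inv q.2).2 • q.1) (Θ.inv q.2).1, (Θ.inv q.2).2)) q :=
      ContMDiffAt.comp (g := Θ.fn) q Θ.smooth.contMDiffAt (h7.prodMk h2)
    refine h8.congr_of_eventuallyEq ?_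
    filter_upwards [continuous_snd.continuousAt.preimage_mem_nhds (Θ.isOpen.mem_nhds hq)]
      with p hp
    have hp' : p.2 ∈ range Θ.fn := hp
    show fibE Θ χ F θ p.1 p.2 = _
    unfold fibE
    rw [if_pos hp']
  · have hS : IsClosed (Θ.fn '' (univ ×ˢ K)) :=
      ((isCompact_univ.prod hK).image Θ.smooth.continuous).isClosed
    have hqS : q.2 ∈ (Θ.fn '' (univ ×ˢ K))ᶜ := by
      rintro ⟨z, -, hz⟩
      exact hq ⟨z, hz⟩
    have h5 : ContMDiffAt (𝓘(ℝ, P).prod (𝓡 n)) (𝓡 n) ∞ (fun q : P × T => q.2) q :=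
      contMDiffAt_snd
    refine h5.congr_of_eventuallyEq ?_
    filter_upwards [continuous_snd.continuousAt.preimage_mem_nhds
      (hS.isOpen_compl.mem_nhds hqS)] with p hp
    show fibE Θ χ F θ p.1 p.2 = p.2
    by_cases hp2 : p.2 ∈ range Θ.fn
    · obtain ⟨⟨x, y⟩, hxy⟩ := hp2
      have hy : y ∉ K := fun hy => hp ⟨(x, y), ⟨mem_univ _, hy⟩, hxy⟩
      rw [← hxy, fibE_apply, hθK y hy, zero_smul, h0]
    · exact fibE_not _ _ _ _ _ hp2

theorem fibE_inv {P : Type} [NormedAddCommGroup P] [NormedSpace ℝ P]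
    (Θ : Emb n d e T M N) {χ : OpenPartialHomeomorph M (V d)}
    {F F' : P × V d → V d} {θ : N → ℝ}
    (h : ∀ (w : P) (x : M), tr χ F' w (tr χ F w x) = x) (w : P) (p : T) :
    fibE Θ χ F' θ w (fibE Θ χ F θ w p) = p := by
  by_cases hp : p ∈ range Θ.fn
  · obtain ⟨⟨x, y⟩, rfl⟩ := hp
    rw [fibE_apply, fibE_apply, h]
  · rw [fibE_not Θ χ F θ w hp, fibE_not Θ χ F' θ w hp]

/-- one symbol -/
theorem one (r : ℕ∞) (Θ : Emb n d e T M N) {χ : OpenPartialHomeomorph M (V d)}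
    (hχ : χ ∈ IsManifold.maximalAtlas (𝓡 d) ∞ M) (hb : closedBall (0 : V d) 3 ⊆ χ.target)
    {F F' : Kp d × V d → V d} (hF : KFam d F F') {θ : N → ℝ} (hθ : ContMDiff (𝓡 e) 𝓘(ℝ, ℝ) ∞ θ)
    {K : Set N} (hK : IsCompact K) (hθK : ∀ y ∉ K, θ y = 0) :
    ∃ Φ : Kp d → DiffM n T r,
      ContMDiff (𝓘(ℝ, Kp d).prod (𝓡 n)) (𝓡 n) r (fun q : Kp d × T => Φ q.1 q.2) ∧
      (∀ p, Φ 0 p = p) ∧ ∀ w x y, Φ w (Θ.fn (x, y)) = Θ.fn (tr χ F (θ y • w) x, y) := by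
  have hA : closedBall (0 : V d) (5 / 2) ⊆ χ.target :=
    (closedBall_subset_closedBall (by norm_num)).trans hb
  have hcl : IsClosed (χ.symm '' closedBall (0 : V d) (5 / 2)) :=
    ((isCompact_closedBall _ _).image_of_continuousOn (χ.continuousOn_symm.mono hA)).isClosed
  have h0 : ∀ x : M, tr χ F (0 : Kp d) x = x := by
    intro x
    by_cases hx : x ∈ χ.source
    · rw [tr_source hx, hF.zero, χ.left_inv hx]
    · rw [tr_not_source hx]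
  have hti := tr_inv (χ := χ) hA hF.inv hF.supp
  have h0' : ∀ x : M, tr χ F' (0 : Kp d) x = x := by
    intro x
    have h1 := hti 0 x
    rwa [h0] at h1
  have hs := fibE_smooth Θ hθ hK hθK h0 (tr_smooth hχ hA hcl hF.inv hF.smooth hF.supp)
  have hs' := fibE_smooth Θ hθ hK hθK h0' (tr_smooth hχ hA hcl hF.inv' hF.smooth' hF.supp')
  have hr : ((r : ℕ∞) : WithTop ℕ∞) ≤ ∞ := by exact_mod_cast le_top
  have hs1 : ∀ w : Kp d, ContMDiff (𝓡 n) (𝓡 n) ∞ (fibE Θ χ F θ w) := fun w =>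
    hs.comp (contMDiff_const.prodMk contMDiff_id)
  have hs1' : ∀ w : Kp d, ContMDiff (𝓡 n) (𝓡 n) ∞ (fibE Θ χ F' θ w) := fun w =>
    hs'.comp (contMDiff_const.prodMk contMDiff_id)
  refine ⟨fun w => ⟨⟨fibE Θ χ F θ w, fibE Θ χ F' θ w,
    fibE_inv Θ hti w, fibE_inv Θ (tr_inv hA hF.inv' hF.supp') w⟩,
    (hs1 w).of_le hr, (hs1' w).of_le hr⟩, hs.of_le hr, ?_, fun w x y => fibE_apply Θ χ F θ w x y⟩
  intro p
  show fibE Θ χ F θ 0 p = p
  by_cases hp : p ∈ range Θ.fn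
  · obtain ⟨⟨x, y⟩, rfl⟩ := hp
    rw [fibE_apply, smul_zero, h0]
  · exact fibE_not _ _ _ _ _ hp

/-- finitely many symbols -/
theorem many (r : ℕ∞) (Θ : Emb n d e T M N) (𝒜 : Atl d M) {k : ℕ} (c : Fin k → Fin 𝒜.q)
    {F F' : Kp d × V d → V d} (hF : KFam d F F') (θ : Fin k → N → ℝ)
    (hθ : ∀ a, ContMDiff (𝓡 e) 𝓘(ℝ, ℝ) ∞ (θ a)) {K : Set N} (hK : IsCompact K)
    (hθK : ∀ a, ∀ y ∉ K, θ a y = 0) (l : Finset (Fin k)) :
    ∃ Φ : (Fin k → Kp d) → DiffM n T r,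
      ContMDiff (𝓘(ℝ, Fin k → Kp d).prod (𝓡 n)) (𝓡 n) r
        (fun q : (Fin k → Kp d) × T => Φ q.1 q.2) ∧
      (∀ p, Φ 0 p = p) ∧
      (∀ w x y, (∀ a ∈ l, θ a y = 0) → Φ w (Θ.fn (x, y)) = Θ.fn (x, y)) ∧
      ∀ w x y, ∀ a ∈ l, (∀ b ∈ l, b ≠ a → θ b y = 0) →
        Φ w (Θ.fn (x, y)) = Θ.fn (tr (𝒜.χ (c a)) F (θ a y • w a) x, y) := by
  classical
  have htr0 : ∀ (i : Fin 𝒜.q) (x : M), tr (𝒜.χ i) F (0 : Kp d) x = x := by
    intro i x
    by_cases hx : x ∈ (𝒜.χ i).source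
    · rw [tr_source hx, hF.zero, (𝒜.χ i).left_inv hx]
    · rw [tr_not_source hx]
  have hz0 : ∀ w : Kp d, (0 : ℝ) • w = 0 := fun w => zero_smul ℝ w
  induction l using Finset.induction_on with
  | empty =>
    refine ⟨fun _ => Diffeomorph.refl (𝓡 n) T r, contMDiff_snd, fun p => rfl, fun w x y _ => rfl,
      fun w x y a ha => absurd ha (Finset.notMem_empty a)⟩
  | insert a l hal ih =>
    obtain ⟨Φ, h1, h2, h3, h4⟩ := ih
    obtain ⟨Ψ, g1, g2, g3⟩ := one r Θ (𝒜.mem (c a)) (𝒜.ball (c a)) hF (hθ a) hK (hθK a)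
    refine ⟨fun w => (Φ w).trans (Ψ (w a)), ?_, ?_, ?_, ?_⟩
    · have e1 : ContDiff ℝ r (fun w : Fin k → Kp d => w a) := contDiff_apply ℝ (Kp d) a
      have e2 : ContMDiff (𝓘(ℝ, Fin k → Kp d).prod (𝓡 n)) 𝓘(ℝ, Kp d) r
          (fun q : (Fin k → Kp d) × T => q.1 a) := e1.contMDiff.comp contMDiff_fst
      exact g1.comp (e2.prodMk h1)
    · intro p
      show Ψ ((0 : Fin k → Kp d) a) (Φ 0 p) = p
      rw [h2, Pi.zero_apply, g2]
    · intro w x y hy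
      show Ψ (w a) (Φ w (Θ.fn (x, y))) = Θ.fn (x, y)
      rw [h3 w x y (fun b hb => hy b (Finset.mem_insert_of_mem hb)), g3,
        hy a (Finset.mem_insert_self a l), hz0, htr0]
    · intro w x y b hb hy
      show Ψ (w a) (Φ w (Θ.fn (x, y))) = _
      rcases Finset.mem_insert.1 hb with rfl | hb'
      · rw [h3 w x y (fun b' hb' => hy b' (Finset.mem_insert_of_mem hb')
          (fun h => hal (h ▸ hb'))), g3]
      · have hab : a ≠ b := fun h => hal (h ▸ hb')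
        rw [h4 w x y b hb' (fun b' hb'' hne => hy b' (Finset.mem_insert_of_mem hb'') hne), g3,
          hy a (Finset.mem_insert_self a l) hab, hz0, htr0]

end one

/-- Kicks in a local product structure, for arbitrary diffeomorphisms. -/
theorem perte (d e n : ℕ) (M : Type u) [TopologicalSpace M] [T2Space M] [CompactSpace M]
    [ChartedSpace (V d) M] [IsManifold (𝓡 d) ∞ M]
    (N : Type v) [TopologicalSpace N] [T2Space N] [SigmaCompactSpace N]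
    [ChartedSpace (V e) N] [IsManifold (𝓡 e) ∞ N]
    (T : Type w) [TopologicalSpace T] [T2Space T] [CompactSpace T]
    [ChartedSpace (V n) T] [IsManifold (𝓡 n) ∞ T] (r : ℕ∞) (hr : 1 ≤ r)
    (𝒜 : Atl d M) (Θ : Emb n d e T M N) (G : DiffM n T r)
    (U : Set (DiffM n T r)) (hU : IsOpen[strongTop n T r] U) (hGU : G ∈ U)
    (k : ℕ) (C : Fin k → Set N) (hC : ∀ a, IsCompact (C a))
    (hdis : ∀ a b, a ≠ b → Disjoint (C a) (C b)) (c : Fin k → Fin 𝒜.q) :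
    ∃ κ₀ : ℝ, 0 < κ₀ ∧ κ₀ ≤ 1 / 10 ∧ ∀ w : Fin k → Kp d, (∀ a, ‖w a‖ ≤ κ₀) →
      ∃ G' ∈ U, ∀ a, ∀ y ∈ C a, ∀ z : V d, ‖z‖ < 2 →
        G' (Θ.fn ((𝒜.χ (c a)).symm z, y)) = G (Θ.fn ((𝒜.χ (c a)).symm (kick (w a) z), y)) := by
  obtain ⟨F, F', κ, hκ, hκ10, hF, hkick⟩ := kick_family d
  by_cases hT : Nonempty T
  swap
  · refine ⟨1 / 10, by norm_num, le_refl _, fun w _ => ⟨G, hGU, fun a y _ z _ => ?_⟩⟩
    exact absurd ⟨Θ.fn ((𝒜.χ (c a)).symm z, y)⟩ hT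
  obtain ⟨p₀⟩ := hT
  have hlc : LocallyCompactSpace N := ChartedSpace.locallyCompactSpace (V e) N
  obtain ⟨K, hK, hCK⟩ := exists_compact_superset (isCompact_iUnion fun a => hC a)
  -- cut-off functions
  have hθ : ∀ a : Fin k, ∃ θ : N → ℝ, ContMDiff (𝓡 e) 𝓘(ℝ, ℝ) ∞ θ ∧ (∀ y ∈ C a, θ y = 1) ∧
      (∀ b, b ≠ a → ∀ y ∈ C b, θ y = 0) ∧ ∀ y ∉ K, θ y = 0 := by
    intro a
    have h1 : IsClosed ((⋃ b ∈ {b : Fin k | b ≠ a}, C b) ∪ (interior K)ᶜ) :=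
      (Set.Finite.isClosed_biUnion (Set.toFinite _) (fun b _ => (hC b).isClosed)).union
        isOpen_interior.isClosed_compl
    have h2 : Disjoint ((⋃ b ∈ {b : Fin k | b ≠ a}, C b) ∪ (interior K)ᶜ) (C a) := by
      rw [Set.disjoint_union_left, Set.disjoint_iUnion₂_left]
      refine ⟨fun b hb => hdis b a hb, ?_⟩
      rw [Set.disjoint_left]
      exact fun y hy hy' => hy (hCK (mem_iUnion.2 ⟨a, hy'⟩))
    obtain ⟨θ, t1, t2, -⟩ := exists_contMDiffMap_zero_one_of_isClosed (𝓡 e) (n := ⊤) h1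
      (hC a).isClosed h2
    refine ⟨θ, θ.contMDiff, fun y hy => t2 hy, fun b hb y hy => ?_, fun y hy => ?_⟩
    · exact t1 (Or.inl (mem_iUnion₂.2 ⟨b, hb, hy⟩))
    · exact t1 (Or.inr fun h => hy (interior_subset h))
  choose θ hθs hθ1 hθ0 hθK using hθ
  obtain ⟨Φ, h1, h2, -, h4⟩ := many (n := n) r Θ 𝒜 c hF θ hθs hK hθK Finset.univ
  have hfam : IsFam n T r (fun w : Fin k → Kp d => (Φ w).trans G) := by
    intro p
    exact (G.contMDiff.comp h1).contMDiffAt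
  have h0 : (Φ 0).trans G = G := by
    ext p
    show G (Φ 0 p) = G p
    rw [h2]
  obtain ⟨κ', hκ', hmem⟩ := Pool.Agent.TH80.CLX.fam_mem r hr
    (fun w : Fin k → Kp d => (Φ w).trans G) hfam p₀ U hU (by
      show (Φ 0).trans G ∈ U
      rw [h0]; exact hGU)
  refine ⟨min κ (κ' / 2), lt_min hκ (by positivity), (min_le_left _ _).trans hκ10, fun w hw => ?_⟩
  refine ⟨(Φ w).trans G, hmem w ?_, ?_⟩
  · have h5 : ‖w‖ ≤ κ' / 2 :=
      (pi_norm_le_iff_of_nonneg (by positivity)).2 fun a => (hw a).trans (min_le_right _ _)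
    linarith
  intro a y hy z hz
  show G (Φ w (Θ.fn ((𝒜.χ (c a)).symm z, y))) = _
  have hz3 : z ∈ (𝒜.χ (c a)).target := by
    apply 𝒜.ball
    rw [mem_closedBall, dist_zero_right]
    linarith
  rw [h4 w _ y a (Finset.mem_univ a) (fun b _ hb => hθ0 b a hb.symm y hy), hθ1 a y hy, one_smul,
    tr_source ((𝒜.χ (c a)).map_target hz3), (𝒜.χ (c a)).right_inv hz3,
    hkick (w a) z ((hw a).trans (min_le_left _ _)) hz.le]

end Pool.Agent.H20.PT.EmbPert
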