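import Pool.Agent.H20.PT.Fin

/-!
# Project PT: products and the stability conjecture
-/

set_option autoImplicit false
set_option linter.unusedSectionVars false

open scoped Manifold ContDiff Topology
open Filter Set Metric

universe u v w

namespace Pool.Agent.H20.PT

open Pool.Agent.H718R2.G Pool.Agent.TH80.OMS Pool.Agent.Y504.CO Pool.Agent.R773.TE
open Pool.Agent.H728R2.OS (ChainRec NoCycle)

/-- `f` satisfies Axiom A and has no cycles (and its chain recurrent set is its nonwandering set). -/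
def InU3 {d : ℕ} {M : Type u} [MetricSpace M] [ChartedSpace (V d) M] [IsManifold (𝓡 d) ∞ M]
    (f : M ≃ₜ M) : Prop :=
  haveI : IsManifold 𝓘(ℝ, V d) 1 M := IsManifold.of_le (m := 1) (n := ∞) (by simp)
  Q263.HS.AxiomA (V d) f ∧ NoCycle f ∧ ChainRec f = Pool.Agent.H728R2.OS.Omega f

/-- The chain recurrent set of `f` is hyperbolic. -/
def ChainHypM {d : ℕ} {M : Type u} [MetricSpace M] [ChartedSpace (V d) M] [IsManifold (𝓡 d) ∞ M]
    (f : M ≃ₜ M) : Prop :=
  haveI : IsManifold 𝓘(ℝ, V d) 1 M := IsManifold.of_le (m := 1) (n := ∞) (by simp)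
  Q263.HS.IsHyp (V d) f (ChainRec f)

section

variable {d : ℕ} {M : Type u} [MetricSpace M] [CompactSpace M] [ChartedSpace (V d) M]
    [IsManifold (𝓡 d) ∞ M] {r : ℕ∞}

theorem u3_of_hyp (hr : 1 ≤ r) (f : DiffM d M r)
    (h : ChainHypM (d := d) f.toHomeomorph) : InU3 (d := d) f.toHomeomorph := by
  have : IsManifold 𝓘(ℝ, V d) 1 M := IsManifold.of_le (m := 1) (n := ∞) (by simp)
  have hr1 : (1 : WithTop ℕ∞) ≤ (r : WithTop ℕ∞) := by exact_mod_cast hr
  have h' : Q263.HS.IsHyp (V d) f.toHomeomorph (ChainRec f.toHomeomorph) := h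
  exact Q263.HS.chain_hyp Q263.HR.tr Pool.Agent.Q223.HS.fl Q263.HS.ang
    Pool.Agent.Q223.HS.cont Q263.HS.low Q263.HR.chain Q263.HS.crr f.toHomeomorph
    (f.contMDiff.of_le hr1) (f.symm.contMDiff.of_le hr1) h' subset_rfl

/-- The main theorem: `f × g` is a star diffeomorphism and `g` has `k₀` symbols. -/
theorem factor_hyp (hr : 2 ≤ r) (f : DiffM d M r) :
    ∃ k₀ : ℕ, ∀ (e n : ℕ) (N : Type v) [TopologicalSpace N] [T2Space N] [CompactSpace N]
      [ChartedSpace (V e) N] [IsManifold (𝓡 e) ∞ N]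
      (T : Type w) [TopologicalSpace T] [T2Space T] [CompactSpace T]
      [ChartedSpace (V n) T] [IsManifold (𝓡 n) ∞ T] (g : DiffM e N r) (Θ : ProdDiff n d e T M N)
      (F : DiffM n T r), FullShift k₀ g → IsProd Θ F f g → Star n T r F →
      ChainHypM (d := d) f.toHomeomorph := by
  have : IsManifold 𝓘(ℝ, V d) 1 M := IsManifold.of_le (m := 1) (n := ∞) (by simp)
  have hr1 : (1 : WithTop ℕ∞) ≤ (r : WithTop ℕ∞) := by
    exact_mod_cast (le_trans (by norm_num) hr : (1 : ℕ∞) ≤ r)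
  obtain ⟨𝒜⟩ := hATL.{u} d M
  obtain ⟨L, δ, hL⟩ := hLOC.{u} d M r f 𝒜 hr
  obtain ⟨k₀, hk⟩ := abc.{u, v, w} hCTL hNET hPERT hCLO hr 𝒜 f hL
  refine ⟨k₀, fun e n N _ _ _ _ _ T _ _ _ _ _ g Θ F hS hP hF => ?_⟩
  obtain ⟨κ, hκ, hκ2, hNC⟩ := hk e n N T g Θ F hS hP hF
  exact hyp_of_noChain hDICH hNB hG1 hG2 hCRI hNM hE1 hE2 hCS 𝒜 f.toHomeomorph
    (f.contMDiff.of_le hr1) (f.symm.contMDiff.of_le hr1) hL hκ hκ2 hNC

/-- An `Ω`-stable diffeomorphism is a star diffeomorphism. -/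
theorem star_of_stable {n : ℕ} {T : Type w} [TopologicalSpace T] [T2Space T] [CompactSpace T]
    [ChartedSpace (V n) T] [IsManifold (𝓡 n) ∞ T] (hr : 1 ≤ r) {F : DiffM n T r}
    (hF : OmegaStable n T r F) : Star n T r F :=
  Pool.Agent.K4H46.CI.hyp_near hr hF

/-- chains of a product project to chains of the factors -/
theorem chain_prod {N : Type v} [MetricSpace N] [CompactSpace N] {T : Type w} [MetricSpace T]
    [CompactSpace T] (Θ : M × N ≃ₜ T) (f : M ≃ₜ M) (g : N ≃ₜ N) (F : T ≃ₜ T)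
    (hP : IsProd Θ F f g) : ChainRec F ⊆ Θ '' (ChainRec f ×ˢ ChainRec g) := by
  intro z hz
  have huc : UniformContinuous Θ.symm := CompactSpace.uniformContinuous_of_continuous
    Θ.symm.continuous
  have key : ∀ ε > 0, ∃ (n : ℕ) (c : ℕ → T), 0 < n ∧ c 0 = z ∧ c n = z ∧
      ∀ i < n, dist (Θ.symm (F (c i))) (Θ.symm (c (i + 1))) < ε := by
    intro ε hε
    obtain ⟨δ, hδ, h⟩ := Metric.uniformContinuous_iff.1 huc ε hε
    obtain ⟨n, c, hn, h0, h1, hc⟩ := hz δ hδ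
    exact ⟨n, c, hn, h0, h1, fun i hi => h (hc i hi)⟩
  have hF : ∀ w, Θ.symm (F w) = (f (Θ.symm w).1, g (Θ.symm w).2) := by
    intro w
    obtain ⟨⟨x, y⟩, rfl⟩ := Θ.surjective w
    rw [hP x y, Θ.symm_apply_apply, Θ.symm_apply_apply]
  refine ⟨Θ.symm z, ⟨?_, ?_⟩, Θ.apply_symm_apply z⟩
  · intro ε hε
    obtain ⟨n, c, hn, h0, h1, hc⟩ := key ε hε
    refine ⟨n, fun i => (Θ.symm (c i)).1, hn, by simp only [h0], by simp only [h1], fun i hi => ?_⟩
    have h2 := hc i hi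
    rw [hF, Prod.dist_eq, max_lt_iff] at h2
    exact h2.1
  · intro ε hε
    obtain ⟨n, c, hn, h0, h1, hc⟩ := key ε hε
    refine ⟨n, fun i => (Θ.symm (c i)).2, hn, by simp only [h0], by simp only [h1], fun i hi => ?_⟩
    have h2 := hc i hi
    rw [hF, Prod.dist_eq, max_lt_iff] at h2
    exact h2.2

/-- Products of diffeomorphisms with hyperbolic chain recurrent sets. -/
theorem prod_hyp {e n : ℕ} {N : Type v} [MetricSpace N] [CompactSpace N]
    [ChartedSpace (V e) N] [IsManifold (𝓡 e) ∞ N] {T : Type w} [MetricSpace T] [CompactSpace T]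
    [ChartedSpace (V n) T] [IsManifold (𝓡 n) ∞ T] (hr : 1 ≤ r) (f : DiffM d M r)
    (g : DiffM e N r) (Θ : ProdDiff n d e T M N) (F : DiffM n T r) (hP : IsProd Θ F f g)
    (hf : ChainHypM (d := d) f.toHomeomorph) (hg : ChainHypM (d := e) g.toHomeomorph) :
    ChainHypM (d := n) F.toHomeomorph := by
  have i1 : IsManifold 𝓘(ℝ, V d) 1 M := IsManifold.of_le (m := 1) (n := ∞) (by simp)
  have i2 : IsManifold 𝓘(ℝ, V e) 1 N := IsManifold.of_le (m := 1) (n := ∞) (by simp)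
  have i3 : IsManifold 𝓘(ℝ, V n) 1 T := IsManifold.of_le (m := 1) (n := ∞) (by simp)
  have hr1 : (1 : WithTop ℕ∞) ≤ (r : WithTop ℕ∞) := by exact_mod_cast hr
  have h := hPROD.{u, v, w} d e n M N T Θ f.toHomeomorph g.toHomeomorph F.toHomeomorph
    (f.contMDiff.of_le hr1) (f.symm.contMDiff.of_le hr1) (g.contMDiff.of_le hr1)
    (g.symm.contMDiff.of_le hr1) (F.contMDiff.of_le hr1) (F.symm.contMDiff.of_le hr1) hP
    (ChainRec f.toHomeomorph) (ChainRec g.toHomeomorph) hf hg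
  have hsub : ChainRec F.toHomeomorph ⊆ Θ '' (ChainRec f.toHomeomorph ×ˢ ChainRec g.toHomeomorph) :=
    chain_prod Θ.toHomeomorph f.toHomeomorph g.toHomeomorph F.toHomeomorph hP
  obtain ⟨hcl, hinv⟩ := hCRI T F.toHomeomorph
  exact h.mono hsub hcl hinv

end

end Pool.Agent.H20.PT
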