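import Pool.Agent.H20.PT.Skew
import Pool.Agent.H20.PT.Main

/-!
# Project PT3: an `Ω`-stable skew product over `f` gives no closed chains of vectors for `f`
-/

set_option autoImplicit false
set_option linter.unusedSectionVars false

open scoped Manifold ContDiff Topology
open Filter Set Metric

universe u v w

namespace Pool.Agent.H20.PT

open Pool.Agent.H718R2.G Pool.Agent.TH80.OMS Pool.Agent.Y504.CO Pool.Agent.R773.TE
open Pool.Agent.H728R2.OS (ChainRec)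

/-- Disjoint closed sets have disjoint closed neighbourhoods. -/
theorem thicken {N : Type v} [TopologicalSpace N] [NormalSpace N] {k : ℕ} (C : Fin k → Set N)
    (hC : ∀ a, IsClosed (C a)) (hd : ∀ a b, a ≠ b → Disjoint (C a) (C b)) :
    ∃ C' : Fin k → Set N, (∀ a, IsClosed (C' a)) ∧ (∀ a b, a ≠ b → Disjoint (C' a) (C' b)) ∧
      ∀ a, C a ⊆ interior (C' a) := by
  have hθ : ∀ a : Fin k, ∃ θ : C(N, ℝ), (∀ y ∈ C a, θ y = 1) ∧ ∀ b, b ≠ a → ∀ y ∈ C b, θ y = 0 := by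
    intro a
    have h1 : IsClosed (⋃ b ∈ {b : Fin k | b ≠ a}, C b) :=
      Set.Finite.isClosed_biUnion (Set.toFinite _) (fun b _ => hC b)
    have h2 : Disjoint (⋃ b ∈ {b : Fin k | b ≠ a}, C b) (C a) := by
      rw [Set.disjoint_iUnion₂_left]
      exact fun b hb => hd b a hb
    obtain ⟨θ, t1, t2, -⟩ := exists_continuous_zero_one_of_isClosed h1 (hC a) h2
    exact ⟨θ, fun y hy => t2 hy, fun b hb y hy => t1 (mem_iUnion₂.2 ⟨b, hb, hy⟩)⟩
  choose θ h1 h0 using hθ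
  obtain ⟨h, hh⟩ : ∃ h : N → ℝ, h = fun y => ∑ a : Fin k, (a : ℝ) * θ a y := ⟨_, rfl⟩
  have hc : Continuous h := by
    rw [hh]
    exact continuous_finsetSum _ fun a _ => continuous_const.mul (θ a).continuous
  have hv : ∀ b, ∀ y ∈ C b, h y = (b : ℝ) := by
    intro b y hy
    rw [hh]
    dsimp only
    rw [Finset.sum_eq_single b]
    · rw [h1 b y hy, mul_one]
    · intro a _ hab
      rw [h0 a b hab.symm y hy, mul_zero]
    · intro hb
      exact absurd (Finset.mem_univ b) hb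
  refine ⟨fun a => h ⁻¹' Icc ((a : ℝ) - 1 / 3) ((a : ℝ) + 1 / 3), fun a => isClosed_Icc.preimage hc,
    fun a b hab => ?_, fun a y hy => ?_⟩
  · rw [Set.disjoint_left]
    intro y hy hy'
    have h3 : ((a : ℕ) : ℝ) ≠ ((b : ℕ) : ℝ) := fun h => hab (Fin.ext (by exact_mod_cast h))
    rcases lt_or_gt_of_ne h3 with h4 | h4
    · have h5 : ((a : ℕ) : ℝ) + 1 ≤ ((b : ℕ) : ℝ) := by
        have : (a : ℕ) < (b : ℕ) := by exact_mod_cast h4
        exact_mod_cast this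
      have := hy.2
      have := hy'.1
      linarith
    · have h5 : ((b : ℕ) : ℝ) + 1 ≤ ((a : ℕ) : ℝ) := by
        have : (b : ℕ) < (a : ℕ) := by exact_mod_cast h4
        exact_mod_cast this
      have := hy.1
      have := hy'.2
      linarith
  · rw [mem_interior]
    refine ⟨h ⁻¹' Ioo ((a : ℝ) - 1 / 3) ((a : ℝ) + 1 / 3), preimage_mono Ioo_subset_Icc_self,
      isOpen_Ioo.preimage hc, ?_⟩
    rw [mem_preimage, hv a y hy]
    constructor <;> linarith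

section

variable {d : ℕ} {M : Type u} [TopologicalSpace M] [ChartedSpace (V d) M]
    {N : Type v} [TopologicalSpace N] {T : Type w} [TopologicalSpace T]

theorem orbitS (Θ : M × N → T) (G : T → T) (m : ℕ) (q : ℕ → M) (y : ℕ → N)
    (ho : ∀ j < m, G (Θ (q j, y j)) = Θ (q (j + 1), y (j + 1))) :
    ∀ j ≤ m, G^[j] (Θ (q 0, y 0)) = Θ (q j, y j) := by
  intro j
  induction j with
  | zero => intro _; rfl
  | succ j ih =>
    intro hj
    rw [Function.iterate_succ_apply', ih (by omega), ho j (by omega)]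

/-- Following a kicked orbit of a skew product: the first coordinates of the return map are the
composition of local maps and kicks. -/
theorem followS (𝒜 : Atl d M) (f : M → M) (Θ : M × N ≃ₜ T) (G : T → T) (hGc : Continuous G)
    {L δ : ℝ} (hL : LocC 𝒜 f L δ) (m : ℕ) (x : ℕ → M) (w : ℕ → Kp d) (Q : ℕ → V d) (y : ℕ → N)
    (C : ℕ → Set N) (hC : ∀ j < m, C j ∈ 𝓝 (y j))
    (hQt : Q 0 ∈ (𝒜.χ (𝒜.ix (x 0))).target)
    (hG : ∀ j < m, ∀ z : V d, ‖z‖ < 2 → ∀ y' ∈ C j,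
      (Θ.symm (G (Θ ((𝒜.χ (𝒜.ix (x j))).symm z, y')))).1 =
      f ((𝒜.χ (𝒜.ix (x j))).symm (kick (w j) z)))
    (ho : ∀ j < m, G (Θ ((𝒜.χ (𝒜.ix (x j))).symm (Q j), y j)) =
      Θ ((𝒜.χ (𝒜.ix (x (j + 1)))).symm (Q (j + 1)), y (j + 1)))
    (hQ : ∀ j < m, ‖Q j‖ < 2 ∧ ‖kick (w j) (Q j) - 𝒜.c (x j)‖ < δ ∧
      Q (j + 1) = 𝒜.loc f (𝒜.ix (x j)) (𝒜.ix (x (j + 1))) (kick (w j) (Q j)))
    (hn : ∀ j < m, f (x j) ∈ (𝒜.χ (𝒜.ix (x (j + 1)))).source ∧
      ‖𝒜.χ (𝒜.ix (x (j + 1))) (f (x j))‖ ≤ 3 / 2) :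
    ∀ j ≤ m, ∃ H : V d → V d, ContinuousAt H (Q 0) ∧ H (Q 0) = Q j ∧
      (∀ᶠ q in 𝓝 (Q 0, y 0),
        (Θ.symm (G^[j] (Θ ((𝒜.χ (𝒜.ix (x 0))).symm q.1, q.2)))).1 =
          (𝒜.χ (𝒜.ix (x j))).symm (H q.1)) ∧
      ∀ D : ℕ → V d → (V d →L[ℝ] V d), (∀ i < m, HasFDerivAt
          (𝒜.loc f (𝒜.ix (x i)) (𝒜.ix (x (i + 1)))) (D i (kick (w i) (Q i))) (kick (w i) (Q i))) →
        ∀ U : ℕ → V d, (∀ i < m, U (i + 1) = D i (kick (w i) (Q i)) (U i + (w i).2 (U i))) →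
        ∃ D' : V d →L[ℝ] V d, HasFDerivAt H D' (Q 0) ∧ D' (U 0) = U j := by
  have horb := orbitS Θ G m (fun j => (𝒜.χ (𝒜.ix (x j))).symm (Q j)) y ho
  have hcont : ∀ j, ContinuousAt (fun q : V d × N =>
      G^[j] (Θ ((𝒜.χ (𝒜.ix (x 0))).symm q.1, q.2))) (Q 0, y 0) := by
    intro j
    have h1 : ContinuousAt (fun q : V d × N => (𝒜.χ (𝒜.ix (x 0))).symm q.1) (Q 0, y 0) :=
      ContinuousAt.comp (g := (𝒜.χ (𝒜.ix (x 0))).symm)
        ((𝒜.χ (𝒜.ix (x 0))).continuousAt_symm hQt) continuousAt_fst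
    exact ((hGc.iterate j).comp Θ.continuous).continuousAt.comp (h1.prodMk continuousAt_snd)
  intro j
  induction j with
  | zero =>
    intro _
    refine ⟨id, continuousAt_id, rfl, Eventually.of_forall fun q => ?_, fun D hD U hU =>
      ⟨ContinuousLinearMap.id ℝ (V d), hasFDerivAt_id _, rfl⟩⟩
    show (Θ.symm (Θ ((𝒜.χ (𝒜.ix (x 0))).symm q.1, q.2))).1 = _
    rw [Θ.symm_apply_apply]
    rfl
  | succ j ih =>
    intro hj
    obtain ⟨H, hHc, hH0, hHe, hHD⟩ := ih (by omega)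
    have hjm : j < m := by omega
    obtain ⟨hQ2, hQδ, hQs⟩ := hQ j hjm
    obtain ⟨hns, hn32⟩ := hn j hjm
    obtain ⟨hdom, D₁, hD₁⟩ := hL.loc (x j) (𝒜.ix (x (j + 1))) hns hn32
    have hcF : ContinuousAt (𝒜.loc f (𝒜.ix (x j)) (𝒜.ix (x (j + 1)))) (kick (w j) (Q j)) :=
      (hD₁.der _ hQδ).continuousAt
    have hcH : ContinuousAt (fun z => kick (w j) (H z)) (Q 0) :=
      ContinuousAt.comp (g := kick (w j)) (kick_cont (w j)).continuousAt hHc
    refine ⟨fun z => 𝒜.loc f (𝒜.ix (x j)) (𝒜.ix (x (j + 1))) (kick (w j) (H z)), ?_, ?_, ?_, ?_⟩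
    · apply ContinuousAt.comp (g := 𝒜.loc f (𝒜.ix (x j)) (𝒜.ix (x (j + 1))))
        (f := fun z => kick (w j) (H z)) _ hcH
      show ContinuousAt _ (kick (w j) (H (Q 0)))
      rw [hH0]
      exact hcF
    · show 𝒜.loc f _ _ (kick (w j) (H (Q 0))) = Q (j + 1)
      rw [hH0, hQs]
    · have h1 : ∀ᶠ z in 𝓝 (Q 0), ‖H z‖ < 2 := by
        have := hHc.norm
        exact this.eventually (gt_mem_nhds (by
          show ‖H (Q 0)‖ < 2
          rw [hH0]; exact hQ2))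
      have h2 : ∀ᶠ z in 𝓝 (Q 0), ‖kick (w j) (H z) - 𝒜.c (x j)‖ < δ := by
        have := (hcH.sub (continuousAt_const (y := 𝒜.c (x j)))).norm
        exact this.eventually (gt_mem_nhds (by
          show ‖kick (w j) (H (Q 0)) - 𝒜.c (x j)‖ < δ
          rw [hH0]; exact hQδ))
      have h3 : ∀ᶠ q in 𝓝 (Q 0, y 0),
          (Θ.symm (G^[j] (Θ ((𝒜.χ (𝒜.ix (x 0))).symm q.1, q.2)))).2 ∈ C j := by
        have h4 : ContinuousAt (fun q : V d × N =>
            (Θ.symm (G^[j] (Θ ((𝒜.χ (𝒜.ix (x 0))).symm q.1, q.2)))).2) (Q 0, y 0) :=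
          ContinuousAt.comp (g := fun t : T => (Θ.symm t).2)
            (continuous_snd.comp Θ.symm.continuous).continuousAt (hcont j)
        refine h4 ?_
        dsimp only
        rw [horb j (by omega), Θ.symm_apply_apply]
        exact hC j hjm
      have hf : Tendsto (fun q : V d × N => q.1) (𝓝 (Q 0, y 0)) (𝓝 (Q 0)) := continuousAt_fst
      filter_upwards [hHe, hf.eventually h1, hf.eventually h2, h3] with q hq hq1 hq2 hq3
      rw [Function.iterate_succ_apply']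
      have h5 : G^[j] (Θ ((𝒜.χ (𝒜.ix (x 0))).symm q.1, q.2)) =
          Θ ((𝒜.χ (𝒜.ix (x j))).symm (H q.1),
            (Θ.symm (G^[j] (Θ ((𝒜.χ (𝒜.ix (x 0))).symm q.1, q.2)))).2) := by
        rw [← hq]
        exact (Θ.apply_symm_apply _).symm
      rw [h5, hG j hjm (H q.1) hq1 _ hq3]
      obtain ⟨-, hs⟩ := hdom _ hq2
      show f _ = (𝒜.χ (𝒜.ix (x (j + 1)))).symm (𝒜.χ (𝒜.ix (x (j + 1))) (f _))
      rw [(𝒜.χ (𝒜.ix (x (j + 1)))).left_inv hs]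
    · intro D hD U hU
      obtain ⟨D', hD', hD'U⟩ := hHD D hD U hU
      have h3 : HasFDerivAt (fun z => kick (w j) (H z))
          ((ContinuousLinearMap.id ℝ (V d) + (w j).2) ∘L D') (Q 0) :=
        HasFDerivAt.comp (g := kick (w j)) (Q 0) (kick_der (w j) (H (Q 0))) hD'
      have h4 : HasFDerivAt (𝒜.loc f (𝒜.ix (x j)) (𝒜.ix (x (j + 1))))
          (D j (kick (w j) (Q j))) (kick (w j) (H (Q 0))) := by
        rw [hH0]
        exact hD j hjm
      refine ⟨D j (kick (w j) (Q j)) ∘L ((ContinuousLinearMap.id ℝ (V d) + (w j).2) ∘L D'),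
        HasFDerivAt.comp (g := 𝒜.loc f (𝒜.ix (x j)) (𝒜.ix (x (j + 1)))) (Q 0) h4 h3, ?_⟩
      rw [hU j hjm]
      simp [hD'U]

end

/-- A star skew product over `f` with sufficiently many symbols in the fibres has no closed chains of
vectors for `f`. -/
theorem abcS (hCTL : S_CTL) (hNET : S_NET) (hPERTG : S_PERTG.{u, v, w})
    (hCLO2 : S_CLO2.{u, v, w})
    {d : ℕ} {M : Type u} [TopologicalSpace M] [T2Space M] [CompactSpace M]
    [ChartedSpace (V d) M] [IsManifold (𝓡 d) ∞ M] {r : ℕ∞} (hr : 2 ≤ r)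
    (𝒜 : Atl d M) (f : M → M) {L δ : ℝ} (hL : LocC 𝒜 f L δ) :
    ∃ k₀ : ℕ, ∀ (e n : ℕ) (N : Type v) [TopologicalSpace N] [T2Space N] [CompactSpace N]
      [ChartedSpace (V e) N] [IsManifold (𝓡 e) ∞ N]
      (T : Type w) [TopologicalSpace T] [T2Space T] [CompactSpace T]
      [ChartedSpace (V n) T] [IsManifold (𝓡 n) ∞ T] (S : M → N → N) (Θ : ProdDiff n d e T M N)
      (F : DiffM n T r), FibreShift k₀ S → IsSkew Θ F f S → Star n T r F →
      ∃ κ : ℝ, 0 < κ ∧ κ ≤ 1 / 2 ∧ NoChain 𝒜 f κ := by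
  have hr1 : 1 ≤ r := le_trans (by norm_num) hr
  have hL1 := hL.one_le
  have hL3 : 1 ≤ 120 * L ^ 3 := by nlinarith [one_le_pow₀ (n := 3) hL1]
  obtain ⟨m, hm⟩ := hNET d (120 * L ^ 3) hL3
  obtain ⟨σ⟩ : Nonempty ((Fin 𝒜.q × Option (Fin m)) ≃ Fin (Fintype.card
    (Fin 𝒜.q × Option (Fin m)))) := ⟨Fintype.equivFin _⟩
  refine ⟨Fintype.card (Fin 𝒜.q × Option (Fin m)), ?_⟩
  intro e n N _ _ _ _ _ T _ _ _ _ _ S Θ F hS hP hF
  obtain ⟨C, hCc, hCd, hCs⟩ := hS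
  obtain ⟨C', hC'c, hC'd, hCC'⟩ := thicken C hCc hCd
  obtain ⟨U₀, hU₀, hFU, hyp⟩ := hF
  obtain ⟨κ', hκ', hκ10, hG⟩ := hPERTG d e n M N T r hr1 𝒜 Θ F U₀ hU₀ hFU _ C' hC'c hC'd
    (fun a => (σ.symm a).1)
  set κ₀ := min κ' δ with hκ₀
  have hκ₀p : 0 < κ₀ := lt_min hκ' hL.pos
  obtain ⟨p, hp1, hp2⟩ := hm κ₀ hκ₀p
  refine ⟨κ₀ / (120 * L ^ 3), by positivity, ?_, ?_⟩
  · rw [div_le_iff₀ (by positivity)]
    have := min_le_right κ' δ
    have := hL.le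
    nlinarith
  · intro nn x v hnn hx hv hv0 hnear hvec
    have hsrc : ∀ j < nn, f (x j) ∈ (𝒜.χ (𝒜.ix (x (j + 1)))).source ∧
        ‖𝒜.χ (𝒜.ix (x (j + 1))) (f (x j))‖ ≤ 3 / 2 := by
      intro j hj
      obtain ⟨h1, h2⟩ := hnear j hj
      refine ⟨h1, ?_⟩
      have h3 := 𝒜.ix_lt (x (j + 1))
      have h4 : κ₀ / (120 * L ^ 3) ≤ 1 / 2 := by
        rw [div_le_iff₀ (by positivity)]
        have := min_le_right κ' δ
        have := hL.le
        nlinarith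
      have h5 : ‖𝒜.χ (𝒜.ix (x (j + 1))) (f (x j))‖ ≤
          ‖𝒜.χ (𝒜.ix (x (j + 1))) (f (x j)) - 𝒜.c (x (j + 1))‖ + ‖𝒜.c (x (j + 1))‖ := by
        simpa using norm_add_le (𝒜.χ (𝒜.ix (x (j + 1))) (f (x j)) - 𝒜.c (x (j + 1)))
          (𝒜.c (x (j + 1)))
      unfold Atl.c at h5 h2
      linarith
    have hDe : ∀ j, ∃ D : V d → (V d ≃L[ℝ] V d), j < nn →
        LMap L δ (𝒜.c (x j)) (𝒜.χ (𝒜.ix (x (j + 1))) (f (x j)))
          (𝒜.loc f (𝒜.ix (x j)) (𝒜.ix (x (j + 1)))) D := by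
      intro j
      by_cases hj : j < nn
      · obtain ⟨-, D, hD⟩ := hL.loc (x j) (𝒜.ix (x (j + 1))) (hsrc j hj).1 (hsrc j hj).2
        exact ⟨D, fun _ => hD⟩
      · exact ⟨fun _ => ContinuousLinearEquiv.refl ℝ (V d), fun h => absurd h hj⟩
    choose D hD using hDe
    obtain ⟨w, Q, U, hw, hwl, hQ0, hQn, hU0, hUn, hstep⟩ := hCTL d L δ κ₀ hL1 hL.pos hL.le hκ₀p
      (min_le_right _ _) (range p) (by
        intro w hw
        obtain ⟨a, ha⟩ := hp2 w hw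
        exact ⟨p a, mem_range_self a, ha⟩) nn (fun j => 𝒜.c (x j))
      (fun j => 𝒜.χ (𝒜.ix (x (j + 1))) (f (x j))) v
      (fun j => 𝒜.loc f (𝒜.ix (x j)) (𝒜.ix (x (j + 1)))) D hnn
      (fun j _ => (𝒜.ix_lt (x j)).le) (fun j hj => hD j hj) (by simp only [hx]) hv hv0
      (fun j hj => (hnear j hj).2) (by
        intro j hj
        have h1 := hvec j hj
        have h2 := ((hD j hj).der (𝒜.c (x j)) (by simpa using hL.pos)).fderiv
        rw [h2] at h1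
        exact h1)
    have hae : ∀ j, ∃ a : Option (Fin m), (j + 1 < nn → ∃ b, a = some b ∧ p b = w j) ∧
        (¬ j + 1 < nn → a = none) := by
      intro j
      by_cases hj : j + 1 < nn
      · obtain ⟨b, hb⟩ := hw j hj
        exact ⟨some b, fun _ => ⟨b, rfl, hb⟩, fun h => absurd hj h⟩
      · exact ⟨none, fun h => absurd h hj, fun _ => rfl⟩
    choose α hα1 hα2 using hae
    obtain ⟨om, hom⟩ : ∃ om : Fin 𝒜.q × Option (Fin m) → Kp d,
        om = fun b => (b.2.elim (w (nn - 1)) p) := ⟨_, rfl⟩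
    have homn : ∀ a, ‖om (σ.symm a)‖ ≤ κ' := by
      intro a
      rw [hom]
      dsimp only
      rcases (σ.symm a).2 with _ | b
      · exact (hwl (nn - 1) (by omega) (by omega)).trans (min_le_left _ _)
      · exact (hp1 b).trans (min_le_left _ _)
    obtain ⟨G, hGU, hGk⟩ := hG (fun a => om (σ.symm a)) homn
    obtain ⟨y, hyn, hyj⟩ := hCs nn (fun j => (𝒜.χ (𝒜.ix (x j))).symm (kick (w j) (Q j)))
      (fun j => σ (𝒜.ix (x j), α j)) hnn
    have homj : ∀ j < nn, om (𝒜.ix (x j), α j) = w j := by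
      intro j hj
      rw [hom]
      dsimp only
      by_cases h1 : j + 1 < nn
      · obtain ⟨b, hb, hpb⟩ := hα1 j h1
        rw [hb]
        exact hpb
      · rw [hα2 j h1]
        have : j = nn - 1 := by omega
        rw [this]
        rfl
    have hGS : ∀ j < nn, ∀ z : V d, ‖z‖ < 2 → ∀ y' ∈ C' (σ (𝒜.ix (x j), α j)),
        G (Θ ((𝒜.χ (𝒜.ix (x j))).symm z, y')) =
        Θ (f ((𝒜.χ (𝒜.ix (x j))).symm (kick (w j) z)),
          S ((𝒜.χ (𝒜.ix (x j))).symm (kick (w j) z)) y') := by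
      intro j hj z hz y' hy'
      have h1 := hGk (σ (𝒜.ix (x j), α j)) y' hy' z hz
      simp only [Equiv.symm_apply_apply] at h1
      rw [homj j hj] at h1
      rw [h1, hP]
    have ht : 𝒜.c (x 0) ∈ (𝒜.χ (𝒜.ix (x 0))).target :=
      (𝒜.χ (𝒜.ix (x 0))).map_source (𝒜.ix_src (x 0))
    have ho : ∀ j < nn, G (Θ ((𝒜.χ (𝒜.ix (x j))).symm (Q j), y j)) =
        Θ ((𝒜.χ (𝒜.ix (x (j + 1)))).symm (Q (j + 1)), y (j + 1)) := by
      intro j hj
      obtain ⟨hQ2, hQδ, hQs, -⟩ := hstep j hj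
      rw [hGS j hj (Q j) hQ2 (y j) (interior_subset (hCC' _ (hyj j hj).2)), (hyj j hj).1]
      congr 2
      rw [hQs]
      obtain ⟨hdom, -⟩ := hL.loc (x j) (𝒜.ix (x (j + 1))) (hsrc j hj).1 (hsrc j hj).2
      obtain ⟨-, hs⟩ := hdom _ hQδ
      show f _ = (𝒜.χ (𝒜.ix (x (j + 1)))).symm (𝒜.χ (𝒜.ix (x (j + 1))) (f _))
      rw [(𝒜.χ (𝒜.ix (x (j + 1)))).left_inv hs]
    have hfol := followS 𝒜 f Θ.toHomeomorph G G.continuous hL nn x w Q y
      (fun j => C' (σ (𝒜.ix (x j), α j)))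
      (fun j hj => mem_interior_iff_mem_nhds.1 (hCC' _ (hyj j hj).2)) (by rw [hQ0]; exact ht)
      (by
        intro j hj z hz y' hy'
        show (Θ.symm (G (Θ ((𝒜.χ (𝒜.ix (x j))).symm z, y')))).1 = _
        rw [hGS j hj z hz y' hy', Θ.symm_apply_apply]) ho
      (fun j hj => ⟨(hstep j hj).1, (hstep j hj).2.1, (hstep j hj).2.2.1⟩) hsrc nn le_rfl
    obtain ⟨H, hHc, hH0, hHe, hHD⟩ := hfol
    obtain ⟨D', hD', hD'U⟩ := hHD (fun j z => (D j z : V d →L[ℝ] V d))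
      (fun j hj => (hD j hj).der _ (hstep j hj).2.1) U (fun j hj => (hstep j hj).2.2.2)
    have horb := orbitS Θ G nn (fun j => (𝒜.χ (𝒜.ix (x j))).symm (Q j)) y ho nn le_rfl
    rw [hx, hyn, hQn, hQ0] at horb
    rw [hx, hQ0] at hHe
    rw [hQ0] at hH0 hD'
    rw [hQn] at hH0
    rw [hU0, hUn] at hD'U
    have hno := hCLO2 d e n M N T r hr1 Θ G (𝒜.χ (𝒜.ix (x 0))) (𝒜.mem _) (y 0) (𝒜.c (x 0)) ht nn
      hnn H D' (v 0) horb hHe hD' hH0 (hv0 0 (Nat.zero_le _)) hD'U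
    apply hno
    apply hyp G hGU
    exact ⟨nn, hnn, horb⟩

end Pool.Agent.H20.PT
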