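import Pool.Agent.H20.PT.Drv
import Pool.Agent.H20.PT.EmbPert
import Pool.Agent.H20.PT.EmbClo2
import Pool.Agent.H20.PT.SkewAbc
import Pool.Agent.H20.PT.Abc

/-!
# Project PT4: a stable diffeomorphism which contains a family of maps driven by a full shift has no
closed chains of vectors for the family
-/

set_option autoImplicit false
set_option linter.unusedSectionVars false

open scoped Manifold ContDiff Topology
open Filter Set Metric

universe u v w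

namespace Pool.Agent.H20.PT

open Pool.Agent.H718R2.G Pool.Agent.TH80.OMS Pool.Agent.Y504.CO Pool.Agent.R773.TE

theorem LMap.mono {d : ℕ} {L δ L' δ' : ℝ} {ξ y₀ : V d} {F : V d → V d}
    {D : V d → (V d ≃L[ℝ] V d)} (h : LMap L δ ξ y₀ F D) (hL : 1 ≤ L) (hLL : L ≤ L')
    (hδ' : 0 < δ') (hδ : δ' ≤ δ) : LMap L' δ' ξ y₀ F D := by
  refine ⟨h.val, fun z hz => h.der z (hz.trans_le hδ), fun z hz => (h.up z (hz.trans_le hδ)).trans hLL,
    fun z hz => (h.low z (hz.trans_le hδ)).trans hLL, fun z z' hz hz' =>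
      (h.lip z z' (hz.trans_le hδ) (hz'.trans_le hδ)).trans
        (mul_le_mul_of_nonneg_right hLL (norm_nonneg _)), fun y hy => ?_⟩
  have h1 : δ' / L' ≤ δ / L := by
    rw [div_le_div_iff₀ (by linarith) (by linarith)]
    nlinarith
  obtain ⟨z, hz, hzy⟩ := h.inv y (hy.trans_le h1)
  exact ⟨z, hz.trans (mul_le_mul_of_nonneg_right hLL (norm_nonneg _)), hzy⟩

theorem LocC.mono {d : ℕ} {M : Type u} [TopologicalSpace M] [ChartedSpace (V d) M] {𝒜 : Atl d M}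
    {f : M → M} {L δ L' δ' : ℝ} (h : LocC 𝒜 f L δ) (hLL : L ≤ L') (hδ' : 0 < δ') (hδ : δ' ≤ δ) :
    LocC 𝒜 f L' δ' := by
  refine ⟨h.one_le.trans hLL, hδ', hδ.trans h.le, fun x j h1 h2 => ?_⟩
  obtain ⟨h3, D, hD⟩ := h.loc x j h1 h2
  exact ⟨fun z hz => h3 z (hz.trans_le hδ), D, hD.mono h.one_le hLL hδ' hδ⟩

/-- Common bounds for finitely many maps. -/
theorem locC_fam {d : ℕ} {M : Type u} [TopologicalSpace M] [ChartedSpace (V d) M] {𝒜 : Atl d M}
    {s : ℕ} (f : Fin s → M → M) (h : ∀ i, ∃ L δ : ℝ, LocC 𝒜 (f i) L δ) :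
    ∃ L δ : ℝ, 1 ≤ L ∧ 0 < δ ∧ δ ≤ 1 / 2 ∧ ∀ i, LocC 𝒜 (f i) L δ := by
  choose L δ hL using h
  rcases isEmpty_or_nonempty (Fin s) with h0 | h0
  · exact ⟨1, 1 / 2, le_refl _, by norm_num, le_refl _, fun i => h0.elim i⟩
  · obtain ⟨i₀, hi₀⟩ := Finite.exists_max L
    obtain ⟨i₁, hi₁⟩ := Finite.exists_min δ
    exact ⟨L i₀, δ i₁, (hL i₀).one_le, (hL i₁).pos, (hL i₁).le, fun i =>
      (hL i).mono (hi₀ i) (hL i₁).pos (hi₁ i)⟩

section

variable {d e n : ℕ} {M : Type u} [TopologicalSpace M] [ChartedSpace (V d) M]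
    {N : Type v} [TopologicalSpace N] [ChartedSpace (V e) N]
    {T : Type w} [TopologicalSpace T] [ChartedSpace (V n) T]

theorem Emb.contInv (Θ : Emb n d e T M N) (q : M × N) : ContinuousAt Θ.inv (Θ.fn q) :=
  (Θ.smoothInv.continuousOn).continuousAt (Θ.isOpen.mem_nhds (mem_range_self q))

/-- Following a kicked orbit in a local product structure: the first coordinates of the return map are
the composition of local maps and kicks. -/
theorem followE (𝒜 : Atl d M) (f : ℕ → M → M) (Θ : Emb n d e T M N) (G : T → T)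
    (hGc : Continuous G)
    {L δ : ℝ} (hL : ∀ j, LocC 𝒜 (f j) L δ) (m : ℕ) (x : ℕ → M) (w : ℕ → Kp d) (Q : ℕ → V d)
    (y : ℕ → N) (C : ℕ → Set N) (hC : ∀ j < m, C j ∈ 𝓝 (y j))
    (hQt : Q 0 ∈ (𝒜.χ (𝒜.ix (x 0))).target)
    (hG : ∀ j < m, ∀ z : V d, ‖z‖ < 2 → ∀ y' ∈ C j, ∃ y'' : N,
      G (Θ.fn ((𝒜.χ (𝒜.ix (x j))).symm z, y')) =
      Θ.fn (f j ((𝒜.χ (𝒜.ix (x j))).symm (kick (w j) z)), y''))
    (ho : ∀ j < m, G (Θ.fn ((𝒜.χ (𝒜.ix (x j))).symm (Q j), y j)) =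
      Θ.fn ((𝒜.χ (𝒜.ix (x (j + 1)))).symm (Q (j + 1)), y (j + 1)))
    (hQ : ∀ j < m, ‖Q j‖ < 2 ∧ ‖kick (w j) (Q j) - 𝒜.c (x j)‖ < δ ∧
      Q (j + 1) = 𝒜.loc (f j) (𝒜.ix (x j)) (𝒜.ix (x (j + 1))) (kick (w j) (Q j)))
    (hn : ∀ j < m, f j (x j) ∈ (𝒜.χ (𝒜.ix (x (j + 1)))).source ∧
      ‖𝒜.χ (𝒜.ix (x (j + 1))) (f j (x j))‖ ≤ 3 / 2) :
    ∀ j ≤ m, ∃ H : V d → V d, ContinuousAt H (Q 0) ∧ H (Q 0) = Q j ∧
      (∀ᶠ q in 𝓝 (Q 0, y 0), ∃ y' : N,
        G^[j] (Θ.fn ((𝒜.χ (𝒜.ix (x 0))).symm q.1, q.2)) =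
          Θ.fn ((𝒜.χ (𝒜.ix (x j))).symm (H q.1), y')) ∧
      ∀ D : ℕ → V d → (V d →L[ℝ] V d), (∀ i < m, HasFDerivAt
          (𝒜.loc (f i) (𝒜.ix (x i)) (𝒜.ix (x (i + 1)))) (D i (kick (w i) (Q i))) (kick (w i) (Q i))) →
        ∀ U : ℕ → V d, (∀ i < m, U (i + 1) = D i (kick (w i) (Q i)) (U i + (w i).2 (U i))) →
        ∃ D' : V d →L[ℝ] V d, HasFDerivAt H D' (Q 0) ∧ D' (U 0) = U j := by
  have horb := orbitS Θ.fn G m (fun j => (𝒜.χ (𝒜.ix (x j))).symm (Q j)) y ho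
  have hcont : ∀ j, ContinuousAt (fun q : V d × N =>
      G^[j] (Θ.fn ((𝒜.χ (𝒜.ix (x 0))).symm q.1, q.2))) (Q 0, y 0) := by
    intro j
    have h1 : ContinuousAt (fun q : V d × N => (𝒜.χ (𝒜.ix (x 0))).symm q.1) (Q 0, y 0) :=
      ContinuousAt.comp (g := (𝒜.χ (𝒜.ix (x 0))).symm)
        ((𝒜.χ (𝒜.ix (x 0))).continuousAt_symm hQt) continuousAt_fst
    exact ((hGc.iterate j).comp Θ.smooth.continuous).continuousAt.comp (h1.prodMk continuousAt_snd)
  intro j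
  induction j with
  | zero =>
    intro _
    exact ⟨id, continuousAt_id, rfl, Eventually.of_forall fun q => ⟨q.2, rfl⟩, fun D hD U hU =>
      ⟨ContinuousLinearMap.id ℝ (V d), hasFDerivAt_id _, rfl⟩⟩
  | succ j ih =>
    intro hj
    obtain ⟨H, hHc, hH0, hHe, hHD⟩ := ih (by omega)
    have hjm : j < m := by omega
    obtain ⟨hQ2, hQδ, hQs⟩ := hQ j hjm
    obtain ⟨hns, hn32⟩ := hn j hjm
    obtain ⟨hdom, D₁, hD₁⟩ := (hL j).loc (x j) (𝒜.ix (x (j + 1))) hns hn32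
    have hcF : ContinuousAt (𝒜.loc (f j) (𝒜.ix (x j)) (𝒜.ix (x (j + 1)))) (kick (w j) (Q j)) :=
      (hD₁.der _ hQδ).continuousAt
    have hcH : ContinuousAt (fun z => kick (w j) (H z)) (Q 0) :=
      ContinuousAt.comp (g := kick (w j)) (kick_cont (w j)).continuousAt hHc
    refine ⟨fun z => 𝒜.loc (f j) (𝒜.ix (x j)) (𝒜.ix (x (j + 1))) (kick (w j) (H z)), ?_, ?_, ?_, ?_⟩
    · apply ContinuousAt.comp (g := 𝒜.loc (f j) (𝒜.ix (x j)) (𝒜.ix (x (j + 1))))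
        (f := fun z => kick (w j) (H z)) _ hcH
      show ContinuousAt _ (kick (w j) (H (Q 0)))
      rw [hH0]
      exact hcF
    · show 𝒜.loc (f j) _ _ (kick (w j) (H (Q 0))) = Q (j + 1)
      rw [hH0, hQs]
    · have h1 : ∀ᶠ z in 𝓝 (Q 0), ‖H z‖ < 2 := by
        have := hHc.norm
        exact this.eventually (gt_mem_nhds (by
          show ‖H (Q 0)‖ < 2
          rw [hH0]; exact hQ2))
      have h2 : ∀ᶠ z in 𝓝 (Q 0), ‖kick (w j) (H z) - 𝒜.c (x j)‖ < δ := by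
        have := (hcH.sub (continuousAt_const (y := 𝒜.c (x j)))).norm
        exact this.eventually (gt_mem_nhds (by
          show ‖kick (w j) (H (Q 0)) - 𝒜.c (x j)‖ < δ
          rw [hH0]; exact hQδ))
      have h3 : ∀ᶠ q in 𝓝 (Q 0, y 0),
          (Θ.inv (G^[j] (Θ.fn ((𝒜.χ (𝒜.ix (x 0))).symm q.1, q.2)))).2 ∈ C j := by
        have h4 : ContinuousAt (fun q : V d × N =>
            (Θ.inv (G^[j] (Θ.fn ((𝒜.χ (𝒜.ix (x 0))).symm q.1, q.2)))).2) (Q 0, y 0) := by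
          refine ContinuousAt.comp (g := fun t : T => (Θ.inv t).2) ?_ (hcont j)
          dsimp only
          rw [horb j (by omega)]
          exact ContinuousAt.comp (g := Prod.snd) continuousAt_snd (Θ.contInv _)
        refine h4 ?_
        dsimp only
        rw [horb j (by omega), Θ.left]
        exact hC j hjm
      have hf : Tendsto (fun q : V d × N => q.1) (𝓝 (Q 0, y 0)) (𝓝 (Q 0)) := continuousAt_fst
      filter_upwards [hHe, hf.eventually h1, hf.eventually h2, h3] with q hq hq1 hq2 hq3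
      obtain ⟨y', hy'⟩ := hq
      rw [hy', Θ.left] at hq3
      obtain ⟨y'', hy''⟩ := hG j hjm (H q.1) hq1 y' hq3
      refine ⟨y'', ?_⟩
      rw [Function.iterate_succ_apply', hy', hy'']
      obtain ⟨-, hs⟩ := hdom _ hq2
      congr 2
      show f j _ = (𝒜.χ (𝒜.ix (x (j + 1)))).symm (𝒜.χ (𝒜.ix (x (j + 1))) (f j _))
      rw [(𝒜.χ (𝒜.ix (x (j + 1)))).left_inv hs]
    · intro D hD U hU
      obtain ⟨D', hD', hD'U⟩ := hHD D hD U hU
      have h3 : HasFDerivAt (fun z => kick (w j) (H z))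
          ((ContinuousLinearMap.id ℝ (V d) + (w j).2) ∘L D') (Q 0) :=
        HasFDerivAt.comp (g := kick (w j)) (Q 0) (kick_der (w j) (H (Q 0))) hD'
      have h4 : HasFDerivAt (𝒜.loc (f j) (𝒜.ix (x j)) (𝒜.ix (x (j + 1))))
          (D j (kick (w j) (Q j))) (kick (w j) (H (Q 0))) := by
        rw [hH0]
        exact hD j hjm
      refine ⟨D j (kick (w j) (Q j)) ∘L ((ContinuousLinearMap.id ℝ (V d) + (w j).2) ∘L D'),
        HasFDerivAt.comp (g := 𝒜.loc (f j) (𝒜.ix (x j)) (𝒜.ix (x (j + 1)))) (Q 0) h4 h3, ?_⟩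
      rw [hU j hjm]
      simp [hD'U]

/-- Disjoint compact sets `C b ⊆ W b`, `W b` open, have disjoint compact neighbourhoods `⊆ W b`. -/
theorem thickenE {N : Type v} [TopologicalSpace N] [NormalSpace N] [R1Space N]
    [LocallyCompactSpace N] {k : ℕ}
    (C W : Fin k → Set N) (hC : ∀ a, IsCompact (C a)) (hCc : ∀ a, IsClosed (C a))
    (hd : ∀ a b, a ≠ b → Disjoint (C a) (C b)) (hW : ∀ a, IsOpen (W a)) (hCW : ∀ a, C a ⊆ W a) :
    ∃ C' : Fin k → Set N, (∀ a, IsCompact (C' a)) ∧ (∀ a b, a ≠ b → Disjoint (C' a) (C' b)) ∧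
      (∀ a, C a ⊆ interior (C' a)) ∧ ∀ a, C' a ⊆ W a := by
  obtain ⟨C₁, h1, h2, h3⟩ := thicken C hCc hd
  have h4 : ∀ a, ∃ K, IsCompact K ∧ C a ⊆ interior K ∧ K ⊆ interior (C₁ a) ∩ W a := fun a =>
    exists_compact_between (hC a) (isOpen_interior.inter (hW a)) (subset_inter (h3 a) (hCW a))
  choose K hK1 hK2 hK3 using h4
  refine ⟨K, hK1, fun a b hab => ?_, hK2, fun a => (hK3 a).trans inter_subset_right⟩
  exact (h2 a b hab).mono ((hK3 a).trans (inter_subset_left.trans interior_subset))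
    ((hK3 b).trans (inter_subset_left.trans interior_subset))

end

/-- ABCE. Let `F` be a star diffeomorphism of `T` which is `Θ (x, y) ↦ Θ (f i x, S x y)` near the cells
`C i a` of a full shift in a local product structure `Θ : M × N → T`. If there are sufficiently many
cells for each `i` then there are no closed chains of vectors for the family `f`. -/
theorem abcE (hCTL : S_CTL) (hNET : S_NET)
    {d : ℕ} {M : Type u} [TopologicalSpace M] [T2Space M] [CompactSpace M]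
    [ChartedSpace (V d) M] [IsManifold (𝓡 d) ∞ M] {r : ℕ∞} (hr : 2 ≤ r)
    (𝒜 : Atl d M) {s : ℕ} (f : Fin s → DiffM d M r) {L δ : ℝ} (hL1 : 1 ≤ L) (hδ0 : 0 < δ)
    (hδ2 : δ ≤ 1 / 2) (hL : ∀ i, LocC 𝒜 (f i) L δ) :
    ∃ k₀ : ℕ, ∀ (e n : ℕ) (N : Type v) [TopologicalSpace N] [T2Space N] [SigmaCompactSpace N]
      [ChartedSpace (V e) N] [IsManifold (𝓡 e) ∞ N]
      (T : Type w) [TopologicalSpace T] [T2Space T] [CompactSpace T]
      [ChartedSpace (V n) T] [IsManifold (𝓡 n) ∞ T] (S : M → N → N) (C : Fin s → Fin k₀ → Set N)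
      (Θ : Emb n d e T M N) (F : DiffM n T r), Driver S C →
      (∀ i a, ∀ᶠ y in 𝓝ˢ (C i a), ∀ x, F (Θ.fn (x, y)) = Θ.fn (f i x, S x y)) → Star n T r F →
      ∃ κ : ℝ, 0 < κ ∧ κ ≤ 1 / 2 ∧ NoChainF 𝒜 (fun i => (f i : M → M)) κ := by
  have hr1 : 1 ≤ r := le_trans (by norm_num) hr
  have hL3 : 1 ≤ 120 * L ^ 3 := by nlinarith [one_le_pow₀ (n := 3) hL1]
  obtain ⟨m, hm⟩ := hNET d (120 * L ^ 3) hL3
  obtain ⟨σ⟩ : Nonempty ((Fin 𝒜.q × Option (Fin m)) ≃ Fin (Fintype.card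
    (Fin 𝒜.q × Option (Fin m)))) := ⟨Fintype.equivFin _⟩
  refine ⟨Fintype.card (Fin 𝒜.q × Option (Fin m)), ?_⟩
  · intro e n N _ _ _ _ _ T _ _ _ _ _ S C Θ F hS hP hF
    have hlc : LocallyCompactSpace N := ChartedSpace.locallyCompactSpace (V e) N
    obtain ⟨hCc, hCd, hCs⟩ := hS
    obtain ⟨U₀, hU₀, hFU, hyp⟩ := hF
    have hW : ∀ i a, ∃ W : Set N, IsOpen W ∧ C i a ⊆ W ∧ ∀ y ∈ W, ∀ x,
        F (Θ.fn (x, y)) = Θ.fn (f i x, S x y) := fun i a => eventually_nhdsSet_iff_exists.1 (hP i a)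
    choose W hWo hCW hWF using hW
    obtain ⟨C', hC'c, hC'd, hCC', hC'W⟩ := thickenE
      (fun b => C (finProdFinEquiv.symm b).1 (finProdFinEquiv.symm b).2)
      (fun b => W (finProdFinEquiv.symm b).1 (finProdFinEquiv.symm b).2)
      (fun b => hCc _ _) (fun b => (hCc _ _).isClosed) (fun b b' hb => hCd _ _ _ _ fun he => hb (by
        apply finProdFinEquiv.symm.injective
        simpa using he)) (fun b => hWo _ _) (fun b => hCW _ _)
    obtain ⟨κ', hκ', hκ10, hG⟩ := EmbPert.perte d e n M N T r hr1 𝒜 Θ F U₀ hU₀ hFU _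
      C' hC'c hC'd (fun b => (σ.symm (finProdFinEquiv.symm b).2).1)
    set κ₀ := min κ' δ with hκ₀
    have hκ₀p : 0 < κ₀ := lt_min hκ' hδ0
    obtain ⟨p, hp1, hp2⟩ := hm κ₀ hκ₀p
    have hκL : κ₀ / (120 * L ^ 3) ≤ 1 / 2 := by
      rw [div_le_iff₀ (by positivity)]
      have := min_le_right κ' δ
      nlinarith
    refine ⟨κ₀ / (120 * L ^ 3), by positivity, hκL, ?_⟩
    · intro nn i x v hnn hx hv hv0 hnear hvec
      have hsrc : ∀ j < nn, f (i j) (x j) ∈ (𝒜.χ (𝒜.ix (x (j + 1)))).source ∧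
          ‖𝒜.χ (𝒜.ix (x (j + 1))) (f (i j) (x j))‖ ≤ 3 / 2 := by
        intro j hj
        obtain ⟨h1, h2⟩ := hnear j hj
        refine ⟨h1, ?_⟩
        have h3 := 𝒜.ix_lt (x (j + 1))
        have h5 : ‖𝒜.χ (𝒜.ix (x (j + 1))) (f (i j) (x j))‖ ≤
            ‖𝒜.χ (𝒜.ix (x (j + 1))) (f (i j) (x j)) - 𝒜.c (x (j + 1))‖ + ‖𝒜.c (x (j + 1))‖ := by
          simpa using norm_add_le (𝒜.χ (𝒜.ix (x (j + 1))) (f (i j) (x j)) - 𝒜.c (x (j + 1)))
            (𝒜.c (x (j + 1)))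
        unfold Atl.c at h5 h2
        linarith
      have hDe : ∀ j, ∃ D : V d → (V d ≃L[ℝ] V d), j < nn →
          LMap L δ (𝒜.c (x j)) (𝒜.χ (𝒜.ix (x (j + 1))) (f (i j) (x j)))
            (𝒜.loc (f (i j)) (𝒜.ix (x j)) (𝒜.ix (x (j + 1)))) D := by
        intro j
        by_cases hj : j < nn
        · obtain ⟨-, D, hD⟩ := (hL (i j)).loc (x j) (𝒜.ix (x (j + 1))) (hsrc j hj).1 (hsrc j hj).2
          exact ⟨D, fun _ => hD⟩
        · exact ⟨fun _ => ContinuousLinearEquiv.refl ℝ (V d), fun h => absurd h hj⟩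
      choose D hD using hDe
      obtain ⟨w, Q, U, hw, hwl, hQ0, hQn, hU0, hUn, hstep⟩ := hCTL d L δ κ₀ hL1 hδ0 hδ2 hκ₀p
        (min_le_right _ _) (range p) (by
          intro w hw
          obtain ⟨a, ha⟩ := hp2 w hw
          exact ⟨p a, mem_range_self a, ha⟩) nn (fun j => 𝒜.c (x j))
        (fun j => 𝒜.χ (𝒜.ix (x (j + 1))) (f (i j) (x j))) v
        (fun j => 𝒜.loc (f (i j)) (𝒜.ix (x j)) (𝒜.ix (x (j + 1)))) D hnn
        (fun j _ => (𝒜.ix_lt (x j)).le) (fun j hj => hD j hj) (by simp only [hx]) hv hv0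
        (fun j hj => (hnear j hj).2) (by
          intro j hj
          have h1 := hvec j hj
          have h2 := ((hD j hj).der (𝒜.c (x j)) (by simpa using hδ0)).fderiv
          rw [h2] at h1
          exact h1)
      have hae : ∀ j, ∃ a : Option (Fin m), (j + 1 < nn → ∃ b, a = some b ∧ p b = w j) ∧
          (¬ j + 1 < nn → a = none) := by
        intro j
        by_cases hj : j + 1 < nn
        · obtain ⟨b, hb⟩ := hw j hj
          exact ⟨some b, fun _ => ⟨b, rfl, hb⟩, fun h => absurd hj h⟩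
        · exact ⟨none, fun h => absurd h hj, fun _ => rfl⟩
      choose α hα1 hα2 using hae
      obtain ⟨om, hom⟩ : ∃ om : Fin 𝒜.q × Option (Fin m) → Kp d,
          om = fun b => (b.2.elim (w (nn - 1)) p) := ⟨_, rfl⟩
      have homn : ∀ a, ‖om (σ.symm a)‖ ≤ κ' := by
        intro a
        rw [hom]
        dsimp only
        rcases (σ.symm a).2 with _ | b
        · exact (hwl (nn - 1) (by omega) (by omega)).trans (min_le_left _ _)
        · exact (hp1 b).trans (min_le_left _ _)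
      obtain ⟨G, hGU, hGk⟩ := hG (fun b => om (σ.symm (finProdFinEquiv.symm b).2))
        (fun b => homn _)
      obtain ⟨y, hyn, hyj⟩ := hCs nn (fun j => (𝒜.χ (𝒜.ix (x j))).symm (kick (w j) (Q j)))
        (fun j => (i j, σ (𝒜.ix (x j), α j))) hnn
      have homj : ∀ j < nn, om (𝒜.ix (x j), α j) = w j := by
        intro j hj
        rw [hom]
        dsimp only
        by_cases h1 : j + 1 < nn
        · obtain ⟨b, hb, hpb⟩ := hα1 j h1
          rw [hb]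
          exact hpb
        · rw [hα2 j h1]
          have : j = nn - 1 := by omega
          rw [this]
          rfl
      have hGS : ∀ j < nn, ∀ z : V d, ‖z‖ < 2 →
          ∀ y' ∈ C' (finProdFinEquiv (i j, σ (𝒜.ix (x j), α j))),
          G (Θ.fn ((𝒜.χ (𝒜.ix (x j))).symm z, y')) =
          Θ.fn (f (i j) ((𝒜.χ (𝒜.ix (x j))).symm (kick (w j) z)),
            S ((𝒜.χ (𝒜.ix (x j))).symm (kick (w j) z)) y') := by
        intro j hj z hz y' hy'
        have h1 := hGk _ y' hy' z hz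
        simp only [Equiv.symm_apply_apply] at h1
        rw [homj j hj] at h1
        have h2 := hC'W _ hy'
        simp only [Equiv.symm_apply_apply] at h2
        rw [h1, hWF _ _ y' h2]
      have hyC : ∀ j < nn, y j ∈ interior (C' (finProdFinEquiv (i j, σ (𝒜.ix (x j), α j)))) := by
        intro j hj
        apply hCC'
        simpa using (hyj j hj).2
      have ht : 𝒜.c (x 0) ∈ (𝒜.χ (𝒜.ix (x 0))).target :=
        (𝒜.χ (𝒜.ix (x 0))).map_source (𝒜.ix_src (x 0))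
      have ho : ∀ j < nn, G (Θ.fn ((𝒜.χ (𝒜.ix (x j))).symm (Q j), y j)) =
          Θ.fn ((𝒜.χ (𝒜.ix (x (j + 1)))).symm (Q (j + 1)), y (j + 1)) := by
        intro j hj
        obtain ⟨hQ2, hQδ, hQs, -⟩ := hstep j hj
        rw [hGS j hj (Q j) hQ2 (y j) (interior_subset (hyC j hj)), (hyj j hj).1]
        congr 2
        rw [hQs]
        obtain ⟨hdom, -⟩ := (hL (i j)).loc (x j) (𝒜.ix (x (j + 1))) (hsrc j hj).1 (hsrc j hj).2
        obtain ⟨-, hs⟩ := hdom _ hQδ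
        show f (i j) _ = (𝒜.χ (𝒜.ix (x (j + 1)))).symm (𝒜.χ (𝒜.ix (x (j + 1))) (f (i j) _))
        rw [(𝒜.χ (𝒜.ix (x (j + 1)))).left_inv hs]
      have hfol := followE 𝒜 (fun j => (f (i j) : M → M)) Θ G G.continuous (fun j => hL (i j))
        nn x w Q y (fun j => C' (finProdFinEquiv (i j, σ (𝒜.ix (x j), α j))))
        (fun j hj => mem_interior_iff_mem_nhds.1 (hyC j hj)) (by rw [hQ0]; exact ht)
        (fun j hj z hz y' hy' => ⟨_, hGS j hj z hz y' hy'⟩) ho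
        (fun j hj => ⟨(hstep j hj).1, (hstep j hj).2.1, (hstep j hj).2.2.1⟩) hsrc nn le_rfl
      obtain ⟨H, hHc, hH0, hHe, hHD⟩ := hfol
      obtain ⟨D', hD', hD'U⟩ := hHD (fun j z => (D j z : V d →L[ℝ] V d))
        (fun j hj => (hD j hj).der _ (hstep j hj).2.1) U (fun j hj => (hstep j hj).2.2.2)
      have horb := orbitS Θ.fn G nn (fun j => (𝒜.χ (𝒜.ix (x j))).symm (Q j)) y ho nn le_rfl
      rw [hx, hyn, hQn, hQ0] at horb
      rw [hx, hQ0] at hHe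
      rw [hQ0] at hH0 hD'
      rw [hQn] at hH0
      rw [hU0, hUn] at hD'U
      have hHe' : ∀ᶠ q in 𝓝 (𝒜.c (x 0), y 0),
          (Θ.inv (G^[nn] (Θ.fn ((𝒜.χ (𝒜.ix (x 0))).symm q.1, q.2)))).1 =
            (𝒜.χ (𝒜.ix (x 0))).symm (H q.1) := by
        filter_upwards [hHe] with q hq
        obtain ⟨y', hy'⟩ := hq
        rw [hy', Θ.left]
      have hno := EmbClo2.main d e n M N T r Θ G (𝒜.χ (𝒜.ix (x 0))) (𝒜.mem _) (y 0) (𝒜.c (x 0)) ht
        nn hnn H D' (v 0) horb hHe' hD' hH0 (hv0 0 (Nat.zero_le _)) hD'U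
      apply hno
      apply hyp G hGU
      exact ⟨nn, hnn, horb⟩

end Pool.Agent.H20.PT
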