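import Pool.Agent.H20.PT.EmbAbc
import Pool.Agent.H20.PT.EmbDef
import Pool.Agent.H20.PT.Wrd
import Pool.Agent.H20.PT.Main
import Pool.Agent.H20.PT.Law

/-!
# Project PT4: semigroups of diffeomorphisms in stable diffeomorphisms
-/

set_option autoImplicit false
set_option linter.unusedSectionVars false

open scoped Manifold ContDiff Topology
open Filter Set Metric

universe u v w

namespace Pool.Agent.H20.PT

open Pool.Agent.H718R2.G Pool.Agent.TH80.OMS Pool.Agent.Y504.CO Pool.Agent.R773.TE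
open Pool.Agent.H728R2.OS (ChainRec NoCycle)

variable {d : ℕ} {M : Type u} [MetricSpace M] [CompactSpace M] [ChartedSpace (V d) M]
    [IsManifold (𝓡 d) ∞ M] {r : ℕ∞}

/-- All compositions of the members of the family have hyperbolic chain recurrent sets. -/
theorem family_hyp (hr : 2 ≤ r) {s : ℕ} (f : Fin s → DiffM d M r) :
    ∃ k₀ : ℕ, ∀ (e n : ℕ) (N : Type v) [TopologicalSpace N] [T2Space N] [SigmaCompactSpace N]
      [ChartedSpace (V e) N] [IsManifold (𝓡 e) ∞ N]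
      (T : Type w) [TopologicalSpace T] [T2Space T] [CompactSpace T]
      [ChartedSpace (V n) T] [IsManifold (𝓡 n) ∞ T] (S : M → N → N) (C : Fin s → Fin k₀ → Set N)
      (Θ : Emb n d e T M N) (F : DiffM n T r), Driver S C →
      (∀ i a, ∀ᶠ y in 𝓝ˢ (C i a), ∀ x, F (Θ.fn (x, y)) = Θ.fn (f i x, S x y)) → Star n T r F →
      ∀ l : List (Fin s), l ≠ [] → ChainHypM (d := d) (wordD f l).toHomeomorph := by
  have : IsManifold 𝓘(ℝ, V d) 1 M := IsManifold.of_le (m := 1) (n := ∞) (by simp)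
  have hr1 : (1 : WithTop ℕ∞) ≤ (r : WithTop ℕ∞) := by
    exact_mod_cast (le_trans (by norm_num) hr : (1 : ℕ∞) ≤ r)
  obtain ⟨𝒜⟩ := hATL.{u} d M
  obtain ⟨L, δ, hL1, hδ0, hδ2, hL⟩ := locC_fam (𝒜 := 𝒜) (fun i => (f i : M → M))
    fun i => hLOC.{u} d M r (f i) 𝒜 hr
  obtain ⟨k₀, hk⟩ := abcE.{u, v, w} hCTL hNET hr 𝒜 f hL1 hδ0 hδ2 hL
  refine ⟨k₀, fun e n N _ _ _ _ _ T _ _ _ _ _ S C Θ F hS hP hF l hl => ?_⟩
  obtain ⟨κ, hκ, hκ2, hNC⟩ := hk e n N T S C Θ F hS hP hF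
  obtain ⟨L', δ', hL'⟩ := hLOC.{u} d M r (wordD f l) 𝒜 hr
  exact hyp_of_noChain hDICH hNB hG1 hG2 hCRI hNM hE1 hE2 hCS 𝒜 (wordD f l).toHomeomorph
    ((wordD f l).contMDiff.of_le hr1) ((wordD f l).symm.contMDiff.of_le hr1) hL' hκ hκ2
    (Wrd.main d M r (le_trans (by norm_num) hr) (Fin s) 𝒜 f κ hκ hNC l hl)

theorem Sys.family_law (hr : 2 ≤ r) {s : ℕ} (f : Fin s → DiffM d M r) :
    ∃ k₀ : ℕ, ∀ F : Sys.{w} r, Sys.Contains.{u, v, w} F f k₀ → F.Stable →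
      ∀ l : List (Fin s), l ≠ [] → Sys.InU3 ⟨d, M, wordD f l⟩ := by
  have hr1 : 1 ≤ r := le_trans (by norm_num) hr
  obtain ⟨k₀, hk⟩ := family_hyp.{u, v, w} hr f
  refine ⟨k₀, fun F hF hFs l hl => ?_⟩
  obtain ⟨N, Θ, S, C, hS, hP⟩ := hF
  exact Sys.u3 hr1 (X := ⟨d, M, wordD f l⟩)
    (hk N.dim F.dim N.pt F.pt S C Θ F.map hS hP (Sys.star_of hr1 hFs) l hl)

end Pool.Agent.H20.PT
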