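import Pool.Agent.H20.PT.Base

/-!
# Maps with horseshoes of large entropy: definition
-/

set_option autoImplicit false

open scoped Manifold ContDiff Topology

universe u v w

namespace Pool.Agent.H20.PT

/-- `g` has a horseshoe of entropy at least `log K`, in the following weak sense: for some `Q ≥ 1` there
are `K ^ Q` pairwise disjoint closed sets `C a` and a closed set `D` disjoint from them, such that for
every finite word `s` there is a periodic point whose orbit is in `C (s j)` at the times `Q j` and in `D`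
at the times which are not multiples of `Q`. -/
def Rich {N : Type v} [TopologicalSpace N] (K : ℕ) (g : N → N) : Prop :=
  ∃ Q : ℕ, 1 ≤ Q ∧ ∃ (C : Fin (K ^ Q) → Set N) (D : Set N), (∀ a, IsClosed (C a)) ∧
    (∀ a b, a ≠ b → Disjoint (C a) (C b)) ∧ IsClosed D ∧ (∀ a, Disjoint (C a) D) ∧
    ∀ (n : ℕ) (s : ℕ → Fin (K ^ Q)), 1 ≤ n → ∃ y : N, g^[Q * n] y = y ∧
      (∀ j < n, g^[Q * j] y ∈ C (s j)) ∧ ∀ i : ℕ, ¬ Q ∣ i → g^[i] y ∈ D

end Pool.Agent.H20.PT
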