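import Pool.Agent.H20.PT.EntMain
import Pool.Agent.H20.PT.EntDef

/-!
# Products with a factor of large entropy: the theorem for bundled systems
-/

set_option autoImplicit false
set_option linter.unusedSectionVars false

open scoped Manifold ContDiff Topology

universe u v w

namespace Pool.Agent.H20.PT

variable {r : ℕ∞}

theorem rich_of_fullShift {N : Type v} [TopologicalSpace N] {K : ℕ} {g : N → N}
    (hg : FullShift K g) : Rich K g := by
  obtain ⟨C, hC, hd, hs⟩ := hg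
  have e : K ^ 1 = K := pow_one K
  refine ⟨1, le_rfl, fun a => C (Fin.cast e a), ∅, fun a => hC _, fun a b hab => hd _ _ fun h =>
    hab (Fin.cast_injective e h), isClosed_empty, fun a => Set.disjoint_empty _, fun n s hn => ?_⟩
  obtain ⟨y, h1, h2⟩ := hs n (fun j => Fin.cast e (s j)) hn
  refine ⟨y, by rw [one_mul]; exact h1, fun j hj => ?_, fun i hi => absurd (one_dvd i) hi⟩
  rw [one_mul]
  exact h2 j hj

theorem Rich.clock {N : Type v} [TopologicalSpace N] {K : ℕ} {g : N → N} (hg : Rich K g) :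
    ∃ Q : ℕ, 1 ≤ Q ∧ ClockShift (K ^ Q) Q g := hg

theorem Rich.mono {N : Type v} [TopologicalSpace N] {K K' : ℕ} (h : K' ≤ K) {g : N → N}
    (hg : Rich K g) : Rich K' g := by
  obtain ⟨Q, hQ, hg⟩ := hg.clock
  exact ⟨Q, hQ, clock_mono (Nat.pow_le_pow_left h Q) hg⟩

theorem Sys.rich_factor (hr : 2 ≤ r) (f : Sys.{u} r) : ∃ K : ℕ, ∀ (g : Sys.{v} r) (F : Sys.{w} r),
    Rich K g.map → f.IsProduct g F → F.Stable → f.ChainHyp := by
  have hr1 : 1 ≤ r := le_trans (by norm_num) hr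
  obtain ⟨K, -, hK⟩ := factorE_hyp.{u, v, w} hr f.map
  refine ⟨K, fun g F hg hP hF => ?_⟩
  obtain ⟨Θ, hΘ⟩ := hP
  obtain ⟨Q, hQ, hg⟩ := hg.clock
  exact hK Q hQ g.dim F.dim g.pt F.pt g.map Θ F.map hg hΘ (Sys.star_of hr1 hF)

end Pool.Agent.H20.PT
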