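import Pool.Agent.H20.PT.Asm
import Pool.Agent.H20.PT.Pert
import Pool.Agent.H3.PT.Ctl
import Pool.Agent.H3.PT.Nm
import Pool.Agent.H10.PT.CS
import Pool.Agent.H10.PT.E2
import Pool.Agent.H15.PT.Atl
import Pool.Agent.H15.PT.Loc
import Pool.Agent.H15.PT.PertG
import Pool.Agent.H18.PT.Cri
import Pool.Agent.H18.PT.Prod
import Pool.Agent.H18.PT.Spl
import Pool.Agent.H18.PT.Tor
import Pool.Agent.H21.PT.G1
import Pool.Agent.H21.PT.NB
import Pool.Agent.H21.PT.Net
import Pool.Agent.H22.PT.Contr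
import Pool.Agent.H22.PT.Dich
import Pool.Agent.H22.PT.Hyp1
import Pool.Agent.H58.PT.Ang
import Pool.Agent.H61.PT.LF
import Pool.Agent.H64.PT.Clo
import Pool.Agent.H64.PT.E1
import Pool.Agent.H93.PT.Det

/-!
# Project PT: the parts put together
-/

set_option autoImplicit false
set_option linter.unusedSectionVars false

open scoped Manifold ContDiff Topology
open Filter Set Metric

universe u v w

namespace Pool.Agent.H20.PT

open Pool.Agent.H718R2.G Pool.Agent.TH80.OMS Pool.Agent.Y504.CO Pool.Agent.R773.TE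
open Pool.Agent.H728R2.OS (ChainRec NoCycle)

theorem hHYP1 : S_HYP1 := Pool.Agent.H22.PT.main Pool.Agent.H93.PT.Det.main Pool.Agent.H18.PT.main
theorem hANG : S_ANG := Pool.Agent.H58.PT.ang hHYP1
theorem hLF : S_LF.{u} := Pool.Agent.H61.PT.LF.main
theorem hCONTR : S_CONTR.{u} := Pool.Agent.H22.PTC.main hLF hHYP1 hANG
theorem hDICH : S_DICH.{u} := Pool.Agent.H22.PTD.main hCONTR hLF hHYP1
theorem hNB : S_NB.{u} := Pool.Agent.H21.PTNB.main hLF hHYP1 hANG
theorem hG1 : S_G1.{u} := Pool.Agent.H21.PT.main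
theorem hNET : S_NET := Pool.Agent.H21.PTNet.main
theorem hCTL : S_CTL := Pool.Agent.H3.PT.main
theorem hNM : S_NM.{u} := Pool.Agent.H3.PT.NM.main
theorem hCS : S_CS.{u} := Pool.Agent.H10.PT.main_CS
theorem hG2 : S_G2.{u} := Pool.Agent.H10.PT.main_G2
theorem hE2 : S_E2.{u} := Pool.Agent.H10.PT.main_E2
theorem hE1 : S_E1.{u} := Pool.Agent.H64.PT.E1.main
theorem hCLO : S_CLO.{u, v, w} := Pool.Agent.H64.PT.Clo.main
theorem hATL : S_ATL.{u} := Pool.Agent.H15.PT.atl
theorem hLOC : S_LOC.{u} := Pool.Agent.H15.PT.loc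
theorem hPERTG : S_PERTG.{u, v, w} := Pool.Agent.H15.PT.pertg
theorem hPERT : S_PERT.{u, v, w} := pert_of_pertg hPERTG
theorem hCRI : S_CRI.{u} := Pool.Agent.H18.PT.cri
theorem hTOR : S_TOR.{v} := Pool.Agent.H18.PT.tor
theorem hPROD : S_PROD.{u, v, w} := Pool.Agent.H18.PT.prod

end Pool.Agent.H20.PT
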