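import Pool.Agent.H20.PT.EmbAbc

/-!
# Project PT5: growth of the constants of the iterates of a diffeomorphism
-/

set_option autoImplicit false
set_option linter.unusedSectionVars false

open scoped Manifold ContDiff Topology
open Filter Set Metric

universe u v w

namespace Pool.Agent.H20.PT

open Pool.Agent.H718R2.G Pool.Agent.TH80.OMS Pool.Agent.Y504.CO Pool.Agent.R773.TE

/-- Nets of relative precision `1/ρ` with `m` elements of all balls. -/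
def Net (d : ℕ) (ρ : ℝ) (m : ℕ) : Prop :=
  ∀ κ₀ : ℝ, 0 < κ₀ → ∃ p : Fin m → Kp d,
    (∀ a, ‖p a‖ ≤ κ₀) ∧ ∀ w : Kp d, ‖w‖ ≤ κ₀ → ∃ a, ‖p a - w‖ ≤ κ₀ / ρ

theorem Net.mono {d : ℕ} {ρ ρ' : ℝ} {m : ℕ} (h : Net d ρ m) (hρ' : 0 < ρ') (hρ : ρ' ≤ ρ) :
    Net d ρ' m := by
  intro κ₀ hκ
  obtain ⟨p, h1, h2⟩ := h κ₀ hκ
  refine ⟨p, h1, fun w hw => ?_⟩
  obtain ⟨a, ha⟩ := h2 w hw
  exact ⟨a, ha.trans (div_le_div_of_nonneg_left hκ.le hρ' hρ)⟩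

/-- the radial retraction onto the ball -/
theorem retract {E : Type} [NormedAddCommGroup E] [NormedSpace ℝ E] (κ : ℝ) (hκ : 0 < κ) (v : E) :
    ∃ v' : E, ‖v'‖ ≤ κ ∧ ∀ w : E, ‖w‖ ≤ κ → ‖v' - w‖ ≤ 2 * ‖v - w‖ := by
  by_cases hv : ‖v‖ ≤ κ
  · exact ⟨v, hv, fun w _ => by linarith [norm_nonneg (v - w)]⟩
  · rw [not_le] at hv
    have hv0 : 0 < ‖v‖ := hκ.trans hv
    refine ⟨(κ / ‖v‖) • v, ?_, fun w hw => ?_⟩
    · rw [norm_smul, Real.norm_of_nonneg (by positivity), div_mul_cancel₀ _ hv0.ne']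
    · have h1 : ‖(κ / ‖v‖) • v - v‖ = ‖v‖ - κ := by
        have h2 : (κ / ‖v‖) • v - v = (κ / ‖v‖ - 1) • v := by rw [sub_smul, one_smul]
        have h3 : κ / ‖v‖ - 1 ≤ 0 := by
          rw [sub_nonpos, div_le_one hv0]
          exact hv.le
        rw [h2, norm_smul, Real.norm_of_nonpos h3]
        field_simp
        ring
      have h4 : ‖v‖ - ‖w‖ ≤ ‖v - w‖ := norm_sub_norm_le v w
      have h5 : ‖(κ / ‖v‖) • v - w‖ ≤ ‖(κ / ‖v‖) • v - v‖ + ‖v - w‖ := by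
        have := norm_add_le ((κ / ‖v‖) • v - v) (v - w)
        simpa using this
      linarith

theorem Net.mul {d : ℕ} {ρ₀ ρ : ℝ} {m₁ m : ℕ} (hρ₀ : 0 < ρ₀) (hρ : 0 < ρ) (h₁ : Net d (2 * ρ₀) m₁)
    (h : Net d ρ m) : Net d (ρ₀ * ρ) (m₁ * m) := by
  intro κ₀ hκ
  obtain ⟨p, hp1, hp2⟩ := h₁ κ₀ hκ
  obtain ⟨p', hp1', hp2'⟩ := h (κ₀ / (2 * ρ₀)) (by positivity)
  have hr : ∀ b : Fin (m₁ * m), ∃ v' : Kp d, ‖v'‖ ≤ κ₀ ∧ ∀ w : Kp d, ‖w‖ ≤ κ₀ → ‖v' - w‖ ≤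
      2 * ‖(p (finProdFinEquiv.symm b).1 + p' (finProdFinEquiv.symm b).2) - w‖ :=
    fun b => retract κ₀ hκ _
  choose q hq1 hq2 using hr
  refine ⟨q, hq1, fun w hw => ?_⟩
  obtain ⟨a, ha⟩ := hp2 w hw
  obtain ⟨b, hb⟩ := hp2' (w - p a) (by rw [← norm_neg, neg_sub]; exact ha)
  refine ⟨finProdFinEquiv (a, b), (hq2 _ w hw).trans ?_⟩
  simp only [Equiv.symm_apply_apply]
  have h3 : (p a + p' b) - w = p' b - (w - p a) := by abel
  rw [h3]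
  calc 2 * ‖p' b - (w - p a)‖ ≤ 2 * (κ₀ / (2 * ρ₀) / ρ) := by linarith
    _ = κ₀ / (ρ₀ * ρ) := by field_simp

theorem Net.pow {d : ℕ} {ρ₀ : ℝ} {m₁ : ℕ} (hρ₀ : 0 < ρ₀) (h₁ : Net d (2 * ρ₀) m₁) (Q : ℕ)
    (hQ : 1 ≤ Q) : Net d (ρ₀ ^ Q) (m₁ ^ Q) := by
  induction Q, hQ using Nat.le_induction with
  | base =>
    rw [pow_one, pow_one]
    exact h₁.mono hρ₀ (by linarith)
  | succ Q hQ ih =>
    rw [pow_succ', pow_succ']
    exact Net.mul hρ₀ (by positivity) h₁ ih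

/-- Composition of local maps: the first map has the constant `L`, the second one `L'`. -/
theorem LMap.comp {d : ℕ} {L δ L' δ' δ₁ : ℝ} {ξ y₀ z₀ : V d} {F F' : V d → V d}
    {D D' : V d → (V d ≃L[ℝ] V d)} (h : LMap L δ ξ y₀ F D) (h' : LMap L' δ' y₀ z₀ F' D')
    (hL : 1 ≤ L) (hL' : 1 ≤ L') (hδ₁ : 0 < δ₁) (h1 : δ₁ ≤ δ) (h2 : L * δ₁ ≤ δ') :
    (∀ z, ‖z - ξ‖ < δ₁ → ‖F z - y₀‖ < δ') ∧
    LMap (2 * L ^ 2 * L') δ₁ ξ z₀ (fun z => F' (F z)) (fun z => (D z).trans (D' (F z))) := by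
  have hmv : ∀ z z', ‖z - ξ‖ < δ₁ → ‖z' - ξ‖ < δ₁ → ‖F z - F z'‖ ≤ L * ‖z - z'‖ := by
    intro z z' hz hz'
    have hc : Convex ℝ (ball ξ δ₁) := convex_ball ξ δ₁
    refine hc.norm_image_sub_le_of_norm_hasFDerivWithin_le (f := F)
      (f' := fun z => (D z : V d →L[ℝ] V d)) (fun x hx => ?_) (fun x hx => ?_) ?_ ?_
    · rw [mem_ball, dist_eq_norm] at hx
      exact (h.der x (hx.trans_le h1)).hasFDerivWithinAt
    · rw [mem_ball, dist_eq_norm] at hx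
      exact h.up x (hx.trans_le h1)
    · rw [mem_ball, dist_eq_norm]; exact hz'
    · rw [mem_ball, dist_eq_norm]; exact hz
  have hF : ∀ z, ‖z - ξ‖ < δ₁ → ‖F z - y₀‖ < δ' := by
    intro z hz
    have h3 := hmv z ξ hz (by simpa using hδ₁)
    rw [h.val] at h3
    have h4 : L * ‖z - ξ‖ < L * δ₁ := by nlinarith
    linarith
  have hL0 : 0 < L := by linarith
  have hL0' : 0 < L' := by linarith
  have hup : ∀ z, ‖z - ξ‖ < δ₁ →
      ‖(((D z).trans (D' (F z)) : V d ≃L[ℝ] V d) : V d →L[ℝ] V d)‖ ≤ L' * L := by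
    intro z hz
    have h3 : (((D z).trans (D' (F z)) : V d ≃L[ℝ] V d) : V d →L[ℝ] V d) =
        (D' (F z) : V d →L[ℝ] V d).comp (D z : V d →L[ℝ] V d) := rfl
    rw [h3]
    exact (ContinuousLinearMap.opNorm_comp_le _ _).trans (mul_le_mul (h'.up _ (hF z hz))
      (h.up z (hz.trans_le h1)) (norm_nonneg _) hL0'.le)
  have hLL : L' * L ≤ 2 * L ^ 2 * L' := by nlinarith [mul_pos hL0 hL0', mul_nonneg hL0'.le (by nlinarith : (0:ℝ) ≤ L * (L - 1))]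
  refine ⟨hF, ?_, ?_, ?_, ?_, ?_, ?_⟩
  · show F' (F ξ) = z₀
    rw [h.val, h'.val]
  · intro z hz
    exact (h'.der (F z) (hF z hz)).comp z (h.der z (hz.trans_le h1))
  · intro z hz
    exact (hup z hz).trans hLL
  · intro z hz
    have h3 : (((D z).trans (D' (F z))).symm : V d →L[ℝ] V d) =
        ((D z).symm : V d →L[ℝ] V d).comp ((D' (F z)).symm : V d →L[ℝ] V d) := rfl
    rw [h3]
    refine (ContinuousLinearMap.opNorm_comp_le _ _).trans ?_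
    have h4 := mul_le_mul (h.low z (hz.trans_le h1)) (h'.low _ (hF z hz)) (norm_nonneg _) hL0.le
    linarith [mul_comm L L']
  · intro z z' hz hz'
    have h3 : ((((D z).trans (D' (F z)) : V d ≃L[ℝ] V d) : V d →L[ℝ] V d)) -
        (((D z').trans (D' (F z')) : V d ≃L[ℝ] V d) : V d →L[ℝ] V d) =
        ((D' (F z) : V d →L[ℝ] V d) - (D' (F z') : V d →L[ℝ] V d)).comp (D z : V d →L[ℝ] V d) +
        (D' (F z') : V d →L[ℝ] V d).comp ((D z : V d →L[ℝ] V d) - (D z' : V d →L[ℝ] V d)) := by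
      ext1 v
      simp
    rw [h3]
    have e1 := ContinuousLinearMap.opNorm_comp_le
      ((D' (F z) : V d →L[ℝ] V d) - (D' (F z') : V d →L[ℝ] V d)) (D z : V d →L[ℝ] V d)
    have e2 := ContinuousLinearMap.opNorm_comp_le (D' (F z') : V d →L[ℝ] V d)
      ((D z : V d →L[ℝ] V d) - (D z' : V d →L[ℝ] V d))
    have e3 := h'.lip (F z) (F z') (hF z hz) (hF z' hz')
    have e4 := hmv z z' hz hz'
    have e5 := h.up z (hz.trans_le h1)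
    have e6 := h'.up (F z') (hF z' hz')
    have e7 := h.lip z z' (hz.trans_le h1) (hz'.trans_le h1)
    have n1 := norm_nonneg (z - z')
    have a1 : ‖(D' (F z) : V d →L[ℝ] V d) - (D' (F z') : V d →L[ℝ] V d)‖ ≤ L' * (L * ‖z - z'‖) :=
      e3.trans (mul_le_mul_of_nonneg_left e4 hL0'.le)
    have a2 : ‖(D' (F z) : V d →L[ℝ] V d) - (D' (F z') : V d →L[ℝ] V d)‖ *
        ‖(D z : V d →L[ℝ] V d)‖ ≤ L' * (L * ‖z - z'‖) * L :=
      mul_le_mul a1 e5 (norm_nonneg _) (by positivity)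
    have a3 : ‖(D' (F z') : V d →L[ℝ] V d)‖ *
        ‖(D z : V d →L[ℝ] V d) - (D z' : V d →L[ℝ] V d)‖ ≤ L' * (L * ‖z - z'‖) :=
      mul_le_mul e6 e7 (norm_nonneg _) hL0'.le
    have a4 : L' * (L * ‖z - z'‖) ≤ L' * (L * ‖z - z'‖) * L :=
      le_mul_of_one_le_right (by positivity) hL
    calc _ ≤ _ := norm_add_le _ _
      _ ≤ L' * (L * ‖z - z'‖) * L + L' * (L * ‖z - z'‖) * L := by linarith
      _ = 2 * L ^ 2 * L' * ‖z - z'‖ := by ring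
  · intro y hy
    have hpos : 0 < 2 * L ^ 2 * L' := by positivity
    rw [lt_div_iff₀ hpos] at hy
    have n1 := norm_nonneg (y - z₀)
    have b1 : L' * ‖y - z₀‖ * L ≤ ‖y - z₀‖ * (2 * L ^ 2 * L') := by nlinarith
    have b2 : ‖y - z₀‖ < δ' / L' := by
      rw [lt_div_iff₀ hL0']
      have b3 : ‖y - z₀‖ * L' ≤ L' * ‖y - z₀‖ * L := by nlinarith [mul_nonneg n1 hL0'.le]
      have b4 : δ₁ ≤ L * δ₁ := by nlinarith
      linarith
    obtain ⟨u, hu1, hu2⟩ := h'.inv y b2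
    have b5 : ‖u - y₀‖ < δ / L := by
      rw [lt_div_iff₀ hL0]
      have b6 : ‖u - y₀‖ * L ≤ L' * ‖y - z₀‖ * L := mul_le_mul_of_nonneg_right hu1 hL0.le
      linarith
    obtain ⟨z, hz1, hz2⟩ := h.inv u b5
    refine ⟨z, ?_, ?_⟩
    · have b7 : L * ‖u - y₀‖ ≤ L * (L' * ‖y - z₀‖) := mul_le_mul_of_nonneg_left hu1 hL0.le
      nlinarith
    · show F' (F z) = y
      rw [hz2, hu2]

/-- A local map may be changed away from the ball. -/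
theorem LMap.congr {d : ℕ} {L δ : ℝ} {ξ y₀ : V d} {F G : V d → V d}
    {D : V d → (V d ≃L[ℝ] V d)} (h : LMap L δ ξ y₀ F D) (hL : 1 ≤ L) (hδ : 0 < δ)
    (he : ∀ z, ‖z - ξ‖ < δ → G z = F z) : LMap L δ ξ y₀ G D := by
  refine ⟨?_, fun z hz => ?_, h.up, h.low, h.lip, fun y hy => ?_⟩
  · rw [he ξ (by simpa using hδ), h.val]
  · refine (h.der z hz).congr_of_eventuallyEq ?_
    have h1 : ball ξ δ ∈ 𝓝 z := isOpen_ball.mem_nhds (by rw [mem_ball, dist_eq_norm]; exact hz)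
    filter_upwards [h1] with z' hz'
    rw [mem_ball, dist_eq_norm] at hz'
    exact he z' hz'
  · obtain ⟨z, hz, hzy⟩ := h.inv y hy
    refine ⟨z, hz, ?_⟩
    rw [he z, hzy]
    rw [lt_div_iff₀ (by linarith)] at hy
    linarith [mul_comm L ‖y - y₀‖]

theorem LocC.comp {d : ℕ} {M : Type u} [TopologicalSpace M] [ChartedSpace (V d) M] {𝒜 : Atl d M}
    {f h : M → M} {L δ L' δ' : ℝ} (hf : LocC 𝒜 f L δ) (hh : LocC 𝒜 h L' δ') :
    ∃ δ₁ : ℝ, LocC 𝒜 (fun x => h (f x)) (2 * L ^ 2 * L') δ₁ := by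
  have hL := hf.one_le
  have hL' := hh.one_le
  have hL0 : 0 < L := by linarith
  have hδ₁ : 0 < min δ (δ' / L) := lt_min hf.pos (div_pos hh.pos hL0)
  have h1 : min δ (δ' / L) ≤ δ := min_le_left _ _
  have h2 : L * min δ (δ' / L) ≤ δ' := by
    have := min_le_right δ (δ' / L)
    rw [le_div_iff₀ hL0] at this
    linarith [mul_comm L (min δ (δ' / L))]
  have hone : 1 ≤ 2 * L ^ 2 * L' := by nlinarith [one_le_pow₀ (n := 2) hL]
  refine ⟨min δ (δ' / L), hone, hδ₁, h1.trans hf.le, fun x j hs hn => ?_⟩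
  obtain ⟨d1, D, hD⟩ := hf.loc x (𝒜.ix (f x)) (𝒜.ix_src _) ((𝒜.ix_lt (f x)).le.trans (by norm_num))
  obtain ⟨d2, D', hD'⟩ := hh.loc (f x) j hs hn
  obtain ⟨c1, c2⟩ := hD.comp hD' hL hL' hδ₁ h1 h2
  have key : ∀ z, ‖z - 𝒜.c x‖ < min δ (δ' / L) →
      (𝒜.χ (𝒜.ix (f x))).symm (𝒜.loc f (𝒜.ix x) (𝒜.ix (f x)) z) = f ((𝒜.χ (𝒜.ix x)).symm z) := by
    intro z hz
    exact (𝒜.χ (𝒜.ix (f x))).left_inv (d1 z (hz.trans_le h1)).2
  refine ⟨fun z hz => ⟨(d1 z (hz.trans_le h1)).1, ?_⟩, _, c2.congr hone hδ₁ fun z hz => ?_⟩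
  · have h3 := (d2 _ (c1 z hz)).2
    rw [key z hz] at h3
    exact h3
  · show 𝒜.χ j (h (f ((𝒜.χ (𝒜.ix x)).symm z))) =
      𝒜.χ j (h ((𝒜.χ (𝒜.ix (f x))).symm (𝒜.loc f (𝒜.ix x) (𝒜.ix (f x)) z)))
    rw [key z hz]

/-- The constants of the iterates grow at most exponentially. -/
theorem LocC.iter {d : ℕ} {M : Type u} [TopologicalSpace M] [ChartedSpace (V d) M] {𝒜 : Atl d M}
    {f : M → M} {L δ : ℝ} (hf : LocC 𝒜 f L δ) (Q : ℕ) (hQ : 1 ≤ Q) :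
    ∃ δ₁ : ℝ, LocC 𝒜 (f^[Q]) ((2 * L ^ 2) ^ Q) δ₁ := by
  have hL := hf.one_le
  induction Q, hQ using Nat.le_induction with
  | base =>
    refine ⟨δ, ?_⟩
    rw [pow_one]
    exact hf.mono (by nlinarith) hf.pos le_rfl
  | succ Q hQ ih =>
    obtain ⟨δ₁, h1⟩ := ih
    obtain ⟨δ₂, h2⟩ := hf.comp h1
    refine ⟨δ₂, ?_⟩
    rw [pow_succ']
    exact h2

end Pool.Agent.H20.PT
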