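import Pool.Agent.H20.PT.VertDef3
import Pool.Agent.H20.PT.BlockSkew
import Pool.Agent.H20.PT.EntLaw

/-!
# Skew products: vertical vectors with bounded orbits
-/

set_option autoImplicit false
set_option linter.unusedSectionVars false

open scoped Manifold ContDiff Topology

universe u v w

namespace Pool.Agent.H20.PT

open Pool.Agent.H718R2.G Pool.Agent.R773.TE
open Pool.Agent.H721R2 (IsTangentNorm)

/-- Vectors in the kernel of the derivative of the projection are tangent to the fibres. -/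
theorem vert_of_ker {n d e : ℕ} {T : Type w} [TopologicalSpace T] [ChartedSpace (V n) T]
    [IsManifold (𝓡 n) ∞ T] {M : Type u} [TopologicalSpace M] [ChartedSpace (V d) M]
    [IsManifold (𝓡 d) ∞ M] {N : Type v} [TopologicalSpace N] [ChartedSpace (V e) N]
    [IsManifold (𝓡 e) ∞ N] (Θ : ProdDiff n d e T M N) (t : T) (v : TangentSpace 𝓘(ℝ, V n) t)
    (hv : mfderiv 𝓘(ℝ, V n) 𝓘(ℝ, V d) (fun t : T => (Θ.symm t).1) t v = 0) :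
    tangentMap 𝓘(ℝ, V e) 𝓘(ℝ, V n) (fun y => Θ ((Θ.symm t).1, y))
      ⟨(Θ.symm t).2, mfderiv 𝓘(ℝ, V n) 𝓘(ℝ, V e) (fun t : T => (Θ.symm t).2) t v⟩ = ⟨t, v⟩ := by
  have hp1 : MDifferentiableAt 𝓘(ℝ, V n) 𝓘(ℝ, V d) (fun t : T => (Θ.symm t).1) t :=
    (Θ.symm.contMDiff.fst).mdifferentiableAt (by simp)
  have hp2 : MDifferentiableAt 𝓘(ℝ, V n) 𝓘(ℝ, V e) (fun t : T => (Θ.symm t).2) t :=
    (Θ.symm.contMDiff.snd).mdifferentiableAt (by simp)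
  have hΘ : MDifferentiableAt (𝓘(ℝ, V d).prod 𝓘(ℝ, V e)) 𝓘(ℝ, V n) Θ
      ((Θ.symm t).1, (Θ.symm t).2) := Θ.contMDiff.mdifferentiableAt (by simp)
  have e1 : mfderiv 𝓘(ℝ, V n) 𝓘(ℝ, V n) (Θ ∘ fun s : T => ((Θ.symm s).1, (Θ.symm s).2)) t =
      ContinuousLinearMap.id ℝ (TangentSpace 𝓘(ℝ, V n) t) := by
    have h1 : (Θ ∘ fun s : T => ((Θ.symm s).1, (Θ.symm s).2)) = id :=
      funext fun s => Θ.apply_symm_apply s
    rw [h1]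
    exact mfderiv_id
  have e2 : mfderiv 𝓘(ℝ, V n) 𝓘(ℝ, V n) (Θ ∘ fun s : T => ((Θ.symm s).1, (Θ.symm s).2)) t =
      (mfderiv (𝓘(ℝ, V d).prod 𝓘(ℝ, V e)) 𝓘(ℝ, V n) Θ ((Θ.symm t).1, (Θ.symm t).2)).comp
        (mfderiv 𝓘(ℝ, V n) (𝓘(ℝ, V d).prod 𝓘(ℝ, V e))
          (fun s : T => ((Θ.symm s).1, (Θ.symm s).2)) t) :=
    mfderiv_comp t hΘ (hp1.prodMk hp2)
  have e3 := mfderiv_prodMk hp1 hp2
  have hy : MDifferentiableAt 𝓘(ℝ, V e) (𝓘(ℝ, V d).prod 𝓘(ℝ, V e))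
      (fun y : N => ((Θ.symm t).1, y)) (Θ.symm t).2 :=
    mdifferentiableAt_const.prodMk mdifferentiableAt_id
  have e4 : mfderiv 𝓘(ℝ, V e) 𝓘(ℝ, V n) (Θ ∘ fun y : N => ((Θ.symm t).1, y)) (Θ.symm t).2 =
      (mfderiv (𝓘(ℝ, V d).prod 𝓘(ℝ, V e)) 𝓘(ℝ, V n) Θ ((Θ.symm t).1, (Θ.symm t).2)).comp
        (mfderiv 𝓘(ℝ, V e) (𝓘(ℝ, V d).prod 𝓘(ℝ, V e))
          (fun y : N => ((Θ.symm t).1, y)) (Θ.symm t).2) :=
    mfderiv_comp (Θ.symm t).2 hΘ hy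
  have e5 := mfderiv_prod_right (I := 𝓘(ℝ, V d)) (I' := 𝓘(ℝ, V e)) (x₀ := (Θ.symm t).1)
    (y₀ := (Θ.symm t).2)
  have h9 : Θ ((Θ.symm t).1, (Θ.symm t).2) = t := Θ.apply_symm_apply t
  have h10 : (mfderiv 𝓘(ℝ, V e) 𝓘(ℝ, V n) (fun y => Θ ((Θ.symm t).1, y)) (Θ.symm t).2
      (mfderiv 𝓘(ℝ, V n) 𝓘(ℝ, V e) (fun t : T => (Θ.symm t).2) t v) : V n) = (v : V n) := by
    have h11 : (mfderiv 𝓘(ℝ, V n) 𝓘(ℝ, V n) (Θ ∘ fun s : T => ((Θ.symm s).1, (Θ.symm s).2)) t v :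
        V n) = (v : V n) := by
      rw [e1]
      rfl
    rw [e2, e3] at h11
    have h12 : (mfderiv 𝓘(ℝ, V e) 𝓘(ℝ, V n) (Θ ∘ fun y : N => ((Θ.symm t).1, y)) (Θ.symm t).2
      (mfderiv 𝓘(ℝ, V n) 𝓘(ℝ, V e) (fun t : T => (Θ.symm t).2) t v) : V n) = (v : V n) := by
      rw [e4, e5]
      refine Eq.trans ?_ h11
      show (mfderiv (𝓘(ℝ, V d).prod 𝓘(ℝ, V e)) 𝓘(ℝ, V n) Θ ((Θ.symm t).1, (Θ.symm t).2)
        ((0 : V d), _) : V n) = (mfderiv (𝓘(ℝ, V d).prod 𝓘(ℝ, V e)) 𝓘(ℝ, V n) Θ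
          ((Θ.symm t).1, (Θ.symm t).2) (_, _) : V n)
      congr 1
      refine Prod.ext ?_ rfl
      exact hv.symm
    exact h12
  exact Bundle.TotalSpace.ext h9 (heq_of_eq h10)

variable {r : ℕ∞}

/-- The condition on vertical vectors, in the form which is used in the proof. -/
theorem Sys.VertExp.unbd (hr : 1 ≤ r) {f : Sys.{u} r} {N : Mfd.{v}} {F : Sys.{w} r}
    {Θ : f.Coord N F} (h : Sys.VertExp Θ) : Sys.VertUnbd Θ := by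
  have i1 := F.man1
  have hr1 : (1 : WithTop ℕ∞) ≤ (r : WithTop ℕ∞) := by exact_mod_cast hr
  obtain ⟨Nm, hNm, h⟩ := h
  refine ⟨Nm, hNm, fun t ht v hv B h1 h2 => ?_⟩
  have h3 := vert_of_ker Θ t v hv
  have h4 : Sys.vert Θ (Θ.symm t).1 (Θ.symm t).2
      (mfderiv 𝓘(ℝ, V F.dim) 𝓘(ℝ, V N.dim) (fun t : F.pt => (Θ.symm t).2) t v) =
      ⟨t, v⟩ := h3
  have h5 : Sys.cfn Θ ((Θ.symm t).1, (Θ.symm t).2) = t := Θ.apply_symm_apply t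
  have h6 := h (Θ.symm t).1 (Θ.symm t).2
    (mfderiv 𝓘(ℝ, V F.dim) 𝓘(ℝ, V N.dim) (fun t : F.pt => (Θ.symm t).2) t v)
    (by
      rw [h5]
      exact ht) (by
      rw [h4]
      refine ⟨B, fun k => ⟨h1 k, F.tan (F.map.symm^[k]) ⟨t, v⟩, ?_, h2 k⟩⟩
      have hF1 : ContMDiff 𝓘(ℝ, V F.dim) 𝓘(ℝ, V F.dim) 1 F.map := F.map.contMDiff.of_le hr1
      have hF2 : ContMDiff 𝓘(ℝ, V F.dim) 𝓘(ℝ, V F.dim) 1 F.map.symm :=
        F.map.symm.contMDiff.of_le hr1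
      have h7 := Pool.Agent.H721R2.iter_smooth _ hF1 k
      have h8 := Pool.Agent.H721R2.iter_smooth _ hF2 k
      have h9 : F.map^[k] ∘ F.map.symm^[k] = id := by
        funext z
        exact (Function.LeftInverse.iterate (f := F.map.symm) (g := F.map)
          (fun z => F.map.apply_symm_apply z) k) z
      have h10 := tangentMap_comp_at (I := 𝓘(ℝ, V F.dim)) (I' := 𝓘(ℝ, V F.dim))
        (I'' := 𝓘(ℝ, V F.dim)) (f := F.map.symm^[k]) (g := F.map^[k]) ⟨t, v⟩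
        (h7.mdifferentiableAt (by norm_num)) (h8.mdifferentiableAt (by norm_num))
      rw [h9, tangentMap_id] at h10
      exact h10.symm)
  -- the vector vanishes
  have h7 : (mfderiv 𝓘(ℝ, V N.dim) 𝓘(ℝ, V F.dim) (fun y => Θ ((Θ.symm t).1, y)) (Θ.symm t).2
      (mfderiv 𝓘(ℝ, V F.dim) 𝓘(ℝ, V N.dim) (fun t : F.pt => (Θ.symm t).2) t v) : V F.dim) =
      (v : V F.dim) := congrArg (fun p : F.TBd => (p.2 : V F.dim)) h3
  have h8 : mfderiv 𝓘(ℝ, V F.dim) 𝓘(ℝ, V N.dim) (fun t : F.pt => (Θ.symm t).2) t v = 0 := h6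
  rw [h8] at h7
  exact h7.symm.trans (ContinuousLinearMap.map_zero _)

/-- A diffeomorphism which has skew products with fibre maps of large entropy. -/
theorem Sys.rich_skew_law (hr : 2 ≤ r) (f : Sys.{u} r) :
    ∃ K : ℕ, ∀ (N : Mfd.{v}) (F : Sys.{w} r) (Θ : f.Coord N F) (S : f.pt → N.pt → N.pt),
      IsSkew (Sys.cfn Θ) F.fn f.fn S → FibreRich K S → F.Stable →
      f.InU3 ∧ (Sys.VertExp Θ → F.InU3) := by
  have hr1 : 1 ≤ r := le_trans (by norm_num) hr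
  obtain ⟨K, hK⟩ := Sys.rich_skew.{u, v, w} hr f
  refine ⟨K, fun N F Θ S hP hS hF => ?_⟩
  obtain ⟨h1, h2⟩ := hK N.pt N.dim F Θ S hS hP hF
  refine ⟨Sys.u3 hr1 h1, fun hV => ?_⟩
  have := F.man1
  obtain ⟨Nm, hNm, hV⟩ := hV.unbd hr1
  exact Sys.u3 hr1 (ext_hyp Pool.Agent.H10.PT.SS.main_SS hr f.map S Θ F.map hP h2 hNm hV)

/-- Products. -/
theorem Sys.rich_prod_law (hr : 2 ≤ r) (f : Sys.{u} r) :
    ∃ K : ℕ, ∀ (g : Sys.{v} r) (F : Sys.{w} r) (Θ : f.Coord g.mfd F),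
      IsProd (Sys.cfn Θ) F.fn f.fn g.fn → Rich K g.fn → F.Stable →
      f.InU3 ∧ (g.ChainHyp → F.InU3) := by
  have hr1 : 1 ≤ r := le_trans (by norm_num) hr
  obtain ⟨K, hK⟩ := Sys.rich_factor.{u, v, w} hr f
  refine ⟨K, fun g F Θ hP hg hF => ?_⟩
  have h1 := hK g F hg ⟨Θ, hP⟩ hF
  exact ⟨Sys.u3 hr1 h1, fun h => Sys.u3 hr1 (Sys.prod_chainHyp hr1 ⟨Θ, hP⟩ h1 h)⟩

theorem FibreRich.mono {M : Type u} {N : Type v} [TopologicalSpace N] {K K' : ℕ} (h : K' ≤ K)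
    {S : M → N → N} (hS : FibreRich K S) : FibreRich K' S := by
  obtain ⟨Q, hQ, C, D, hC, hCd, hD, hCD, hw⟩ := hS
  have hK : K' ^ Q ≤ K ^ Q := Nat.pow_le_pow_left h Q
  exact ⟨Q, hQ, fun a => C (Fin.castLE hK a), D, fun a => hC _, fun a b hab => hCd _ _ fun he =>
    hab (Fin.castLE_injective hK he), hD, fun a => hCD _, fun n x s hn =>
    hw n x (fun t => Fin.castLE hK (s t)) hn⟩

end Pool.Agent.H20.PT
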