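import Pool.Agent.H64.PT.E1
import Pool.Agent.H20.PT.VertLaw3

/-!
# Hyperbolic sets have no bounded orbits of vectors; the converse for skew products
-/

set_option autoImplicit false
set_option linter.unusedSectionVars false

open scoped Manifold ContDiff Topology
open Filter Set Metric

universe u v w

namespace Pool.Agent.H20.PT

open Pool.Agent.H718R2.G Pool.Agent.R773.TE Pool.Agent.H64.PT.E1
open Pool.Agent.H721R2 (IsTangentNorm)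

section

variable {d : ℕ} {M : Type u} [TopologicalSpace M] [ChartedSpace (V d) M]
  [IsManifold 𝓘(ℝ, V d) 1 M]

/-- The vector `p` is based at a point of `Λ` and in the space of the field `Z`. -/
def InZ (Λ : Set M) (Z : ∀ x : M, Submodule ℝ (TangentSpace 𝓘(ℝ, V d) x))
    (p : TangentBundle 𝓘(ℝ, V d) M) : Prop := p.1 ∈ Λ ∧ p.2 ∈ Z p.1

theorem inZ_iter {g : M → M} (hg : ContMDiff 𝓘(ℝ, V d) 𝓘(ℝ, V d) 1 g) {Λ : Set M}
    {Z : ∀ x : M, Submodule ℝ (TangentSpace 𝓘(ℝ, V d) x)}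
    (h : ∀ p, InZ Λ Z p → InZ Λ Z (TM g p)) (k : ℕ) :
    ∀ p, InZ Λ Z p → InZ Λ Z (TM (g^[k]) p) := by
  induction k with
  | zero =>
    intro p hp
    have h1 : TM (d := d) (g^[0]) p = p := by
      show tangentMap 𝓘(ℝ, V d) 𝓘(ℝ, V d) (id : M → M) p = p
      rw [tangentMap_id]
      rfl
    rw [h1]
    exact hp
  | succ k ih =>
    intro p hp
    rw [TM_succ hg]
    exact ih _ (h p hp)

theorem part_zero {g g' : M → M} (hg : ContMDiff 𝓘(ℝ, V d) 𝓘(ℝ, V d) 1 g)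
    (hg' : ContMDiff 𝓘(ℝ, V d) 𝓘(ℝ, V d) 1 g') (hgg : ∀ x, g' (g x) = x) {Λ : Set M}
    {Nm : TangentBundle 𝓘(ℝ, V d) M → ℝ} (hN : IsTangentNorm Nm)
    {Z Y : ∀ x : M, Submodule ℝ (TangentSpace 𝓘(ℝ, V d) x)} {C a : ℝ} (ha : 0 < a) (ha1 : a < 1)
    (hZ : ∀ p, InZ Λ Z p → InZ Λ Z (TM g p)) (hrZ : Q263.HS.RateOn g' Λ Nm Z C a)
    (hrY : Q263.HS.RateOn g Λ Nm Y C a) {x : M} (hx : x ∈ Λ) {s t : TangentSpace 𝓘(ℝ, V d) x}
    (hs : s ∈ Y x) (ht : t ∈ Z x) {B : ℝ} (hB : ∀ k : ℕ, Nm (TM (g^[k]) ⟨x, s + t⟩) ≤ B) :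
    t = 0 := by
  by_contra ht0
  have hpos : 0 < Nm ⟨x, t⟩ := hN.pos x t ht0
  have hnn : 0 ≤ Nm ⟨x, -s⟩ := by
    by_cases h0 : -s = 0
    · rw [h0]
      have h1 := hN.smul x 0 0
      rw [zero_smul, abs_zero, zero_mul] at h1
      exact h1.ge
    · exact (hN.pos x _ h0).le
  have hak : ∀ k : ℕ, 0 ≤ a ^ k := fun k => (pow_pos ha k).le
  have hak1 : ∀ k : ℕ, a ^ k ≤ 1 := fun k => pow_le_one₀ ha.le ha1.le
  have hinv : ∀ k : ℕ, ∀ p, TM (d := d) (g'^[k]) (TM (g^[k]) p) = p := fun k p =>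
    TM_left (hg.iterate k) (hg'.iterate k) (fun x => (Function.LeftInverse.iterate hgg k) x) p
  have key : ∀ k : ℕ, Nm ⟨x, t⟩ ≤ |C| * a ^ k * (B + |C| * Nm ⟨x, -s⟩) := by
    intro k
    have h1 := inZ_iter hg hZ k ⟨x, t⟩ ⟨hx, ht⟩
    have h2 : Nm (TM (g^[k]) ⟨x, t⟩) ≤ B + |C| * Nm ⟨x, -s⟩ := by
      have h3 : (TM (d := d) (g^[k]) ⟨x, t⟩) = ⟨g^[k] x,
          mfderiv 𝓘(ℝ, V d) 𝓘(ℝ, V d) (g^[k]) x (s + t) +
          mfderiv 𝓘(ℝ, V d) 𝓘(ℝ, V d) (g^[k]) x (-s)⟩ := by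
        rw [TM_mk, ← map_add]
        congr 2
        abel
      rw [h3]
      refine (hN.add _ _ _).trans (add_le_add (hB k) ?_)
      have h4 := hrY k x hx (-s) ((Y x).neg_mem hs)
      refine h4.trans (mul_le_mul_of_nonneg_right ?_ hnn)
      exact (mul_le_mul_of_nonneg_right (le_abs_self C) (hak k)).trans
        (mul_le_of_le_one_right (abs_nonneg C) (hak1 k))
    have h5 := hrZ k _ h1.1 _ h1.2
    have h6 : (⟨(TM (d := d) (g^[k]) ⟨x, t⟩).1, (TM (d := d) (g^[k]) ⟨x, t⟩).2⟩ :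
        TangentBundle 𝓘(ℝ, V d) M) = TM (g^[k]) ⟨x, t⟩ := rfl
    rw [h6] at h5
    have h7 : tangentMap 𝓘(ℝ, V d) 𝓘(ℝ, V d) (g'^[k]) (TM (g^[k]) ⟨x, t⟩) = ⟨x, t⟩ := hinv k _
    rw [h7] at h5
    have h8 : 0 ≤ Nm (TM (g^[k]) ⟨x, t⟩) := by
      by_contra hc
      rw [not_le] at hc
      by_cases h0 : (TM (d := d) (g^[k]) ⟨x, t⟩).2 = 0
      · have h9 := hN.smul (TM (d := d) (g^[k]) ⟨x, t⟩).1 0 0
        rw [zero_smul, abs_zero, zero_mul] at h9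
        have h10 : Nm (TM (g^[k]) ⟨x, t⟩) = Nm ⟨(TM (d := d) (g^[k]) ⟨x, t⟩).1, 0⟩ := by
          rw [← h0]
        rw [h10, h9] at hc
        exact lt_irrefl _ hc
      · exact lt_asymm hc (hN.pos _ _ h0)
    calc Nm ⟨x, t⟩ ≤ C * a ^ k * Nm (TM (g^[k]) ⟨x, t⟩) := h5
      _ ≤ |C| * a ^ k * Nm (TM (g^[k]) ⟨x, t⟩) :=
        mul_le_mul_of_nonneg_right (mul_le_mul_of_nonneg_right (le_abs_self C) (hak k)) h8
      _ ≤ |C| * a ^ k * (B + |C| * Nm ⟨x, -s⟩) :=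
        mul_le_mul_of_nonneg_left h2 (mul_nonneg (abs_nonneg C) (hak k))
  have hlim : Tendsto (fun k : ℕ => |C| * a ^ k * (B + |C| * Nm ⟨x, -s⟩)) atTop (𝓝 0) := by
    have h1 : Tendsto (fun k : ℕ => a ^ k) atTop (𝓝 0) := tendsto_pow_atTop_nhds_zero_of_lt_one ha.le ha1
    have h2 := (h1.const_mul |C|).mul_const (B + |C| * Nm ⟨x, -s⟩)
    simpa using h2
  exact absurd (ge_of_tendsto' hlim key) (not_le.2 hpos)

/-- Nonzero vectors at the points of a hyperbolic set have unbounded orbits. -/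
theorem noB_of_hypOn {f : M ≃ₜ M} (hf : ContMDiff 𝓘(ℝ, V d) 𝓘(ℝ, V d) 1 f)
    (hf' : ContMDiff 𝓘(ℝ, V d) 𝓘(ℝ, V d) 1 f.symm) {Λ : Set M}
    {Nm : TangentBundle 𝓘(ℝ, V d) M → ℝ}
    {Es Eu : ∀ x : M, Submodule ℝ (TangentSpace 𝓘(ℝ, V d) x)} {C a : ℝ}
    (h : Q263.HS.IsHypOn f Λ Nm Es Eu C a) : NoB f Λ Nm := by
  intro x hx v B h1 h2
  have hv : v ∈ Es x ⊔ Eu x := by
    rw [(h.compl x hx).sup_eq_top]
    trivial
  obtain ⟨s, hs, t, ht, hst⟩ := Submodule.mem_sup.1 hv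
  have hfwd : ∀ Z : ∀ x : M, Submodule ℝ (TangentSpace 𝓘(ℝ, V d) x), Q263.HS.InvOn f Λ Z →
      ∀ p, InZ Λ Z p → InZ Λ Z (TM f p) := by
    rintro Z hZ ⟨y, w⟩ ⟨hy, hw⟩
    refine ⟨?_, ?_⟩
    · rw [← h.inv]
      exact ⟨y, hy, rfl⟩
    · have h3 := hZ y hy
      show mfderiv 𝓘(ℝ, V d) 𝓘(ℝ, V d) f y w ∈ Z (f y)
      rw [← h3]
      exact Submodule.mem_map_of_mem hw
  have hbwd : ∀ Z : ∀ x : M, Submodule ℝ (TangentSpace 𝓘(ℝ, V d) x), Q263.HS.InvOn f Λ Z →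
      ∀ p, InZ Λ Z p → InZ Λ Z (TM f.symm p) := by
    rintro Z hZ ⟨y, w⟩ ⟨hy, hw⟩
    have h3 : y ∈ f '' Λ := by
      rw [h.inv]
      exact hy
    obtain ⟨z, hz, rfl⟩ := h3
    have h4 : w ∈ Z (f z) := hw
    rw [← hZ z hz] at h4
    obtain ⟨w', hw', rfl⟩ := h4
    have h5 : TM (d := d) f.symm (TM f ⟨z, w'⟩) = ⟨z, w'⟩ :=
      TM_left hf hf' (fun y => f.symm_apply_apply y) _
    have h6 : TM (d := d) f.symm ⟨f z, (mfderiv 𝓘(ℝ, V d) 𝓘(ℝ, V d) f z).toLinearMap w'⟩ =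
      ⟨z, w'⟩ := h5
    rw [h6]
    exact ⟨hz, hw'⟩
  have ht0 : t = 0 := part_zero hf hf' (fun y => f.symm_apply_apply y) h.norm h.a_pos h.a_lt
    (hfwd Eu h.map_u) h.rate_u h.rate_s hx hs ht (B := B) (by
      intro k
      rw [hst]
      exact h1 k)
  have hs0 : s = 0 := part_zero hf' hf (fun y => f.apply_symm_apply y) h.norm h.a_pos h.a_lt
    (hbwd Es h.map_s) h.rate_s h.rate_u hx ht hs (B := B) (by
      intro k
      rw [add_comm, hst]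
      exact h2 k)
  rw [← hst, ht0, hs0, add_zero]

end

variable {r : ℕ∞}

/-- If the chain recurrent set is hyperbolic then vectors tangent to the fibres have unbounded
orbits. -/
theorem Sys.vertExp_of_u3 (hr : 1 ≤ r) {f : Sys.{u} r} {N : Mfd.{v}} {F : Sys.{w} r}
    (Θ : f.Coord N F) (h : F.InU3) : Sys.VertExp Θ := by
  have i1 := F.man1
  have hr1 : (1 : WithTop ℕ∞) ≤ (r : WithTop ℕ∞) := by exact_mod_cast hr
  obtain ⟨⟨hh, -⟩, -, hCR⟩ := h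
  rw [← hCR] at hh
  obtain ⟨Nm, Es, Eu, C, a, hh⟩ := hh
  have hF1 : ContMDiff 𝓘(ℝ, V F.dim) 𝓘(ℝ, V F.dim) 1 F.map.toHomeomorph :=
    F.map.contMDiff.of_le hr1
  have hF2 : ContMDiff 𝓘(ℝ, V F.dim) 𝓘(ℝ, V F.dim) 1 F.map.toHomeomorph.symm :=
    F.map.symm.contMDiff.of_le hr1
  have hB := noB_of_hypOn hF1 hF2 hh
  refine ⟨Nm, hh.norm, fun x y b hxy hb => ?_⟩
  obtain ⟨B, hb⟩ := hb
  -- the derivative of the fibre
  have h0 := hB (Sys.cfn Θ (x, y)) hxy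
    (mfderiv 𝓘(ℝ, V N.dim) 𝓘(ℝ, V F.dim) (fun y => Sys.cfn Θ (x, y)) y b) B
    (fun k => (hb k).1) (fun k => by
      obtain ⟨-, q, hq, hqB⟩ := hb k
      have h1 : TM (d := F.dim) (F.map.toHomeomorph.symm^[k]) (TM (F.map.toHomeomorph^[k]) q) = q :=
        TM_left (hF1.iterate k) (hF2.iterate k) (fun x => (Function.LeftInverse.iterate
          (fun z => F.map.toHomeomorph.symm_apply_apply z) k) x) q
      have h2 : TM (d := F.dim) (F.map.toHomeomorph^[k]) q = Sys.vert Θ x y b := hq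
      rw [h2] at h1
      have h3 : TM (d := F.dim) (F.map.toHomeomorph.symm^[k]) ⟨Sys.cfn Θ (x, y),
        mfderiv 𝓘(ℝ, V N.dim) 𝓘(ℝ, V F.dim) (fun y => Sys.cfn Θ (x, y)) y b⟩ = q := h1
      show Nm (TM (d := F.dim) (F.map.toHomeomorph.symm^[k]) ⟨Sys.cfn Θ (x, y),
        mfderiv 𝓘(ℝ, V N.dim) 𝓘(ℝ, V F.dim) (fun y => Sys.cfn Θ (x, y)) y b⟩) ≤ B
      rw [h3]
      exact hqB)
  have hp2 : MDifferentiableAt 𝓘(ℝ, V F.dim) 𝓘(ℝ, V N.dim) (fun t : F.pt => (Θ.symm t).2)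
      (Sys.cfn Θ (x, y)) := (Θ.symm.contMDiff.snd).mdifferentiableAt (by simp)
  have hΘ : MDifferentiableAt (𝓘(ℝ, V f.dim).prod 𝓘(ℝ, V N.dim)) 𝓘(ℝ, V F.dim) Θ (x, y) :=
    Θ.contMDiff.mdifferentiableAt (by simp)
  have hy : MDifferentiableAt 𝓘(ℝ, V N.dim) (𝓘(ℝ, V f.dim).prod 𝓘(ℝ, V N.dim))
      (fun y : N.pt => (x, y)) y := mdifferentiableAt_const.prodMk mdifferentiableAt_id
  have hfib : MDifferentiableAt 𝓘(ℝ, V N.dim) 𝓘(ℝ, V F.dim) (fun y => Sys.cfn Θ (x, y)) y :=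
    hΘ.comp y hy
  have h1 : mfderiv 𝓘(ℝ, V N.dim) 𝓘(ℝ, V N.dim)
      ((fun t : F.pt => (Θ.symm t).2) ∘ (fun y => Sys.cfn Θ (x, y))) y =
      ContinuousLinearMap.id ℝ (TangentSpace 𝓘(ℝ, V N.dim) y) := by
    have h2 : ((fun t : F.pt => (Θ.symm t).2) ∘ (fun y => Sys.cfn Θ (x, y))) = id := by
      funext z
      show (Θ.symm (Θ (x, z))).2 = z
      rw [Θ.symm_apply_apply]
    rw [h2]
    exact mfderiv_id
  rw [mfderiv_comp y hp2 hfib] at h1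
  have h2 := congrArg (fun L : TangentSpace 𝓘(ℝ, V N.dim) y →L[ℝ] TangentSpace 𝓘(ℝ, V N.dim) y =>
    L b) h1
  have h3 : (mfderiv 𝓘(ℝ, V F.dim) 𝓘(ℝ, V N.dim) (fun t : F.pt => (Θ.symm t).2)
      (Sys.cfn Θ (x, y))
      (mfderiv 𝓘(ℝ, V N.dim) 𝓘(ℝ, V F.dim) (fun y => Sys.cfn Θ (x, y)) y b) : V N.dim) =
      (b : V N.dim) := h2
  rw [h0] at h3
  exact h3.symm.trans (ContinuousLinearMap.map_zero _)

/-- A diffeomorphism which has skew products with fibre maps of large entropy. -/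
theorem Sys.rich_skew_law' (hr : 2 ≤ r) (f : Sys.{u} r) :
    ∃ K : ℕ, ∀ (N : Mfd.{v}) (F : Sys.{w} r) (Θ : f.Coord N F) (S : f.pt → N.pt → N.pt),
      IsSkew (Sys.cfn Θ) F.fn f.fn S → FibreRich K S → F.Stable →
      f.InU3 ∧ (F.InU3 ↔ Sys.VertExp Θ) := by
  have hr1 : 1 ≤ r := le_trans (by norm_num) hr
  obtain ⟨K, hK⟩ := Sys.rich_skew_law.{u, v, w} hr f
  refine ⟨K, fun N F Θ S hP hS hF => ?_⟩
  obtain ⟨h1, h2⟩ := hK N F Θ S hP hS hF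
  exact ⟨h1, Sys.vertExp_of_u3 hr1 Θ, h2⟩

theorem Sys.InU3.chainHyp {X : Sys.{u} r} (h : X.InU3) : X.ChainHyp := by
  obtain ⟨⟨hh, -⟩, -, hCR⟩ := h
  rw [← hCR] at hh
  exact hh

end Pool.Agent.H20.PT
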