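import Pool.Agent.H20.PT.PowMain

/-!
# Project PT3: symbols of high iterates
-/

set_option autoImplicit false
set_option linter.unusedSectionVars false

open scoped Manifold ContDiff Topology
open Filter Set Metric

universe u v w

namespace Pool.Agent.H20.PT

open Pool.Agent.H718R2.G Pool.Agent.TH80.OMS Pool.Agent.Y504.CO Pool.Agent.R773.TE

/-- Blocks of `m` symbols are symbols of the iterate `g^m`. -/
theorem fullShift_block {N : Type v} [TopologicalSpace N] {g : N → N} (hgc : Continuous g)
    {k m : ℕ} (hm : 1 ≤ m) (hg : FullShift k g) : FullShift (k ^ m) (g^[m]) := by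
  obtain ⟨C, hC, hd, hs⟩ := hg
  refine ⟨fun a => ⋂ i : Fin m, (g^[(i : ℕ)]) ⁻¹' C (finFunctionFinEquiv.symm a i), fun a => ?_,
    fun a b hab => ?_, fun n s hn => ?_⟩
  · exact isClosed_iInter fun i => (hC _).preimage (hgc.iterate _)
  · have h1 : finFunctionFinEquiv.symm a ≠ finFunctionFinEquiv.symm b := fun h =>
      hab (finFunctionFinEquiv.symm.injective h)
    obtain ⟨i, hi⟩ := Function.ne_iff.1 h1
    rw [Set.disjoint_left]
    intro y hy hy'
    exact Set.disjoint_left.1 (hd _ _ hi) (mem_iInter.1 hy i) (mem_iInter.1 hy' i)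
  · have hmod : ∀ t, t % m < m := fun t => Nat.mod_lt t (by omega)
    obtain ⟨y, hy, hyC⟩ := hs (m * n) (fun t => finFunctionFinEquiv.symm (s (t / m)) ⟨t % m, hmod t⟩)
      (Nat.mul_pos hm hn)
    refine ⟨y, ?_, fun j hj => ?_⟩
    · rw [← Function.iterate_mul]
      exact hy
    · rw [← Function.iterate_mul]
      refine mem_iInter.2 fun i => ?_
      have h1 : (i : ℕ) + m * j < m * n := by
        have h2 : m * j + m ≤ m * n := by
          calc m * j + m = m * (j + 1) := by ring
            _ ≤ m * n := Nat.mul_le_mul_left m hj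
        have := i.2
        omega
      have h3 := hyC _ h1
      have h4 : ((i : ℕ) + m * j) / m = j := by
        rw [Nat.add_mul_div_left _ _ (by omega), Nat.div_eq_of_lt i.2, zero_add]
      have h5 : ((i : ℕ) + m * j) % m = i := by
        rw [Nat.add_mul_mod_self_left, Nat.mod_eq_of_lt i.2]
      rw [mem_preimage, ← Function.iterate_add_apply]
      have h6 : (⟨((i : ℕ) + m * j) % m, hmod _⟩ : Fin m) = i := Fin.ext h5
      rw [h6, h4] at h3
      exact h3

variable {r : ℕ∞}

/-- The iterate `f^n`. -/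
noncomputable def Sys.iter (X : Sys.{u} r) (n : ℕ) : Sys.{u} r where
  dim := X.dim
  pt := X.pt
  map := iterD X.map n

theorem Sys.iter_map (X : Sys.{u} r) (n : ℕ) : ⇑(X.iter n).map = X.map^[n] := iterD_coe X.map n

theorem Sys.iter_fullShift (X : Sys.{u} r) {q : ℕ} (h : FullShift 2 (X.map^[q])) (k : ℕ) {j : ℕ}
    (hj : k + 1 ≤ j) : FullShift k (X.iter (q * j)).map := by
  have h1 : FullShift (2 ^ j) ((X.map^[q])^[j]) :=
    fullShift_block (X.map.continuous.iterate q) (by omega) h
  rw [X.iter_map, Function.iterate_mul]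
  have h2 : j < 2 ^ j := Nat.lt_two_pow_self
  exact fullShift_mono (by omega) h1

end Pool.Agent.H20.PT
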