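import Mathlib

/-!
# Project PT (products and the stability conjecture): linear algebra, definitions and statements

Blueprint proofs are in the doc comments of the statements `S_*`.
-/

set_option autoImplicit false

open Filter Set Metric Topology

universe u

namespace Pool.Agent.H20.PT

section lin

variable {E : Type} [NormedAddCommGroup E] [NormedSpace ℝ E]

/-- `‖v - c M^p v‖ ≥ η ‖v‖` for all `p ≥ 1` and all `c` with `θ^{-p} ≤ c ≤ θ^p`. -/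
def Good (η θ : ℝ) (M : E ≃L[ℝ] E) : Prop :=
  ∀ p : ℕ, 1 ≤ p → ∀ c : ℝ, θ⁻¹ ^ p ≤ c → c ≤ θ ^ p → ∀ v : E, η * ‖v‖ ≤ ‖v - c • (M ^ p) v‖

/-- The stable subspace of `M`. -/
def Es (M : E ≃L[ℝ] E) : Submodule ℝ E where
  carrier := {v | Tendsto (fun p : ℕ => (M ^ p) v) atTop (𝓝 0)}
  zero_mem' := by simp
  add_mem' := fun {a b} ha hb => by
    have := ha.add hb
    simpa using this
  smul_mem' := fun c {a} ha => by
    have := ha.const_smul c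
    simpa using this

/-- The unstable subspace of `M`. -/
def Eu (M : E ≃L[ℝ] E) : Submodule ℝ E := Es M⁻¹

/-- Transports of the closed paths at a point: `𝓖 n M` says that `M` is the transport of a closed
path of length `n`. -/
structure LoopFam (η θ : ℝ) (𝓖 : ℕ → (E ≃L[ℝ] E) → Prop) : Prop where
  mul : ∀ n M m M', 𝓖 n M → 𝓖 m M' → 𝓖 (n + m) (M' * M)
  good : ∀ n M, 𝓖 n M → 1 ≤ n → Good η (θ ^ n) M
  kick : ∀ n M m M', 𝓖 n M → 𝓖 m M' → 1 ≤ n → 1 ≤ m → ∀ B : E →L[ℝ] E, ‖B‖ ≤ η → ∀ v : E,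
    η * ‖v‖ ≤ ‖v - M' (M v + B (M v))‖

end lin

/-- DET. If `X^p → 0` and `η ‖v‖ ≤ ‖v - X v‖` for all `v` then `‖X‖` is bounded by a constant which
depends only on `E` and `η`.
Proof: all complex roots `μ` of the characteristic polynomial of `X` satisfy `|μ| < 1` (complexify /
pass to the complex matrix `A` of `X`: an eigenvector `w` has `A^p w = μ^p w → 0`), so
`|det (1 - X)| = ∏ |1 - μ_i| ≤ 2^d`. If no bound exists, take `X_m` with `‖X_m‖ → ∞`; the inverses `Y_m`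
of `1 - X_m` have norm `≤ 1/η` and `|det Y_m| ≥ 2^{-d}`, a subsequence converges to `Y` with
`|det Y| ≥ 2^{-d}`, so `Y` is invertible and `1 - X_m = Y_m⁻¹ → Y⁻¹`, a contradiction. (Or use the
adjugate: `1 - X = det (1 - X) • adj Y`.) -/
def S_DET : Prop :=
  ∀ (E : Type) [NormedAddCommGroup E] [NormedSpace ℝ E] [FiniteDimensional ℝ E] (η : ℝ), 0 < η →
    ∃ K : ℝ, ∀ X : E →L[ℝ] E, Tendsto (fun p : ℕ => X ^ p) atTop (𝓝 0) →
      (∀ v, η * ‖v‖ ≤ ‖v - X v‖) → ‖X‖ ≤ K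

/-- SPL. Splitting. `M` is an isomorphism with `Good η θ M`, `θ > 1`. Then `E = Es M ⊕ Eu M`, and
`θ^p M^p → 0` on `Es M`, `θ^p M^{-p} → 0` on `Eu M` pointwise.
Proof (either by eigenvalues: no complex root `μ` of the characteristic polynomial has
`θ⁻¹ ≤ |μ| ≤ θ`, since on the real invariant plane (or line) of `μ` the powers of `|μ|⁻¹ M` are
recurrent; or with compactness only, as follows).
(a) `N := c M`, `c ∈ [θ⁻¹, θ]`, has no bounded full orbit `(v_i)_{i∈ℤ}`, `v_{i+1} = N v_i`, except `0`: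
the vectors with bounded full orbit form an invariant subspace `G` on which `‖N^k‖ ≤ C` for all
`k ∈ ℤ` (finite dimension); by compactness there are `i < j` with `‖v_i - v_j‖` as small as we like
compared with `‖v_i‖ ≥ ‖v_0‖/C`, against `‖v - N^p v‖ ≥ η ‖v‖`.
(b) `E = S + U`, `S`, `U` the vectors with bounded forward, backward `N`-orbit: for `w ∈ E` and `p ≥ 1`
solve `(1 - N^p) v = w` and put `v_i = N^{i-1} v` for `1 ≤ i ≤ p`, `v_0 := v_p`, continued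
`p`-periodically: `v_{i+1} = N v_i + δ w` (`δ = 1` iff `p ∣ i`). If `R_p = max ‖v_i‖` were unbounded,
dividing by `R_p` and recentring at the maximum, a limit would be a nonzero bounded full orbit of
`N`. So bounded, and a limit `p → ∞` (centred at `0`) gives `w = v_1 - N v_0`, `v_1 ∈ S`, `N v_0 ∈ U`.
(c) bounded forward orbits of `N` tend to `0` (limits of shifted orbits are bounded full orbits), same
backward; so `E = Es N ⊕ Eu N` for all `c ∈ [θ⁻¹, θ]`.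
(d) `Es (c M)` does not depend on `c ∈ [θ⁻¹, θ]`: it is decreasing in `c`; it is locally constant since
`‖N^{p₀}|Es‖ < 1/2`, `‖N^{-p₀}|Eu‖ < 1/2` for some `p₀` is stable under small changes of `c`. -/
def S_SPL : Prop :=
  ∀ (E : Type) [NormedAddCommGroup E] [NormedSpace ℝ E] [FiniteDimensional ℝ E] (η θ : ℝ), 0 < η →
    1 < θ → ∀ M : E ≃L[ℝ] E, Good η θ M → IsCompl (Es M) (Eu M) ∧
      (∀ v ∈ Es M, Tendsto (fun p : ℕ => θ ^ p • (M ^ p) v) atTop (𝓝 0)) ∧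
      (∀ v ∈ Eu M, Tendsto (fun p : ℕ => θ ^ p • (M⁻¹ ^ p) v) atTop (𝓝 0))

/-- HYP1. Uniform rates. From `S_DET`, `S_SPL`.
Projections: for `s ∈ Es M`, `u ∈ Eu M` put `w = s - M^{-N} u`; then
`w - M^N w = s - M^{-N} u - M^N s + u → s + u` and `w → s`, so `η ‖s‖ ≤ ‖s + u‖`; and
`‖u‖ ≤ ‖s‖ + ‖s + u‖`.
Rates: let `Π` be the projection onto `Es M` along `Eu M` (norm `≤ 1/η`), `N = M^p`, `t = θ^p`.
`X = t N Π`: `X^j = t^j N^j Π → 0`; `1 - X` is `1 - tN` on `Es` and `1` on `Eu`, so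
`v - X v = (s - tNs) + u` with `η ‖s‖ ≤ ‖s - t N s‖` and, by the projection bounds,
`‖v - X v‖ ≥ c(η) ‖v‖`. `S_DET` gives `‖X‖ ≤ K`, that is `‖M^p s‖ ≤ K t⁻¹ ‖s‖`.
On `Eu`: `X = t N⁻¹ (1 - Π)`, `u - t N⁻¹ u = - t N⁻¹ (u - t⁻¹ N u)`. With `y = t N⁻¹ u` it is
`-(y - t⁻¹ N y)` so `‖u - X u‖ ≥ η ‖y‖`, and `‖u‖ ≤ ‖y‖ + ‖u - y‖ ≤ (1/η + 1) ‖u - X u‖`. -/
def S_HYP1 : Prop :=
  ∀ (E : Type) [NormedAddCommGroup E] [NormedSpace ℝ E] [FiniteDimensional ℝ E] (η : ℝ), 0 < η →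
    ∃ K : ℝ, 1 ≤ K ∧ ∀ (θ : ℝ) (M : E ≃L[ℝ] E), 1 < θ → Good η θ M →
      IsCompl (Es M) (Eu M) ∧
      (∀ s ∈ Es M, ∀ u ∈ Eu M, ‖s‖ ≤ K * ‖s + u‖ ∧ ‖u‖ ≤ K * ‖s + u‖) ∧
      (∀ p : ℕ, 1 ≤ p → ∀ s ∈ Es M, ‖(M ^ p) s‖ ≤ K * θ⁻¹ ^ p * ‖s‖) ∧
      (∀ p : ℕ, 1 ≤ p → ∀ u ∈ Eu M, ‖(M⁻¹ ^ p) u‖ ≤ K * θ⁻¹ ^ p * ‖u‖)

/-- ANG. Stable and unstable spaces of closed paths at the same point make a uniform angle.
From `S_HYP1` (constant `K`).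
(1) If `𝓖 m T`, `𝓖 n N`, `θ^{2n} > K² ‖T‖ ‖T⁻¹‖` (roughly) then `dim Es (T N) = dim Es N`: if
`dim Es (T N) > dim Es N` then `Es (T N) ∩ Eu N` contains `v ≠ 0`, and
`‖T N v‖ ≤ K θ^{-(n+m)} ‖v‖` but `‖N v‖ ≥ θ^n / K ‖v‖`; if `dim Es (T N) < dim Es N` then
`Eu (T N) ∩ Es N` contains `v ≠ 0`, `‖T N v‖ ≥ θ^{n+m}/K ‖v‖`, `‖N v‖ ≤ K θ^{-n} ‖v‖`. In the same way
`dim Es (N T) = dim Es N` (compare `Es (N T)` with `T⁻¹ Eu N`), or by conjugation.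
(2) Hence for `𝓖 n M`, `𝓖 m M'`: `dim Es (M^p M'^q)` is constant for `p + q ≥ n₀`, so
`dim Es M = dim Es (M^p) = dim Es (M'^q) = dim Es M'` (`Es (M^p) = Es M` for `p ≥ 1`).
(3) Let `s ∈ Es M`, `u ∈ Eu M'`, `‖s‖ = 1`, and suppose `‖s - u‖ < η/2`; then `u ≠ 0`. For `b ≥ 1` let
`û = M'^{-b} u / ‖M'^{-b} u‖`, `M'^b û = ρ u`, `ρ = ρ_b → ∞`. By (2)
`dim (ℝ û ⊕ Es M') + dim (Eu M) > dim E`, so there is a unit vector `e ∈ Eu M`, `e = α û + σ`,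
`σ ∈ Es M'`, `‖σ‖ ≤ K`. Choose `β = ± η` with `|α + β| ≥ η` and `B = β e* û`, where `e*` is a functional of
norm `1` with `e* e = 1`: `‖B‖ ≤ η`, `e + B e = (α + β) û + σ`. Then
`(1/((α+β) ρ)) M'^b (e + B e) = u + M'^b σ / ((α + β) ρ)`, the last term being `≤ K² θ^{-mb}/(η ρ)`:
choose `b` so that it is `≤ η/16`. Then, `b` fixed, take `a` large and
`w = s + (1/((α+β)ρ)) M^{-a} e`: `M'^b (1 + B) M^a w = M'^b (1 + B) M^a s + u + small`, so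
`‖w - M'^b (1 + B) M^a w‖ ≤ ‖s - u‖ + small < η ‖w‖`, against `LoopFam.kick` for `M^a`, `M'^b`. -/
def S_ANG : Prop :=
  ∀ (E : Type) [NormedAddCommGroup E] [NormedSpace ℝ E] [FiniteDimensional ℝ E] (η θ : ℝ), 0 < η →
    η ≤ 1 → 1 < θ → ∀ 𝓖 : ℕ → (E ≃L[ℝ] E) → Prop, LoopFam η θ 𝓖 →
    ∀ n M m M', 𝓖 n M → 𝓖 m M' → 1 ≤ n → 1 ≤ m → ∀ s ∈ Es M, ∀ u ∈ Eu M',
      η / 2 * ‖s‖ ≤ ‖s - u‖

end Pool.Agent.H20.PT
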