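import Pool.Agent.H20.PT.SkewDef
import Pool.Agent.H22.PT.Nobx

/-!
# Project PT3: `S_NOBX` with the condition at the points of a set (the proof is the one of helper22,
`Pool/Agent/H22/PT/Nobx.lean`)
-/

set_option autoImplicit false
set_option linter.unusedSectionVars false

open scoped Manifold ContDiff Topology
open Filter Set Metric Bundle

universe u v w

namespace Pool.Agent.H20.PT

open Pool.Agent.H718R2.G Pool.Agent.TH80.OMS Pool.Agent.Y504.CO Pool.Agent.R773.TE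
open Pool.Agent.H22.PTN
open Pool.Agent.H721R2 (IsTangentNorm dm tnm tnm_nonneg tnm_compare exists_uniform_const local_all
  iter_smooth)

/-- As `S_NOBX`, with a condition on vertical vectors at the points of `K` only. -/
theorem nobx_on {d e n : ℕ} {M : Type u} [TopologicalSpace M] [T2Space M] [CompactSpace M]
    [ChartedSpace (V d) M] [IsManifold (𝓡 d) ∞ M] [IsManifold 𝓘(ℝ, V d) 1 M]
    {N : Type v} [TopologicalSpace N] [ChartedSpace (V e) N]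
    {T : Type w} [TopologicalSpace T] [T2Space T] [CompactSpace T]
    [ChartedSpace (V n) T] [IsManifold (𝓡 n) ∞ T] [IsManifold 𝓘(ℝ, V n) 1 T]
    (Θ : ProdDiff n d e T M N) (f : M ≃ₜ M) (F : T ≃ₜ T) (S : M → N → N)
    (hf : ContMDiff 𝓘(ℝ, V d) 𝓘(ℝ, V d) 1 f) (hf' : ContMDiff 𝓘(ℝ, V d) 𝓘(ℝ, V d) 1 f.symm)
    (hF : ContMDiff 𝓘(ℝ, V n) 𝓘(ℝ, V n) 1 F) (hF' : ContMDiff 𝓘(ℝ, V n) 𝓘(ℝ, V n) 1 F.symm)
    (hS : IsSkew Θ F f S) {NmM : TangentBundle 𝓘(ℝ, V d) M → ℝ}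
    {NmT : TangentBundle 𝓘(ℝ, V n) T → ℝ} (hM : IsTangentNorm NmM) (hT : IsTangentNorm NmT)
    (K₁ : Set M) (K : Set T) (hKK : K ⊆ {t | (Θ.symm t).1 ∈ K₁}) (hK : NoB f K₁ NmM)
    (hV : VertUnbOn Θ F NmT K) : NoB F K NmT := by
  intro t htK v B h1 h2
  have ht := hKK htK
  set pj : T → M := fun t => (Θ.symm t).1 with hpjd
  have hpj : ContMDiff 𝓘(ℝ, V n) 𝓘(ℝ, V d) 1 pj := by
    have h0 : ContMDiff (𝓡 n) (𝓡 d) ∞ pj := Θ.symm.contMDiff.fst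
    exact h0.of_le (by simp)
  have hcomm : ∀ t, pj (F t) = f (pj t) := by
    intro t
    have h3 := hS (Θ.symm t).1 (Θ.symm t).2
    have h4 : Θ ((Θ.symm t).1, (Θ.symm t).2) = t := Θ.apply_symm_apply t
    rw [h4] at h3
    show (Θ.symm (F t)).1 = _
    rw [h3, Θ.symm_apply_apply]
  have hcomm' : ∀ t, pj (F.symm t) = f.symm (pj t) := by
    intro t
    have h3 := hcomm (F.symm t)
    rw [F.apply_symm_apply] at h3
    rw [h3, f.symm_apply_apply]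
  obtain ⟨c, hc, hb⟩ := bnd hT hM hpj
  have key : ∀ (G : T → T) (g : M → M), ContMDiff 𝓘(ℝ, V n) 𝓘(ℝ, V n) 1 G →
      ContMDiff 𝓘(ℝ, V d) 𝓘(ℝ, V d) 1 g → (∀ t, pj (G t) = g (pj t)) →
      (∀ k : ℕ, NmT (tangentMap 𝓘(ℝ, V n) 𝓘(ℝ, V n) (G^[k]) ⟨t, v⟩) ≤ B) → ∀ k : ℕ,
      NmM (tangentMap 𝓘(ℝ, V d) 𝓘(ℝ, V d) (g^[k])
        ⟨pj t, mfderiv 𝓘(ℝ, V n) 𝓘(ℝ, V d) pj t v⟩) ≤ c * B := by
    intro G g hG hg hGg hGB k
    have hGk := iter_smooth G hG k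
    have hgk := iter_smooth g hg k
    have e1 : pj ∘ G^[k] = g^[k] ∘ pj := funext (proj_iter hGg k)
    have h5 : mfderiv 𝓘(ℝ, V n) 𝓘(ℝ, V d) (pj ∘ G^[k]) t =
        (mfderiv 𝓘(ℝ, V n) 𝓘(ℝ, V d) pj (G^[k] t)).comp
          (mfderiv 𝓘(ℝ, V n) 𝓘(ℝ, V n) (G^[k]) t) :=
      mfderiv_comp t (hpj.mdifferentiableAt (by norm_num)) (hGk.mdifferentiableAt (by norm_num))
    have h6 : mfderiv 𝓘(ℝ, V n) 𝓘(ℝ, V d) (g^[k] ∘ pj) t =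
        (mfderiv 𝓘(ℝ, V d) 𝓘(ℝ, V d) (g^[k]) (pj t)).comp
          (mfderiv 𝓘(ℝ, V n) 𝓘(ℝ, V d) pj t) :=
      mfderiv_comp t (hgk.mdifferentiableAt (by norm_num)) (hpj.mdifferentiableAt (by norm_num))
    have h7 := hb (G^[k] t) (mfderiv 𝓘(ℝ, V n) 𝓘(ℝ, V n) (G^[k]) t v)
    have h8 : NmM (tangentMap 𝓘(ℝ, V d) 𝓘(ℝ, V d) (g^[k])
        ⟨pj t, mfderiv 𝓘(ℝ, V n) 𝓘(ℝ, V d) pj t v⟩) =
        NmM ⟨pj (G^[k] t), mfderiv 𝓘(ℝ, V n) 𝓘(ℝ, V d) pj (G^[k] t)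
          (mfderiv 𝓘(ℝ, V n) 𝓘(ℝ, V n) (G^[k]) t v)⟩ := by
      congr 1
      have h9 : (g^[k]) (pj t) = pj (G^[k] t) := (congrFun e1 t).symm
      have h10 : (mfderiv 𝓘(ℝ, V d) 𝓘(ℝ, V d) (g^[k]) (pj t)
          (mfderiv 𝓘(ℝ, V n) 𝓘(ℝ, V d) pj t v) : V d) =
          (mfderiv 𝓘(ℝ, V n) 𝓘(ℝ, V d) pj (G^[k] t)
          (mfderiv 𝓘(ℝ, V n) 𝓘(ℝ, V n) (G^[k]) t v) : V d) := by
        have h11 : (mfderiv 𝓘(ℝ, V n) 𝓘(ℝ, V d) (pj ∘ G^[k]) t v : V d) =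
            (mfderiv 𝓘(ℝ, V n) 𝓘(ℝ, V d) (g^[k] ∘ pj) t v : V d) := by
          rw [e1]
        rw [h5] at h11
        rw [h6] at h11
        exact h11.symm
      exact Bundle.TotalSpace.ext h9 (heq_of_eq h10)
    rw [h8]
    exact h7.trans (mul_le_mul_of_nonneg_left (hGB k) hc)
  have h3 := key F f hF hf hcomm h1
  have h4 := key F.symm f.symm hF' hf' hcomm' h2
  have h5 := hK (pj t) ht (mfderiv 𝓘(ℝ, V n) 𝓘(ℝ, V d) pj t v) (c * B) h3 h4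
  exact hV t htK v h5 B h1 h2

end Pool.Agent.H20.PT
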