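import Pool.Agent.H20.PT.PowDef
import Pool.Agent.H20.PT.Law
import Pool.Agent.H61.PT.K23

/-!
# Project PT2: products of lists of systems
-/

set_option autoImplicit false
set_option linter.unusedSectionVars false

open scoped Manifold ContDiff Topology
open Filter Set Metric

universe u v w

namespace Pool.Agent.H20.PT

open Pool.Agent.H718R2.G Pool.Agent.TH80.OMS Pool.Agent.Y504.CO Pool.Agent.R773.TE

variable {r : ℕ∞}

/-- `F = y × (x × Y)` is `x × (y × Y)`. -/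
theorem Sys.IsProduct.rot {x y Y Y₁ Z F : Sys.{u} r} (h1 : y.IsProduct Y₁ F)
    (h2 : x.IsProduct Y Y₁) (h3 : y.IsProduct Y Z) : x.IsProduct Z F := by
  obtain ⟨Θ₁, h1⟩ := h1
  obtain ⟨Θ₂, h2⟩ := h2
  obtain ⟨Θ₃, h3⟩ := h3
  have s1 : ContMDiff ((𝓡 x.dim).prod (𝓡 Z.dim)) ((𝓡 y.dim).prod (𝓡 Y.dim)) ∞
      (fun p : x.pt × Z.pt => Θ₃.symm p.2) := Θ₃.symm.contMDiff.comp contMDiff_snd
  have s2 : ContMDiff ((𝓡 x.dim).prod (𝓡 Z.dim)) (𝓡 Y₁.dim) ∞
      (fun p : x.pt × Z.pt => Θ₂ (p.1, (Θ₃.symm p.2).2)) :=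
    Θ₂.contMDiff.comp (contMDiff_fst.prodMk (contMDiff_snd.comp s1))
  have s3 : ContMDiff (𝓡 F.dim) ((𝓡 y.dim).prod (𝓡 Y₁.dim)) ∞ (fun t : F.pt => Θ₁.symm t) :=
    Θ₁.symm.contMDiff
  have s4 : ContMDiff (𝓡 F.dim) ((𝓡 x.dim).prod (𝓡 Y.dim)) ∞
      (fun t : F.pt => Θ₂.symm (Θ₁.symm t).2) := Θ₂.symm.contMDiff.comp (contMDiff_snd.comp s3)
  have s5 : ContMDiff (𝓡 F.dim) (𝓡 Z.dim) ∞
      (fun t : F.pt => Θ₃ ((Θ₁.symm t).1, (Θ₂.symm (Θ₁.symm t).2).2)) :=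
    Θ₃.contMDiff.comp ((contMDiff_fst.comp s3).prodMk (contMDiff_snd.comp s4))
  refine ⟨{ toFun := fun p => Θ₁ ((Θ₃.symm p.2).1, Θ₂ (p.1, (Θ₃.symm p.2).2))
            invFun := fun t => ((Θ₂.symm (Θ₁.symm t).2).1,
              Θ₃ ((Θ₁.symm t).1, (Θ₂.symm (Θ₁.symm t).2).2))
            left_inv := fun p => by simp
            right_inv := fun t => by simp
            contMDiff_toFun := Θ₁.contMDiff.comp ((contMDiff_fst.comp s1).prodMk s2)
            contMDiff_invFun := (contMDiff_fst.comp s4).prodMk s5 }, ?_⟩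
  intro a z
  obtain ⟨⟨b, c⟩, hbc⟩ := Θ₃.surjective z
  have hz : z = Θ₃ (b, c) := hbc.symm
  subst hz
  have h3' : Z.map (Θ₃ (b, c)) = Θ₃ (y.map b, Y.map c) := h3 b c
  rw [h3']
  show F.map (Θ₁ ((Θ₃.symm (Θ₃ (b, c))).1, Θ₂ (a, (Θ₃.symm (Θ₃ (b, c))).2))) =
    Θ₁ ((Θ₃.symm (Θ₃ (y.map b, Y.map c))).1, Θ₂ (x.map a, (Θ₃.symm (Θ₃ (y.map b, Y.map c))).2))
  rw [Θ₃.symm_apply_apply, Θ₃.symm_apply_apply, h1, h2]

theorem Sys.IsProdOf.perm (hE : S_EXP.{u}) {l l' : List (Sys.{u} r)} (hl : l.Perm l')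
    {F : Sys.{u} r} (h : Sys.IsProdOf l F) : Sys.IsProdOf l' F := by
  induction hl generalizing F with
  | nil => exact h
  | cons x hp ih =>
    cases h with
    | one => rw [List.nil_perm.1 hp]; exact .one _
    | cons h1 h2 => exact .cons (ih h1) h2
  | swap x y l =>
    cases h with
    | cons h1 h2 =>
      cases h1 with
      | one => exact .cons (.one _) h2.swap
      | cons h3 h4 =>
        obtain ⟨Z, hZ⟩ := hE r y _
        exact .cons (.cons h3 hZ) (h2.rot h4 hZ)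
  | trans _ _ ih1 ih2 => exact ih2 (ih1 h)

theorem Sys.IsProdOf.chainHyp (hr : 1 ≤ r) {l : List (Sys.{u} r)} {F : Sys.{u} r}
    (h : Sys.IsProdOf l F) (hl : ∀ X ∈ l, X.ChainHyp) : F.ChainHyp := by
  induction h with
  | one X => exact hl X (by simp)
  | cons h1 h2 ih =>
    exact Sys.prod_chainHyp hr h2 (hl _ (by simp)) (ih fun X hX => hl X (by simp [hX]))

theorem IsProd.iter {T M N : Type*} {Θ : M × N → T} {F : T → T} {f : M → M} {g : N → N}
    (h : IsProd Θ F f g) (Q : ℕ) : IsProd Θ (F^[Q]) (f^[Q]) (g^[Q]) :=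
  fun x y => Pool.Agent.H61.PT.K23.iter_prod h Q x y

theorem fullShift_one {N : Type v} [TopologicalSpace N] [T1Space N] {g : N → N} {z : N}
    (h : g z = z) : FullShift 1 g :=
  ⟨fun _ => {z}, fun _ => isClosed_singleton, fun a b hab => absurd (Subsingleton.elim a b) hab,
    fun n s _ => ⟨z, Function.iterate_fixed h n, fun j _ => by
      rw [Function.iterate_fixed h j]; rfl⟩⟩

theorem Sys.IsProdOf.fullShift {l : List (Sys.{u} r)} {F : Sys.{u} r} (h : Sys.IsProdOf l F)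
    (Q : ℕ) (k : Sys.{u} r → ℕ) (hl : ∀ X ∈ l, FullShift (k X) (X.map^[Q])) :
    FullShift (l.map k).prod (F.map^[Q]) := by
  induction h with
  | one X => simpa using hl X (by simp)
  | cons h1 h2 ih =>
    obtain ⟨Θ, hΘ⟩ := h2
    rw [List.map_cons, List.prod_cons]
    exact Pool.Agent.H61.PT.K23.k2 _ _ _ Θ.toHomeomorph _ _ _ (hΘ.iter Q) _ _
      (hl _ (by simp)) (ih fun X hX => hl X (by simp [hX]))

theorem clockShift_mono {N : Type v} [TopologicalSpace N] {k k' Q : ℕ} (h : k' ≤ k) {g : N → N}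
    (hg : ClockShift k Q g) : ClockShift k' Q g := by
  obtain ⟨C, D, hC, hd, hD, hCD, hs⟩ := hg
  refine ⟨fun a => C (Fin.castLE h a), D, fun a => hC _, fun a b hab => hd _ _ fun he => hab ?_,
    hD, fun a => hCD _, fun n s hn => ?_⟩
  · exact Fin.castLE_injective h he
  · exact hs n (fun j => Fin.castLE h (s j)) hn

end Pool.Agent.H20.PT
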