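import Pool.Agent.H20.PT.Base

/-!
# The stability conjecture for products of many diffeomorphisms: definitions
-/

set_option autoImplicit false

open scoped Manifold ContDiff Topology

universe u v w

namespace Pool.Agent.H20.PT

variable {r : ℕ∞}

/-- Some iterate of `g` has a full shift on two symbols. -/
def Horseshoe {N : Type v} [TopologicalSpace N] (g : N → N) : Prop :=
  ∃ q : ℕ, 1 ≤ q ∧ FullShift 2 (g^[q])

/-- `Z` is the Cartesian product `X₁ × (X₂ × (⋯ × X_m))` of the list `[X₁, …, X_m]`. -/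
inductive Sys.IsProdOf : List (Sys.{u} r) → Sys.{u} r → Prop
  | one (X : Sys.{u} r) : Sys.IsProdOf [X] X
  | cons {X Y Z : Sys.{u} r} {l : List (Sys.{u} r)} :
      Sys.IsProdOf l Y → X.IsProduct Y Z → Sys.IsProdOf (X :: l) Z

/-- At least `m` members of the list (counted with multiplicity) have horseshoes. -/
def ManyHorseshoes (m : ℕ) (l : List (Sys.{u} r)) : Prop :=
  ∃ l' : List (Sys.{u} r), l'.Sublist l ∧ m ≤ l'.length ∧ ∀ g ∈ l', Horseshoe g.map

/-- If the product of the list is `Ω`-stable (or star) then the product and all members of the list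
satisfy Axiom A and have no cycles. -/
def ProductLaw (l : List (Sys.{u} r)) : Prop :=
  ∀ F : Sys.{u} r, Sys.IsProdOf l F → F.Stable → F.InU3 ∧ ∀ X ∈ l, X.InU3

/-- EXP. Products exist: `Z.pt = X.pt × Y.pt`, `Z.dim = X.dim + Y.dim`, charts
`((chartAt x).prod (chartAt y)) ≫ₕ L` with a linear homeomorphism `L : V d × V e ≃L[ℝ] V (d + e)`; `Θ` is the
identity map. -/
def S_EXP : Prop :=
  ∀ (r : ℕ∞) (X Y : Sys.{u} r), ∃ Z : Sys.{u} r, X.IsProduct Y Z

end Pool.Agent.H20.PT
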