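import Pool.Agent.H20.PT.PowMain
import Pool.Agent.H20.PT.Perm
import Pool.Agent.H20.PT.PertH
import Pool.Agent.H10.PT.Pow
import Pool.Agent.H10.PT.Crp
import Pool.Agent.H10.PT.K1
import Pool.Agent.H10.PT.Exp
import Pool.Agent.H58.PT.K4

/-!
# Project PT2: products of many diffeomorphisms
-/

set_option autoImplicit false
set_option linter.unusedSectionVars false

open scoped Manifold ContDiff Topology
open Filter Set Metric

universe u v w

namespace Pool.Agent.H20.PT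

open Pool.Agent.H718R2.G Pool.Agent.TH80.OMS Pool.Agent.Y504.CO Pool.Agent.R773.TE
open Pool.Agent.H728R2.OS (ChainRec NoCycle)

theorem chainRec_nonempty {X : Type u} [MetricSpace X] [CompactSpace X] [hX : Nonempty X]
    (f : X ≃ₜ X) : (ChainRec f).Nonempty := by
  obtain ⟨x⟩ := hX
  obtain ⟨z, hz⟩ := exists_clusterPt_of_compactSpace (map (fun n : ℕ => f^[n] x) atTop)
  have hfr : ∀ δ > 0, ∀ N, ∃ n ≥ N, dist (f^[n] x) z < δ := by
    intro δ hδ N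
    have h1 : MapClusterPt z atTop (fun n : ℕ => f^[n] x) := hz
    obtain ⟨n, hn, h⟩ := (frequently_atTop.1 (h1.frequently (ball_mem_nhds z hδ))) N
    exact ⟨n, hn, h⟩
  refine ⟨z, fun ε hε => ?_⟩
  obtain ⟨δ, hδ, h1⟩ := Metric.continuousAt_iff.1 (f.continuous.continuousAt (x := z)) ε hε
  obtain ⟨n, -, hn⟩ := hfr δ hδ 0
  obtain ⟨m, hm, hmz⟩ := hfr ε hε (n + 2)
  refine ⟨m - n, fun i => if i = 0 ∨ i = m - n then z else f^[n + i] x, by omega, by simp, by simp,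
    fun i hi => ?_⟩
  have hs : ∀ j, f (f^[n + j] x) = f^[n + (j + 1)] x := fun j => by
    rw [← add_assoc, Function.iterate_succ_apply']
  dsimp only
  by_cases hi0 : i = 0
  · subst hi0
    rw [if_pos (Or.inl rfl), if_neg (by omega), ← hs 0, dist_comm]
    exact h1 hn
  · rw [if_neg (by omega)]
    by_cases hi1 : i + 1 = m - n
    · rw [if_pos (Or.inr hi1), hs, hi1, show n + (m - n) = m by omega]
      exact hmz
    · rw [if_neg (by omega), hs, dist_self]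
      exact hε

variable {r : ℕ∞}

/-- `X` has a periodic point. -/
def Sys.HasPer (X : Sys.{u} r) : Prop := ∃ (p : ℕ) (z : X.pt), 1 ≤ p ∧ X.map^[p] z = z

theorem Sys.InU3.per {X : Sys.{u} r} (h : X.InU3) (hX : Nonempty X.pt) : X.HasPer := by
  obtain ⟨⟨-, h1⟩, -, h2⟩ := h
  obtain ⟨z, hz⟩ := chainRec_nonempty X.map.toHomeomorph
  rw [h2] at hz
  have h3 : (closure (Pool.Agent.H728R2.OS.Per X.map.toHomeomorph)).Nonempty := ⟨z, h1 hz⟩
  rw [closure_nonempty_iff] at h3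
  obtain ⟨y, p, hp, hy⟩ := h3
  exact ⟨p, y, hp, hy⟩

/-- The periods of `X` and the times of its horseshoe divide `c`. -/
def GoodT (X : Sys.{u} r) (c : ℕ) : Prop :=
  (X.HasPer → ∃ z : X.pt, X.map^[c] z = z) ∧ (Horseshoe X.map → FullShift 2 (X.map^[c]))

theorem GoodT.mul {X : Sys.{u} r} {c : ℕ} (h : GoodT X c) {c' : ℕ} (hc : c ∣ c') (hc' : 1 ≤ c') :
    GoodT X c' := by
  obtain ⟨j, rfl⟩ := hc
  have hj : 1 ≤ j := by
    rcases Nat.eq_zero_or_pos j with h0 | h0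
    · subst h0; simp at hc'
    · exact h0
  refine ⟨fun hp => ?_, fun hh => ?_⟩
  · obtain ⟨z, hz⟩ := h.1 hp
    refine ⟨z, ?_⟩
    rw [Function.iterate_mul]
    exact Function.iterate_fixed hz j
  · rw [Function.iterate_mul]
    exact Pool.Agent.H10.PT.main_K1 _ _ _ _ hj (h.2 hh)

theorem exists_good (X : Sys.{u} r) : ∃ c : ℕ, 1 ≤ c ∧ GoodT X c := by
  obtain ⟨a, ha, ha'⟩ : ∃ a : ℕ, 1 ≤ a ∧ (X.HasPer → ∃ z : X.pt, X.map^[a] z = z) := by
    by_cases h : X.HasPer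
    · obtain ⟨p, z, hp, hz⟩ := h
      exact ⟨p, hp, fun _ => ⟨z, hz⟩⟩
    · exact ⟨1, le_rfl, fun h' => absurd h' h⟩
  obtain ⟨b, hb, hb'⟩ : ∃ b : ℕ, 1 ≤ b ∧ (Horseshoe X.map → FullShift 2 (X.map^[b])) := by
    by_cases h : Horseshoe X.map
    · obtain ⟨q, hq, hs⟩ := h
      exact ⟨q, hq, fun _ => hs⟩
    · exact ⟨1, le_rfl, fun h' => absurd h' h⟩
  refine ⟨a * b, Nat.mul_pos ha hb, fun hp => ?_, fun hh => ?_⟩
  · obtain ⟨z, hz⟩ := ha' hp
    refine ⟨z, ?_⟩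
    rw [Function.iterate_mul]
    exact Function.iterate_fixed hz b
  · rw [mul_comm, Function.iterate_mul]
    exact Pool.Agent.H10.PT.main_K1 _ _ _ _ ha (hb' hh)

theorem Sys.factorQ (hr : 2 ≤ r) (X : Sys.{u} r) {Q : ℕ} (hQ : 1 ≤ Q) :
    ∃ k₀ : ℕ, ∀ (Y : Sys.{v} r) (Z : Sys.{w} r), ClockShift k₀ Q Y.map → X.IsProduct Y Z →
      Z.Stable → X.ChainHyp := by
  have hr1 : 1 ≤ r := le_trans (by norm_num) hr
  obtain ⟨k₀, hk⟩ := factorQ_hyp.{u, v, w} PertH.perth Pool.Agent.H10.PT.Pw.main_POW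
    Pool.Agent.H10.PT.Crp.main_CRP hr X.map hQ
  refine ⟨k₀, fun Y Z hY hP hZ => ?_⟩
  obtain ⟨Θ, hΘ⟩ := hP
  exact hk Y.dim Z.dim Y.pt Z.pt Y.map Θ Z.map hY hΘ (Sys.star_of hr1 hZ)

theorem lemC {X g : Sys.{u} r} {l₂ l₁ : List (Sys.{u} r)} {Q k₀ : ℕ} {z : g.pt} (hQ : 1 ≤ Q)
    (hz : Function.minimalPeriod g.map z = Q) (hl₂ : l₂ ≠ [])
    (h2 : ∀ Y ∈ l₂, FullShift 2 (Y.map^[Q])) (h1 : ∀ Y ∈ l₁, ∃ z, Y.map^[Q] z = z)
    (hk : k₀ ≤ 2 ^ l₂.length)
    (hfac : ∀ (Y : Sys.{u} r) (Z : Sys.{u} r), ClockShift k₀ Q Y.map → X.IsProduct Y Z →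
      Z.Stable → X.ChainHyp)
    {F : Sys.{u} r} (hF : Sys.IsProdOf (X :: g :: (l₂ ++ l₁)) F) (hFs : F.Stable) :
    X.ChainHyp := by
  classical
  cases hF with
  | cons hY hP =>
    generalize hl : l₂ ++ l₁ = l at hY
    cases hY with
    | one => exact absurd (List.append_eq_nil_iff.1 hl).1 hl₂
    | cons hY₂ hP₂ =>
      refine hfac _ F ?_ hP hFs
      subst hl
      set k : Sys.{u} r → ℕ := fun X => if FullShift 2 (X.map^[Q]) then 2 else 1 with hkdef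
      have hfs := hY₂.fullShift Q k (fun Y hY => by
        rw [hkdef]
        dsimp only
        split_ifs with hs
        · exact hs
        · rcases List.mem_append.1 hY with h | h
          · exact absurd (h2 Y h) hs
          · obtain ⟨z', hz'⟩ := h1 Y h
            exact fullShift_one hz')
      have e1 : (l₂.map k).prod = 2 ^ l₂.length := by
        rw [List.map_congr_left (g := fun _ => 2) (fun Y hY => by
          rw [hkdef]; dsimp only; rw [if_pos (h2 Y hY)])]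
        simp
      have e2 : 1 ≤ (l₁.map k).prod := by
        refine List.one_le_prod_of_one_le fun a ha => ?_
        obtain ⟨Y, -, rfl⟩ := List.mem_map.1 ha
        rw [hkdef]; dsimp only; split_ifs <;> norm_num
      have e3 : 2 ^ l₂.length ≤ ((l₂ ++ l₁).map k).prod := by
        rw [List.map_append, List.prod_append, e1]
        exact Nat.le_mul_of_pos_right _ e2
      obtain ⟨Θ, hΘ⟩ := hP₂
      exact clockShift_mono hk (Pool.Agent.H61.PT.K23.k3 _ _ _ Θ.toHomeomorph _ _ _ hΘ _ _ z hQ hz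
        (fullShift_mono e3 hfs))

/-- The main theorem. -/
theorem Sys.many (hr : 2 ≤ r) (𝓕 : Set (Sys.{u} r))
    (hfin : 𝓕.Finite) (hper : ∀ X ∈ 𝓕, X.HasPer) (f : Sys.{u} r) (hne : Nonempty f.pt) :
    ∃ m₀ : ℕ, ∀ l l' : List (Sys.{u} r), (∀ X ∈ l, X ∈ 𝓕) → l'.Sublist l → m₀ ≤ l'.length →
      (∀ g ∈ l', Horseshoe g.map) → ∀ F, Sys.IsProdOf (f :: l) F → F.Stable →
      ∀ X ∈ f :: l, X.ChainHyp := by
  classical
  have hE : S_EXP.{u} := Pool.Agent.H10.PT.Exp.main_EXP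
  have hK4 : S_K4.{u} := Pool.Agent.H58.PT.k4
  have hr1 : 1 ≤ r := le_trans (by norm_num) hr
  have hfin' : (insert f 𝓕).Finite := hfin.insert f
  choose c hc1 hc using fun X : Sys.{u} r => exists_good X
  obtain ⟨q, hq1, hq⟩ : ∃ q : ℕ, 1 ≤ q ∧ ∀ X ∈ insert f 𝓕, GoodT X q := by
    refine ⟨∏ X ∈ hfin'.toFinset, c X, Nat.one_le_iff_ne_zero.2
      (Finset.prod_ne_zero_iff.2 fun X _ => Nat.one_le_iff_ne_zero.1 (hc1 X)), fun X hX => ?_⟩
    refine (hc X).mul (Finset.dvd_prod_of_mem c (hfin'.mem_toFinset.2 hX)) ?_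
    exact Nat.one_le_iff_ne_zero.2 (Finset.prod_ne_zero_iff.2 fun X _ => Nat.one_le_iff_ne_zero.1 (hc1 X))
  have hQex : ∀ g : Sys.{u} r, ∃ Q : ℕ, 1 ≤ Q ∧ q ∣ Q ∧ (g ∈ 𝓕 → Horseshoe g.map →
      ∃ z, Function.minimalPeriod g.map z = Q) := by
    intro g
    by_cases h : g ∈ 𝓕 ∧ Horseshoe g.map
    · obtain ⟨z, hz1, hz2⟩ := hK4 g.pt g.map q hq1 ((hq g (mem_insert_of_mem f h.1)).2 h.2)
      exact ⟨_, hz1, hz2, fun _ _ => ⟨z, rfl⟩⟩
    · exact ⟨q, hq1, dvd_rfl, fun h1 h2 => absurd ⟨h1, h2⟩ h⟩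
  choose Q hQ1 hQq hQz using hQex
  have hfacex := fun X g : Sys.{u} r => Sys.factorQ.{u, u, u} hr X (hQ1 g)
  choose k₀ hk₀ using hfacex
  obtain ⟨K, hK⟩ : ∃ K : ℕ, ∀ X ∈ insert f 𝓕, ∀ g ∈ 𝓕, k₀ X g ≤ K := by
    obtain ⟨K, hK⟩ := ((hfin'.prod hfin).image fun p : Sys.{u} r × Sys.{u} r =>
      k₀ p.1 p.2).bddAbove
    exact ⟨K, fun X hX g hg => hK ⟨(X, g), ⟨hX, hg⟩, rfl⟩⟩
  refine ⟨K + 3, fun l l' hl hsub hlen hhs F hF hFs => ?_⟩
  obtain ⟨l₁, hperm⟩ := hsub.exists_perm_append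
  have hF' : Sys.IsProdOf (f :: (l' ++ l₁)) F := hF.perm hE (hperm.cons f)
  have hl'F : ∀ X ∈ l', X ∈ 𝓕 := fun X hX => hl X (hsub.subset hX)
  have hl₁F : ∀ X ∈ l₁, X ∈ 𝓕 := fun X hX => hl X (hperm.mem_iff.2 (List.mem_append_right _ hX))
  -- the general step
  have step : ∀ (X : Sys.{u} r) (a b : List (Sys.{u} r)), X ∈ insert f 𝓕 → K + 2 ≤ a.length →
      (∀ Y ∈ a, Y ∈ 𝓕) → (∀ Y ∈ a, Horseshoe Y.map) →
      (∀ Y ∈ b, Y ∈ insert f 𝓕) → (∀ Y ∈ b, Y.HasPer) → Sys.IsProdOf (X :: (a ++ b)) F →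
      X.ChainHyp := by
    intro X a b hX ha haF hah hbF hbp hp
    obtain ⟨g, a', rfl⟩ : ∃ g a', a = g :: a' := by
      cases a with
      | nil => simp at ha
      | cons g a' => exact ⟨g, a', rfl⟩
    rw [List.length_cons] at ha
    have hgF : g ∈ 𝓕 := haF g (by simp)
    obtain ⟨z, hz⟩ := hQz g hgF (hah g (by simp))
    refine lemC (hQ1 g) hz (l₂ := a') (l₁ := b) ?_ ?_ ?_ ?_ (hk₀ X g) hp hFs
    · intro h0
      rw [h0] at ha
      simp at ha
    · intro Y hY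
      exact ((hq Y (mem_insert_of_mem f (haF Y (by simp [hY])))).mul (hQq g) (hQ1 g)).2
        (hah Y (by simp [hY]))
    · intro Y hY
      exact ((hq Y (hbF Y hY)).mul (hQq g) (hQ1 g)).1 (hbp Y hY)
    · have h1 := hK X hX g hgF
      have h2 : a'.length < 2 ^ a'.length := Nat.lt_two_pow_self
      omega
  have hf : f.ChainHyp := step f l' l₁ (mem_insert f 𝓕) (by omega) hl'F hhs
    (fun Y hY => mem_insert_of_mem f (hl₁F Y hY)) (fun Y hY => hper Y (hl₁F Y hY)) hF'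
  have hfp : f.HasPer := (Sys.u3 hr1 hf).per hne
  intro X hX
  rcases List.mem_cons.1 hX with rfl | hX
  · exact hf
  have hXF : X ∈ 𝓕 := hl X hX
  have hmv : ∀ a b : List (Sys.{u} r), (l' ++ l₁).Perm (X :: (a ++ b)) →
      Sys.IsProdOf (X :: (a ++ (f :: b))) F := by
    intro a b hab
    refine hF'.perm hE ?_
    refine (hab.cons f).trans ((List.Perm.swap X f _).trans (List.Perm.cons X ?_))
    exact List.perm_middle.symm
  rcases List.mem_append.1 (hperm.mem_iff.1 hX) with h | h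
  · obtain ⟨s, t, hst⟩ := List.append_of_mem h
    have hp : l'.Perm (X :: (s ++ t)) := by
      rw [hst]
      exact List.perm_middle
    refine step X (s ++ t) (f :: l₁) (mem_insert_of_mem f hXF) ?_ ?_ ?_ ?_ ?_
      (hmv (s ++ t) l₁ (hp.append_right l₁))
    · have := hp.length_eq
      rw [List.length_cons] at this
      omega
    · exact fun Y hY => hl'F Y (hp.mem_iff.2 (List.mem_cons_of_mem X hY))
    · exact fun Y hY => hhs Y (hp.mem_iff.2 (List.mem_cons_of_mem X hY))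
    · intro Y hY
      rcases List.mem_cons.1 hY with rfl | hY
      · exact mem_insert _ _
      · exact mem_insert_of_mem f (hl₁F Y hY)
    · intro Y hY
      rcases List.mem_cons.1 hY with rfl | hY
      · exact hfp
      · exact hper Y (hl₁F Y hY)
  · obtain ⟨s, t, hst⟩ := List.append_of_mem h
    have hp : l₁.Perm (X :: (s ++ t)) := by
      rw [hst]
      exact List.perm_middle
    have hmem : ∀ Y ∈ s ++ t, Y ∈ 𝓕 := fun Y hY =>
      hl₁F Y (hp.mem_iff.2 (List.mem_cons_of_mem X hY))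
    refine step X l' (f :: (s ++ t)) (mem_insert_of_mem f hXF) (by omega) hl'F hhs ?_ ?_
      (hmv l' (s ++ t) ((hp.append_left l').trans List.perm_middle))
    · intro Y hY
      rcases List.mem_cons.1 hY with rfl | hY
      · exact mem_insert _ _
      · exact mem_insert_of_mem f (hmem Y hY)
    · intro Y hY
      rcases List.mem_cons.1 hY with rfl | hY
      · exact hfp
      · exact hper Y (hmem Y hY)

theorem Sys.many_law (hr : 2 ≤ r) (𝓕 : Set (Sys.{u} r)) (hfin : 𝓕.Finite)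
    (hper : ∀ X ∈ 𝓕, X.HasPer) (f : Sys.{u} r) (hne : Nonempty f.pt) :
    ∃ m₀ : ℕ, ∀ l : List (Sys.{u} r), (∀ X ∈ l, X ∈ 𝓕) → ManyHorseshoes m₀ l →
      ProductLaw (f :: l) := by
  have hr1 : 1 ≤ r := le_trans (by norm_num) hr
  obtain ⟨m₀, hm⟩ := Sys.many hr 𝓕 hfin hper f hne
  refine ⟨m₀, fun l hl hlm F hF hFs => ?_⟩
  obtain ⟨l', hsub, hlen, hhs⟩ := hlm
  have h := hm l l' hl hsub hlen hhs F hF hFs
  exact ⟨Sys.u3 hr1 (hF.chainHyp hr1 h), fun X hX => Sys.u3 hr1 (h X hX)⟩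

theorem ProductLaw.perm {l l' : List (Sys.{u} r)} (h : ProductLaw l) (hp : l.Perm l') :
    ProductLaw l' := fun F hF hFs => by
  obtain ⟨h1, h2⟩ := h F (hF.perm Pool.Agent.H10.PT.Exp.main_EXP hp.symm) hFs
  exact ⟨h1, fun X hX => h2 X (hp.mem_iff.2 hX)⟩

theorem Sys.many_law' (hr : 2 ≤ r) (𝓕 : Set (Sys.{u} r)) (hfin : 𝓕.Finite)
    (hper : ∀ X ∈ 𝓕, X.HasPer) :
    ∃ m₀ : ℕ, ∀ l : List (Sys.{u} r), (∀ X ∈ l, X ∈ 𝓕) → ManyHorseshoes m₀ l →
      ProductLaw l := by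
  classical
  have hex : ∀ f : Sys.{u} r, ∃ m₀ : ℕ, f ∈ 𝓕 → ∀ l : List (Sys.{u} r), (∀ X ∈ l, X ∈ 𝓕) →
      ManyHorseshoes m₀ l → ProductLaw (f :: l) := by
    intro f
    by_cases hf : f ∈ 𝓕
    · obtain ⟨-, z, -, -⟩ := hper f hf
      obtain ⟨m₀, h⟩ := Sys.many_law hr 𝓕 hfin hper f ⟨z⟩
      exact ⟨m₀, fun _ => h⟩
    · exact ⟨0, fun h => absurd h hf⟩
  choose m hm using hex
  obtain ⟨K, hK⟩ := (hfin.image m).bddAbove
  refine ⟨K + 1, fun l hl hlm => ?_⟩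
  obtain ⟨l', hsub, hlen, hhs⟩ := hlm
  obtain ⟨l₁, hperm⟩ := hsub.exists_perm_append
  obtain ⟨g, l'', rfl⟩ : ∃ g l'', l' = g :: l'' := by
    cases l' with
    | nil => simp at hlen
    | cons g l'' => exact ⟨g, l'', rfl⟩
  have hgF : g ∈ 𝓕 := hl g (hsub.subset (by simp))
  have hmK : m g ≤ K := hK ⟨g, hgF, rfl⟩
  refine (hm g hgF (l'' ++ l₁) (fun X hX => hl X (hperm.mem_iff.2 ?_)) ⟨l'', ?_, ?_, ?_⟩).perm
    hperm.symm
  · rw [List.cons_append]
    exact List.mem_cons_of_mem g hX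
  · exact List.sublist_append_left l'' l₁
  · rw [List.length_cons] at hlen
    omega
  · exact fun Y hY => hhs Y (by simp [hY])

end Pool.Agent.H20.PT
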