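import Pool.Agent.H20.PT.SkewAbc
import Pool.Agent.H20.PT.Law
import Pool.Agent.H20.PT.NobxOn

/-!
# Project PT3: skew products over arbitrary diffeomorphisms
-/

set_option autoImplicit false
set_option linter.unusedSectionVars false

open scoped Manifold ContDiff Topology
open Filter Set Metric

universe u v w

namespace Pool.Agent.H20.PT

open Pool.Agent.H718R2.G Pool.Agent.TH80.OMS Pool.Agent.Y504.CO Pool.Agent.R773.TE
open Pool.Agent.H728R2.OS (ChainRec)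
open Pool.Agent.H721R2 (IsTangentNorm)

section

variable {d : ℕ} {M : Type u} [MetricSpace M] [CompactSpace M] [ChartedSpace (V d) M]
    [IsManifold (𝓡 d) ∞ M] {r : ℕ∞}

/-- No nonzero vector at a chain recurrent point has a bounded orbit. -/
def NoBM (f : M ≃ₜ M) : Prop :=
  haveI : IsManifold 𝓘(ℝ, V d) 1 M := IsManifold.of_le (m := 1) (n := ∞) (by simp)
  ∀ Nm : TangentBundle 𝓘(ℝ, V d) M → ℝ, IsTangentNorm Nm → NoB f (ChainRec f) Nm

/-- The factor theorem for skew products. -/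
theorem skew_hyp (hCLO2 : S_CLO2.{u, v, w}) (hr : 2 ≤ r) (f : DiffM d M r) :
    ∃ k₀ : ℕ, ∀ (e n : ℕ) (N : Type v) [TopologicalSpace N] [T2Space N] [CompactSpace N]
      [ChartedSpace (V e) N] [IsManifold (𝓡 e) ∞ N]
      (T : Type w) [TopologicalSpace T] [T2Space T] [CompactSpace T]
      [ChartedSpace (V n) T] [IsManifold (𝓡 n) ∞ T] (S : M → N → N) (Θ : ProdDiff n d e T M N)
      (F : DiffM n T r), FibreShift k₀ S → IsSkew Θ F f S → Star n T r F →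
      ChainHypM (d := d) f.toHomeomorph ∧ NoBM (d := d) f.toHomeomorph := by
  have : IsManifold 𝓘(ℝ, V d) 1 M := IsManifold.of_le (m := 1) (n := ∞) (by simp)
  have hr1 : (1 : WithTop ℕ∞) ≤ (r : WithTop ℕ∞) := by
    exact_mod_cast (le_trans (by norm_num) hr : (1 : ℕ∞) ≤ r)
  obtain ⟨𝒜⟩ := hATL.{u} d M
  obtain ⟨L, δ, hL⟩ := hLOC.{u} d M r f 𝒜 hr
  obtain ⟨k₀, hk⟩ := abcS.{u, v, w} hCTL hNET hPERTG hCLO2 hr 𝒜 f hL
  refine ⟨k₀, fun e n N _ _ _ _ _ T _ _ _ _ _ S Θ F hS hP hF => ?_⟩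
  obtain ⟨κ, hκ, hκ2, hNC⟩ := hk e n N T S Θ F hS hP hF
  refine ⟨hyp_of_noChain hDICH hNB hG1 hG2 hCRI hNM hE1 hE2 hCS 𝒜 f.toHomeomorph
    (f.contMDiff.of_le hr1) (f.symm.contMDiff.of_le hr1) hL hκ hκ2 hNC, fun Nm hNm => ?_⟩
  exact (split_of_noChain hDICH hNB hG1 hG2 hCRI hE2 hCS 𝒜 f.toHomeomorph
    (f.contMDiff.of_le hr1) (f.symm.contMDiff.of_le hr1) hL hκ hκ2 hNC Nm hNm).2

/-- chains of a skew product project to chains -/
theorem chain_skew {N : Type v} [TopologicalSpace N] {T : Type w} [MetricSpace T]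
    [CompactSpace T] (Θ : M × N ≃ₜ T) (f : M ≃ₜ M) (S : M → N → N) (F : T ≃ₜ T)
    (hP : IsSkew Θ F f S) : ChainRec F ⊆ {t | (Θ.symm t).1 ∈ ChainRec f} := by
  intro z hz
  have huc : UniformContinuous (fun t : T => (Θ.symm t).1) :=
    CompactSpace.uniformContinuous_of_continuous (continuous_fst.comp Θ.symm.continuous)
  intro ε hε
  obtain ⟨δ, hδ, h⟩ := Metric.uniformContinuous_iff.1 huc ε hε
  obtain ⟨n, c, hn, h0, h1, hc⟩ := hz δ hδ
  refine ⟨n, fun i => (Θ.symm (c i)).1, hn, by simp only [h0], by simp only [h1], fun i hi => ?_⟩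
  have h2 := h (hc i hi)
  have hF : (Θ.symm (F (c i))).1 = f (Θ.symm (c i)).1 := by
    obtain ⟨⟨x, y⟩, hxy⟩ := Θ.surjective (c i)
    rw [← hxy, hP x y, Θ.symm_apply_apply, Θ.symm_apply_apply]
  rw [hF] at h2
  exact h2

/-- Extensions of diffeomorphisms with hyperbolic chain recurrent sets. -/
theorem ext_hyp (hSS : S_SS.{w}) {e n : ℕ} {N : Type v}
    [TopologicalSpace N] [T2Space N] [CompactSpace N] [ChartedSpace (V e) N]
    [IsManifold (𝓡 e) ∞ N] {T : Type w} [MetricSpace T] [CompactSpace T]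
    [ChartedSpace (V n) T] [IsManifold (𝓡 n) ∞ T] [IsManifold 𝓘(ℝ, V n) 1 T]
    (hr : 2 ≤ r) (f : DiffM d M r) (S : M → N → N) (Θ : ProdDiff n d e T M N) (F : DiffM n T r)
    (hP : IsSkew Θ F f S) (hf : NoBM (d := d) f.toHomeomorph)
    {Nm : TangentBundle 𝓘(ℝ, V n) T → ℝ} (hNm : IsTangentNorm Nm)
    (hV : VertUnbOn Θ F.toHomeomorph Nm (ChainRec F.toHomeomorph)) : ChainHypM (d := n) F.toHomeomorph := by
  have i1 : IsManifold 𝓘(ℝ, V d) 1 M := IsManifold.of_le (m := 1) (n := ∞) (by simp)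
  have hr1 : (1 : WithTop ℕ∞) ≤ (r : WithTop ℕ∞) := by
    exact_mod_cast (le_trans (by norm_num) hr : (1 : ℕ∞) ≤ r)
  obtain ⟨NmM, hNmM⟩ := hNM d M
  have h2 : NoB F.toHomeomorph (ChainRec F.toHomeomorph) Nm :=
    nobx_on Θ f.toHomeomorph F.toHomeomorph S (f.contMDiff.of_le hr1)
    (f.symm.contMDiff.of_le hr1) (F.contMDiff.of_le hr1) (F.symm.contMDiff.of_le hr1) hP
    hNmM hNm (ChainRec f.toHomeomorph) (ChainRec F.toHomeomorph)
    (chain_skew Θ.toHomeomorph f.toHomeomorph S F.toHomeomorph hP) (hf NmM hNmM) hV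
  obtain ⟨𝒜⟩ := hATL.{w} n T
  obtain ⟨L, δ, hL⟩ := hLOC.{w} n T r F 𝒜 hr
  obtain ⟨κ, hκ, hκ2, hNC⟩ := hSS n T 𝒜 F.toHomeomorph (F.contMDiff.of_le hr1)
    (F.symm.contMDiff.of_le hr1) Nm hNm h2
  exact hyp_of_noChain hDICH hNB hG1 hG2 hCRI hNM hE1 hE2 hCS 𝒜 F.toHomeomorph
    (F.contMDiff.of_le hr1) (F.symm.contMDiff.of_le hr1) hL hκ hκ2 hNC

end

end Pool.Agent.H20.PT
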