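import Pool.Agent.H20.PT.Main

/-!
# Project PT: products of two diffeomorphisms with many symbols; toral automorphisms
-/

set_option autoImplicit false
set_option linter.unusedSectionVars false

open scoped Manifold ContDiff Topology
open Filter Set Metric

universe u v w

namespace Pool.Agent.H20.PT

open Pool.Agent.H718R2.G Pool.Agent.TH80.OMS Pool.Agent.Y504.CO Pool.Agent.R773.TE
open Pool.Agent.H728R2.OS (ChainRec NoCycle)

theorem fullShift_mono {N : Type v} [TopologicalSpace N] {k k' : ℕ} (h : k' ≤ k) {g : N → N}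
    (hg : FullShift k g) : FullShift k' g := by
  obtain ⟨C, hC, hd, hs⟩ := hg
  refine ⟨fun a => C (Fin.castLE h a), fun a => hC _, fun a b hab => hd _ _ fun he => hab ?_,
    fun n s hn => ?_⟩
  · exact Fin.castLE_injective h he
  · exact hs n (fun j => Fin.castLE h (s j)) hn

variable {d e n : ℕ} {M : Type u} [MetricSpace M] [CompactSpace M] [ChartedSpace (V d) M]
    [IsManifold (𝓡 d) ∞ M] {r : ℕ∞} {N : Type v} [MetricSpace N] [CompactSpace N]
    [ChartedSpace (V e) N] [IsManifold (𝓡 e) ∞ N] {T : Type w} [MetricSpace T] [CompactSpace T]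
    [ChartedSpace (V n) T] [IsManifold (𝓡 n) ∞ T]

/-- swap the factors -/
theorem prod_swap (f : DiffM d M r) (g : DiffM e N r) (Θ : ProdDiff n d e T M N)
    (F : DiffM n T r) (hP : IsProd Θ F f g) :
    ∃ Θ' : ProdDiff n e d T N M, IsProd Θ' F g f :=
  ⟨(Diffeomorph.prodComm (𝓡 e) (𝓡 d) N M ∞).trans Θ, fun y x => hP x y⟩

theorem two_factors (hr : 2 ≤ r) (f : DiffM d M r) (g : DiffM e N r) :
    ∃ k : ℕ, FullShift k f → FullShift k g → ∀ (n : ℕ) (T : Type w) [MetricSpace T]
      [CompactSpace T] [ChartedSpace (V n) T] [IsManifold (𝓡 n) ∞ T] (Θ : ProdDiff n d e T M N)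
      (F : DiffM n T r), IsProd Θ F f g → Star n T r F →
      InU3 (d := n) F.toHomeomorph := by
  have hr1 : 1 ≤ r := le_trans (by norm_num) hr
  obtain ⟨k₁, h₁⟩ := factor_hyp.{u, v, w} hr f
  obtain ⟨k₂, h₂⟩ := factor_hyp.{v, u, w} hr g
  refine ⟨max k₁ k₂, fun hf hg n T _ _ _ _ Θ F hP hF => ?_⟩
  have hfh := h₁ e n N T g Θ F (fullShift_mono (le_max_left _ _) hg) hP hF
  obtain ⟨Θ', hP'⟩ := prod_swap f g Θ F hP
  have hgh := h₂ d n M T f Θ' F (fullShift_mono (le_max_right _ _) hf) hP' hF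
  exact u3_of_hyp hr1 F (prod_hyp hr1 f g Θ F hP hfh hgh)

end Pool.Agent.H20.PT
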