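import Pool.Agent.H20.PT.SkewDef

/-!
# Vertical vectors with bounded orbits
-/

set_option autoImplicit false

open scoped Manifold ContDiff Topology

universe u v w

namespace Pool.Agent.H20.PT

open Pool.Agent.H718R2.G Pool.Agent.R773.TE
open Pool.Agent.H721R2 (IsTangentNorm)

variable {r : ℕ∞}

/-- The tangent bundle of the manifold of `F`. -/
abbrev Sys.TB (F : Sys.{u} r) := TangentBundle 𝓘(ℝ, V F.dim) F.pt

/-- The size of the image of the tangent vector `p` under the map `G`. -/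
noncomputable def Sys.size (F : Sys.{u} r) (Nm : F.TB → ℝ) (G : F.pt → F.pt) (p : F.TB) : ℝ :=
  Nm (tangentMap 𝓘(ℝ, V F.dim) 𝓘(ℝ, V F.dim) G p)

/-- The tangent vector `p` is tangent to a fibre. -/
def Sys.Vertical {f : Sys.{u} r} {N : Mfd.{v}} {F : Sys.{w} r} (Θ : f.Coord N F) (p : F.TB) :
    Prop :=
  mfderiv 𝓘(ℝ, V F.dim) 𝓘(ℝ, V f.dim) (fun t => (Θ.symm t).1) p.1 p.2 = 0

/-- Nonzero vectors tangent to the fibres at chain recurrent points of `F` have unbounded orbits. -/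
def Sys.VertExp {f : Sys.{u} r} {N : Mfd.{v}} {F : Sys.{w} r} (Θ : f.Coord N F) : Prop :=
  ∃ Nm : F.TB → ℝ, (have := F.man1; IsTangentNorm Nm) ∧ ∀ p : F.TB,
    p.1 ∈ Pool.Agent.H728R2.OS.ChainRec F.map.toHomeomorph → Sys.Vertical Θ p →
    (∃ B : ℝ, ∀ k : ℕ, F.size Nm (F.map^[k]) p ≤ B ∧ F.size Nm (F.map.symm^[k]) p ≤ B) →
    Nm p = 0

end Pool.Agent.H20.PT
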