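import Pool.Agent.H20.PT.ConjPow

/-!
# Skew products: coordinates, bounded orbits of vectors tangent to the fibres
-/

set_option autoImplicit false

open scoped Manifold ContDiff Topology

universe u v w

namespace Pool.Agent.H20.PT

open Pool.Agent.H718R2.G Pool.Agent.R773.TE
open Pool.Agent.H721R2 (IsTangentNorm)

variable {r : ℕ∞}

/-- The manifold of `g`. -/
abbrev Sys.mfd (g : Sys.{v} r) : Mfd.{v} where
  dim := g.dim
  pt := g.pt

/-- The coordinates, as a map `M × N → T`. -/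
noncomputable def Sys.cfn {f : Sys.{u} r} {N : Mfd.{v}} {F : Sys.{w} r} (Θ : f.Coord N F) :
    f.pt × N.pt → F.pt := Θ

/-- The tangent bundle of the manifold of `F`. -/
abbrev Sys.TBd (F : Sys.{u} r) := TangentBundle 𝓘(ℝ, V F.dim) F.pt

/-- The derivative of the map `G`. -/
noncomputable def Sys.tan (F : Sys.{u} r) (G : F.pt → F.pt) : F.TBd → F.TBd :=
  tangentMap 𝓘(ℝ, V F.dim) 𝓘(ℝ, V F.dim) G

/-- The full orbit of the tangent vector `p` is bounded (in the norm `Nm`): the images and preimages of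
`p` under the derivatives of the powers of `F` are bounded. -/
def Sys.BddOrb (F : Sys.{u} r) (Nm : F.TBd → ℝ) (p : F.TBd) : Prop :=
  ∃ B : ℝ, ∀ k : ℕ, Nm (F.tan F.fn^[k] p) ≤ B ∧ ∃ q, F.tan F.fn^[k] q = p ∧ Nm q ≤ B

/-- `Nm` is a norm of the tangent bundle. -/
def Sys.IsTN (F : Sys.{u} r) (Nm : F.TBd → ℝ) : Prop :=
  have := F.man1
  IsTangentNorm Nm

/-- The vector tangent to the fibre over `x`, at the point with coordinates `(x, y)`, which is the image
of the tangent vector `b` of `N` at `y`. -/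
noncomputable def Sys.vert {f : Sys.{u} r} {N : Mfd.{v}} {F : Sys.{w} r} (Θ : f.Coord N F)
    (x : f.pt) (y : N.pt) (b : V N.dim) : F.TBd :=
  tangentMap 𝓘(ℝ, V N.dim) 𝓘(ℝ, V F.dim) (fun y => Sys.cfn Θ (x, y)) ⟨y, b⟩

/-- The chain recurrent set. -/
def Sys.CR (F : Sys.{u} r) : Set F.pt := Pool.Agent.H728R2.OS.ChainRec F.map.toHomeomorph

/-- Nonzero vectors tangent to the fibres at chain recurrent points of `F` have unbounded orbits. -/
def Sys.VertExp {f : Sys.{u} r} {N : Mfd.{v}} {F : Sys.{w} r} (Θ : f.Coord N F) : Prop :=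
  ∃ Nm : F.TBd → ℝ, F.IsTN Nm ∧ ∀ (x : f.pt) (y : N.pt) (b : V N.dim),
    Sys.cfn Θ (x, y) ∈ F.CR → F.BddOrb Nm (Sys.vert Θ x y b) → b = 0

end Pool.Agent.H20.PT
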