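import Pool.Agent.H20.PT.VertDef
import Pool.Agent.H20.PT.SkewLaw

/-!
# Vertical vectors with bounded orbits
-/

set_option autoImplicit false
set_option linter.unusedSectionVars false

open scoped Manifold ContDiff Topology

universe u v w

namespace Pool.Agent.H20.PT

open Pool.Agent.H718R2.G Pool.Agent.R773.TE
open Pool.Agent.H721R2 (IsTangentNorm)

variable {r : ℕ∞}

theorem Sys.VertExp.unbd {f : Sys.{u} r} {N : Mfd.{v}} {F : Sys.{w} r} {Θ : f.Coord N F}
    (h : Sys.VertExp Θ) : Sys.VertUnbd Θ := by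
  have i1 := F.man1
  obtain ⟨Nm, hNm, h⟩ := h
  refine ⟨Nm, hNm, fun t ht v hv B h1 h2 => ?_⟩
  by_contra hv0
  have h3 := hNm.pos t v hv0
  have h4 := h ⟨t, v⟩ ht hv ⟨B, fun k => ⟨h1 k, h2 k⟩⟩
  exact h3.ne' h4

end Pool.Agent.H20.PT
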